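/-
Affine Bezout inequality in the plane over a field, by dimension counting.
-/
import Mathlib

open Finset MvPolynomial

namespace Pool.Agent.E07280

variable {K : Type} [Field K]

/-- polynomials of total degree at most `m` in two variables -/
noncomputable abbrev PV (K : Type) [Field K] (m : ℕ) : Submodule K (MvPolynomial (Fin 2) K) :=
  restrictTotalDegree (Fin 2) K m

/-- evaluation at a point of the plane -/
noncomputable def evp (P : K × K) : MvPolynomial (Fin 2) K →ₐ[K] K := aeval ![P.1, P.2]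

theorem card_pairs (m : ℕ) :
    2 * #((range (m + 1) ×ˢ range (m + 1)).filter fun x : ℕ × ℕ => x.1 + x.2 ≤ m) =
      (m + 1) * (m + 2) := by
  have h : #((range (m + 1) ×ˢ range (m + 1)).filter fun x : ℕ × ℕ => x.1 + x.2 ≤ m) =
      ∑ k ∈ range (m + 1), (k + 1) := by
    rw [Finset.card_eq_sum_card_fiberwise (f := fun x : ℕ × ℕ => x.1 + x.2) (t := range (m + 1))]
    · refine Finset.sum_congr rfl fun k hk => ?_
      rw [← Finset.Nat.card_antidiagonal k]
      congr 1
      ext ⟨a, b⟩
      simp only [mem_filter, mem_product, mem_range, HasAntidiagonal.mem_antidiagonal] at hk ⊢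
      omega
    · intro x hx
      simp only [coe_filter, mem_product, mem_range, Set.mem_ofPred_eq, coe_range, Set.mem_Iio]
        at hx ⊢
      omega
  rw [h, Finset.sum_add_distrib, mul_add, mul_comm 2, Finset.sum_range_id_mul_two]
  simp
  ring

theorem finrank_PV (m : ℕ) : 2 * Module.finrank K (PV K m) = (m + 1) * (m + 2) := by
  rw [← card_pairs m]
  congr 1
  have h1 : Module.finrank K (PV K m) =
      Nat.card {n : Fin 2 →₀ ℕ | (n.sum fun _ e => e) ≤ m} :=
    Module.finrank_eq_nat_card_basis (basisRestrictSupport K _)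
  rw [h1, ← Nat.card_eq_finsetCard]
  refine Nat.card_congr ?_
  refine Equiv.subtypeEquiv (Finsupp.equivFunOnFinite.trans (finTwoArrowEquiv ℕ)) ?_
  intro n
  have e1 : (Finsupp.equivFunOnFinite.trans (finTwoArrowEquiv ℕ)) n = (n 0, n 1) := rfl
  rw [e1]
  simp only [Set.mem_ofPred_eq, mem_filter, mem_product, mem_range]
  rw [Finsupp.sum_fintype _ _ (fun _ => rfl)]
  simp only [Fin.sum_univ_two]
  omega

theorem finrank_PV_mono (m : ℕ) : 0 < Module.finrank K (PV K m) := by
  have := finrank_PV (K := K) m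
  have h2 : 0 < (m + 1) * (m + 2) := by positivity
  omega

/-- a linear polynomial vanishing at `Q` and not at `P` -/
theorem exists_linear (P Q : K × K) (h : P ≠ Q) :
    ∃ l : MvPolynomial (Fin 2) K, l.totalDegree ≤ 1 ∧ evp Q l = 0 ∧ evp P l ≠ 0 := by
  by_cases h1 : P.1 = Q.1
  · have h2 : P.2 ≠ Q.2 := fun h2 => h (Prod.ext h1 h2)
    refine ⟨X 1 - C Q.2, ?_, ?_, ?_⟩
    · refine (totalDegree_sub _ _).trans ?_
      simp
    · simp [evp]
    · simp [evp, sub_ne_zero, h2]
  · refine ⟨X 0 - C Q.1, ?_, ?_, ?_⟩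
    · refine (totalDegree_sub _ _).trans ?_
      simp
    · simp [evp]
    · simp [evp, sub_ne_zero, h1]

/-- a product of linear polynomials vanishing on `Γ` and not at `P` -/
theorem exists_prod_linear (P : K × K) (Γ : Finset (K × K)) (h : P ∉ Γ) :
    ∃ g : MvPolynomial (Fin 2) K, g.totalDegree ≤ #Γ ∧ (∀ Q ∈ Γ, evp Q g = 0) ∧ evp P g ≠ 0 := by
  classical
  induction Γ using Finset.induction_on with
  | empty => exact ⟨1, by simp, by simp, by simp⟩
  | insert Q Γ hQ ih =>
    obtain ⟨g, hg1, hg2, hg3⟩ := ih fun h' => h (mem_insert_of_mem h')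
    obtain ⟨l, hl1, hl2, hl3⟩ := exists_linear P Q fun h' => h (h' ▸ mem_insert_self _ _)
    refine ⟨l * g, ?_, ?_, ?_⟩
    · refine (totalDegree_mul _ _).trans ?_
      rw [card_insert_of_notMem hQ]
      omega
    · intro R hR
      rw [map_mul]
      rcases mem_insert.1 hR with rfl | hR
      · rw [hl2, zero_mul]
      · rw [hg2 R hR, mul_zero]
    · rw [map_mul]
      exact mul_ne_zero hl3 hg3

/-- interpolation -/
theorem exists_interpolate (Γ : Finset (K × K)) (m : ℕ) (hm : #Γ ≤ m + 1) (v : K × K → K) :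
    ∃ f : MvPolynomial (Fin 2) K, f.totalDegree ≤ m ∧ ∀ P ∈ Γ, evp P f = v P := by
  classical
  have h : ∀ P : K × K, ∃ g : MvPolynomial (Fin 2) K, P ∈ Γ → g.totalDegree ≤ m ∧
      (∀ Q ∈ Γ, Q ≠ P → evp Q g = 0) ∧ evp P g = 1 := by
    intro P
    by_cases hP : P ∈ Γ
    · obtain ⟨g, hg1, hg2, hg3⟩ := exists_prod_linear P (Γ.erase P) (notMem_erase _ _)
      refine ⟨(evp P g)⁻¹ • g, fun _ => ⟨?_, ?_, ?_⟩⟩
      · refine (totalDegree_smul_le _ _).trans (hg1.trans ?_)
        rw [card_erase_of_mem hP]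
        omega
      · intro Q hQ hQP
        rw [map_smul, hg2 Q (mem_erase.2 ⟨hQP, hQ⟩), smul_zero]
      · rw [map_smul, smul_eq_mul, inv_mul_cancel₀ hg3]
    · exact ⟨0, fun h => absurd h hP⟩
  choose g hg using h
  refine ⟨∑ P ∈ Γ, v P • g P, ?_, ?_⟩
  · refine totalDegree_finsetSum_le fun P hP => ?_
    exact (totalDegree_smul_le _ _).trans (hg P hP).1
  · intro P hP
    rw [map_sum, Finset.sum_eq_single P]
    · rw [map_smul, (hg P hP).2.2, smul_eq_mul, mul_one]
    · intro Q hQ hQP
      rw [map_smul, (hg Q hQ).2.1 P hP hQP.symm, smul_zero]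
    · exact fun h => absurd hP h

/-- the evaluation map on `Γ` -/
noncomputable def evG (m : ℕ) (Γ : Finset (K × K)) : PV K m →ₗ[K] (Γ → K) :=
  LinearMap.pi fun P => (evp P.1).toLinearMap ∘ₗ (PV K m).subtype

theorem evG_surjective (m : ℕ) (Γ : Finset (K × K)) (hm : #Γ ≤ m + 1) :
    Function.Surjective (evG m Γ) := by
  classical
  intro v
  obtain ⟨f, hf1, hf2⟩ := exists_interpolate Γ m hm fun P => if h : P ∈ Γ then v ⟨P, h⟩ else 0
  refine ⟨⟨f, (mem_restrictTotalDegree _ _ _).2 hf1⟩, ?_⟩
  ext P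
  have := hf2 P.1 P.2
  simp only [P.2, dite_true] at this
  exact this

theorem finrank_ker_evG (m : ℕ) (Γ : Finset (K × K)) (hm : #Γ ≤ m + 1) :
    Module.finrank K (LinearMap.ker (evG m Γ)) + #Γ = Module.finrank K (PV K m) := by
  have h := LinearMap.finrank_range_add_finrank_ker (evG m Γ)
  rw [LinearMap.range_eq_top.2 (evG_surjective m Γ hm), finrank_top] at h
  rw [Module.finrank_fintype_fun_eq_card, Fintype.card_coe] at h
  omega

theorem finrank_ker_evG_ge (m : ℕ) (Γ : Finset (K × K)) :
    Module.finrank K (PV K m) ≤ Module.finrank K (LinearMap.ker (evG m Γ)) + #Γ := by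
  have h := LinearMap.finrank_range_add_finrank_ker (evG m Γ)
  have h2 : Module.finrank K (LinearMap.range (evG m Γ)) ≤ #Γ := by
    refine (Submodule.finrank_le _).trans ?_
    rw [Module.finrank_fintype_fun_eq_card, Fintype.card_coe]
  omega

/-- **Affine Bezout inequality.** -/
theorem bezout {f g : MvPolynomial (Fin 2) K} (hg : g ≠ 0) (hfg : IsRelPrime f g)
    (Γ : Finset (K × K)) (h1 : ∀ P ∈ Γ, evp P f = 0) (h2 : ∀ P ∈ Γ, evp P g = 0) :
    #Γ ≤ f.totalDegree * g.totalDegree := by
  classical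
  set a := f.totalDegree with ha
  set b := g.totalDegree with hb
  set k := #Γ with hk
  -- m = a + b + k
  have hmul : ∀ {u v : MvPolynomial (Fin 2) K}, (u * v).totalDegree ≤ u.totalDegree + v.totalDegree :=
    fun {u v} => totalDegree_mul u v
  let φ : (PV K (b + k)) × (PV K (a + k)) →ₗ[K] PV K (a + b + k) :=
    LinearMap.codRestrict (PV K (a + b + k))
      (LinearMap.coprod ((LinearMap.mulLeft K f) ∘ₗ (PV K (b + k)).subtype)
        ((LinearMap.mulLeft K g) ∘ₗ (PV K (a + k)).subtype)) (by
      rintro ⟨⟨u, hu⟩, ⟨v, hv⟩⟩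
      rw [mem_restrictTotalDegree] at hu hv ⊢
      simp only [LinearMap.coprod_apply, LinearMap.comp_apply, Submodule.subtype_apply,
        LinearMap.mulLeft_apply]
      refine (totalDegree_add _ _).trans (max_le ?_ ?_)
      · refine hmul.trans ?_
        omega
      · refine hmul.trans ?_
        omega)
  have hφ : ∀ x, ((φ x : PV K (a + b + k)) : MvPolynomial (Fin 2) K) = f * x.1 + g * x.2 :=
    fun x => rfl
  have hrange : LinearMap.range φ ≤ LinearMap.ker (evG (a + b + k) Γ) := by
    rintro _ ⟨x, rfl⟩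
    rw [LinearMap.mem_ker]
    ext P
    change evp P.1 (φ x : MvPolynomial (Fin 2) K) = 0
    rw [hφ, map_add, map_mul, map_mul, h1 P.1 P.2, h2 P.1 P.2]
    simp
  -- the kernel of `φ`
  let θ : PV K k →ₗ[K] (PV K (b + k)) × (PV K (a + k)) :=
    LinearMap.prod
      (LinearMap.codRestrict (PV K (b + k)) ((LinearMap.mulLeft K g) ∘ₗ (PV K k).subtype) (by
        rintro ⟨u, hu⟩
        rw [mem_restrictTotalDegree] at hu ⊢
        simp only [LinearMap.comp_apply, Submodule.subtype_apply, LinearMap.mulLeft_apply]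
        refine hmul.trans ?_
        omega))
      (LinearMap.codRestrict (PV K (a + k)) (-((LinearMap.mulLeft K f) ∘ₗ (PV K k).subtype)) (by
        rintro ⟨u, hu⟩
        rw [mem_restrictTotalDegree] at hu ⊢
        simp only [LinearMap.neg_apply, LinearMap.comp_apply, Submodule.subtype_apply,
          LinearMap.mulLeft_apply, totalDegree_neg]
        refine hmul.trans ?_
        omega))
  have hker : LinearMap.ker φ ≤ LinearMap.range θ := by
    rintro ⟨⟨u, hu⟩, ⟨v, hv⟩⟩ hx
    rw [LinearMap.mem_ker] at hx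
    have hx' : f * u + g * v = 0 := congrArg Subtype.val hx
    have hdvd : g ∣ f * u := ⟨-v, by linear_combination hx'⟩
    have hgu : g ∣ u := hfg.symm.dvd_of_dvd_mul_left hdvd
    obtain ⟨w, rfl⟩ := hgu
    have hv' : v = -(f * w) := by
      have : g * (v + f * w) = 0 := by linear_combination hx'
      rcases mul_eq_zero.1 this with h | h
      · exact absurd h hg
      · linear_combination h
    have hw : w ∈ PV K k := by
      rw [mem_restrictTotalDegree] at hu ⊢
      by_cases hw0 : w = 0
      · rw [hw0]; simp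
      · rw [totalDegree_mul_of_isDomain hg hw0] at hu
        omega
    refine ⟨⟨w, hw⟩, ?_⟩
    refine Prod.ext (Subtype.ext rfl) (Subtype.ext ?_)
    exact hv'.symm
  have e1 := LinearMap.finrank_range_add_finrank_ker φ
  rw [Module.finrank_prod] at e1
  have e2 : Module.finrank K (LinearMap.range φ) ≤
      Module.finrank K (LinearMap.ker (evG (a + b + k) Γ)) := Submodule.finrank_mono hrange
  have e3 : Module.finrank K (LinearMap.ker φ) ≤ Module.finrank K (PV K k) :=
    (Submodule.finrank_mono hker).trans (LinearMap.finrank_range_le θ)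
  have e4 := finrank_ker_evG (a + b + k) Γ (by omega)
  have f1 := finrank_PV (K := K) (a + b + k)
  have f2 := finrank_PV (K := K) (a + k)
  have f3 := finrank_PV (K := K) (b + k)
  have f4 := finrank_PV (K := K) k
  have key : 2 * k + ((b + k + 1) * (b + k + 2) + (a + k + 1) * (a + k + 2)) ≤
      (a + b + k + 1) * (a + b + k + 2) + (k + 1) * (k + 2) := by omega
  nlinarith [key]

end Pool.Agent.E07280
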