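/-
RatFun: families of rationals indexed by primes, given at all primes `p ≥ 17` by one rational
function of `p` with no pole at these primes.
-/
import Mathlib

open Polynomial

namespace Pool.Agent.E07280

instance instFactPrimes (p : Nat.Primes) : Fact (p : ℕ).Prime := ⟨p.2⟩

/-- `RatFun F`: at all primes `p ≥ 17` the value `F p` is `A(p)/B(p)` for fixed rational polynomials
`A, B` with `B(p) ≠ 0`. -/
def RatFun (F : Nat.Primes → ℚ) : Prop :=
  ∃ A B : ℚ[X], ∀ p : Nat.Primes, 17 ≤ (p : ℕ) →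
    B.eval ((p : ℕ) : ℚ) ≠ 0 ∧ F p = A.eval ((p : ℕ) : ℚ) / B.eval ((p : ℕ) : ℚ)

namespace RatFun

variable {F G : Nat.Primes → ℚ}

theorem congr (hF : RatFun F) (h : ∀ p : Nat.Primes, 17 ≤ (p : ℕ) → G p = F p) : RatFun G := by
  obtain ⟨A, B, hAB⟩ := hF
  exact ⟨A, B, fun p hp => ⟨(hAB p hp).1, (h p hp).trans (hAB p hp).2⟩⟩

theorem poly (A : ℚ[X]) : RatFun (fun p => A.eval ((p : ℕ) : ℚ)) :=
  ⟨A, 1, fun p _ => by simp⟩

theorem const (c : ℚ) : RatFun (fun _ => c) :=
  (poly (C c)).congr fun p _ => by simp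

/-- the function `p ↦ p` -/
theorem self : RatFun (fun p => ((p : ℕ) : ℚ)) :=
  (poly X).congr fun p _ => by simp

theorem add (hF : RatFun F) (hG : RatFun G) : RatFun (fun p => F p + G p) := by
  obtain ⟨A, B, hAB⟩ := hF
  obtain ⟨A', B', hAB'⟩ := hG
  refine ⟨A * B' + B * A', B * B', fun p hp => ?_⟩
  obtain ⟨h1, h2⟩ := hAB p hp
  obtain ⟨h3, h4⟩ := hAB' p hp
  refine ⟨by rw [eval_mul]; exact mul_ne_zero h1 h3, ?_⟩
  simp only []
  rw [h2, h4, eval_add, eval_mul, eval_mul, eval_mul, div_add_div _ _ h1 h3]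

theorem mul (hF : RatFun F) (hG : RatFun G) : RatFun (fun p => F p * G p) := by
  obtain ⟨A, B, hAB⟩ := hF
  obtain ⟨A', B', hAB'⟩ := hG
  refine ⟨A * A', B * B', fun p hp => ?_⟩
  obtain ⟨h1, h2⟩ := hAB p hp
  obtain ⟨h3, h4⟩ := hAB' p hp
  refine ⟨by rw [eval_mul]; exact mul_ne_zero h1 h3, ?_⟩
  simp only []
  rw [h2, h4, eval_mul, eval_mul, div_mul_div_comm]

theorem neg (hF : RatFun F) : RatFun (fun p => - F p) :=
  ((const (-1)).mul hF).congr fun p _ => by ring

theorem sub (hF : RatFun F) (hG : RatFun G) : RatFun (fun p => F p - G p) :=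
  (hF.add hG.neg).congr fun p _ => by ring

theorem inv (hF : RatFun F) (h : ∀ p : Nat.Primes, 17 ≤ (p : ℕ) → F p ≠ 0) :
    RatFun (fun p => (F p)⁻¹) := by
  obtain ⟨A, B, hAB⟩ := hF
  refine ⟨B, A, fun p hp => ?_⟩
  obtain ⟨h1, h2⟩ := hAB p hp
  have h3 := h p hp
  rw [h2] at h3
  refine ⟨fun h0 => h3 (by rw [h0, zero_div]), ?_⟩
  simp only []
  rw [h2, inv_div]

theorem div (hF : RatFun F) (hG : RatFun G)
    (h : ∀ p : Nat.Primes, 17 ≤ (p : ℕ) → G p ≠ 0) : RatFun (fun p => F p / G p) :=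
  (hF.mul (hG.inv h)).congr fun p _ => by rw [div_eq_mul_inv]

theorem pow (hF : RatFun F) (n : ℕ) : RatFun (fun p => F p ^ n) := by
  induction n with
  | zero => exact (const 1).congr fun p _ => by simp
  | succ n ih => exact (ih.mul hF).congr fun p _ => by rw [pow_succ]

theorem sum {ι : Type*} (s : Finset ι) {F : ι → Nat.Primes → ℚ}
    (h : ∀ i ∈ s, RatFun (F i)) : RatFun (fun p => ∑ i ∈ s, F i p) := by
  classical
  induction s using Finset.induction_on with
  | empty => exact (const 0).congr fun p _ => by simp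
  | insert a s ha ih =>
    refine ((h a (Finset.mem_insert_self _ _)).add
      (ih fun i hi => h i (Finset.mem_insert_of_mem hi))).congr fun p _ => ?_
    rw [Finset.sum_insert ha]

theorem prod {ι : Type*} (s : Finset ι) {F : ι → Nat.Primes → ℚ}
    (h : ∀ i ∈ s, RatFun (F i)) : RatFun (fun p => ∏ i ∈ s, F i p) := by
  classical
  induction s using Finset.induction_on with
  | empty => exact (const 1).congr fun p _ => by simp
  | insert a s ha ih =>
    refine ((h a (Finset.mem_insert_self _ _)).mul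
      (ih fun i hi => h i (Finset.mem_insert_of_mem hi))).congr fun p _ => ?_
    rw [Finset.prod_insert ha]

/-- composition with a rational polynomial -/
theorem comp_poly (hF : RatFun F) (P : ℚ[X]) : RatFun (fun p => P.eval (F p)) := by
  refine (sum (Finset.range (P.natDegree + 1))
    (F := fun i p => P.coeff i * F p ^ i) fun i _ => (const _).mul (hF.pow i)).congr
    fun p _ => ?_
  rw [eval_eq_sum_range]

/-- binomial coefficients of natural-number valued rational functions -/
theorem choose {m : Nat.Primes → ℕ} (hm : RatFun (fun p => (m p : ℚ))) (k : ℕ) :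
    RatFun (fun p => ((m p).choose k : ℚ)) := by
  refine (hm.comp_poly (C ((k.factorial : ℚ)⁻¹) * descPochhammer ℚ k)).congr fun p _ => ?_
  have h0 : (k.factorial : ℚ) ≠ 0 := by exact_mod_cast k.factorial_ne_zero
  rw [eval_mul, eval_C, descPochhammer_eval_eq_descFactorial,
    Nat.descFactorial_eq_factorial_mul_choose]
  push_cast
  field_simp

/-- natural-number subtraction -/
theorem natSub {m n : Nat.Primes → ℕ} (hm : RatFun (fun p => (m p : ℚ)))
    (hn : RatFun (fun p => (n p : ℚ))) (h : ∀ p : Nat.Primes, 17 ≤ (p : ℕ) → n p ≤ m p) :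
    RatFun (fun p => ((m p - n p : ℕ) : ℚ)) :=
  (hm.sub hn).congr fun p hp => by rw [Nat.cast_sub (h p hp)]

/-- half of `p - 1`, natural-number division (`p` is odd) -/
theorem half : RatFun (fun p => ((((p : ℕ) - 1) / 2 : ℕ) : ℚ)) := by
  refine ((self.sub (const 1)).mul (const (1/2))).congr fun p hp => ?_
  have hodd : Odd (p : ℕ) := p.2.odd_of_ne_two (by omega)
  obtain ⟨k, hk⟩ := hodd
  rw [hk]
  have : (2 * k + 1 - 1) / 2 = k := by omega
  rw [this]
  push_cast
  ring

end RatFun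

end Pool.Agent.E07280
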