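/-
Definitions shared by the parts of the disproof of MP_e07280_nt.
-/
import Pool.Agent.E07280.RatFun

open Finset

namespace Pool.Agent.E07280

/-! ### Ring side -/

/-- number of unital subrings of `ℤ^n` of index `k` -/
noncomputable def subringCount (n k : ℕ) : ℕ :=
  Nat.card {Λ : Subring (Fin n → ℤ) // Λ.toAddSubgroup.index = k}

/-- lattices `L ⊆ ℤ^X` with `p·L·L ⊆ L` of index `p^c` (not necessarily containing `1`) -/
def Lat (p : ℕ) (X : Type) (c : ℕ) : Set (AddSubgroup (X → ℤ)) :=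
  {L | (∀ x ∈ L, ∀ y ∈ L, (p : ℤ) • (x * y) ∈ L) ∧ L.index = p ^ c}

/-- number of elements of `Lat` -/
noncomputable def gCount (p : ℕ) (X : Type) (c : ℕ) : ℕ := Nat.card (Lat p X c)

/-- additive maps `L → (ZMod p)^κ` killing all `p·x·y`, `x, y ∈ L` -/
def LHom (p : ℕ) {X : Type} (L : AddSubgroup (X → ℤ)) (κ : ℕ) : Type :=
  {φ : L →+ (Fin κ → ZMod p) //
    ∀ x ∈ L, ∀ y ∈ L, ∀ z : L, (z : X → ℤ) = (p : ℤ) • (x * y) → φ z = 0}

/-- number of pairs `(L, φ)`, `L ∈ Lat p X c`, `φ ∈ LHom p L κ` -/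
noncomputable def bCount (p : ℕ) (X : Type) (c κ : ℕ) : ℕ :=
  Nat.card (Σ L : Lat p X c, LHom p L.1 κ)

/-- number of `L ∈ Lat p (X ⊕ Y) c` containing `p e_j` for all `j ∈ Y` -/
noncomputable def aCount (p : ℕ) (X Y : Type) [DecidableEq X] [DecidableEq Y] (c : ℕ) : ℕ :=
  Nat.card {L : AddSubgroup (X ⊕ Y → ℤ) //
    L ∈ Lat p (X ⊕ Y) c ∧ ∀ j : Y, Pi.single (Sum.inr j) (p : ℤ) ∈ L}

/-- number of `κ`-codimensional subspaces of `F_p^y` (as a quotient of natural numbers) -/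
def grass (p y κ : ℕ) : ℚ :=
  (∏ i ∈ range κ, ((p : ℚ) ^ y - (p : ℚ) ^ i)) / ∏ i ∈ range κ, ((p : ℚ) ^ κ - (p : ℚ) ^ i)

/-! ### Plane cubics -/

section Plane

variable {K : Type} [Field K] [Fintype K] [DecidableEq K]

/-- the ten monomials of degree `≤ 3` in two variables -/
def mono10 (P : K × K) : Fin 10 → K :=
  ![1, P.1, P.2, P.1 ^ 2, P.1 * P.2, P.2 ^ 2, P.1 ^ 3, P.1 ^ 2 * P.2, P.1 * P.2 ^ 2, P.2 ^ 3]

/-- the nine monomials of degree `1, 2, 3` in two variables -/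
def mono9 (P : K × K) : Fin 9 → K :=
  ![P.1, P.2, P.1 ^ 2, P.1 * P.2, P.2 ^ 2, P.1 ^ 3, P.1 ^ 2 * P.2, P.1 * P.2 ^ 2, P.2 ^ 3]

/-- value at `P` of the cubic polynomial with coefficient vector `f` -/
def ev3 (f : Fin 10 → K) (P : K × K) : K := ∑ i, f i * mono10 P i

/-- affine zero set -/
def Z3 (f : Fin 10 → K) : Finset (K × K) := univ.filter fun P => ev3 f P = 0

/-- number of cubic polynomials (degree `≤ 3`, zero included) vanishing on `Γ` -/
def A3 (Γ : Finset (K × K)) : ℕ := #{f : Fin 10 → K | ∀ P ∈ Γ, ev3 f P = 0}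

/-! ### The cubics through `(0:1:0)`: `a(t) y² + b(t) y + c(t)` over the projective line `t ∈ Option K`
(`none` is the point at infinity) -/

/-- linear form -/
def lin (a : Fin 2 → K) : Option K → K
  | some t => a 0 + a 1 * t
  | none => a 1

/-- quadratic form -/
def quad (b : Fin 3 → K) : Option K → K
  | some t => b 0 + b 1 * t + b 2 * t ^ 2
  | none => b 2

/-- cubic form -/
def cub (c : Fin 4 → K) : Option K → K
  | some t => c 0 + c 1 * t + c 2 * t ^ 2 + c 3 * t ^ 3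
  | none => c 3

/-- number of points in the fibre over `t` -/
def fib (a : Fin 2 → K) (b : Fin 3 → K) (c : Fin 4 → K) (t : Option K) : ℕ :=
  #{y : K | lin a t * y ^ 2 + quad b t * y + cub c t = 0}

/-- total number of points -/
def Phi (a : Fin 2 → K) (b : Fin 3 → K) (c : Fin 4 → K) : ℕ := ∑ t : Option K, fib a b c t

/-- number of zeros of the cubic form `c` on the projective line -/
def zc (c : Fin 4 → K) : ℕ := #{t : Option K | cub c t = 0}

/-- number of affine points of `y² = D(t)` -/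
def cnt (D : K → K) : ℕ := #{P : K × K | P.2 ^ 2 = D P.1}

variable (K)

def X10 : ℕ := ∑ f : Fin 10 → K, (#(Z3 f)).choose 10

def X9 : ℕ := ∑ a : Fin 2 → K, ∑ b : Fin 3 → K, ∑ c : Fin 4 → K, (Phi a b c - zc c).choose 9

def T0 : ℕ := ∑ a : Fin 2 → K, ∑ b : Fin 3 → K, ∑ c : Fin 4 → K, (Phi a b c).choose 9

def W1 : ℕ := ∑ a : Fin 2 → K, ∑ b : Fin 3 → K, ∑ c : Fin 4 → K,
  if fib a b c none = 2 then (Phi a b c - 2).choose 7 else 0

def W2 : ℕ := ∑ a : Fin 2 → K, ∑ b : Fin 3 → K, ∑ c : Fin 4 → K,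
  if a 1 = 0 ∧ b 2 = 0 ∧ c 3 = 0 then (Phi a b c - 2).choose 7 else 0

def RR : ℕ := ∑ a : Fin 2 → K, ∑ b : Fin 3 → K, ∑ c : Fin 4 → K,
  if a 1 = 0 ∧ b 2 = 0 ∧ c 3 = 0 then (Phi a b c - 3).choose 6 else 0

def UU : ℚ := ∑ a : Fin 2 → K, ∑ b : Fin 3 → K,
  (((Phi a b 0 - (Fintype.card K + 1)).choose 9 : ℚ) -
    ∑ j ∈ range 4, (-1) ^ j * ((Fintype.card K + 1).choose j : ℚ) *
      ((Phi a b 0 - j).choose (9 - j) : ℚ))

def SDep (g : ℕ → ℚ) : ℚ :=
  ∑ a : K, ∑ b : K, ∑ c : K, g (cnt fun t => t ^ 4 + a * t ^ 2 + b * t + c)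

def SAB (g : ℕ → ℚ) : ℚ := ∑ a : K, ∑ b : K, g (cnt fun t => t ^ 3 + a * t + b)

end Plane

section ZMod

variable (p : ℕ) [Fact p.Prime]

/-- ordered 10-tuples of points of the affine plane on no cubic -/
noncomputable def kappa10 : ℕ :=
  Nat.card {P : Fin 10 → ZMod p × ZMod p // LinearIndependent (ZMod p) fun i => mono10 (P i)}

/-- ordered 9-tuples of points of the affine plane on no cubic through the origin -/
noncomputable def kappa9 : ℕ :=
  Nat.card {P : Fin 9 → ZMod p × ZMod p // LinearIndependent (ZMod p) fun i => mono9 (P i)}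

/-- the excess: 10-subsets imposing at most 8 conditions on cubics -/
def Exc : ℚ := ∑ Γ ∈ (powersetCard 10 (univ : Finset (ZMod p × ZMod p))).filter (fun Γ => p < A3 Γ),
  ((A3 Γ : ℚ) - p)

/-- the sum over Weierstrass cubics `y² = x³ + Ax + B`, `cnt + 1` is the number of projective points -/
def YY : ℚ := SAB (ZMod p) fun n =>
  ((p : ℚ) ^ 2 - 9 * p + 36) * ((n + 1).choose 10 : ℚ) - 12 * (n.choose 9 : ℚ)

end ZMod

end Pool.Agent.E07280
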