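/-
Package P1 for MP_e07280_nt (part a): finiteness, reindexing, unital versus non-unital subrings.
-/
import Pool.Agent.E07280.Defs

open Finset

namespace Pool.Agent.E07280

/-- multiplicatively closed subgroups of `ℤ^X` of index `k` -/
def NU (X : Type) (k : ℕ) : Set (AddSubgroup (X → ℤ)) :=
  {M | (∀ x ∈ M, ∀ y ∈ M, x * y ∈ M) ∧ M.index = k}

/-- unital subrings of `ℤ^X` of index `k`, as subgroups -/
def UN (X : Type) (k : ℕ) : Set (AddSubgroup (X → ℤ)) :=
  {M | ((∀ x ∈ M, ∀ y ∈ M, x * y ∈ M) ∧ (1 : X → ℤ) ∈ M) ∧ M.index = k}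

theorem finite_index_eq (X : Type) [Finite X] (k : ℕ) (hk : k ≠ 0) :
    {M : AddSubgroup (X → ℤ) | M.index = k}.Finite := by
  classical
  have : NeZero k := ⟨hk⟩
  let f : AddSubgroup (X → ℤ) → Set (X → ZMod k) := fun M =>
    {v | ∃ x ∈ M, (fun i => ((x i : ℤ) : ZMod k)) = v}
  have hsub : ∀ M N : AddSubgroup (X → ℤ), M.index = k → N.index = k → f M = f N → M ≤ N := by
    intro M N hM hN hMN x hx
    have h1 : (fun i => ((x i : ℤ) : ZMod k)) ∈ f M := ⟨x, hx, rfl⟩
    rw [hMN] at h1
    obtain ⟨y, hy, hyx⟩ := h1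
    have h2 : ∀ i, (k : ℤ) ∣ x i - y i := by
      intro i
      have h := congrFun hyx i
      rw [← ZMod.intCast_zmod_eq_zero_iff_dvd, Int.cast_sub]
      exact sub_eq_zero.2 h.symm
    choose z hz using h2
    have h3 : x = y + k • z := by
      funext i
      have h := hz i
      simp only [Pi.add_apply, Pi.smul_apply, Int.nsmul_eq_mul]
      linarith
    rw [h3]
    refine N.add_mem hy ?_
    rw [← hN]
    exact N.nsmul_index_mem z
  refine Set.Finite.of_finite_image (f := f) (Set.toFinite _) ?_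
  intro M hM N hN h
  exact le_antisymm (hsub M N hM hN h) (hsub N M hN hM h.symm)

theorem NU_finite (X : Type) [Finite X] (k : ℕ) (hk : k ≠ 0) : (NU X k).Finite :=
  (finite_index_eq X k hk).subset fun _ h => h.2

theorem UN_finite (X : Type) [Finite X] (k : ℕ) (hk : k ≠ 0) : (UN X k).Finite :=
  (finite_index_eq X k hk).subset fun _ h => h.2

theorem Lat_finite (p : ℕ) (X : Type) [Finite X] (c : ℕ) (hp : p ≠ 0) : (Lat p X c).Finite :=
  (finite_index_eq X (p ^ c) (pow_ne_zero _ hp)).subset fun _ h => h.2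

/-- unital subrings as subgroups -/
theorem subringCount_eq (n k : ℕ) : subringCount n k = (UN (Fin n) k).ncard := by
  unfold subringCount
  rw [← Nat.card_coe_set_eq]
  refine Nat.card_congr
    { toFun := fun Λ => ⟨Λ.1.toAddSubgroup, ⟨⟨fun x hx y hy => Λ.1.mul_mem hx hy, Λ.1.one_mem⟩, Λ.2⟩⟩
      invFun := fun M =>
        ⟨{ M.1 with
            mul_mem' := fun {a b} ha hb => M.2.1.1 a ha b hb
            one_mem' := M.2.1.2 }, M.2.2⟩
      left_inv := fun Λ => by
        apply Subtype.ext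
        rfl
      right_inv := fun M => by
        apply Subtype.ext
        rfl }

/-- reindexing -/
theorem ncard_reindex {R S : Type} [Ring R] [Ring S] (e : R ≃+* S)
    (P : AddSubgroup R → Prop) (Q : AddSubgroup S → Prop)
    (h : ∀ M : AddSubgroup R, P M ↔ Q (e.toAddEquiv.mapAddSubgroup M)) :
    {M | P M}.ncard = {M | Q M}.ncard := by
  rw [← Nat.card_coe_set_eq, ← Nat.card_coe_set_eq]
  exact Nat.card_congr ((e.toAddEquiv.mapAddSubgroup).toEquiv.subtypeEquiv h)

theorem mem_mapAddSubgroup {R S : Type} [Ring R] [Ring S] (e : R ≃+* S) (M : AddSubgroup R)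
    (x : R) : e x ∈ e.toAddEquiv.mapAddSubgroup M ↔ x ∈ M := by
  constructor
  · rintro ⟨y, hy, hxy⟩
    have : y = x := e.injective hxy
    exact this ▸ hy
  · intro hx
    exact ⟨x, hx, rfl⟩

theorem index_mapAddSubgroup {R S : Type} [Ring R] [Ring S] (e : R ≃+* S) (M : AddSubgroup R) :
    (e.toAddEquiv.mapAddSubgroup M).index = M.index :=
  AddSubgroup.index_map_of_bijective e.bijective M

theorem forall_mem_map {R S : Type} [Ring R] [Ring S] (e : R ≃+* S) (M : AddSubgroup R)
    (P : S → Prop) : (∀ x ∈ e.toAddEquiv.mapAddSubgroup M, P x) ↔ ∀ x ∈ M, P (e x) := by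
  constructor
  · intro h x hx
    exact h (e x) ((mem_mapAddSubgroup e M x).2 hx)
  · intro h x hx
    obtain ⟨y, rfl⟩ := e.surjective x
    exact h y ((mem_mapAddSubgroup e M y).1 hx)

theorem UN_reindex {X Y : Type} (σ : X ≃ Y) (k : ℕ) : (UN X k).ncard = (UN Y k).ncard := by
  let e : (X → ℤ) ≃+* (Y → ℤ) := RingEquiv.piCongrLeft' (fun _ => ℤ) σ
  refine ncard_reindex e (fun M => ((∀ x ∈ M, ∀ y ∈ M, x * y ∈ M) ∧ (1 : X → ℤ) ∈ M) ∧ M.index = k)
    (fun M => ((∀ x ∈ M, ∀ y ∈ M, x * y ∈ M) ∧ (1 : Y → ℤ) ∈ M) ∧ M.index = k) ?_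
  intro M
  simp only [forall_mem_map, index_mapAddSubgroup, ← map_mul, mem_mapAddSubgroup]
  rw [← map_one e, mem_mapAddSubgroup]

theorem gCount_reindex {X Y : Type} (σ : X ≃ Y) (p c : ℕ) : gCount p X c = gCount p Y c := by
  let e : (X → ℤ) ≃+* (Y → ℤ) := RingEquiv.piCongrLeft' (fun _ => ℤ) σ
  unfold gCount Lat
  rw [Nat.card_coe_set_eq, Nat.card_coe_set_eq]
  refine ncard_reindex e (fun M => (∀ x ∈ M, ∀ y ∈ M, (p : ℤ) • (x * y) ∈ M) ∧ M.index = p ^ c)
    (fun M => (∀ x ∈ M, ∀ y ∈ M, (p : ℤ) • (x * y) ∈ M) ∧ M.index = p ^ c) ?_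
  intro M
  simp only [forall_mem_map, index_mapAddSubgroup, ← map_mul, ← map_zsmul, mem_mapAddSubgroup]

/-- the map `ℤ^{n+1} → ℤ^n`, `x ↦ (x_{j+1} - x_0)_j` -/
def subHom (n : ℕ) : (Fin (n + 1) → ℤ) →+ (Fin n → ℤ) where
  toFun x j := x j.succ - x 0
  map_zero' := by funext j; simp
  map_add' x y := by funext j; simp only [Pi.add_apply]; ring

theorem subHom_surjective (n : ℕ) : Function.Surjective (subHom n) := by
  intro y
  refine ⟨Fin.cons 0 y, ?_⟩
  funext j
  simp [subHom]

theorem one_zsmul_mem {X : Type} {M : AddSubgroup (X → ℤ)} (h : (1 : X → ℤ) ∈ M) (c : ℤ) :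
    (fun _ => c) ∈ M := by
  have := M.zsmul_mem h c
  have h2 : c • (1 : X → ℤ) = fun _ => c := by funext j; simp
  rwa [h2] at this

theorem UN_succ (n k : ℕ) : (UN (Fin (n + 1)) k).ncard = (NU (Fin n) k).ncard := by
  have himg : UN (Fin (n + 1)) k = (fun M => M.comap (subHom n)) '' NU (Fin n) k := by
    ext M
    constructor
    · rintro ⟨⟨hmul, hone⟩, hidx⟩
      have hker : (subHom n).ker ≤ M := by
        intro x hx
        rw [AddMonoidHom.mem_ker] at hx
        have : x = fun _ => x 0 := by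
          funext j
          refine Fin.cases rfl (fun j => ?_) j
          have := congrFun hx j
          simp only [subHom, AddMonoidHom.coe_mk, ZeroHom.coe_mk, Pi.zero_apply] at this
          linarith
        rw [this]
        exact one_zsmul_mem hone _
      have hM : (M.map (subHom n)).comap (subHom n) = M := by
        rw [AddSubgroup.comap_map_eq, sup_eq_left.2 hker]
      refine ⟨M.map (subHom n), ⟨?_, ?_⟩, hM⟩
      · rintro _ ⟨x, hx, rfl⟩ _ ⟨y, hy, rfl⟩
        refine ⟨(x - fun _ => x 0) * (y - fun _ => y 0), ?_, ?_⟩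
        · exact hmul _ (M.sub_mem hx (one_zsmul_mem hone _)) _
            (M.sub_mem hy (one_zsmul_mem hone _))
        · funext j
          simp [subHom]
      · rw [← hidx, ← AddSubgroup.index_comap_of_surjective (M.map (subHom n))
          (subHom_surjective n), hM]
    · rintro ⟨N, ⟨hmul, hidx⟩, rfl⟩
      refine ⟨⟨?_, ?_⟩, ?_⟩
      · intro x hx y hy
        rw [AddSubgroup.mem_comap] at hx hy ⊢
        have : subHom n (x * y) = subHom n x * subHom n y + x 0 • subHom n y + y 0 • subHom n x := by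
          funext j
          simp only [subHom, AddMonoidHom.coe_mk, ZeroHom.coe_mk, Pi.mul_apply, Pi.add_apply,
            Pi.smul_apply, smul_eq_mul]
          ring
        rw [this]
        exact N.add_mem (N.add_mem (hmul _ hx _ hy) (N.zsmul_mem hy _)) (N.zsmul_mem hx _)
      · rw [AddSubgroup.mem_comap]
        have : subHom n 1 = 0 := by
          funext j
          simp [subHom]
        rw [this]
        exact N.zero_mem
      · rw [AddSubgroup.index_comap_of_surjective _ (subHom_surjective n), hidx]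
  rw [himg, Set.ncard_image_of_injective _
    (AddSubgroup.comap_injective (subHom_surjective n))]

end Pool.Agent.E07280
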