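/-
Package P1 for MP_e07280_nt (part b): decomposition of multiplicatively closed subgroups of `ℤ^n`
of index `p^e`.
-/
import Pool.Agent.E07280.P1a

open Finset

namespace Pool.Agent.E07280

theorem index_map_mulp (p : ℕ) (hp : p ≠ 0) (B : Type) [Fintype B] (L : AddSubgroup (B → ℤ)) :
    (L.map (nsmulAddMonoidHom p)).index = L.index * p ^ Fintype.card B := by
  have hinj : Function.Injective (nsmulAddMonoidHom (α := B → ℤ) p) :=
    AddSubgroup.nsmulAddMonoidHom_injective_of_isTorsionFree hp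
  rw [AddSubgroup.index_map, (AddMonoidHom.ker_eq_bot_iff _).2 hinj, sup_bot_eq]
  congr 1
  have := AddSubgroup.index_range_nsmul (B → ℤ) p
  rw [Module.finrank_fintype_fun_eq_card] at this
  exact this

/-- the multiplicatively closed subgroups of `ℤ^B × ℤ^A` of index `p^e` with bad part `B` -/
def PS (p : ℕ) (B A : Type) (e : ℕ) : Set (AddSubgroup ((B → ℤ) × (A → ℤ))) :=
  {M | ((∀ x ∈ M, ∀ y ∈ M, x * y ∈ M) ∧ M.index = p ^ e) ∧
    (∀ x ∈ M, ∀ j : B, (p : ℤ) ∣ x.1 j) ∧ (∀ a : A, ∃ x ∈ M, ¬ (p : ℤ) ∣ x.2 a)}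

/-- the corresponding pairs -/
def QS (p : ℕ) (B A : Type) [Fintype B] (e : ℕ) :
    Set (AddSubgroup (B → ℤ) × AddSubgroup (A → ℤ)) :=
  {q | (∀ x ∈ q.1, ∀ y ∈ q.1, (p : ℤ) • (x * y) ∈ q.1) ∧
    ((∀ x ∈ q.2, ∀ y ∈ q.2, x * y ∈ q.2) ∧ (1 : A → ℤ) ∈ q.2) ∧
    q.1.index * p ^ Fintype.card B * q.2.index = p ^ e}

theorem pow_mem_of_mul {R : Type*} [Ring R] (M : AddSubgroup R)
    (h : ∀ x ∈ M, ∀ y ∈ M, x * y ∈ M) (x : R) (hx : x ∈ M) (m : ℕ) : x ^ (m + 1) ∈ M := by
  induction m with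
  | zero => simpa using hx
  | succ m ih =>
    rw [pow_succ]
    exact h _ ih _ hx

theorem dvd_pow_totient (p : ℕ) (hp : p.Prime) (e : ℕ) (a : ℤ) (ha : ¬ (p : ℤ) ∣ a) :
    ((p ^ e : ℕ) : ℤ) ∣ a ^ (Nat.totient (p ^ e) * (e + 1)) - 1 := by
  have hcop : IsCoprime ((p ^ e : ℕ) : ℤ) a := by
    push_cast
    apply IsCoprime.pow_left
    exact (Nat.prime_iff_prime_int.1 hp).irreducible.coprime_iff_not_dvd.2 ha
  have hu : IsUnit ((a : ℤ) : ZMod (p ^ e)) :=
    (ZMod.coe_int_isUnit_iff_isCoprime a (p ^ e)).2 hcop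
  obtain ⟨u, hu⟩ := hu
  rw [← ZMod.intCast_zmod_eq_zero_iff_dvd]
  push_cast
  rw [← hu, pow_mul, ← Units.val_pow_eq_pow_val, ZMod.pow_totient]
  simp

theorem dvd_pow_of_dvd' (p : ℕ) (hp : p.Prime) (e : ℕ) (a : ℤ) (ha : (p : ℤ) ∣ a) :
    ((p ^ e : ℕ) : ℤ) ∣ a ^ (Nat.totient (p ^ e) * (e + 1)) := by
  have h1 : 1 ≤ Nat.totient (p ^ e) := Nat.totient_pos.2 (pow_pos hp.pos e)
  have h2 : e ≤ Nat.totient (p ^ e) * (e + 1) := by nlinarith
  push_cast
  exact (pow_dvd_pow_of_dvd ha e).trans (pow_dvd_pow a h2)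

variable {p : ℕ} {B A : Type}

theorem idem_mem (hp : p.Prime) [Finite A] [Finite B] {e : ℕ}
    {M : AddSubgroup ((B → ℤ) × (A → ℤ))} (hM : M ∈ PS p B A e) :
    ((0 : B → ℤ), (1 : A → ℤ)) ∈ M := by
  classical
  obtain ⟨⟨hmul, hidx⟩, hbad, hgood⟩ := hM
  have : Fintype A := Fintype.ofFinite A
  -- multiples of `p^e`
  have hpe : ∀ z : (B → ℤ) × (A → ℤ), (p ^ e) • z ∈ M := by
    intro z
    rw [← hidx]
    exact M.nsmul_index_mem z
  have hone : ∀ a : A, ∃ S : Finset A, a ∈ S ∧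
      ((0 : B → ℤ), fun a => if a ∈ S then (1 : ℤ) else 0) ∈ M := by
    intro a
    obtain ⟨x, hx, hxa⟩ := hgood a
    set m := Nat.totient (p ^ e) * (e + 1) with hm
    have hm1 : m ≠ 0 := by
      have h1 : 1 ≤ Nat.totient (p ^ e) := Nat.totient_pos.2 (pow_pos hp.pos e)
      positivity
    refine ⟨univ.filter fun a => ¬ (p : ℤ) ∣ x.2 a, by simpa using hxa, ?_⟩
    have h1 : x ^ m ∈ M := by
      obtain ⟨m', hm'⟩ := Nat.exists_eq_succ_of_ne_zero hm1
      rw [hm']
      exact pow_mem_of_mul M hmul x hx m'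
    have h2 : ∀ j : B, ((p ^ e : ℕ) : ℤ) ∣ (x.1 j) ^ m := fun j =>
      dvd_pow_of_dvd' p hp e _ (hbad x hx j)
    have h3 : ∀ a : A, ((p ^ e : ℕ) : ℤ) ∣ (x.2 a) ^ m - (if ¬ (p : ℤ) ∣ x.2 a then 1 else 0) := by
      intro a
      by_cases h : (p : ℤ) ∣ x.2 a
      · rw [if_neg (not_not.2 h), sub_zero]
        exact dvd_pow_of_dvd' p hp e _ h
      · rw [if_pos h]
        exact dvd_pow_totient p hp e _ h
    choose u hu using h2
    choose v hv using h3
    have h4 : ((0 : B → ℤ), fun a => if a ∈ univ.filter (fun a => ¬ (p : ℤ) ∣ x.2 a)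
        then (1 : ℤ) else 0) = x ^ m - (p ^ e) • (u, v) := by
      refine Prod.ext ?_ ?_
      · funext j
        have := hu j
        simp only [Prod.fst_sub, Prod.pow_fst, Prod.smul_fst, Pi.sub_apply, Pi.pow_apply,
          Pi.smul_apply, Pi.zero_apply, Int.nsmul_eq_mul]
        linarith
      · funext a
        have := hv a
        simp only [Prod.snd_sub, Prod.pow_snd, Prod.smul_snd, Pi.sub_apply, Pi.pow_apply,
          Pi.smul_apply, Int.nsmul_eq_mul, mem_filter, mem_univ, true_and]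
        linarith
    rw [h4]
    exact M.sub_mem h1 (hpe _)
  have hall : ∀ s : Finset A, ∃ S : Finset A, s ⊆ S ∧
      ((0 : B → ℤ), fun a => if a ∈ S then (1 : ℤ) else 0) ∈ M := by
    intro s
    induction s using Finset.induction_on with
    | empty =>
      refine ⟨∅, Finset.Subset.refl _, ?_⟩
      have : ((0 : B → ℤ), fun a => if a ∈ (∅ : Finset A) then (1 : ℤ) else 0) = 0 := by
        refine Prod.ext rfl ?_
        funext a
        simp
      rw [this]
      exact M.zero_mem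
    | insert a s ha ih =>
      obtain ⟨S, hsS, hS⟩ := ih
      obtain ⟨T, haT, hT⟩ := hone a
      refine ⟨S ∪ T, ?_, ?_⟩
      · intro b hb
        rw [Finset.mem_insert] at hb
        rw [Finset.mem_union]
        rcases hb with rfl | hb
        · exact Or.inr haT
        · exact Or.inl (hsS hb)
      · have : ((0 : B → ℤ), fun a => if a ∈ S ∪ T then (1 : ℤ) else 0) =
            ((0 : B → ℤ), fun a => if a ∈ S then (1 : ℤ) else 0) +
            ((0 : B → ℤ), fun a => if a ∈ T then (1 : ℤ) else 0) -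
            ((0 : B → ℤ), fun a => if a ∈ S then (1 : ℤ) else 0) *
            ((0 : B → ℤ), fun a => if a ∈ T then (1 : ℤ) else 0) := by
          refine Prod.ext ?_ ?_
          · simp
          · funext b
            by_cases h1 : b ∈ S <;> by_cases h2 : b ∈ T <;> simp [h1, h2]
        rw [this]
        exact M.sub_mem (M.add_mem hS hT) (hmul _ hS _ hT)
  obtain ⟨S, hS, hS'⟩ := hall univ
  have : ((0 : B → ℤ), (1 : A → ℤ)) = ((0 : B → ℤ), fun a => if a ∈ S then (1 : ℤ) else 0) := by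
    refine Prod.ext rfl ?_
    funext a
    simp [hS (mem_univ a)]
  rw [this]
  exact hS'

theorem PS_eq_image (hp : p.Prime) [Finite A] [Fintype B] (e : ℕ) :
    PS p B A e = (fun q : AddSubgroup (B → ℤ) × AddSubgroup (A → ℤ) =>
      (q.1.map (nsmulAddMonoidHom p)).prod q.2) '' QS p B A e := by
  have hp0 : (p : ℤ) ≠ 0 := by exact_mod_cast hp.ne_zero
  ext M
  constructor
  · intro hM
    have h1 := idem_mem hp hM
    obtain ⟨⟨hmul, hidx⟩, hbad, hgood⟩ := hM
    have hA : ∀ x ∈ M, ((0 : B → ℤ), x.2) ∈ M := by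
      intro x hx
      have := hmul _ h1 _ hx
      have h2 : ((0 : B → ℤ), (1 : A → ℤ)) * x = ((0 : B → ℤ), x.2) :=
        Prod.ext (by simp) (by simp)
      rwa [h2] at this
    have hB : ∀ x ∈ M, (x.1, (0 : A → ℤ)) ∈ M := by
      intro x hx
      have := M.sub_mem hx (hA x hx)
      have h2 : x - ((0 : B → ℤ), x.2) = (x.1, (0 : A → ℤ)) :=
        Prod.ext (by simp) (by simp)
      rwa [h2] at this
    let L : AddSubgroup (B → ℤ) :=
      M.comap ((AddMonoidHom.inl (B → ℤ) (A → ℤ)).comp (nsmulAddMonoidHom p))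
    let Λ : AddSubgroup (A → ℤ) := M.comap (AddMonoidHom.inr (B → ℤ) (A → ℤ))
    have hL : ∀ y, y ∈ L ↔ (p • y, (0 : A → ℤ)) ∈ M := fun y => Iff.rfl
    have hΛ : ∀ z, z ∈ Λ ↔ ((0 : B → ℤ), z) ∈ M := fun z => Iff.rfl
    have hprod : (L.map (nsmulAddMonoidHom p)).prod Λ = M := by
      ext x
      rw [AddSubgroup.mem_prod]
      constructor
      · rintro ⟨⟨y, hy, hyx⟩, hz⟩
        have hy' := (hL y).1 hy
        have h3 : p • y = x.1 := hyx
        rw [h3] at hy'
        have := M.add_mem hy' ((hΛ _).1 hz)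
        simpa using this
      · intro hx
        refine ⟨?_, (hΛ _).2 (hA x hx)⟩
        choose y hy using hbad x hx
        have h3 : p • (y : B → ℤ) = x.1 := by
          funext j
          rw [Pi.smul_apply, Int.nsmul_eq_mul, hy j]
        refine ⟨y, ?_, h3⟩
        refine (hL y).2 ?_
        rw [h3]
        exact hB x hx
    refine ⟨(L, Λ), ⟨?_, ⟨?_, ?_⟩, ?_⟩, hprod⟩
    · intro x hx y hy
      have := hmul _ ((hL x).1 hx) _ ((hL y).1 hy)
      refine (hL _).2 ?_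
      have h3 : (p • x, (0 : A → ℤ)) * (p • y, (0 : A → ℤ)) =
          (p • ((p : ℤ) • (x * y)), (0 : A → ℤ)) := by
        refine Prod.ext ?_ (by simp)
        funext j
        simp only [Prod.mk_mul_mk, Pi.mul_apply, Pi.smul_apply, Int.nsmul_eq_mul, smul_eq_mul]
        ring
      rwa [h3] at this
    · intro x hx y hy
      have := hmul _ ((hΛ x).1 hx) _ ((hΛ y).1 hy)
      refine (hΛ _).2 ?_
      simpa using this
    · exact (hΛ _).2 h1
    · have h4 := congrArg AddSubgroup.index hprod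
      rw [AddSubgroup.index_prod, index_map_mulp p hp.ne_zero, hidx] at h4
      exact h4
  · rintro ⟨⟨L, Λ⟩, ⟨hL, ⟨hΛ, hone⟩, hidx⟩, rfl⟩
    simp only at hL hΛ hone hidx ⊢
    refine ⟨⟨?_, ?_⟩, ?_, ?_⟩
    · rintro ⟨x1, x2⟩ hx ⟨y1, y2⟩ hy
      rw [AddSubgroup.mem_prod] at hx hy ⊢
      obtain ⟨⟨x, hx1, rfl⟩, hx2⟩ := hx
      obtain ⟨⟨y, hy1, rfl⟩, hy2⟩ := hy
      refine ⟨⟨(p : ℤ) • (x * y), hL _ hx1 _ hy1, ?_⟩, hΛ _ hx2 _ hy2⟩
      funext j
      simp only [nsmulAddMonoidHom_apply, Prod.mk_mul_mk, Pi.mul_apply, Pi.smul_apply,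
        Int.nsmul_eq_mul, smul_eq_mul]
      ring
    · rw [AddSubgroup.index_prod, index_map_mulp p hp.ne_zero, hidx]
    · rintro ⟨x1, x2⟩ hx j
      rw [AddSubgroup.mem_prod] at hx
      obtain ⟨⟨x, hx1, rfl⟩, hx2⟩ := hx
      refine ⟨x j, ?_⟩
      simp
    · intro a
      refine ⟨(0, 1), ?_, ?_⟩
      · rw [AddSubgroup.mem_prod]
        exact ⟨AddSubgroup.zero_mem _, hone⟩
      · simp only [Pi.one_apply]
        intro h
        have := Int.isUnit_iff.1 (isUnit_of_dvd_one h)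
        have h2 := hp.two_le
        omega

theorem pair_injective (hp : p.Prime) [Fintype B] : Function.Injective
    (fun q : AddSubgroup (B → ℤ) × AddSubgroup (A → ℤ) =>
      (q.1.map (nsmulAddMonoidHom p)).prod q.2) := by
  rintro ⟨L, Λ⟩ ⟨L', Λ'⟩ h
  simp only at h
  have hinj : Function.Injective (nsmulAddMonoidHom (α := B → ℤ) p) :=
    AddSubgroup.nsmulAddMonoidHom_injective_of_isTorsionFree hp.ne_zero
  have h1 : L.map (nsmulAddMonoidHom p) = L'.map (nsmulAddMonoidHom p) := by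
    ext x
    have : (x, (0 : A → ℤ)) ∈ (L.map (nsmulAddMonoidHom p)).prod Λ ↔
      (x, (0 : A → ℤ)) ∈ (L'.map (nsmulAddMonoidHom p)).prod Λ' := by rw [h]
    rw [AddSubgroup.mem_prod, AddSubgroup.mem_prod] at this
    simpa using this
  have h2 : Λ = Λ' := by
    ext z
    have : ((0 : B → ℤ), z) ∈ (L.map (nsmulAddMonoidHom p)).prod Λ ↔
      ((0 : B → ℤ), z) ∈ (L'.map (nsmulAddMonoidHom p)).prod Λ' := by rw [h]
    rw [AddSubgroup.mem_prod, AddSubgroup.mem_prod] at this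
    simpa [AddSubgroup.zero_mem] using this
  rw [AddSubgroup.map_injective hinj h1, h2]

theorem ncard_PS (hp : p.Prime) [Finite A] [Fintype B] (e : ℕ) :
    (PS p B A e).ncard = (QS p B A e).ncard := by
  rw [PS_eq_image hp, Set.ncard_image_of_injective _ (pair_injective hp)]

theorem ncard_QS (hp : p.Prime) [Finite A] [Fintype B] (e : ℕ) :
    (QS p B A e).ncard = if Fintype.card B ≤ e then
      ∑ t ∈ antidiagonal (e - Fintype.card B), gCount p B t.1 * (UN A (p ^ t.2)).ncard else 0 := by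
  classical
  have hpow : ∀ q ∈ QS p B A e, ∃ i j, q.1.index = p ^ i ∧ q.2.index = p ^ j ∧
      i + Fintype.card B + j = e := by
    rintro ⟨L, Λ⟩ ⟨-, -, hidx⟩
    simp only at hidx ⊢
    obtain ⟨i, -, hi⟩ := (Nat.dvd_prime_pow hp).1
      (show L.index ∣ p ^ e by rw [← hidx, mul_assoc]; exact Dvd.intro _ rfl)
    obtain ⟨j, -, hj⟩ := (Nat.dvd_prime_pow hp).1
      (show Λ.index ∣ p ^ e by rw [← hidx]; exact Dvd.intro_left _ rfl)
    refine ⟨i, j, hi, hj, ?_⟩
    rw [hi, hj, ← pow_add, ← pow_add] at hidx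
    exact Nat.pow_right_injective hp.two_le hidx
  by_cases hB : Fintype.card B ≤ e
  · rw [if_pos hB]
    have hQ : QS p B A e = ⋃ t ∈ (antidiagonal (e - Fintype.card B) : Finset (ℕ × ℕ)),
        Lat p B t.1 ×ˢ UN A (p ^ t.2) := by
      ext q
      simp only [Set.mem_iUnion, exists_prop, HasAntidiagonal.mem_antidiagonal]
      constructor
      · intro hq
        obtain ⟨i, j, hi, hj, hij⟩ := hpow q hq
        exact ⟨(i, j), by omega, ⟨hq.1, hi⟩, ⟨hq.2.1, hj⟩⟩
      · rintro ⟨⟨i, j⟩, hij, ⟨hL, hi⟩, ⟨hΛ, hj⟩⟩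
        refine ⟨hL, hΛ, ?_⟩
        simp only at hij hi hj
        rw [hi, hj, ← pow_add, ← pow_add]
        congr 1
        omega
    have hfin1 : ∀ t : ℕ × ℕ, (Lat p B t.1 ×ˢ UN A (p ^ t.2)).Finite := fun t =>
      (Lat_finite p B t.1 hp.ne_zero).prod (UN_finite A (p ^ t.2) (pow_ne_zero _ hp.ne_zero))
    have hfin : (QS p B A e).Finite := by
      rw [hQ]
      exact (Finset.finite_toSet _).biUnion fun t _ => hfin1 t
    rw [Set.ncard_eq_toFinset_card _ hfin,
      Finset.card_eq_sum_card_fiberwise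
        (f := fun q : AddSubgroup (B → ℤ) × AddSubgroup (A → ℤ) =>
          (Nat.log p q.1.index, Nat.log p q.2.index))
        (t := antidiagonal (e - Fintype.card B))]
    · refine Finset.sum_congr rfl fun t ht => ?_
      unfold gCount
      rw [Nat.card_coe_set_eq, ← Set.ncard_prod, Set.ncard_eq_toFinset_card _ (hfin1 t)]
      refine congrArg Finset.card ?_
      ext q
      simp only [Set.Finite.mem_toFinset, mem_filter]
      constructor
      · rintro ⟨hq, hqt⟩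
        obtain ⟨i, j, hi, hj, hij⟩ := hpow q hq
        rw [hi, hj, Nat.log_pow hp.one_lt, Nat.log_pow hp.one_lt] at hqt
        subst hqt
        exact ⟨⟨hq.1, hi⟩, ⟨hq.2.1, hj⟩⟩
      · rintro ⟨⟨hL, hi⟩, ⟨hΛ, hj⟩⟩
        refine ⟨?_, ?_⟩
        · rw [hQ]
          simp only [Set.mem_iUnion, exists_prop]
          exact ⟨t, ht, ⟨hL, hi⟩, ⟨hΛ, hj⟩⟩
        · rw [hi, hj, Nat.log_pow hp.one_lt, Nat.log_pow hp.one_lt]
    · intro q hq
      rw [Set.Finite.coe_toFinset] at hq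
      obtain ⟨i, j, hi, hj, hij⟩ := hpow q hq
      simp only [hi, hj, Nat.log_pow hp.one_lt]
      rw [Finset.mem_coe, HasAntidiagonal.mem_antidiagonal]
      simp only
      omega
  · rw [if_neg hB]
    have : QS p B A e = ∅ := by
      rw [Set.eq_empty_iff_forall_notMem]
      intro q hq
      obtain ⟨i, j, -, -, h⟩ := hpow q hq
      omega
    rw [this, Set.ncard_empty]

end Pool.Agent.E07280
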