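/-
Package P1 for MP_e07280_nt (part c): the recursion for the numbers of unital subrings of `ℤ^n`.
-/
import Pool.Agent.E07280.P1b

open Finset

namespace Pool.Agent.E07280

variable {p : ℕ}

/-- the coordinates at which all elements are divisible by `p` -/
noncomputable def bad (p : ℕ) {n : ℕ} (M : AddSubgroup (Fin n → ℤ)) : Finset (Fin n) := by
  classical
  exact univ.filter fun j => ∀ x ∈ M, (p : ℤ) ∣ x j

theorem mem_bad {n : ℕ} (M : AddSubgroup (Fin n → ℤ)) (j : Fin n) :
    j ∈ bad p M ↔ ∀ x ∈ M, (p : ℤ) ∣ x j := by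
  classical
  unfold bad
  simp

theorem bad_eq_iff {n : ℕ} (M : AddSubgroup (Fin n → ℤ)) (B : Finset (Fin n)) :
    bad p M = B ↔ (∀ x ∈ M, ∀ j : {j // j ∈ B}, (p : ℤ) ∣ x j) ∧
      ∀ j : {j // ¬ j ∈ B}, ∃ x ∈ M, ¬ (p : ℤ) ∣ x j := by
  constructor
  · rintro rfl
    refine ⟨fun x hx j => (mem_bad M j.1).1 j.2 x hx, fun j => ?_⟩
    by_contra h
    push Not at h
    exact j.2 ((mem_bad M j.1).2 h)
  · rintro ⟨h1, h2⟩
    ext j
    rw [mem_bad]
    constructor
    · intro h
      by_contra hj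
      obtain ⟨x, hx, hxj⟩ := h2 ⟨j, hj⟩
      exact hxj (h x hx)
    · intro hj x hx
      exact h1 x hx ⟨j, hj⟩

theorem ncard_bad {n e : ℕ} (B : Finset (Fin n)) :
    {M | M ∈ NU (Fin n) (p ^ e) ∧ bad p M = B}.ncard =
      (PS p {j // j ∈ B} {j // ¬ j ∈ B} e).ncard := by
  let φ : (Fin n → ℤ) ≃+* ({j // j ∈ B} → ℤ) × ({j // ¬ j ∈ B} → ℤ) :=
    RingEquiv.piEquivPiSubtypeProd (fun j => j ∈ B) (fun _ => ℤ)
  refine ncard_reindex φ _ (fun M => ((∀ x ∈ M, ∀ y ∈ M, x * y ∈ M) ∧ M.index = p ^ e) ∧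
    (∀ x ∈ M, ∀ j : {j // j ∈ B}, (p : ℤ) ∣ x.1 j) ∧
      (∀ a : {j // ¬ j ∈ B}, ∃ x ∈ M, ¬ (p : ℤ) ∣ x.2 a)) ?_
  intro M
  simp only [forall_mem_map, index_mapAddSubgroup, ← map_mul, mem_mapAddSubgroup]
  rw [bad_eq_iff]
  refine and_congr Iff.rfl (and_congr Iff.rfl (forall_congr' fun j => ?_))
  constructor
  · rintro ⟨x, hx, hxj⟩
    exact ⟨φ x, (mem_mapAddSubgroup φ M x).2 hx, hxj⟩
  · rintro ⟨x, hx, hxj⟩
    obtain ⟨y, rfl⟩ := φ.surjective x
    exact ⟨y, (mem_mapAddSubgroup φ M y).1 hx, hxj⟩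

theorem ncard_NU (hp : p.Prime) (n e : ℕ) : (NU (Fin n) (p ^ e)).ncard =
    ∑ b ∈ range (n + 1), n.choose b * (if b ≤ e then
      ∑ t ∈ antidiagonal (e - b), gCount p (Fin b) t.1 * subringCount (n - b) (p ^ t.2) else 0) := by
  classical
  have hfin := NU_finite (Fin n) (p ^ e) (pow_ne_zero _ hp.ne_zero)
  rw [Set.ncard_eq_toFinset_card _ hfin,
    Finset.card_eq_sum_card_fiberwise (f := fun M => bad p M) (t := univ)
      (fun M _ => by simp)]
  have h1 : ∀ B : Finset (Fin n), #{M ∈ hfin.toFinset | bad p M = B} =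
      (fun b => if b ≤ e then ∑ t ∈ antidiagonal (e - b),
        gCount p (Fin b) t.1 * subringCount (n - b) (p ^ t.2) else 0) #B := by
    intro B
    have h2 : #{M ∈ hfin.toFinset | bad p M = B} =
        {M | M ∈ NU (Fin n) (p ^ e) ∧ bad p M = B}.ncard := by
      rw [Set.ncard_eq_toFinset_card _ (hfin.subset fun M hM => hM.1)]
      refine congrArg Finset.card ?_
      ext M
      simp
    rw [h2, ncard_bad, ncard_PS hp, ncard_QS hp, Fintype.card_coe]
    by_cases hB : #B ≤ e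
    · simp only [if_pos hB]
      refine Finset.sum_congr rfl fun t _ => ?_
      rw [gCount_reindex B.equivFin p t.1, subringCount_eq]
      have hcard : Fintype.card {j // ¬ j ∈ B} = n - #B := by
        rw [Fintype.card_subtype_compl, Fintype.card_fin, Fintype.card_coe]
      rw [UN_reindex (Fintype.equivFinOfCardEq hcard)]
    · simp only [if_neg hB]
  rw [Finset.sum_congr rfl fun B _ => h1 B, ← Finset.powerset_univ]
  refine (Finset.sum_powerset_apply_card (fun b => if b ≤ e then ∑ t ∈ antidiagonal (e - b),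
        gCount p (Fin b) t.1 * subringCount (n - b) (p ^ t.2) else 0)).trans ?_
  simp only [Finset.card_univ, Fintype.card_fin, smul_eq_mul]

/-- the recursion -/
theorem subringCount_succ (hp : p.Prime) (n e : ℕ) : subringCount (n + 1) (p ^ e) =
    ∑ b ∈ range (n + 1), n.choose b * (if b ≤ e then
      ∑ t ∈ antidiagonal (e - b), gCount p (Fin b) t.1 * subringCount (n - b) (p ^ t.2) else 0) := by
  rw [subringCount_eq, UN_succ, ncard_NU hp]

theorem UN_one (n : ℕ) : UN (Fin n) 1 = {⊤} := by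
  ext M
  simp only [Set.mem_singleton_iff]
  constructor
  · rintro ⟨-, h⟩
    exact AddSubgroup.index_eq_one.1 h
  · rintro rfl
    exact ⟨⟨fun x _ y _ => AddSubgroup.mem_top _, AddSubgroup.mem_top _⟩, AddSubgroup.index_top⟩

theorem subringCount_one (n : ℕ) : subringCount n 1 = 1 := by
  rw [subringCount_eq, UN_one, Set.ncard_singleton]

theorem index_zero (M : AddSubgroup (Fin 0 → ℤ)) : M.index = 1 := by
  rw [AddSubgroup.index_eq_one]
  ext x
  simp only [AddSubgroup.mem_top, iff_true]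
  rw [Subsingleton.elim x 0]
  exact M.zero_mem

theorem subringCount_zero (k : ℕ) (hk : k ≠ 1) : subringCount 0 k = 0 := by
  rw [subringCount_eq]
  have : UN (Fin 0) k = ∅ := by
    rw [Set.eq_empty_iff_forall_notMem]
    rintro M ⟨-, h⟩
    rw [index_zero] at h
    exact hk h.symm
  rw [this, Set.ncard_empty]

theorem gCount_zero (hp : p.Prime) (c : ℕ) : gCount p (Fin 0) c = if c = 0 then 1 else 0 := by
  unfold gCount
  rw [Nat.card_coe_set_eq]
  by_cases hc : c = 0
  · subst hc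
    rw [if_pos rfl]
    have : Lat p (Fin 0) 0 = {⊤} := by
      ext M
      simp only [Set.mem_singleton_iff]
      constructor
      · rintro ⟨-, h⟩
        rw [pow_zero] at h
        exact AddSubgroup.index_eq_one.1 h
      · rintro rfl
        exact ⟨fun x _ y _ => AddSubgroup.mem_top _, by rw [pow_zero]; exact AddSubgroup.index_top⟩
    rw [this, Set.ncard_singleton]
  · rw [if_neg hc]
    have : Lat p (Fin 0) c = ∅ := by
      rw [Set.eq_empty_iff_forall_notMem]
      rintro M ⟨-, h⟩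
      rw [index_zero] at h
      have := Nat.one_lt_pow hc hp.one_lt
      omega
    rw [this, Set.ncard_empty]

end Pool.Agent.E07280
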