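/-
Package P1 for MP_e07280_nt: if all `f_n(p^e)`, `n ≥ 5`, are polynomial in `p`, then all
`gCount` are rational functions of `p`.
-/
import Pool.Agent.E07280.P1c

open Finset Polynomial

namespace Pool.Agent.E07280

/-- `f` is given by a polynomial of degree at most `D` -/
def PolyLE (D : ℕ) (f : ℕ → ℚ) : Prop :=
  ∃ P : ℚ[X], P.natDegree ≤ D ∧ ∀ n : ℕ, f n = P.eval (n : ℚ)

namespace PolyLE

variable {D D' : ℕ} {f g : ℕ → ℚ}

theorem mono (hf : PolyLE D f) (h : D ≤ D') : PolyLE D' f := by
  obtain ⟨P, hP, hfP⟩ := hf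
  exact ⟨P, hP.trans h, hfP⟩

theorem congr (hf : PolyLE D f) (h : ∀ n, g n = f n) : PolyLE D g := by
  obtain ⟨P, hP, hfP⟩ := hf
  exact ⟨P, hP, fun n => (h n).trans (hfP n)⟩

theorem const (c : ℚ) : PolyLE 0 (fun _ => c) :=
  ⟨C c, by simp, fun n => by simp⟩

theorem add (hf : PolyLE D f) (hg : PolyLE D g) : PolyLE D (fun n => f n + g n) := by
  obtain ⟨P, hP, hfP⟩ := hf
  obtain ⟨Q, hQ, hgQ⟩ := hg
  exact ⟨P + Q, natDegree_add_le_of_degree_le hP hQ, fun n => by
    simp only [eval_add, hfP, hgQ]⟩

theorem const_mul (c : ℚ) (hf : PolyLE D f) : PolyLE D (fun n => c * f n) := by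
  obtain ⟨P, hP, hfP⟩ := hf
  exact ⟨C c * P, (natDegree_C_mul_le _ _).trans hP, fun n => by
    simp only [eval_mul, eval_C, hfP]⟩

theorem sum {ι : Type*} (s : Finset ι) {F : ι → ℕ → ℚ} (h : ∀ i ∈ s, PolyLE D (F i)) :
    PolyLE D (fun n => ∑ i ∈ s, F i n) := by
  classical
  induction s using Finset.induction_on with
  | empty => exact ((const 0).mono (Nat.zero_le _)).congr fun n => by simp
  | insert a s ha ih =>
    refine ((h a (Finset.mem_insert_self _ _)).add
      (ih fun i hi => h i (Finset.mem_insert_of_mem hi))).congr fun n => ?_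
    rw [Finset.sum_insert ha]

theorem choose_mul (b : ℕ) (hf : PolyLE D f) :
    PolyLE (b + D) (fun n => (n.choose b : ℚ) * f (n - b)) := by
  obtain ⟨P, hP, hfP⟩ := hf
  refine ⟨C ((b.factorial : ℚ)⁻¹) * descPochhammer ℚ b * P.comp (X - C (b : ℚ)), ?_, ?_⟩
  · refine natDegree_mul_le.trans (Nat.add_le_add ?_ ?_)
    · refine (natDegree_C_mul_le _ _).trans ?_
      rw [descPochhammer_natDegree]
    · rw [natDegree_comp, natDegree_X_sub_C, mul_one]
      exact hP
  · intro n
    have h0 : (b.factorial : ℚ) ≠ 0 := by exact_mod_cast b.factorial_ne_zero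
    have h1 : (C ((b.factorial : ℚ)⁻¹) * descPochhammer ℚ b).eval (n : ℚ) = (n.choose b : ℚ) := by
      rw [eval_mul, eval_C, descPochhammer_eval_eq_descFactorial,
        Nat.descFactorial_eq_factorial_mul_choose]
      push_cast
      field_simp
    rw [eval_mul, h1, eval_comp]
    simp only [hfP]
    rcases le_or_gt b n with hbn | hbn
    · rw [Nat.cast_sub hbn]
      simp
    · rw [Nat.choose_eq_zero_of_lt hbn]
      simp

theorem sumPow (i : ℕ) : PolyLE (i + 1) (fun n => ∑ k ∈ range n, (k : ℚ) ^ i) := by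
  refine (sum (range (i + 1)) (F := fun j n =>
    _root_.bernoulli j * ((i + 1).choose j) * (n : ℚ) ^ (i + 1 - j) / (i + 1)) ?_).congr
    fun n => sum_range_pow n i
  intro j _
  refine ⟨C (_root_.bernoulli j * ((i + 1).choose j) / (i + 1)) * X ^ (i + 1 - j), ?_, ?_⟩
  · exact (natDegree_C_mul_X_pow_le _ _).trans (Nat.sub_le _ _)
  · intro n
    simp only [eval_mul, eval_C, eval_pow, eval_X]
    ring

theorem sumRange (hf : PolyLE D f) : PolyLE (D + 1) (fun n => ∑ k ∈ range n, f k) := by
  obtain ⟨P, hP, hfP⟩ := hf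
  refine (sum (range (D + 1)) (F := fun i n => P.coeff i * ∑ k ∈ range n, (k : ℚ) ^ i) ?_).congr ?_
  · intro i hi
    rw [mem_range] at hi
    exact ((sumPow i).mono (by omega)).const_mul _
  · intro n
    have h1 : ∀ k : ℕ, f k = ∑ i ∈ range (D + 1), P.coeff i * (k : ℚ) ^ i := by
      intro k
      rw [hfP, eval_eq_sum_range' (Nat.lt_succ_of_le hP)]
    simp only [h1, mul_sum]
    rw [sum_comm]

theorem of_diff (hg : PolyLE D g) (h : ∀ n, f (n + 1) = f n + g n) : PolyLE (D + 1) f := by
  refine (((const (f 0)).mono (Nat.zero_le _)).add hg.sumRange).congr fun n => ?_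
  induction n with
  | zero => simp
  | succ n ih => rw [h, ih, sum_range_succ]; ring

theorem vanish (hf : PolyLE D f) (n : ℕ) :
    ∑ k ∈ range (D + 2), (-1 : ℚ) ^ k * ((D + 1).choose k) * f (n + k) = 0 := by
  obtain ⟨P, hP, hfP⟩ := hf
  have h1 := congrFun (Polynomial.fwdDiff_iter_eq_zero_of_degree_lt (Nat.lt_succ_of_le hP)) (n : ℚ)
  rw [fwdDiff_iter_eq_sum_shift] at h1
  simp only [Pi.zero_apply, nsmul_eq_mul, mul_one, Nat.succ_eq_add_one, zsmul_eq_mul] at h1
  have h2 : ∑ k ∈ range (D + 2), (-1 : ℚ) ^ k * ((D + 1).choose k) * f (n + k) =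
      (-1) ^ (D + 1) * ∑ k ∈ range (D + 1 + 1),
        (((-1 : ℤ) ^ (D + 1 - k) * ((D + 1).choose k : ℤ) : ℤ) : ℚ) * P.eval ((n : ℚ) + k) := by
    rw [mul_sum]
    refine sum_congr rfl fun k hk => ?_
    rw [mem_range] at hk
    have h3 : (-1 : ℚ) ^ (D + 1) = (-1) ^ (D + 1 - k) * (-1) ^ k := by
      rw [← pow_add]
      congr 1
      omega
    have h4 : (-1 : ℚ) ^ (D + 1 - k) * (-1) ^ (D + 1 - k) = 1 := by
      rw [← mul_pow]
      simp
    rw [hfP, h3]
    push_cast
    linear_combination (-(-1 : ℚ) ^ k * ((D + 1).choose k) * P.eval ((n : ℚ) + k)) * h4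
  rw [h2, h1, mul_zero]

end PolyLE

variable {p : ℕ}

/-- the recursion with the sum over `b ≤ e`, in `ℚ` -/
theorem subringCount_succ' (hp : p.Prime) (n e : ℕ) : (subringCount (n + 1) (p ^ e) : ℚ) =
    ∑ b ∈ range (e + 1), (n.choose b : ℚ) * ∑ t ∈ antidiagonal (e - b),
      (gCount p (Fin b) t.1 : ℚ) * (subringCount (n - b) (p ^ t.2) : ℚ) := by
  rw [subringCount_succ hp]
  push_cast
  have h1 : ∀ b ∈ range (n + 1), (n.choose b : ℚ) * ((if b ≤ e then
      ∑ t ∈ antidiagonal (e - b), (gCount p (Fin b) t.1 : ℚ) * (subringCount (n - b) (p ^ t.2) : ℚ)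
        else 0)) = if b ∈ range (e + 1) then (n.choose b : ℚ) * ∑ t ∈ antidiagonal (e - b),
      (gCount p (Fin b) t.1 : ℚ) * (subringCount (n - b) (p ^ t.2) : ℚ) else 0 := by
    intro b _
    by_cases hb : b ≤ e
    · rw [if_pos hb, if_pos (mem_range.2 (Nat.lt_succ_of_le hb))]
    · rw [if_neg hb, if_neg (fun h => hb (Nat.lt_succ_iff.1 (mem_range.1 h))), mul_zero]
  have h2 : ∀ b ∈ range (e + 1), (n.choose b : ℚ) * ∑ t ∈ antidiagonal (e - b),
      (gCount p (Fin b) t.1 : ℚ) * (subringCount (n - b) (p ^ t.2) : ℚ) =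
      if b ∈ range (n + 1) then (n.choose b : ℚ) * ∑ t ∈ antidiagonal (e - b),
      (gCount p (Fin b) t.1 : ℚ) * (subringCount (n - b) (p ^ t.2) : ℚ) else 0 := by
    intro b _
    by_cases hb : b ∈ range (n + 1)
    · rw [if_pos hb]
    · rw [if_neg hb]
      rw [mem_range, not_lt] at hb
      rw [Nat.choose_eq_zero_of_lt (by omega)]
      simp
  rw [sum_congr rfl h1, sum_congr rfl h2, ← sum_filter, ← sum_filter]
  refine sum_congr ?_ fun _ _ => rfl
  ext b
  simp only [mem_filter]
  exact and_comm

theorem polyLE_subringCount (hp : p.Prime) (e : ℕ) :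
    PolyLE (2 * e) (fun n => (subringCount n (p ^ e) : ℚ)) := by
  induction e using Nat.strong_induction_on with
  | _ e ih =>
    rcases Nat.eq_zero_or_pos e with rfl | he
    · exact (PolyLE.const 1).congr fun n => by rw [pow_zero, subringCount_one]; simp
    · have h2e : 2 * e = (2 * e - 1) + 1 := by omega
      rw [h2e]
      refine PolyLE.of_diff (g := fun n => ∑ b ∈ range e, ((n.choose (b + 1) : ℚ) *
        ∑ t ∈ antidiagonal (e - (b + 1)),
        (gCount p (Fin (b + 1)) t.1 : ℚ) * (subringCount (n - (b + 1)) (p ^ t.2) : ℚ))) ?_ ?_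
      · refine PolyLE.sum _ fun b hb => ?_
        rw [mem_range] at hb
        refine PolyLE.mono (D := (b + 1) + 2 * (e - (b + 1))) ?_ (by omega)
        refine PolyLE.choose_mul (b + 1) (f := fun n => ∑ t ∈ antidiagonal (e - (b + 1)),
          (gCount p (Fin (b + 1)) t.1 : ℚ) * (subringCount n (p ^ t.2) : ℚ)) ?_
        refine PolyLE.sum _ fun t ht => ?_
        rw [HasAntidiagonal.mem_antidiagonal] at ht
        exact ((ih t.2 (by omega)).mono (by omega)).const_mul _
      · intro n
        rw [subringCount_succ' hp, sum_range_succ']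
        simp only [Nat.choose_zero_right, Nat.cast_one, one_mul, Nat.sub_zero]
        rw [add_comm]
        congr 1
        rw [sum_eq_single (0, e)]
        · rw [gCount_zero hp]
          simp
        · rintro ⟨i, j⟩ ht hne
          rw [HasAntidiagonal.mem_antidiagonal] at ht
          rw [gCount_zero hp]
          simp only at ht ⊢
          rw [if_neg]
          · simp
          · rintro rfl
            apply hne
            rw [zero_add] at ht
            rw [ht]
        · intro h
          exact absurd (by rw [HasAntidiagonal.mem_antidiagonal, zero_add]) h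

theorem subringCount_ratFun
    (H : ∀ n, 5 ≤ n → ∀ e, 1 ≤ e → ∃ P : ℚ[X], ∀ p : ℕ, p.Prime →
      (subringCount n (p ^ e) : ℚ) = P.eval (p : ℚ)) (n e : ℕ) :
    RatFun fun p => (subringCount n ((p : ℕ) ^ e) : ℚ) := by
  rcases Nat.eq_zero_or_pos e with rfl | he
  · exact (RatFun.const 1).congr fun p _ => by rw [pow_zero, subringCount_one]; simp
  · have key : ∀ j n, 5 ≤ n + j → RatFun fun p => (subringCount n ((p : ℕ) ^ e) : ℚ) := by
      intro j
      induction j with
      | zero =>
        intro n hn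
        obtain ⟨P, hP⟩ := H n hn e he
        exact (RatFun.poly P).congr fun p _ => hP p p.2
      | succ j ih =>
        intro n hn
        refine (RatFun.neg (RatFun.sum (range (2 * e + 1)) (F := fun k p =>
          ((-1 : ℚ) ^ (k + 1) * ((2 * e + 1).choose (k + 1)) *
            (subringCount (n + (k + 1)) ((p : ℕ) ^ e) : ℚ))) ?_)).congr ?_
        · intro k _
          exact (RatFun.const _).mul (ih (n + (k + 1)) (by omega))
        · intro p _
          have h := (polyLE_subringCount p.2 e).vanish n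
          rw [sum_range_succ'] at h
          simp only [pow_zero, Nat.choose_zero_right, Nat.cast_one, mul_one, one_mul,
            add_zero] at h
          linarith
    exact key 5 n (by omega)

/-- P1 -/
theorem gCount_ratFun
    (H : ∀ n, 5 ≤ n → ∀ e, 1 ≤ e → ∃ P : ℚ[X], ∀ p : ℕ, p.Prime →
      (subringCount n (p ^ e) : ℚ) = P.eval (p : ℚ)) (N c : ℕ) :
    RatFun fun p => (gCount p (Fin N) c : ℚ) := by
  induction N using Nat.strong_induction_on generalizing c with
  | _ N ih =>
    refine ((subringCount_ratFun H (N + 1) (N + c)).sub (RatFun.sum (range N)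
      (F := fun b p => (N.choose b : ℚ) * ∑ t ∈ antidiagonal (N + c - b),
        (gCount p (Fin b) t.1 : ℚ) * (subringCount (N - b) ((p : ℕ) ^ t.2) : ℚ)) ?_)).congr ?_
    · intro b hb
      rw [mem_range] at hb
      exact (RatFun.const _).mul (RatFun.sum _ fun t _ =>
        (ih b hb t.1).mul (subringCount_ratFun H (N - b) t.2))
    · intro p _
      have h := subringCount_succ p.2 N (N + c)
      have h' : ((subringCount (N + 1) ((p : ℕ) ^ (N + c)) : ℕ) : ℚ) = _ :=
        congrArg (Nat.cast (R := ℚ)) h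
      push_cast at h'
      rw [sum_range_succ] at h'
      rw [h', sum_congr rfl (g := fun b => (N.choose b : ℚ) * ∑ t ∈ antidiagonal (N + c - b),
        (gCount p (Fin b) t.1 : ℚ) * (subringCount (N - b) ((p : ℕ) ^ t.2) : ℚ))]
      · rw [add_sub_cancel_left, Nat.choose_self, if_pos (Nat.le_add_right N c), Nat.sub_self,
          Nat.add_sub_cancel_left]
        rw [sum_eq_single (c, 0)]
        · simp [subringCount_one]
        · rintro ⟨i, j⟩ ht hne
          rw [HasAntidiagonal.mem_antidiagonal] at ht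
          have hj : j ≠ 0 := by
            rintro rfl
            apply hne
            simp only [add_zero] at ht
            rw [ht]
          simp only
          rw [subringCount_zero _ (Nat.one_lt_pow hj p.2.one_lt).ne']
          simp
        · intro h
          exact absurd (by rw [HasAntidiagonal.mem_antidiagonal, add_zero]) h
      · intro b hb
        rw [mem_range] at hb
        rw [if_pos (by omega)]

end Pool.Agent.E07280
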