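/-
P10 (first half): an integer valued rational function of polynomial growth is a polynomial, and the
vanishing of a 15th divided difference.
-/
import Pool.Agent.E07280.Defs

open Finset Polynomial Filter Topology

namespace Pool.Agent.E07280

/-- a rational polynomial has bounded denominators on the natural numbers -/
theorem exists_den (Q : ℚ[X]) : ∃ N : ℕ, N ≠ 0 ∧ ∀ n : ℕ, ∃ z : ℤ, (N : ℚ) * Q.eval (n : ℚ) = z := by
  induction Q using Polynomial.induction_on' with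
  | add p q hp hq =>
    obtain ⟨N, hN, h1⟩ := hp
    obtain ⟨M, hM, h2⟩ := hq
    refine ⟨N * M, mul_ne_zero hN hM, fun n => ?_⟩
    obtain ⟨z, hz⟩ := h1 n
    obtain ⟨w, hw⟩ := h2 n
    refine ⟨M * z + N * w, ?_⟩
    rw [eval_add]
    push_cast
    rw [← hz, ← hw]
    ring
  | monomial k a =>
    refine ⟨a.den, a.den_ne_zero, fun n => ⟨a.num * n ^ k, ?_⟩⟩
    rw [eval_monomial]
    push_cast
    rw [← mul_assoc, mul_comm ((a.den : ℚ)) a, Rat.mul_den_eq_num]

theorem exists_prime_ge (x : ℚ) : ∃ p : Nat.Primes, 17 ≤ (p : ℕ) ∧ x ≤ ((p : ℕ) : ℚ) := by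
  obtain ⟨n, hn⟩ := exists_nat_ge x
  obtain ⟨p, hp, hpp⟩ := Nat.exists_infinite_primes (max n 17)
  refine ⟨⟨p, hpp⟩, le_trans (le_max_right _ _) hp, ?_⟩
  have : n ≤ p := le_trans (le_max_left _ _) hp
  have h2 : (n : ℚ) ≤ (p : ℚ) := by exact_mod_cast this
  exact hn.trans h2

theorem eq_zero_of_large_primes (R : ℚ[X]) (x₀ : ℚ)
    (h : ∀ p : Nat.Primes, 17 ≤ (p : ℕ) → x₀ ≤ ((p : ℕ) : ℚ) → R.eval ((p : ℕ) : ℚ) = 0) :
    R = 0 := by
  by_contra hR
  obtain ⟨x₁, hx₁⟩ := eventually_atTop.1 (R.eventually_atTop_not_isRoot hR)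
  obtain ⟨p, hp, hpx⟩ := exists_prime_ge (max x₀ x₁)
  exact hx₁ _ ((le_max_right _ _).trans hpx) (h p hp ((le_max_left _ _).trans hpx))

theorem exists_poly_of_bound (F : Nat.Primes → ℚ) (hF : RatFun F)
    (hint : ∀ p : Nat.Primes, 17 ≤ (p : ℕ) → ∃ z : ℤ, F p = z) (C : ℚ) (D : ℕ)
    (hb : ∀ p : Nat.Primes, 17 ≤ (p : ℕ) → |F p| ≤ C * ((p : ℕ) : ℚ) ^ D) :
    ∃ Q : ℚ[X], Q.natDegree ≤ D ∧ ∀ p : Nat.Primes, 17 ≤ (p : ℕ) → F p = Q.eval ((p : ℕ) : ℚ) := by
  obtain ⟨A, B, hAB⟩ := hF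
  have hB : B ≠ 0 := by
    rintro rfl
    obtain ⟨p, hp, -⟩ := exists_prime_ge 0
    exact (hAB p hp).1 (by simp)
  set Q := A / B with hQ
  set R := A % B with hR
  have hdiv : B * Q + R = A := EuclideanDomain.div_add_mod A B
  have hdeg : R.degree < B.degree := Polynomial.degree_mod_lt A hB
  obtain ⟨N, hN, hden⟩ := exists_den Q
  have hNpos : (0 : ℚ) < N := by exact_mod_cast Nat.pos_of_ne_zero hN
  have htend := Polynomial.div_tendsto_atTop_zero_of_degree_lt R B hdeg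
  have hev : ∀ᶠ x : ℚ in atTop, |eval x R / eval x B| < 1 / N := by
    have h1 := htend.abs
    rw [abs_zero] at h1
    exact h1.eventually_lt_const (by positivity)
  obtain ⟨x₀, hx₀⟩ := eventually_atTop.1 hev
  have hFQ : ∀ p : Nat.Primes, 17 ≤ (p : ℕ) → F p = Q.eval ((p : ℕ) : ℚ) +
      R.eval ((p : ℕ) : ℚ) / B.eval ((p : ℕ) : ℚ) := by
    intro p hp
    obtain ⟨h1, h2⟩ := hAB p hp
    rw [h2, ← hdiv, eval_add, eval_mul]
    field_simp
  have hR0 : R = 0 := by
    apply eq_zero_of_large_primes R x₀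
    intro p hp hpx
    obtain ⟨z, hz⟩ := hint p hp
    obtain ⟨w, hw⟩ := hden p
    have h1 := hFQ p hp
    have h2 : (N : ℚ) * (R.eval ((p : ℕ) : ℚ) / B.eval ((p : ℕ) : ℚ)) = ((N * z - w : ℤ) : ℚ) := by
      push_cast
      rw [← hz, ← hw, h1]
      ring
    have h3 := hx₀ _ hpx
    have h4 : |((N * z - w : ℤ) : ℚ)| < 1 := by
      rw [← h2, abs_mul, abs_of_pos hNpos]
      calc (N : ℚ) * |eval ((p : ℕ) : ℚ) R / eval ((p : ℕ) : ℚ) B| < N * (1 / N) :=
            mul_lt_mul_of_pos_left h3 hNpos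
        _ = 1 := by field_simp
    have h5 : |N * z - w| < 1 := by exact_mod_cast h4
    rw [Int.abs_lt_one_iff] at h5
    rw [h5, Int.cast_zero] at h2
    rcases mul_eq_zero.1 h2 with h | h
    · exact absurd h hNpos.ne'
    · rcases div_eq_zero_iff.1 h with h | h
      · exact h
      · exact absurd h (hAB p hp).1
  refine ⟨Q, ?_, fun p hp => ?_⟩
  · by_contra hcon
    rw [not_le] at hcon
    have hQ0 : Q ≠ 0 := by
      rintro h
      rw [h] at hcon
      simp at hcon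
    have hd : (X ^ D : ℚ[X]).degree < Q.degree := by
      rw [degree_X_pow, degree_eq_natDegree hQ0]
      exact_mod_cast hcon
    have ht := Polynomial.abs_div_tendsto_atTop_atTop_of_degree_gt Q (X ^ D) hd
      (pow_ne_zero _ X_ne_zero)
    obtain ⟨x₁, hx₁⟩ := eventually_atTop.1 (ht.eventually_gt_atTop C)
    obtain ⟨p, hp, hpx⟩ := exists_prime_ge x₁
    have h1 := hx₁ _ hpx
    have hp0 : (0 : ℚ) < ((p : ℕ) : ℚ) ^ D := by
      have : (0 : ℚ) < ((p : ℕ) : ℚ) := by exact_mod_cast p.2.pos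
      positivity
    rw [eval_pow, eval_X, abs_div, abs_of_pos hp0, lt_div_iff₀ hp0] at h1
    have h2 := hb p hp
    rw [hFQ p hp, hR0] at h2
    simp only [eval_zero, zero_div, add_zero] at h2
    linarith
  · rw [hFQ p hp, hR0]
    simp

/-- the (scaled) divided difference at the 16 primes `17, …, 79` of a polynomial of degree `≤ 14`
vanishes -/
theorem divided_difference (Q : ℚ[X]) (h : Q.natDegree ≤ 14) :
    (-41344) * Q.eval 17 + (164920) * Q.eval 19 + (-575484) * Q.eval 23 + (6905808) * Q.eval 29 + (-11715210) * Q.eval 31 + (25727520) * Q.eval 37 + (-86765280) * Q.eval 41 + (92520120) * Q.eval 43 + (-34695045) * Q.eval 47 + (13853280) * Q.eval 53 + (-15620280) * Q.eval 59 + (11509680) * Q.eval 61 + (-1859256) * Q.eval 67 + (907060) * Q.eval 71 + (-320416) * Q.eval 73 + (3927) * Q.eval 79 = 0 := by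
  have h15 : Q.natDegree < 15 := by omega
  simp only [eval_eq_sum_range' h15, Finset.sum_range_succ, Finset.sum_range_zero]
  ring

end Pool.Agent.E07280
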