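/-
P10 (second half): sums over all Weierstrass cubics by twisting, and the values of `YY` at the
sixteen primes `17, …, 79`.
-/
import Pool.Agent.E07280.P10a

open Finset Polynomial

namespace Pool.Agent.E07280

section Twist

variable {K : Type} [Field K] [Fintype K] [DecidableEq K]

/-- character sum of a function -/
def chiS (D : K → K) : ℤ := ∑ x : K, quadraticChar K (D x)

theorem card_sqrt (hK : ringChar K ≠ 2) (a : K) :
    ((#{y : K | y ^ 2 = a} : ℕ) : ℤ) = quadraticChar K a + 1 := by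
  rw [← quadraticChar_card_sqrts hK a]
  congr 2
  ext y
  simp

theorem cnt_fib (D : K → K) : cnt D = ∑ x : K, #{y : K | y ^ 2 = D x} := by
  rw [cnt, ← Finset.univ_product_univ, Finset.card_filter, Finset.sum_product]
  exact Finset.sum_congr rfl fun x _ => by rw [Finset.card_filter]

theorem cnt_eq (hK : ringChar K ≠ 2) (D : K → K) :
    (cnt D : ℤ) = Fintype.card K + chiS D := by
  rw [cnt_fib, chiS]
  push_cast
  rw [Finset.sum_congr rfl fun x _ => card_sqrt hK (D x), Finset.sum_add_distrib]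
  simp [add_comm]

theorem chiS_abs_le (D : K → K) : |chiS D| ≤ Fintype.card K := by
  rw [chiS]
  refine (Finset.abs_sum_le_sum_abs _ _).trans ?_
  calc ∑ x : K, |quadraticChar K (D x)| ≤ ∑ _x : K, (1 : ℤ) := by
        refine Finset.sum_le_sum fun x _ => ?_
        by_cases h : D x = 0
        · rw [h, quadraticChar_zero]; simp
        · rcases quadraticChar_dichotomy h with h | h <;> rw [h] <;> simp
    _ = _ := by simp

theorem chiS_twist {d : K} (hd : d ≠ 0) (A B : K) :
    chiS (fun t => t ^ 3 + d ^ 2 * A * t + d ^ 3 * B) =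
      quadraticChar K d * chiS (fun t => t ^ 3 + A * t + B) := by
  rw [chiS, chiS, Finset.mul_sum]
  refine (Fintype.sum_bijective (fun x : K => d * x) (mulLeft_bijective₀ d hd) _ _ fun x => ?_).symm
  have h1 : (d * x) ^ 3 + d ^ 2 * A * (d * x) + d ^ 3 * B = d ^ 2 * (d * (x ^ 3 + A * x + B)) := by
    ring
  rw [h1, map_mul, map_mul, quadraticChar_sq_one' hd, one_mul]

/-- sum over the nonzero elements of a function of the quadratic character -/
theorem sum_char (hK : ringChar K ≠ 2) (H : ℤ → ℚ) :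
    ∑ d ∈ univ.filter (fun d : K => d ≠ 0), H (quadraticChar K d) =
      ((Fintype.card K - 1 : ℕ) : ℚ) / 2 * (H 1 + H (-1)) := by
  have h0 := quadraticChar_sum_zero hK
  have hcard : #(univ.filter (fun d : K => d ≠ 0)) = Fintype.card K - 1 := by
    rw [Finset.filter_ne' univ (0 : K), Finset.card_erase_of_mem (mem_univ _), Finset.card_univ]
  have h1 : ∑ d ∈ univ.filter (fun d : K => d ≠ 0), (quadraticChar K d : ℤ) = 0 := by
    rw [← h0, Finset.sum_filter_of_ne]
    intro x _ hx h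
    rw [h, quadraticChar_zero] at hx
    exact hx rfl
  have h2 : ∀ d ∈ univ.filter (fun d : K => d ≠ 0), H (quadraticChar K d) =
      (H 1 + H (-1)) / 2 + (H 1 - H (-1)) / 2 * ((quadraticChar K d : ℤ) : ℚ) := by
    intro d hd
    rw [mem_filter] at hd
    rcases quadraticChar_dichotomy hd.2 with h | h <;> rw [h] <;> push_cast <;> ring
  rw [Finset.sum_congr rfl h2, Finset.sum_add_distrib, ← Finset.mul_sum, ← Int.cast_sum, h1,
    Finset.sum_const, hcard]
  simp
  ring

theorem sum_pairs (G : K → K → ℚ) :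
    ∑ A ∈ univ.filter (fun d : K => d ≠ 0), ∑ B ∈ univ.filter (fun d : K => d ≠ 0), G A B =
    ∑ r ∈ univ.filter (fun d : K => d ≠ 0), ∑ d ∈ univ.filter (fun d : K => d ≠ 0),
      G (d ^ 2 * r) (d ^ 3 * r) := by
  rw [← Finset.sum_product', ← Finset.sum_product']
  symm
  refine Finset.sum_bij' (fun x _ => (x.2 ^ 2 * x.1, x.2 ^ 3 * x.1))
    (fun x _ => (x.1 ^ 3 / x.2 ^ 2, x.2 / x.1)) ?_ ?_ ?_ ?_ ?_
  · rintro ⟨r, d⟩ h
    simp only [mem_product, mem_filter, mem_univ, true_and] at h ⊢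
    exact ⟨mul_ne_zero (pow_ne_zero _ h.2) h.1, mul_ne_zero (pow_ne_zero _ h.2) h.1⟩
  · rintro ⟨A, B⟩ h
    simp only [mem_product, mem_filter, mem_univ, true_and] at h ⊢
    exact ⟨div_ne_zero (pow_ne_zero _ h.1) (pow_ne_zero _ h.2), div_ne_zero h.2 h.1⟩
  · rintro ⟨r, d⟩ h
    simp only [mem_product, mem_filter, mem_univ, true_and] at h
    obtain ⟨h1, h2⟩ := h
    simp only [Prod.mk.injEq]
    constructor <;> field_simp
  · rintro ⟨A, B⟩ h
    simp only [mem_product, mem_filter, mem_univ, true_and] at h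
    obtain ⟨h1, h2⟩ := h
    simp only [Prod.mk.injEq]
    constructor <;> field_simp
  · rintro ⟨r, d⟩ _
    rfl

theorem SAB_eq (hK : ringChar K ≠ 2) (g : ℕ → ℚ) :
    SAB K g = ∑ B : K, g (cnt fun t => t ^ 3 + B)
      + ∑ A ∈ univ.filter (fun d : K => d ≠ 0), g (cnt fun t => t ^ 3 + A * t)
      + ((Fintype.card K - 1 : ℕ) : ℚ) / 2 * ∑ r ∈ univ.filter (fun d : K => d ≠ 0),
        (g (cnt fun t => t ^ 3 + r * t + r) +
          g (2 * Fintype.card K - cnt fun t => t ^ 3 + r * t + r)) := by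
  have split : ∀ f : K → ℚ, ∑ x : K, f x = f 0 + ∑ x ∈ univ.filter (fun d : K => d ≠ 0), f x := by
    intro f
    rw [Finset.filter_ne' univ (0 : K), Finset.add_sum_erase _ _ (mem_univ _)]
  rw [SAB, split (fun A => ∑ B : K, g (cnt fun t => t ^ 3 + A * t + B))]
  have e1 : ∑ B : K, g (cnt fun t => t ^ 3 + 0 * t + B) = ∑ B : K, g (cnt fun t => t ^ 3 + B) := by
    simp
  rw [e1, add_assoc]
  congr 1
  rw [Finset.sum_congr rfl fun A _ => split (fun B => g (cnt fun t => t ^ 3 + A * t + B)),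
    Finset.sum_add_distrib]
  simp only [add_zero]
  congr 1
  rw [sum_pairs (fun A B => g (cnt fun t => t ^ 3 + A * t + B)), Finset.mul_sum]
  refine Finset.sum_congr rfl fun r _ => ?_
  obtain ⟨q, hq⟩ : ∃ q : ℤ, q = ((Fintype.card K : ℕ) : ℤ) := ⟨_, rfl⟩
  have key : ∀ D : K → K, cnt D = (q + chiS D).toNat := fun D => by
    rw [hq, ← cnt_eq hK D]; simp
  rw [Finset.sum_congr rfl fun d hd => by
    rw [key, chiS_twist (mem_filter.1 hd).2]]
  rw [sum_char hK (fun c => g (q + c * chiS fun t => t ^ 3 + r * t + r).toNat)]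
  congr 2
  · rw [one_mul, key]
  · congr 1
    have h1 := cnt_eq hK (fun t : K => t ^ 3 + r * t + r)
    have h2 := (abs_le.1 (chiS_abs_le (fun t : K => t ^ 3 + r * t + r)))
    omega

end Twist

end Pool.Agent.E07280
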