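/-
P10: `YY` is not a rational function of `p`.
-/
import Pool.Agent.E07280.P10b

open Finset Polynomial

namespace Pool.Agent.E07280

/-! ### Kernel-friendly versions -/

/-- number of solutions of `y² ≡ c (mod p)`, read from the table `T` written in base `4` -/
def dig (T c : ℕ) : ℕ := (T >>> (2 * c)) % 4

def sumN (f : ℕ → ℕ) : ℕ → ℕ
  | 0 => 0
  | n + 1 => sumN f n + f n

def sumZ (f : ℕ → ℤ) : ℕ → ℤ
  | 0 => 0
  | n + 1 => sumZ f n + f n

def cntN (p T A B : ℕ) : ℕ := sumN (fun x => dig T ((x ^ 3 + A * x + B) % p)) p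

def gz (p n : ℕ) : ℤ := ((p : ℤ) ^ 2 - 9 * p + 36) * (((n + 1).descFactorial 10 / 3628800 : ℕ) : ℤ) -
  12 * ((n.descFactorial 9 / 362880 : ℕ) : ℤ)

def yN (p T : ℕ) : ℤ := sumZ (fun B => gz p (cntN p T 0 B)) p +
  sumZ (fun A => gz p (cntN p T (A + 1) 0)) (p - 1) +
  (((p - 1) / 2 : ℕ) : ℤ) * sumZ (fun r => gz p (cntN p T (r + 1) (r + 1)) +
    gz p (2 * p - cntN p T (r + 1) (r + 1))) (p - 1)

/-- `T` is the correct table of the numbers of square roots modulo `p` -/
def IsTable (p T : ℕ) : Prop :=
  ∀ c < p, sumN (fun y => if y * y % p = c then 1 else 0) p = dig T c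

instance (p T : ℕ) : Decidable (IsTable p T) := by unfold IsTable; infer_instance

theorem sumN_eq (f : ℕ → ℕ) (n : ℕ) : sumN f n = ∑ i ∈ range n, f i := by
  induction n with
  | zero => simp [sumN]
  | succ n ih => rw [sumN, ih, Finset.sum_range_succ]

theorem sumZ_eq (f : ℕ → ℤ) (n : ℕ) : sumZ f n = ∑ i ∈ range n, f i := by
  induction n with
  | zero => simp [sumZ]
  | succ n ih => rw [sumZ, ih, Finset.sum_range_succ]

section

variable (p : ℕ) [Fact p.Prime]

theorem sum_zmod {M : Type*} [AddCommMonoid M] (f : ZMod p → M) :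
    ∑ x : ZMod p, f x = ∑ i ∈ range p, f (i : ZMod p) := by
  refine Finset.sum_nbij' (fun x => x.val) (fun i => (i : ZMod p)) ?_ ?_ ?_ ?_ ?_
  · intro x _
    exact Finset.mem_range.2 (ZMod.val_lt x)
  · intro i _
    exact Finset.mem_univ _
  · intro x _
    exact ZMod.natCast_zmod_val x
  · intro i hi
    exact ZMod.val_cast_of_lt (Finset.mem_range.1 hi)
  · intro x _
    rw [ZMod.natCast_zmod_val x]

theorem sum_zmod_ne (f : ZMod p → ℚ) :
    ∑ x ∈ univ.filter (fun d : ZMod p => d ≠ 0), f x =
      ∑ i ∈ range (p - 1), f ((i + 1 : ℕ) : ZMod p) := by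
  have h1 := sum_zmod p f
  obtain ⟨q, hq⟩ : ∃ q, p = q + 1 := ⟨p - 1, by have := (Fact.out : p.Prime).pos; omega⟩
  have h2 : ∑ i ∈ range p, f (i : ZMod p) = ∑ i ∈ range (p - 1), f ((i + 1 : ℕ) : ZMod p) + f 0 := by
    have h3 : range p = range (p - 1 + 1) := by congr 1; omega
    rw [h3, Finset.sum_range_succ']
    simp
  have h4 : ∑ x : ZMod p, f x = f 0 + ∑ x ∈ univ.filter (fun d : ZMod p => d ≠ 0), f x := by
    rw [Finset.filter_ne' univ (0 : ZMod p), Finset.add_sum_erase _ _ (mem_univ _)]
  linarith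

theorem card_sqrt_nat {T : ℕ} (hT : IsTable p T) (c : ℕ) :
    #{y : ZMod p | y ^ 2 = (c : ZMod p)} = dig T (c % p) := by
  rw [← hT (c % p) (Nat.mod_lt _ (Fact.out : p.Prime).pos), sumN_eq, Finset.card_filter, sum_zmod]
  refine Finset.sum_congr rfl fun i _ => ?_
  have : ((i : ZMod p) ^ 2 = (c : ZMod p)) ↔ i * i % p = c % p := by
    rw [← ZMod.natCast_eq_natCast_iff']
    push_cast
    rw [sq]
  simp only [this]

theorem cnt_nat {T : ℕ} (hT : IsTable p T) (A B : ℕ) :
    cnt (fun t : ZMod p => t ^ 3 + (A : ZMod p) * t + (B : ZMod p)) = cntN p T A B := by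
  rw [cnt_fib, sum_zmod, cntN, sumN_eq]
  refine Finset.sum_congr rfl fun i _ => ?_
  rw [← card_sqrt_nat p hT]
  push_cast
  rfl

omit [Fact (Nat.Prime p)] in
theorem gz_eq (n : ℕ) : ((gz p n : ℤ) : ℚ) =
    ((p : ℚ) ^ 2 - 9 * p + 36) * ((n + 1).choose 10 : ℚ) - 12 * (n.choose 9 : ℚ) := by
  rw [gz, Nat.choose_eq_descFactorial_div_factorial, Nat.choose_eq_descFactorial_div_factorial,
    show Nat.factorial 10 = 3628800 from rfl, show Nat.factorial 9 = 362880 from rfl]
  simp only [Int.cast_sub, Int.cast_mul, Int.cast_add, Int.cast_pow, Int.cast_natCast,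
    Int.cast_ofNat]

theorem YY_val {T : ℕ} (hT : IsTable p T) (h2 : p ≠ 2) : YY p = ((yN p T : ℤ) : ℚ) := by
  have hK : ringChar (ZMod p) ≠ 2 := by rw [ZMod.ringChar_zmod_n]; exact h2
  have hg : (fun n : ℕ => ((p : ℚ) ^ 2 - 9 * p + 36) * ((n + 1).choose 10 : ℚ) -
      12 * (n.choose 9 : ℚ)) = fun n => ((gz p n : ℤ) : ℚ) := by
    funext n; rw [gz_eq]
  rw [YY, hg, SAB_eq hK, ZMod.card, yN, sumZ_eq, sumZ_eq, sumZ_eq, sum_zmod, sum_zmod_ne,
    sum_zmod_ne]
  have hhalf : ((p - 1 : ℕ) : ℚ) / 2 = (((p - 1) / 2 : ℕ) : ℚ) := by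
    obtain ⟨k, hk⟩ := (Fact.out : p.Prime).odd_of_ne_two h2
    rw [hk]
    have e : (2 * k + 1 - 1) / 2 = k := by omega
    rw [e]
    push_cast
    ring
  rw [hhalf]
  have e1 : ∀ i : ℕ, (cnt fun t : ZMod p => t ^ 3 + (i : ZMod p)) = cntN p T 0 i := by
    intro i
    rw [← cnt_nat p hT 0 i]
    simp
  have e2 : ∀ i : ℕ, (cnt fun t : ZMod p => t ^ 3 + ((i + 1 : ℕ) : ZMod p) * t) =
      cntN p T (i + 1) 0 := by
    intro i
    rw [← cnt_nat p hT (i + 1) 0]
    simp
  have e3 : ∀ i : ℕ, (cnt fun t : ZMod p => t ^ 3 + ((i + 1 : ℕ) : ZMod p) * t +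
      ((i + 1 : ℕ) : ZMod p)) = cntN p T (i + 1) (i + 1) := fun i => cnt_nat p hT (i + 1) (i + 1)
  simp only [e1, e2, e3, Int.cast_add, Int.cast_mul, Int.cast_sum, Int.cast_natCast]

theorem YY_int (p : ℕ) [Fact p.Prime] : ∃ z : ℤ, YY p = z := by
  refine ⟨∑ A : ZMod p, ∑ B : ZMod p, gz p (cnt fun t => t ^ 3 + A * t + B), ?_⟩
  rw [YY, SAB]
  push_cast
  refine Finset.sum_congr rfl fun A _ => Finset.sum_congr rfl fun B _ => ?_
  rw [gz_eq]

end

theorem YY_bound (p : ℕ) [Fact p.Prime] (hp : 17 ≤ p) : |YY p| ≤ 295245 * (p : ℚ) ^ 14 := by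
  have hK : ringChar (ZMod p) ≠ 2 := by rw [ZMod.ringChar_zmod_n]; omega
  have hp1 : (17 : ℚ) ≤ p := by exact_mod_cast hp
  have hg : ∀ D : ZMod p → ZMod p, |((p : ℚ) ^ 2 - 9 * p + 36) * ((cnt D + 1).choose 10 : ℚ) -
      12 * ((cnt D).choose 9 : ℚ)| ≤ 295245 * (p : ℚ) ^ 12 := by
    intro D
    have h1 : cnt D ≤ 2 * p := by
      have h1 := cnt_eq hK D
      have h2 := (abs_le.1 (chiS_abs_le D)).2
      rw [ZMod.card] at h1 h2
      omega
    have h2 : ((cnt D + 1).choose 10 : ℚ) ≤ (3 * p) ^ 10 := by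
      have h3 : (cnt D + 1).choose 10 ≤ (3 * p) ^ 10 :=
        (Nat.choose_le_pow _ _).trans (Nat.pow_le_pow_left (by omega) _)
      exact_mod_cast h3
    have h4 : ((cnt D).choose 9 : ℚ) ≤ (3 * p) ^ 9 := by
      have h3 : (cnt D).choose 9 ≤ (3 * p) ^ 9 :=
        (Nat.choose_le_pow _ _).trans (Nat.pow_le_pow_left (by omega) _)
      exact_mod_cast h3
    have h5 : (0 : ℚ) ≤ ((cnt D + 1).choose 10 : ℚ) := by positivity
    have h6 : (0 : ℚ) ≤ ((cnt D).choose 9 : ℚ) := by positivity
    have h7 : (0 : ℚ) ≤ (p : ℚ) ^ 2 - 9 * p + 36 := by nlinarith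
    have h8 : (p : ℚ) ^ 2 - 9 * p + 36 ≤ (p : ℚ) ^ 2 := by nlinarith
    have h9 : ((p : ℚ) ^ 2 - 9 * p + 36) * ((cnt D + 1).choose 10 : ℚ) ≤
        (p : ℚ) ^ 2 * (3 * p) ^ 10 := mul_le_mul h8 h2 h5 (by positivity)
    have h10 : (p : ℚ) ^ 9 ≤ (p : ℚ) ^ 12 := pow_le_pow_right₀ (by linarith) (by norm_num)
    have h11 : (0 : ℚ) ≤ ((p : ℚ) ^ 2 - 9 * p + 36) * ((cnt D + 1).choose 10 : ℚ) :=
      mul_nonneg h7 h5
    have h12 : (0 : ℚ) ≤ (p : ℚ) ^ 12 := by positivity
    rw [abs_le]
    constructor <;> nlinarith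
  rw [YY, SAB]
  calc |∑ A : ZMod p, ∑ B : ZMod p, (((p : ℚ) ^ 2 - 9 * p + 36) *
        (((cnt fun t : ZMod p => t ^ 3 + A * t + B) + 1).choose 10 : ℚ) -
        12 * ((cnt fun t : ZMod p => t ^ 3 + A * t + B).choose 9 : ℚ))|
      ≤ ∑ A : ZMod p, ∑ B : ZMod p, 295245 * (p : ℚ) ^ 12 := by
        refine (Finset.abs_sum_le_sum_abs _ _).trans (Finset.sum_le_sum fun A _ => ?_)
        exact (Finset.abs_sum_le_sum_abs _ _).trans (Finset.sum_le_sum fun B _ => hg _)
    _ = 295245 * (p : ℚ) ^ 14 := by
        simp only [Finset.sum_const, Finset.card_univ, ZMod.card, nsmul_eq_mul]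
        ring

/-! ### The sixteen values -/

theorem tab17 : IsTable 17 10872291881 := by decide +kernel

theorem val17 : yN 17 10872291881 = 21892344336 := by decide +kernel

theorem tab19 : IsTable 19 42958629385 := by decide +kernel

theorem val19 : yN 19 42958629385 = 118074399928 := by decide +kernel

theorem tab23 : IsTable 23 146197324457 := by decide +kernel

theorem val23 : yN 23 146197324457 = 2037225992846 := by decide +kernel

theorem tab29 : IsTable 29 147108067451382281 := by decide +kernel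

theorem val29 : yN 29 147108067451382281 = 60739887425280 := by decide +kernel

theorem tab31 : IsTable 31 146369883237157417 := by decide +kernel

theorem val31 : yN 31 146369883237157417 = 159790316910270 := by decide +kernel

theorem tab37 : IsTable 37 10185099983485776986761 := by decide +kernel

theorem val37 : yN 37 10185099983485776986761 = 2046492486507668 := by decide +kernel

theorem tab41 : IsTable 41 3069731907081721789155881 := by decide +kernel

theorem val41 : yN 41 3069731907081721789155881 = 8905476485955264 := by decide +kernel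

theorem tab43 : IsTable 43 12252189066141660489458185 := by decide +kernel

theorem val43 : yN 43 12252189066141660489458185 = 17585377189230228 := by decide +kernel

theorem tab47 : IsTable 47 38733477264763048082186921 := by decide +kernel

theorem val47 : yN 47 38733477264763048082186921 = 62485710261704350 := by decide +kernel

theorem tab53 : IsTable 53 41248977123331406690963058893321 := by decide +kernel

theorem val53 : yN 53 41248977123331406690963058893321 = 344612626161013340 := by decide +kernel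

theorem tab59 : IsTable 59 41711580020618408965060925053241993 := by decide +kernel

theorem val59 : yN 59 41711580020618408965060925053241993 = 1575671295991772428 := by decide +kernel

theorem tab61 : IsTable 61 2876573868771580132937577463091301001 := by decide +kernel

theorem val61 : yN 61 2876573868771580132937577463091301001 = 2525592576969246928 := by decide +kernel

theorem tab67 : IsTable 67 3448695665516660339590258707303900914185 := by decide +kernel

theorem val67 : yN 67 3448695665516660339590258707303900914185 = 9513426690223587296 := by decide +kernel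

theorem tab71 : IsTable 71 683431534075111533044581375298476059305 := by decide +kernel

theorem val71 : yN 71 683431534075111533044581375298476059305 = 21571842951469916238 := by decide +kernel

theorem tab73 : IsTable 73 59283324078842921408070126334213056216310441 := by decide +kernel

theorem val73 : yN 73 59283324078842921408070126334213056216310441 = 31923412648865320096 := by decide +kernel

theorem tab79 : IsTable 79 11641035995137566271126322427456039719723993641 := by decide +kernel

theorem val79 : yN 79 11641035995137566271126322427456039719723993641 = 97222613669307316190 := by decide +kernel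

/-- P10 -/
theorem YY_not_ratFun : ¬ RatFun fun p => YY p := by
  intro h
  obtain ⟨Q, hQ, hv⟩ := exists_poly_of_bound _ h (fun p _ => YY_int p) 295245 14
    (fun p hp => YY_bound p hp)
  have key : ∀ (p : ℕ) (hp : p.Prime), 17 ≤ p → ∀ (T : ℕ) (v : ℤ), IsTable p T → yN p T = v →
      Q.eval (p : ℚ) = v := by
    intro p hp h17 T v hT hy
    have h1 := hv ⟨p, hp⟩ h17
    have : Fact p.Prime := ⟨hp⟩
    have h2 := YY_val p hT (by omega)
    rw [hy] at h2
    exact h1.symm.trans h2
  have e17 : Q.eval (17 : ℚ) = 21892344336 := by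
    exact_mod_cast key 17 (by norm_num) (by norm_num) _ _ tab17 val17
  have e19 : Q.eval (19 : ℚ) = 118074399928 := by
    exact_mod_cast key 19 (by norm_num) (by norm_num) _ _ tab19 val19
  have e23 : Q.eval (23 : ℚ) = 2037225992846 := by
    exact_mod_cast key 23 (by norm_num) (by norm_num) _ _ tab23 val23
  have e29 : Q.eval (29 : ℚ) = 60739887425280 := by
    exact_mod_cast key 29 (by norm_num) (by norm_num) _ _ tab29 val29
  have e31 : Q.eval (31 : ℚ) = 159790316910270 := by
    exact_mod_cast key 31 (by norm_num) (by norm_num) _ _ tab31 val31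
  have e37 : Q.eval (37 : ℚ) = 2046492486507668 := by
    exact_mod_cast key 37 (by norm_num) (by norm_num) _ _ tab37 val37
  have e41 : Q.eval (41 : ℚ) = 8905476485955264 := by
    exact_mod_cast key 41 (by norm_num) (by norm_num) _ _ tab41 val41
  have e43 : Q.eval (43 : ℚ) = 17585377189230228 := by
    exact_mod_cast key 43 (by norm_num) (by norm_num) _ _ tab43 val43
  have e47 : Q.eval (47 : ℚ) = 62485710261704350 := by
    exact_mod_cast key 47 (by norm_num) (by norm_num) _ _ tab47 val47
  have e53 : Q.eval (53 : ℚ) = 344612626161013340 := by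
    exact_mod_cast key 53 (by norm_num) (by norm_num) _ _ tab53 val53
  have e59 : Q.eval (59 : ℚ) = 1575671295991772428 := by
    exact_mod_cast key 59 (by norm_num) (by norm_num) _ _ tab59 val59
  have e61 : Q.eval (61 : ℚ) = 2525592576969246928 := by
    exact_mod_cast key 61 (by norm_num) (by norm_num) _ _ tab61 val61
  have e67 : Q.eval (67 : ℚ) = 9513426690223587296 := by
    exact_mod_cast key 67 (by norm_num) (by norm_num) _ _ tab67 val67
  have e71 : Q.eval (71 : ℚ) = 21571842951469916238 := by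
    exact_mod_cast key 71 (by norm_num) (by norm_num) _ _ tab71 val71
  have e73 : Q.eval (73 : ℚ) = 31923412648865320096 := by
    exact_mod_cast key 73 (by norm_num) (by norm_num) _ _ tab73 val73
  have e79 : Q.eval (79 : ℚ) = 97222613669307316190 := by
    exact_mod_cast key 79 (by norm_num) (by norm_num) _ _ tab79 val79
  have hd := divided_difference Q hQ
  rw [e17, e19, e23, e29, e31, e37, e41, e43, e47, e53, e59, e61, e67, e71, e73, e79] at hd
  norm_num at hd

end Pool.Agent.E07280
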