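/-
Counting subspaces of a finite vector space.
-/
import Pool.Agent.E07280.Defs

open Finset Module

namespace Pool.Agent.E07280

section

variable {K : Type} [Field K] [Fintype K] {V : Type} [AddCommGroup V] [Module K V] [Finite V]

theorem card_LI (k : ℕ) (hk : k ≤ finrank K V) :
    (Nat.card {s : Fin k → V // LinearIndependent K s} : ℚ) =
      ∏ i ∈ range k, ((Fintype.card K : ℚ) ^ finrank K V - (Fintype.card K : ℚ) ^ i) := by
  rw [card_linearIndependent hk, Nat.cast_prod, Finset.prod_range]
  refine Finset.prod_congr rfl fun i _ => ?_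
  rw [Nat.cast_sub (Nat.pow_le_pow_right Fintype.card_pos (by have := i.2; omega))]
  push_cast
  rfl


omit [Fintype K] in
theorem card_fiber (k : ℕ) (U : Submodule K V) (hU : finrank K U = k) :
    Nat.card {s : {s : Fin k → V // LinearIndependent K s} //
      Submodule.span K (Set.range s.1) = U} =
      Nat.card {s : Fin k → U // LinearIndependent K s} := by
  have : Module.Finite K V := Module.Finite.of_finite
  refine Nat.card_congr
    { toFun := fun s => ⟨fun i => ⟨s.1.1 i, s.2.le (Submodule.subset_span ⟨i, rfl⟩)⟩, ?_⟩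
      invFun := fun s => ⟨⟨fun i => (s.1 i : V), ?_⟩, ?_⟩
      left_inv := fun s => rfl
      right_inv := fun s => rfl }
  · exact LinearIndependent.of_comp U.subtype s.1.2
  · exact s.2.map' U.subtype (Submodule.ker_subtype U)
  · have h1 : LinearIndependent K fun i => (s.1 i : V) :=
      s.2.map' U.subtype (Submodule.ker_subtype U)
    refine Submodule.eq_of_le_of_finrank_eq ?_ ?_
    · rw [Submodule.span_le]
      rintro _ ⟨i, rfl⟩
      exact (s.1 i).2
    · rw [finrank_span_eq_card h1, hU, Fintype.card_fin]

theorem card_sub_mul (k : ℕ) (hk : k ≤ finrank K V) :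
    (Nat.card {U : Submodule K V // finrank K U = k} : ℚ) *
      ∏ i ∈ range k, ((Fintype.card K : ℚ) ^ k - (Fintype.card K : ℚ) ^ i) =
      ∏ i ∈ range k, ((Fintype.card K : ℚ) ^ finrank K V - (Fintype.card K : ℚ) ^ i) := by
  have : Module.Finite K V := Module.Finite.of_finite
  classical
  have : Finite (Submodule K V) := Finite.of_injective
    (fun U : Submodule K V => (U : Set V)) SetLike.coe_injective
  have : Fintype {U : Submodule K V // finrank K U = k} := Fintype.ofFinite _
  rw [← card_LI k hk]
  have h1 : Nat.card {s : Fin k → V // LinearIndependent K s} =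
      ∑ U : {U : Submodule K V // finrank K U = k},
        Nat.card {s : {s : Fin k → V // LinearIndependent K s} //
          Submodule.span K (Set.range s.1) = U.1} := by
    rw [← Nat.card_sigma]
    refine Nat.card_congr
      { toFun := fun s => ⟨⟨Submodule.span K (Set.range s.1), ?_⟩, ⟨s, rfl⟩⟩
        invFun := fun x => x.2.1
        left_inv := fun s => rfl
        right_inv := ?_ }
    · rw [finrank_span_eq_card s.2, Fintype.card_fin]
    · rintro ⟨⟨U, hU⟩, ⟨s, hs⟩⟩
      dsimp at hs
      subst hs
      rfl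
  rw [h1]
  have h2 : ∀ U : {U : Submodule K V // finrank K U = k},
      (Nat.card {s : {s : Fin k → V // LinearIndependent K s} //
          Submodule.span K (Set.range s.1) = U.1} : ℚ) =
      ∏ i ∈ range k, ((Fintype.card K : ℚ) ^ k - (Fintype.card K : ℚ) ^ i) := by
    intro U
    rw [card_fiber k U.1 U.2, card_LI (V := U.1) k U.2.ge, U.2]
  push_cast
  rw [Finset.sum_congr rfl fun U _ => h2 U, Finset.sum_const, nsmul_eq_mul, Finset.card_univ,
    Nat.card_eq_fintype_card]

end

theorem grass_den_ne (p : ℕ) [Fact p.Prime] (k : ℕ) :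
    ∏ i ∈ range k, ((p : ℚ) ^ k - (p : ℚ) ^ i) ≠ 0 := by
  rw [Finset.prod_ne_zero_iff]
  intro i hi
  have h1 : (1 : ℚ) < p := by exact_mod_cast (Fact.out : p.Prime).one_lt
  have := pow_lt_pow_right₀ h1 (Finset.mem_range.1 hi)
  linarith

/-- `grass p y κ` counts subspaces of codimension `κ` in `F_p^y` -/
theorem card_codim (p : ℕ) [Fact p.Prime] (y κ : ℕ) :
    (Nat.card {W : Submodule (ZMod p) (Fin y → ZMod p) //
      finrank (ZMod p) ((Fin y → ZMod p) ⧸ W) = κ} : ℚ) = grass p y κ := by
  classical
  by_cases hκ : κ ≤ y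
  · have h1 : Nat.card {W : Submodule (ZMod p) (Fin y → ZMod p) //
        finrank (ZMod p) ((Fin y → ZMod p) ⧸ W) = κ} =
        Nat.card {U : Submodule (ZMod p) (Dual (ZMod p) (Fin y → ZMod p)) //
          finrank (ZMod p) U = κ} := by
      refine Nat.card_congr ((Subspace.orderIsoFiniteDimensional (K := ZMod p)
        (V := Fin y → ZMod p)).toEquiv.trans OrderDual.ofDual |>.subtypeEquiv fun W => ?_)
      rw [(Subspace.quotEquivAnnihilator W).finrank_eq]
      rfl
    have : Finite (Dual (ZMod p) (Fin y → ZMod p)) :=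
      Finite.of_injective (fun f : Dual (ZMod p) (Fin y → ZMod p) => (f : (Fin y → ZMod p) → ZMod p))
        DFunLike.coe_injective
    have h3 : finrank (ZMod p) (Dual (ZMod p) (Fin y → ZMod p)) = y := by
      rw [Subspace.dual_finrank_eq, finrank_fin_fun]
    have h2 := card_sub_mul (K := ZMod p) (V := Dual (ZMod p) (Fin y → ZMod p)) κ
      (by rw [h3]; exact hκ)
    rw [h3, ZMod.card] at h2
    rw [h1, grass, eq_div_iff (grass_den_ne p κ), h2]
  · have h1 : IsEmpty {W : Submodule (ZMod p) (Fin y → ZMod p) //
        finrank (ZMod p) ((Fin y → ZMod p) ⧸ W) = κ} := by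
      refine ⟨fun W => hκ ?_⟩
      have := W.1.finrank_quotient_le
      rw [W.2, finrank_fin_fun] at this
      exact this
    rw [Nat.card_of_isEmpty, grass, Finset.prod_eq_zero (Finset.mem_range.2 (not_le.1 hκ))
      (sub_self _)]
    simp

end Pool.Agent.E07280
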