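/-
Basic facts on finite-index lattices in `ℤ^X`.
-/
import Pool.Agent.E07280.P2Grass

open Finset Module

namespace Pool.Agent.E07280

variable {X : Type}

/-- reduction modulo `m` -/
def redP (m : ℕ) (X : Type) : (X → ℤ) →+ (X → ZMod m) where
  toFun v := fun j => (v j : ZMod m)
  map_zero' := by ext; simp
  map_add' v w := by ext; simp

@[simp] theorem redP_apply (m : ℕ) (v : X → ℤ) (j : X) : redP m X v j = (v j : ZMod m) := rfl

theorem redP_surjective (m : ℕ) : Function.Surjective (redP m X) := by
  intro w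
  refine ⟨fun j => (ZMod.intCast_surjective (w j)).choose, ?_⟩
  ext j
  exact (ZMod.intCast_surjective (w j)).choose_spec

theorem index_smul_mem (L : AddSubgroup (X → ℤ)) (v : X → ℤ) :
    (L.index : ℤ) • v ∈ L := by
  have := L.nsmul_index_mem v
  rwa [← natCast_zsmul] at this

theorem ker_redP_le (L : AddSubgroup (X → ℤ)) : (redP L.index X).ker ≤ L := by
  intro v hv
  rw [AddMonoidHom.mem_ker] at hv
  have h : ∀ j, (L.index : ℤ) ∣ v j := fun j => by
    have := congrFun hv j
    rw [redP_apply, Pi.zero_apply] at this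
    exact (ZMod.intCast_zmod_eq_zero_iff_dvd _ _).1 this
  choose w hw using h
  have : v = (L.index : ℤ) • w := by
    ext j; rw [hw j]; simp
  rw [this]
  exact index_smul_mem L w

instance finite_index [Finite X] (m : ℕ) [NeZero m] :
    Finite {L : AddSubgroup (X → ℤ) // L.index = m} := by
  have : Finite (AddSubgroup (X → ZMod m)) :=
    Finite.of_injective (fun U : AddSubgroup (X → ZMod m) => (U : Set (X → ZMod m)))
      SetLike.coe_injective
  refine Finite.of_injective
    (fun L : {L : AddSubgroup (X → ℤ) // L.index = m} => L.1.map (redP m X)) ?_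
  rintro ⟨L, hL⟩ ⟨L', hL'⟩ h
  dsimp at h
  have h1 : L = (L.map (redP m X)).comap (redP m X) := by
    rw [AddSubgroup.comap_map_eq, left_eq_sup]
    have := ker_redP_le L
    rwa [hL] at this
  have h2 : L' = (L'.map (redP m X)).comap (redP m X) := by
    rw [AddSubgroup.comap_map_eq, left_eq_sup]
    have := ker_redP_le L'
    rwa [hL'] at this
  rw [Subtype.mk.injEq, h1, h2, h]

instance finite_lat [Finite X] (p : ℕ) [Fact p.Prime] (c : ℕ) : Finite (Lat p X c) := by
  have : NeZero (p ^ c) := ⟨pow_ne_zero _ (Fact.out : p.Prime).ne_zero⟩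
  exact Finite.of_injective (fun L : Lat p X c => (⟨L.1, L.2.2⟩ :
    {L : AddSubgroup (X → ℤ) // L.index = p ^ c})) fun L L' h => by
      simpa [Subtype.ext_iff] using h

theorem Lat.pow_smul_mem {p c : ℕ} {L : AddSubgroup (X → ℤ)} (hL : L ∈ Lat p X c) (v : X → ℤ) :
    ((p : ℤ) ^ c) • v ∈ L := by
  have := index_smul_mem L v
  rw [hL.2] at this
  exact_mod_cast this

end Pool.Agent.E07280
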