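/-
Structure of lattices on `X ⊕ Y` containing `p ℤ^Y`.
-/
import Pool.Agent.E07280.P2Lat

open Finset Module

namespace Pool.Agent.E07280

variable {p : ℕ} [Fact p.Prime] {X Y : Type}

/-- projection to `ℤ^X` -/
def prX (X Y : Type) : (X ⊕ Y → ℤ) →+ (X → ℤ) where
  toFun w := fun i => w (Sum.inl i)
  map_zero' := rfl
  map_add' _ _ := rfl

/-- projection to `ℤ^Y` -/
def prY (X Y : Type) : (X ⊕ Y → ℤ) →+ (Y → ℤ) where
  toFun w := fun i => w (Sum.inr i)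
  map_zero' := rfl
  map_add' _ _ := rfl

/-- inclusion of `ℤ^Y` -/
def inY (X Y : Type) : (Y → ℤ) →+ (X ⊕ Y → ℤ) where
  toFun v := Sum.elim 0 v
  map_zero' := by ext (i | i) <;> rfl
  map_add' v w := by ext (i | i) <;> simp

@[simp] theorem prX_apply (w : X ⊕ Y → ℤ) (i : X) : prX X Y w i = w (Sum.inl i) := rfl
@[simp] theorem prY_apply (w : X ⊕ Y → ℤ) (i : Y) : prY X Y w i = w (Sum.inr i) := rfl
@[simp] theorem prX_inY (v : Y → ℤ) : prX X Y (inY X Y v) = 0 := rfl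
@[simp] theorem prY_inY (v : Y → ℤ) : prY X Y (inY X Y v) = v := rfl
@[simp] theorem prX_elim (u : X → ℤ) (v : Y → ℤ) : prX X Y (Sum.elim u v) = u := rfl
@[simp] theorem prY_elim (u : X → ℤ) (v : Y → ℤ) : prY X Y (Sum.elim u v) = v := rfl

theorem prX_smul_mul (w w' : X ⊕ Y → ℤ) : prX X Y ((p : ℤ) • (w * w')) =
    (p : ℤ) • (prX X Y w * prX X Y w') := rfl

theorem redP_prY_smul (w : X ⊕ Y → ℤ) : redP p Y (prY X Y ((p : ℤ) • w)) = 0 := by
  ext j; simp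

theorem prX_surjective : Function.Surjective (prX X Y) := fun u => ⟨Sum.elim u 0, rfl⟩

section build

variable {κ : ℕ} (L₀ : AddSubgroup (X → ℤ)) (φ : L₀ →+ (Fin κ → ZMod p))
  (ψ : (Y → ZMod p) →ₗ[ZMod p] (Fin κ → ZMod p))

/-- the defining map of `build` -/
def theta : (L₀.comap (prX X Y)) →+ (Fin κ → ZMod p) :=
  φ.comp ((prX X Y).addSubgroupComap L₀) -
    (ψ.toAddMonoidHom.comp ((redP p Y).comp (prY X Y))).comp (L₀.comap (prX X Y)).subtype

/-- the lattice `{(u, v) : u ∈ L₀, φ u = ψ v}` -/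
def build : AddSubgroup (X ⊕ Y → ℤ) := (theta L₀ φ ψ).ker.map (L₀.comap (prX X Y)).subtype

theorem mem_build (w : X ⊕ Y → ℤ) : w ∈ build L₀ φ ψ ↔
    ∃ h : prX X Y w ∈ L₀, φ ⟨prX X Y w, h⟩ = ψ (redP p Y (prY X Y w)) := by
  rw [build, AddSubgroup.mem_map]
  constructor
  · rintro ⟨x, hx, rfl⟩
    refine ⟨x.2, ?_⟩
    rw [AddMonoidHom.mem_ker, theta, AddMonoidHom.sub_apply, sub_eq_zero] at hx
    exact hx
  · rintro ⟨h, h'⟩
    refine ⟨⟨w, h⟩, ?_, rfl⟩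
    rw [AddMonoidHom.mem_ker, theta, AddMonoidHom.sub_apply, sub_eq_zero]
    exact h'

theorem index_build (hψ : Function.Surjective ψ) :
    (build L₀ φ ψ).index = p ^ κ * L₀.index := by
  rw [build, AddSubgroup.index_map_subtype, AddSubgroup.index_comap_of_surjective _ prX_surjective,
    AddSubgroup.index_ker]
  congr 1
  have : (theta L₀ φ ψ).range = ⊤ := by
    rw [AddMonoidHom.range_eq_top]
    intro t
    obtain ⟨v, hv⟩ := hψ (-t)
    obtain ⟨v', rfl⟩ := redP_surjective p v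
    refine ⟨⟨inY X Y v', by rw [AddSubgroup.mem_comap, prX_inY]; exact L₀.zero_mem⟩, ?_⟩
    rw [theta, AddMonoidHom.sub_apply]
    have h1 : φ.comp ((prX X Y).addSubgroupComap L₀)
        ⟨inY X Y v', by rw [AddSubgroup.mem_comap, prX_inY]; exact L₀.zero_mem⟩ = 0 := by
      rw [AddMonoidHom.comp_apply]
      exact φ.map_zero
    rw [h1]
    change 0 - ψ (redP p Y (prY X Y (inY X Y v'))) = t
    rw [prY_inY, hv, zero_sub, neg_neg]
  rw [this]
  simp [Nat.card_eq_fintype_card, ZMod.card]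

end build

/-- the subspace of `F_p^Y` attached to `L` -/
def Wof (p : ℕ) [Fact p.Prime] (L : AddSubgroup (X ⊕ Y → ℤ)) : Submodule (ZMod p) (Y → ZMod p) :=
  AddSubgroup.toZModSubmodule p ((L.comap (inY X Y)).map (redP p Y))

theorem mem_Wof (L : AddSubgroup (X ⊕ Y → ℤ)) (w : Y → ZMod p) :
    w ∈ Wof p L ↔ ∃ v, inY X Y v ∈ L ∧ redP p Y v = w := Iff.rfl

/-- `L` contains `p e_j` for all `j ∈ Y` -/
def Shallow (p : ℕ) [DecidableEq X] [DecidableEq Y] (L : AddSubgroup (X ⊕ Y → ℤ)) : Prop :=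
  ∀ j : Y, Pi.single (Sum.inr j) (p : ℤ) ∈ L

theorem Shallow.inY_mem [DecidableEq X] [DecidableEq Y] [Fintype Y]
    {L : AddSubgroup (X ⊕ Y → ℤ)} (h : Shallow p L) (v : Y → ℤ) :
    inY X Y ((p : ℤ) • v) ∈ L := by
  have : inY X Y ((p : ℤ) • v) = ∑ j : Y, v j • (Pi.single (Sum.inr j) (p : ℤ) : X ⊕ Y → ℤ) := by
    ext (i | i)
    · simp [inY]
    · simp [inY, Finset.sum_apply, Pi.single_apply, mul_comm]
  rw [this]
  exact AddSubgroup.sum_mem _ fun j _ => AddSubgroup.zsmul_mem _ (h j) _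

theorem Shallow.inY_mem_iff [DecidableEq X] [DecidableEq Y] [Fintype Y]
    {L : AddSubgroup (X ⊕ Y → ℤ)} (h : Shallow p L) (v : Y → ℤ) :
    inY X Y v ∈ L ↔ redP p Y v ∈ Wof p L := by
  rw [mem_Wof]
  refine ⟨fun hv => ⟨v, hv, rfl⟩, ?_⟩
  rintro ⟨v', hv', hvv⟩
  have h1 : ∀ j, (p : ℤ) ∣ (v - v') j := fun j => by
    rw [Pi.sub_apply, ← ZMod.intCast_zmod_eq_zero_iff_dvd, Int.cast_sub]
    have := congrFun hvv j
    simp only [redP_apply] at this
    rw [this, sub_self]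
  choose u hu using h1
  have h2 : v = v' + (p : ℤ) • u := by
    ext j
    have := hu j
    simp only [Pi.sub_apply] at this
    simp only [Pi.add_apply, Pi.smul_apply, smul_eq_mul]
    linarith
  rw [h2, map_add]
  exact L.add_mem hv' (h.inY_mem u)

section bij

variable [DecidableEq X] [DecidableEq Y] [Fintype Y] {κ : ℕ}
  (ψ : (Y → ZMod p) →ₗ[ZMod p] (Fin κ → ZMod p)) (hψ : Function.Surjective ψ)

theorem build_shallow (L₀ : AddSubgroup (X → ℤ)) (φ : L₀ →+ (Fin κ → ZMod p)) :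
    Shallow p (build L₀ φ ψ) := by
  intro j
  rw [mem_build]
  have h0 : prX X Y (Pi.single (Sum.inr j) (p : ℤ)) = 0 := by
    ext i; simp
  refine ⟨by rw [h0]; exact L₀.zero_mem, ?_⟩
  have h1 : redP p Y (prY X Y (Pi.single (Sum.inr j) (p : ℤ))) = 0 := by
    ext i
    simp only [redP_apply, prY_apply, Pi.single_apply, Sum.inr.injEq, Pi.zero_apply]
    split_ifs <;> simp
  rw [h1, map_zero]
  have h2 : (⟨prX X Y (Pi.single (Sum.inr j) (p : ℤ)), by rw [h0]; exact L₀.zero_mem⟩ : L₀) = 0 :=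
    Subtype.ext h0
  rw [h2, map_zero]

theorem Wof_build (L₀ : AddSubgroup (X → ℤ)) (φ : L₀ →+ (Fin κ → ZMod p)) :
    Wof p (build L₀ φ ψ) = LinearMap.ker ψ := by
  ext w
  obtain ⟨v, rfl⟩ := redP_surjective p w
  rw [← (build_shallow ψ L₀ φ).inY_mem_iff, mem_build, LinearMap.mem_ker]
  constructor
  · rintro ⟨h, h'⟩
    rw [prY_inY] at h'
    rw [← h']
    exact φ.map_zero
  · intro h
    refine ⟨L₀.zero_mem, ?_⟩
    rw [prY_inY, h]
    exact φ.map_zero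

include hψ in
theorem build_inj {L₀ L₀' : AddSubgroup (X → ℤ)} {φ : L₀ →+ (Fin κ → ZMod p)}
    {φ' : L₀' →+ (Fin κ → ZMod p)} (h : build L₀ φ ψ = build L₀' φ' ψ) :
    (⟨L₀, φ⟩ : Σ L : AddSubgroup (X → ℤ), (L →+ (Fin κ → ZMod p))) = ⟨L₀', φ'⟩ := by
  have key : ∀ (u : X → ℤ) (v : Y → ℤ) (hu : u ∈ L₀), φ ⟨u, hu⟩ = ψ (redP p Y v) →
      ∃ h' : u ∈ L₀', φ' ⟨u, h'⟩ = ψ (redP p Y v) := by
    intro u v hu huv
    have h1 : Sum.elim u v ∈ build L₀ φ ψ := (mem_build _ _ _ _).2 ⟨hu, huv⟩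
    rw [h] at h1
    exact (mem_build _ _ _ _).1 h1
  have key' : ∀ (u : X → ℤ) (v : Y → ℤ) (hu : u ∈ L₀'), φ' ⟨u, hu⟩ = ψ (redP p Y v) →
      ∃ h' : u ∈ L₀, φ ⟨u, h'⟩ = ψ (redP p Y v) := by
    intro u v hu huv
    have h1 : Sum.elim u v ∈ build L₀' φ' ψ := (mem_build _ _ _ _).2 ⟨hu, huv⟩
    rw [← h] at h1
    exact (mem_build _ _ _ _).1 h1
  have hsurj : ∀ t, ∃ v, ψ (redP p Y v) = t := fun t => by
    obtain ⟨w, hw⟩ := hψ t
    obtain ⟨v, rfl⟩ := redP_surjective p w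
    exact ⟨v, hw⟩
  have hL : L₀ = L₀' := by
    ext u
    constructor
    · intro hu
      obtain ⟨v, hv⟩ := hsurj (φ ⟨u, hu⟩)
      exact (key u v hu hv.symm).1
    · intro hu
      obtain ⟨v, hv⟩ := hsurj (φ' ⟨u, hu⟩)
      exact (key' u v hu hv.symm).1
  subst hL
  have : φ = φ' := by
    ext1 ⟨u, hu⟩
    obtain ⟨v, hv⟩ := hsurj (φ ⟨u, hu⟩)
    obtain ⟨_, h2⟩ := key u v hu hv.symm
    rw [h2, hv]
  rw [this]

/-- every shallow lattice comes from `build` -/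
theorem exists_build (L : AddSubgroup (X ⊕ Y → ℤ)) (hs : Shallow p L)
    (hm : ∀ x ∈ L, ∀ y ∈ L, (p : ℤ) • (x * y) ∈ L) (hW : Wof p L = LinearMap.ker ψ) :
    ∃ (L₀ : AddSubgroup (X → ℤ)) (φ : L₀ →+ (Fin κ → ZMod p)), build L₀ φ ψ = L ∧
      (∀ x ∈ L₀, ∀ y ∈ L₀, (p : ℤ) • (x * y) ∈ L₀) ∧
      (∀ x ∈ L₀, ∀ y ∈ L₀, ∀ z : L₀, (z : X → ℤ) = (p : ℤ) • (x * y) → φ z = 0) := by
  have hex : ∀ u : L.map (prX X Y), ∃ w, w ∈ L ∧ prX X Y w = u := fun u => u.2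
  choose f hf1 hf2 using hex
  have hwd : ∀ w ∈ L, ∀ w' ∈ L, prX X Y w = prX X Y w' →
      ψ (redP p Y (prY X Y w)) = ψ (redP p Y (prY X Y w')) := by
    intro w hw w' hw' h
    rw [← sub_eq_zero, ← map_sub, ← map_sub, ← map_sub, ← LinearMap.mem_ker, ← hW,
      ← hs.inY_mem_iff]
    have : inY X Y (prY X Y (w - w')) = w - w' := by
      ext (i | i)
      · have := congrFun h i
        simp only [prX_apply] at this
        simp [inY, this]
      · simp [inY]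
    rw [this]
    exact L.sub_mem hw hw'
  let φ : L.map (prX X Y) →+ (Fin κ → ZMod p) :=
    AddMonoidHom.mk' (fun u => ψ (redP p Y (prY X Y (f u)))) (fun u u' => by
      rw [← map_add, ← map_add, ← map_add]
      refine hwd _ (hf1 _) _ (L.add_mem (hf1 u) (hf1 u')) ?_
      rw [map_add, hf2, hf2, hf2, AddSubgroup.coe_add])
  refine ⟨L.map (prX X Y), φ, ?_, ?_, ?_⟩
  · ext w
    rw [mem_build]
    constructor
    · rintro ⟨h, h'⟩
      change ψ (redP p Y (prY X Y (f ⟨prX X Y w, h⟩))) = _ at h'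
      have hw' := hf1 ⟨prX X Y w, h⟩
      have hw'' := hf2 ⟨prX X Y w, h⟩
      dsimp only at hw''
      have h3 : inY X Y (prY X Y (w - f ⟨prX X Y w, h⟩)) = w - f ⟨prX X Y w, h⟩ := by
        ext (i | i)
        · have := congrFun hw'' i
          simp only [prX_apply] at this
          simp [inY, this]
        · simp [inY]
      have h4 : w - f ⟨prX X Y w, h⟩ ∈ L := by
        rw [← h3, hs.inY_mem_iff, hW, LinearMap.mem_ker, map_sub, map_sub, map_sub, ← h', sub_self]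
      have := L.add_mem h4 hw'
      rwa [sub_add_cancel] at this
    · intro hw
      exact ⟨⟨w, hw, rfl⟩, hwd _ (hf1 _) _ hw (hf2 _)⟩
  · rintro _ ⟨x, hx, rfl⟩ _ ⟨y, hy, rfl⟩
    exact ⟨_, hm x hx y hy, rfl⟩
  · rintro _ ⟨x, hx, rfl⟩ _ ⟨y, hy, rfl⟩ z hz
    change ψ (redP p Y (prY X Y (f z))) = 0
    rw [hwd _ (hf1 z) _ (hm x hx y hy) (by rw [hf2, hz]; rfl), redP_prY_smul, map_zero]

end bij

end Pool.Agent.E07280
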