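/-
`aCount_eq`: the number of lattices on `X ⊕ Y` containing `p ℤ^Y`.
-/
import Pool.Agent.E07280.P2a

open Finset Module

namespace Pool.Agent.E07280

variable {p : ℕ} [Fact p.Prime] {X Y : Type}

theorem card_stratum [DecidableEq X] [DecidableEq Y] [Fintype Y] {κ : ℕ}
    (ψ : (Y → ZMod p) →ₗ[ZMod p] (Fin κ → ZMod p)) (hψ : Function.Surjective ψ) (c : ℕ) :
    Nat.card {L : AddSubgroup (X ⊕ Y → ℤ) //
      (L ∈ Lat p (X ⊕ Y) (c + κ) ∧ Shallow p L) ∧ Wof p L = LinearMap.ker ψ} =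
      bCount p X c κ := by
  symm
  rw [bCount]
  have hlat : ∀ (L₀ : AddSubgroup (X → ℤ)) (φ : L₀ →+ (Fin κ → ZMod p)),
      (∀ x ∈ L₀, ∀ y ∈ L₀, (p : ℤ) • (x * y) ∈ L₀) →
      (∀ x ∈ L₀, ∀ y ∈ L₀, ∀ z : L₀, (z : X → ℤ) = (p : ℤ) • (x * y) → φ z = 0) →
      ∀ x ∈ build L₀ φ ψ, ∀ y ∈ build L₀ φ ψ, (p : ℤ) • (x * y) ∈ build L₀ φ ψ := by
    intro L₀ φ hL₀ hφ x hx y hy
    rw [mem_build] at hx hy ⊢
    obtain ⟨hx1, -⟩ := hx
    obtain ⟨hy1, -⟩ := hy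
    have h1 : prX X Y ((p : ℤ) • (x * y)) ∈ L₀ := by
      rw [prX_smul_mul]; exact hL₀ _ hx1 _ hy1
    refine ⟨h1, ?_⟩
    rw [redP_prY_smul, map_zero]
    exact hφ _ hx1 _ hy1 _ rfl
  refine Nat.card_eq_of_bijective (fun x : (Σ L : Lat p X c, LHom p L.1 κ) =>
    (⟨build x.1.1 x.2.1 ψ, ⟨⟨hlat _ _ x.1.2.1 x.2.2, ?_⟩, build_shallow ψ _ _⟩,
      Wof_build ψ _ _⟩ : {L : AddSubgroup (X ⊕ Y → ℤ) //
      (L ∈ Lat p (X ⊕ Y) (c + κ) ∧ Shallow p L) ∧ Wof p L = LinearMap.ker ψ})) ⟨?_, ?_⟩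
  · rw [index_build _ _ _ hψ, x.1.2.2, ← pow_add, add_comm]
  · rintro ⟨⟨L, hL⟩, φ, hφ⟩ ⟨⟨L', hL'⟩, φ', hφ'⟩ h
    rw [Subtype.mk.injEq] at h
    have := build_inj ψ hψ h
    rw [Sigma.mk.injEq] at this
    obtain ⟨h1, h2⟩ := this
    dsimp at h1
    subst h1
    dsimp at h2
    rw [heq_eq_eq] at h2
    subst h2
    rfl
  · rintro ⟨L, ⟨⟨hm, hi⟩, hs⟩, hW⟩
    obtain ⟨L₀, φ, h1, h2, h3⟩ := exists_build ψ L hs hm hW
    subst h1
    rw [index_build _ _ _ hψ, pow_add, mul_comm] at hi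
    have hp : 0 < p ^ κ := pow_pos (Fact.out : p.Prime).pos _
    exact ⟨⟨⟨L₀, h2, Nat.eq_of_mul_eq_mul_right hp hi⟩, ⟨φ, h3⟩⟩, rfl⟩

theorem exists_psi [Fintype Y] (W : Submodule (ZMod p) (Y → ZMod p)) (κ : ℕ)
    (hκ : finrank (ZMod p) ((Y → ZMod p) ⧸ W) = κ) :
    ∃ ψ : (Y → ZMod p) →ₗ[ZMod p] (Fin κ → ZMod p), Function.Surjective ψ ∧
      LinearMap.ker ψ = W := by
  have e : ((Y → ZMod p) ⧸ W) ≃ₗ[ZMod p] (Fin κ → ZMod p) :=
    LinearEquiv.ofFinrankEq _ _ (by rw [hκ, finrank_fin_fun])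
  refine ⟨e.toLinearMap.comp W.mkQ, ?_, ?_⟩
  · rw [LinearMap.coe_comp]
    exact e.surjective.comp W.mkQ_surjective
  · rw [LinearEquiv.ker_comp, Submodule.ker_mkQ]

theorem card_stratum' [DecidableEq X] [DecidableEq Y] [Fintype Y] (c : ℕ)
    (W : Submodule (ZMod p) (Y → ZMod p)) :
    Nat.card {L : AddSubgroup (X ⊕ Y → ℤ) //
      (L ∈ Lat p (X ⊕ Y) c ∧ Shallow p L) ∧ Wof p L = W} =
      if finrank (ZMod p) ((Y → ZMod p) ⧸ W) ≤ c then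
        bCount p X (c - finrank (ZMod p) ((Y → ZMod p) ⧸ W))
          (finrank (ZMod p) ((Y → ZMod p) ⧸ W)) else 0 := by
  obtain ⟨ψ, hψ, hW⟩ := exists_psi W _ rfl
  split_ifs with h
  · rw [← card_stratum ψ hψ, Nat.sub_add_cancel h, hW]
  · have : IsEmpty {L : AddSubgroup (X ⊕ Y → ℤ) //
      (L ∈ Lat p (X ⊕ Y) c ∧ Shallow p L) ∧ Wof p L = W} := by
      refine ⟨fun L => h ?_⟩
      obtain ⟨L, ⟨⟨hm, hi⟩, hs⟩, hW'⟩ := L
      obtain ⟨L₀, φ, h1, -, -⟩ := exists_build ψ L hs hm (hW'.trans hW.symm)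
      rw [← h1, index_build _ _ _ hψ] at hi
      exact (Nat.pow_dvd_pow_iff_le_right (Fact.out : p.Prime).one_lt).1 ⟨_, hi.symm⟩
    exact Nat.card_of_isEmpty

/-- P2a -/
theorem aCount_eq (p : ℕ) [Fact p.Prime] (s y c : ℕ) :
    (aCount p (Fin s) (Fin y) c : ℚ) =
      ∑ κ ∈ range (c + 1), grass p y κ * (bCount p (Fin s) (c - κ) κ : ℚ) := by
  classical
  have : Finite (Submodule (ZMod p) (Fin y → ZMod p)) := Finite.of_injective
    (fun U : Submodule (ZMod p) (Fin y → ZMod p) => (U : Set (Fin y → ZMod p)))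
    SetLike.coe_injective
  have : Fintype (Submodule (ZMod p) (Fin y → ZMod p)) := Fintype.ofFinite _
  have hfin : ∀ W : Submodule (ZMod p) (Fin y → ZMod p),
      Finite {L : AddSubgroup (Fin s ⊕ Fin y → ℤ) //
        (L ∈ Lat p (Fin s ⊕ Fin y) c ∧ Shallow p L) ∧ Wof p L = W} := fun W =>
    Finite.of_injective (fun L => (⟨L.1, L.2.1.1⟩ : Lat p (Fin s ⊕ Fin y) c)) fun L L' h => by
      simpa [Subtype.ext_iff] using h
  have h1 : aCount p (Fin s) (Fin y) c = ∑ W : Submodule (ZMod p) (Fin y → ZMod p),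
      Nat.card {L : AddSubgroup (Fin s ⊕ Fin y → ℤ) //
        (L ∈ Lat p (Fin s ⊕ Fin y) c ∧ Shallow p L) ∧ Wof p L = W} := by
    rw [← Nat.card_sigma, aCount]
    exact Nat.card_congr
      { toFun := fun L => ⟨Wof p L.1, ⟨L.1, L.2, rfl⟩⟩
        invFun := fun x => ⟨x.2.1, x.2.2.1⟩
        left_inv := fun L => rfl
        right_inv := by
          rintro ⟨W, L, hL, hW⟩
          subst hW
          rfl }
  rw [h1]
  simp only [card_stratum']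
  push_cast
  have h2 : ∀ W : Submodule (ZMod p) (Fin y → ZMod p),
      ((if finrank (ZMod p) ((Fin y → ZMod p) ⧸ W) ≤ c then
        (bCount p (Fin s) (c - finrank (ZMod p) ((Fin y → ZMod p) ⧸ W))
          (finrank (ZMod p) ((Fin y → ZMod p) ⧸ W)) : ℚ) else 0) : ℚ) =
      ∑ κ ∈ range (c + 1), if finrank (ZMod p) ((Fin y → ZMod p) ⧸ W) = κ then
        (bCount p (Fin s) (c - κ) κ : ℚ) else 0 := by
    intro W
    rw [Finset.sum_ite_eq]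
    simp only [Finset.mem_range, Nat.lt_succ_iff]
  rw [Finset.sum_congr rfl fun W _ => h2 W, Finset.sum_comm]
  refine Finset.sum_congr rfl fun κ _ => ?_
  rw [← Finset.sum_filter, Finset.sum_const, nsmul_eq_mul, ← card_codim, Nat.card_eq_fintype_card,
    Fintype.card_subtype]

end Pool.Agent.E07280
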