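/-
Deep coordinates: `L ∈ Lat p X c` contains `p e_i` for all but `2 c` coordinates.
-/
import Pool.Agent.E07280.P2aCount

open Finset Module

namespace Pool.Agent.E07280

variable {p : ℕ} [Fact p.Prime] {X : Type} [Fintype X] [DecidableEq X]

theorem index_lt_of_sup {L L' : AddSubgroup (X → ℤ)} (h : L ≤ L') (hne : ¬ L' ≤ L) {c : ℕ}
    (hL : L.index = p ^ c) : ∃ c' < c, L'.index = p ^ c' := by
  have h1 := AddSubgroup.index_dvd_of_le h
  rw [hL, Nat.dvd_prime_pow (Fact.out : p.Prime)] at h1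
  obtain ⟨c', hc', hi⟩ := h1
  refine ⟨c', lt_of_le_of_ne hc' ?_, hi⟩
  rintro rfl
  apply hne
  have h2 := AddSubgroup.relIndex_mul_index h
  rw [hL, hi] at h2
  have h3 : 0 < p ^ c' := pow_pos (Fact.out : p.Prime).pos _
  have h4 : L.relIndex L' = 1 := Nat.eq_of_mul_eq_mul_right h3 (by rw [h2, one_mul])
  exact AddSubgroup.relIndex_eq_one.1 h4

/-- finitely many coordinates together with `L` generate everything -/
theorem exists_J (c : ℕ) : ∀ L : AddSubgroup (X → ℤ), L.index = p ^ c →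
    ∃ J : Finset X, #J ≤ c ∧ ∀ v : X → ℤ, ∃ l ∈ L, ∀ i, i ∉ J → l i = v i := by
  induction c using Nat.strong_induction_on with
  | _ c ih =>
    intro L hL
    by_cases hall : ∀ i, (Pi.single i (1 : ℤ) : X → ℤ) ∈ L
    · refine ⟨∅, by simp, fun v => ⟨v, ?_, fun _ _ => rfl⟩⟩
      have : v = ∑ i, v i • (Pi.single i (1 : ℤ) : X → ℤ) := by
        ext j
        simp [Finset.sum_apply, Pi.single_apply]
      rw [this]
      exact AddSubgroup.sum_mem _ fun i _ => AddSubgroup.zsmul_mem _ (hall i) _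
    · push Not at hall
      obtain ⟨i, hi⟩ := hall
      set L' := L ⊔ AddSubgroup.zmultiples (Pi.single i (1 : ℤ) : X → ℤ) with hL'
      have hle : L ≤ L' := le_sup_left
      have hne : ¬ L' ≤ L := fun h => hi (h (le_sup_right (a := L)
        (AddSubgroup.mem_zmultiples _)))
      obtain ⟨c', hc', hi'⟩ := index_lt_of_sup hle hne hL
      obtain ⟨J, hJ, hJ'⟩ := ih c' hc' L' hi'
      refine ⟨insert i J, (Finset.card_insert_le _ _).trans (by omega), fun v => ?_⟩
      obtain ⟨l', hl', hv⟩ := hJ' v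
      rw [hL', AddSubgroup.mem_sup] at hl'
      obtain ⟨l, hl, m, hm, rfl⟩ := hl'
      obtain ⟨n, rfl⟩ := AddSubgroup.mem_zmultiples_iff.1 hm
      refine ⟨l, hl, fun j hj => ?_⟩
      rw [Finset.mem_insert, not_or] at hj
      rw [← hv j hj.2]
      simp [Pi.single_apply, hj.1]

/-- coordinates whose entries are forced to be divisible by `p` -/
theorem card_forced (c : ℕ) (L : AddSubgroup (X → ℤ)) (hL : L.index = p ^ c) (J S : Finset X)
    (hS : ∀ i ∈ S, i ∉ J ∧ ∀ w ∈ L, (∀ j ∈ J, w j = 0) → (p : ℤ) ∣ w i) : #S ≤ c := by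
  classical
  let K : AddSubgroup (X → ℤ) :=
    { carrier := {w | ∀ j ∈ J, w j = 0}
      zero_mem' := fun j _ => rfl
      add_mem' := fun {a b} ha hb j hj => by rw [Pi.add_apply, ha j hj, hb j hj, add_zero]
      neg_mem' := fun {a} ha j hj => by rw [Pi.neg_apply, ha j hj, neg_zero] }
  let f : (X → ℤ) →+ (S → ZMod p) :=
    { toFun := fun w i => (w i : ZMod p)
      map_zero' := by ext; simp
      map_add' := fun v w => by ext; simp }
  have h1 : (L ⊓ K) ≤ f.ker := by
    intro w hw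
    rw [AddMonoidHom.mem_ker]
    ext i
    have := (hS i.1 i.2).2 w hw.1 hw.2
    change ((w i : ℤ) : ZMod p) = 0
    exact (ZMod.intCast_zmod_eq_zero_iff_dvd _ _).2 this
  have h0 : L.index ≠ 0 := by rw [hL]; exact pow_ne_zero _ (Fact.out : p.Prime).ne_zero
  have h2 : L.relIndex ⊤ ≠ 0 := by rwa [AddSubgroup.relIndex_top_right]
  have h3 : L.relIndex K ≤ L.index := by
    rw [← AddSubgroup.relIndex_top_right]
    exact AddSubgroup.relIndex_le_of_le_right le_top h2
  have h4 : L.relIndex K ≠ 0 := by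
    intro h
    have := AddSubgroup.relIndex_dvd_index_of_normal L K
    rw [h, zero_dvd_iff] at this
    exact h0 this
  have h5 : (L ⊓ K).relIndex K ≠ 0 := by rwa [AddSubgroup.inf_relIndex_right]
  have h6 : f.ker.relIndex K ≤ (L ⊓ K).relIndex K := AddSubgroup.relIndex_le_of_le_left h1 h5
  rw [AddSubgroup.inf_relIndex_right, AddSubgroup.relIndex_ker] at h6
  have h7 : K.map f = ⊤ := by
    rw [eq_top_iff]
    intro t _
    refine ⟨fun i => if h : i ∈ S then ((ZMod.intCast_surjective (t ⟨i, h⟩)).choose) else 0, ?_, ?_⟩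
    · intro j hj
      have : j ∉ S := fun h => (hS j h).1 hj
      simp [this]
    · ext i
      change (((if h : i.1 ∈ S then ((ZMod.intCast_surjective (t ⟨i, h⟩)).choose) else 0 : ℤ)) :
        ZMod p) = t i
      rw [dif_pos i.2]
      exact (ZMod.intCast_surjective (t ⟨i, i.2⟩)).choose_spec
  rw [h7] at h6
  have h8 : Nat.card (⊤ : AddSubgroup (S → ZMod p)) = p ^ #S := by
    simp [Nat.card_eq_fintype_card, ZMod.card]
  rw [h8] at h6
  have h9 : p ^ #S ≤ p ^ c := h6.trans (h3.trans hL.le)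
  exact (Nat.pow_le_pow_iff_right (Fact.out : p.Prime).one_lt).1 h9

/-- the deep coordinates of `L` -/
noncomputable def deep (p : ℕ) (L : AddSubgroup (X → ℤ)) : Finset X := by
  classical
  exact univ.filter fun i => (Pi.single i (p : ℤ) : X → ℤ) ∉ L

theorem mem_deep (L : AddSubgroup (X → ℤ)) (i : X) :
    i ∈ deep p L ↔ (Pi.single i (p : ℤ) : X → ℤ) ∉ L := by
  classical
  simp [deep]

theorem card_deep (c : ℕ) (L : AddSubgroup (X → ℤ)) (hL : L ∈ Lat p X c) :
    #(deep p L) ≤ 2 * c := by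
  classical
  obtain ⟨J, hJ, hJ'⟩ := exists_J c L hL.2
  let S : Finset X := univ.filter fun i => i ∉ J ∧ ∀ w ∈ L, (∀ j ∈ J, w j = 0) → (p : ℤ) ∣ w i
  have hS : #S ≤ c := card_forced c L hL.2 J S fun i hi => by simpa [S] using hi
  have hsub : deep p L ⊆ J ∪ S := by
    intro i hi
    rw [mem_deep] at hi
    by_contra hcon
    rw [Finset.mem_union, not_or] at hcon
    obtain ⟨h1, h2⟩ := hcon
    have h2' : ∃ w ∈ L, (∀ j ∈ J, w j = 0) ∧ ¬ (p : ℤ) ∣ w i := by
      by_contra h3
      push Not at h3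
      exact h2 (Finset.mem_filter.2 ⟨Finset.mem_univ _, h1, h3⟩)
    obtain ⟨w, hw, hwJ, hwi⟩ := h2'
    have hcop : IsCoprime (w i) ((p : ℤ) ^ c) := by
      have hp : Prime (p : ℤ) := Nat.prime_iff_prime_int.1 (Fact.out : p.Prime)
      exact ((hp.coprime_iff_not_dvd.2 hwi).symm).pow_right
    obtain ⟨a, b, hab⟩ := hcop
    obtain ⟨l, hl, hl'⟩ := hJ' (Pi.single i 1)
    have hw' : a • w + b • ((p : ℤ) ^ c • (Pi.single i (1 : ℤ) : X → ℤ)) ∈ L :=
      L.add_mem (L.zsmul_mem hw _) (L.zsmul_mem (Lat.pow_smul_mem hL _) _)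
    have := hL.1 l hl _ hw'
    apply hi
    convert this using 1
    ext j
    by_cases hj : j ∈ J
    · have hji : j ≠ i := fun h => h1 (h ▸ hj)
      simp [Pi.single_apply, hji, hwJ j hj]
    · rw [Pi.smul_apply, Pi.mul_apply, hl' j hj]
      by_cases hji : j = i
      · subst hji
        simp only [Pi.single_eq_same, Pi.add_apply, Pi.smul_apply, smul_eq_mul, one_mul, mul_one]
        rw [hab, mul_one]
      · simp [Pi.single_apply, hji]
  calc #(deep p L) ≤ #(J ∪ S) := Finset.card_le_card hsub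
    _ ≤ #J + #S := Finset.card_union_le _ _
    _ ≤ 2 * c := by omega

end Pool.Agent.E07280
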