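/-
`gCount_eq`: Lagrange formula for the number of lattices.
-/
import Pool.Agent.E07280.P2Deep

open Finset Module

namespace Pool.Agent.E07280

variable {p : ℕ} [Fact p.Prime]

/-- relabelling of coordinates -/
def pull {A B : Type} (e : A ≃ B) : (B → ℤ) ≃+ (A → ℤ) where
  toFun w := fun a => w (e a)
  invFun w := fun b => w (e.symm b)
  left_inv w := by ext; simp
  right_inv w := by ext; simp
  map_add' _ _ := rfl

@[simp] theorem pull_apply {A B : Type} (e : A ≃ B) (w : B → ℤ) (a : A) : pull e w a = w (e a) := rfl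

omit [Fact p.Prime] in
theorem pull_smul_mul {A B : Type} (e : A ≃ B) (w w' : B → ℤ) :
    pull e ((p : ℤ) • (w * w')) = (p : ℤ) • (pull e w * pull e w') := rfl

theorem pull_single {A B : Type} [DecidableEq A] [DecidableEq B] (e : A ≃ B) (a : A) (r : ℤ) :
    pull e (Pi.single (e a) r) = Pi.single a r := by
  ext b
  simp [Pi.single_apply]

theorem map_pull_mem {A B : Type} (e : A ≃ B) (L : AddSubgroup (B → ℤ)) (w : B → ℤ) :
    pull e w ∈ (pull e).mapAddSubgroup L ↔ w ∈ L := by
  change pull e w ∈ L.map ((pull e : (B → ℤ) ≃+ (A → ℤ)) : (B → ℤ) →+ (A → ℤ)) ↔ w ∈ L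
  constructor
  · rintro ⟨w', hw', h⟩
    have : w' = w := (pull e).injective h
    rwa [← this]
  · intro hw
    exact ⟨w, hw, rfl⟩

theorem map_pull_lat {A B : Type} (e : A ≃ B) (c : ℕ) (L : AddSubgroup (B → ℤ)) :
    L ∈ Lat p B c ↔ (pull e).mapAddSubgroup L ∈ Lat p A c := by
  have hidx : ((pull e).mapAddSubgroup L).index = L.index :=
    AddSubgroup.index_map_equiv L (pull e)
  have hmul : (∀ x ∈ L, ∀ y ∈ L, (p : ℤ) • (x * y) ∈ L) ↔
      ∀ x ∈ (pull e).mapAddSubgroup L, ∀ y ∈ (pull e).mapAddSubgroup L,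
        (p : ℤ) • (x * y) ∈ (pull e).mapAddSubgroup L := by
    constructor
    · intro h x hx y hy
      obtain ⟨x, rfl⟩ := (pull e).surjective x
      obtain ⟨y, rfl⟩ := (pull e).surjective y
      rw [map_pull_mem] at hx hy
      rw [← pull_smul_mul, map_pull_mem]
      exact h x hx y hy
    · intro h x hx y hy
      rw [← map_pull_mem e] at hx hy ⊢
      exact h _ hx _ hy
  rw [Lat, Lat, Set.mem_ofPred_eq, Set.mem_ofPred_eq, hidx, hmul]

theorem card_deep_subset (N s c : ℕ) (T : Finset (Fin N)) (hT : #T = s) :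
    Nat.card {L : AddSubgroup (Fin N → ℤ) // L ∈ Lat p (Fin N) c ∧ deep p L ⊆ T} =
      aCount p (Fin s) (Fin (N - s)) c := by
  have hTc : #Tᶜ = N - s := by rw [Finset.card_compl, Fintype.card_fin, hT]
  let e := finSumEquivOfFinset hT hTc
  rw [aCount]
  refine Nat.card_congr ((pull e).mapAddSubgroup.toEquiv.subtypeEquiv fun L => ?_)
  refine and_congr (map_pull_lat e c L) ?_
  constructor
  · intro h j
    change Pi.single (Sum.inr j) (p : ℤ) ∈ (pull e).mapAddSubgroup L
    rw [← pull_single e, map_pull_mem]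
    by_contra hcon
    have h1 : e (Sum.inr j) ∈ T := h ((mem_deep L _).2 hcon)
    have h2 : e (Sum.inr j) ∈ Tᶜ := by
      rw [finSumEquivOfFinset_inr]
      exact Finset.orderEmbOfFin_mem _ _ _
    exact (Finset.mem_compl.1 h2) h1
  · intro h i hi
    by_contra hiT
    rw [mem_deep] at hi
    apply hi
    obtain ⟨a, rfl⟩ := e.surjective i
    rcases a with a | a
    · exfalso
      apply hiT
      rw [finSumEquivOfFinset_inl]
      exact Finset.orderEmbOfFin_mem _ _ _
    · have := h a
      change Pi.single (Sum.inr a) (p : ℤ) ∈ (pull e).mapAddSubgroup L at this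
      rwa [← pull_single e, map_pull_mem] at this

theorem card_supersets {N : ℕ} (D : Finset (Fin N)) (s : ℕ) :
    #{T ∈ powersetCard s (univ : Finset (Fin N)) | D ⊆ T} =
      if #D ≤ s then (N - #D).choose (s - #D) else 0 := by
  classical
  split_ifs with h
  · have : #Dᶜ = N - #D := by rw [Finset.card_compl, Fintype.card_fin]
    rw [← this, ← Finset.card_powersetCard]
    refine Finset.card_nbij' (fun T => T \ D) (fun T => T ∪ D) ?_ ?_ ?_ ?_
    · intro T hT
      simp only [Finset.coe_filter, Finset.mem_powersetCard_univ, Set.mem_ofPred_eq] at hT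
      rw [Finset.mem_coe, Finset.mem_powersetCard]
      refine ⟨fun i hi => ?_, ?_⟩
      · rw [Finset.mem_compl]; exact (Finset.mem_sdiff.1 hi).2
      · rw [Finset.card_sdiff_of_subset hT.2, hT.1]
    · intro T hT
      rw [Finset.mem_coe, Finset.mem_powersetCard] at hT
      simp only [Finset.coe_filter, Finset.mem_powersetCard_univ, Set.mem_ofPred_eq]
      refine ⟨?_, Finset.subset_union_right⟩
      rw [Finset.card_union_of_disjoint, hT.2, Nat.sub_add_cancel h]
      exact Finset.disjoint_left.2 fun i hi hiD => (Finset.mem_compl.1 (hT.1 hi)) hiD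
    · intro T hT
      simp only [Finset.coe_filter, Finset.mem_powersetCard_univ, Set.mem_ofPred_eq] at hT
      exact Finset.sdiff_union_of_subset hT.2
    · intro T hT
      rw [Finset.mem_coe, Finset.mem_powersetCard] at hT
      have hdisj : Disjoint T D :=
        Finset.disjoint_left.2 fun i hi hiD => (Finset.mem_compl.1 (hT.1 hi)) hiD
      exact Finset.union_sdiff_cancel_right hdisj
  · rw [Finset.card_eq_zero, Finset.filter_eq_empty_iff]
    intro T hT hD
    rw [Finset.mem_powersetCard_univ] at hT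
    exact h (hT ▸ Finset.card_le_card hD)

section count

variable (p)

noncomputable local instance (N c : ℕ) : Fintype (Lat p (Fin N) c) := Fintype.ofFinite _

/-- the double count -/
theorem choose_mul_aCount (N s c : ℕ) :
    N.choose s * aCount p (Fin s) (Fin (N - s)) c =
      ∑ L : Lat p (Fin N) c, if #(deep p L.1) ≤ s then
        (N - #(deep p L.1)).choose (s - #(deep p L.1)) else 0 := by
  classical
  have h1 : N.choose s * aCount p (Fin s) (Fin (N - s)) c =
      ∑ T ∈ powersetCard s (univ : Finset (Fin N)),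
        #{L : Lat p (Fin N) c | deep p L.1 ⊆ T} := by
    rw [Finset.sum_congr rfl (g := fun _ => aCount p (Fin s) (Fin (N - s)) c)]
    · rw [Finset.sum_const, Finset.card_powersetCard, Finset.card_univ, Fintype.card_fin,
        smul_eq_mul]
    · intro T hT
      rw [Finset.mem_powersetCard_univ] at hT
      rw [← card_deep_subset N s c T hT, ← Fintype.card_subtype, ← Nat.card_eq_fintype_card]
      exact Nat.card_congr
        { toFun := fun L => ⟨L.1.1, L.1.2, L.2⟩
          invFun := fun L => ⟨⟨L.1, L.2.1⟩, L.2.2⟩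
          left_inv := fun L => rfl
          right_inv := fun L => rfl }
  rw [h1]
  simp only [← card_supersets]
  exact Finset.sum_card_bipartiteAbove_eq_sum_card_bipartiteBelow
    (fun (T : Finset (Fin N)) (L : Lat p (Fin N) c) => deep p L.1 ⊆ T)

theorem aCount_eq_sum (N s c : ℕ) (hs : s ≤ N) :
    (aCount p (Fin s) (Fin (N - s)) c : ℚ) =
      ∑ L : Lat p (Fin N) c, (s.choose #(deep p L.1) : ℚ) / (N.choose #(deep p L.1) : ℚ) := by
  have h0 : (N.choose s : ℚ) ≠ 0 := by exact_mod_cast (Nat.choose_pos hs).ne'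
  have h1 : (N.choose s : ℚ) * aCount p (Fin s) (Fin (N - s)) c =
      (N.choose s : ℚ) * ∑ L : Lat p (Fin N) c,
        (s.choose #(deep p L.1) : ℚ) / (N.choose #(deep p L.1) : ℚ) := by
    rw [← Nat.cast_mul, choose_mul_aCount, Nat.cast_sum, Finset.mul_sum]
    refine Finset.sum_congr rfl fun L _ => ?_
    have hdN : #(deep p L.1) ≤ N := by
      simpa using Finset.card_le_univ (deep p L.1)
    have h2 : (N.choose #(deep p L.1) : ℚ) ≠ 0 := by exact_mod_cast (Nat.choose_pos hdN).ne'
    split_ifs with h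
    · have := Nat.choose_mul (n := N) (k := s) (s := #(deep p L.1)) h
      rw [mul_div_assoc', eq_div_iff h2]
      have h3 : (N.choose s : ℚ) * (s.choose #(deep p L.1) : ℚ) =
        (N.choose #(deep p L.1) : ℚ) * ((N - #(deep p L.1)).choose (s - #(deep p L.1)) : ℚ) := by
        exact_mod_cast this
      rw [h3, mul_comm]
    · rw [Nat.choose_eq_zero_of_lt (not_le.1 h)]
      simp
  exact mul_left_cancel₀ h0 h1

open Polynomial in
/-- P2b -/
theorem gCount_eq (c N : ℕ) (hN : 2 * c ≤ N) :
    (gCount p (Fin N) c : ℚ) = ∑ s ∈ range (2 * c + 1),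
      (∏ i ∈ (range (2 * c + 1)).erase s, (((N : ℚ) - i) / ((s : ℚ) - i))) *
        (aCount p (Fin s) (Fin (N - s)) c : ℚ) := by
  classical
  let A : ℚ[X] := ∑ L : Lat p (Fin N) c,
    C (((#(deep p L.1)).factorial : ℚ)⁻¹ * (N.choose #(deep p L.1) : ℚ)⁻¹) *
      descPochhammer ℚ #(deep p L.1)
  have hA : ∀ m : ℕ, A.eval (m : ℚ) =
      ∑ L : Lat p (Fin N) c, (m.choose #(deep p L.1) : ℚ) / (N.choose #(deep p L.1) : ℚ) := by
    intro m
    rw [Polynomial.eval_finsetSum]
    refine Finset.sum_congr rfl fun L _ => ?_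
    have h0 : ((#(deep p L.1)).factorial : ℚ) ≠ 0 := by exact_mod_cast Nat.factorial_ne_zero _
    rw [eval_mul, eval_C, descPochhammer_eval_eq_descFactorial,
      Nat.descFactorial_eq_factorial_mul_choose]
    push_cast
    field_simp
  have hdeg : A.degree < #(range (2 * c + 1)) := by
    rw [Finset.card_range]
    refine lt_of_le_of_lt (Polynomial.degree_sum_le _ _) ?_
    rw [Finset.sup_lt_iff (WithBot.bot_lt_coe _)]
    intro L _
    refine lt_of_le_of_lt Polynomial.degree_le_natDegree ?_
    have h3 := Polynomial.natDegree_C_mul_le (((#(deep p L.1)).factorial : ℚ)⁻¹ *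
      (N.choose #(deep p L.1) : ℚ)⁻¹) (descPochhammer ℚ #(deep p L.1))
    rw [descPochhammer_natDegree] at h3
    have := card_deep c L.1 L.2
    exact_mod_cast (by omega : _ < 2 * c + 1)
  have hinj : Set.InjOn (fun i : ℕ => (i : ℚ)) (range (2 * c + 1)) :=
    fun i _ j _ h => Nat.cast_injective (R := ℚ) h
  have h1 := Lagrange.eq_interpolate hinj hdeg
  have h2 : (gCount p (Fin N) c : ℚ) = A.eval (N : ℚ) := by
    rw [hA, gCount, Nat.card_eq_fintype_card]
    rw [Finset.sum_congr rfl (g := fun _ => (1 : ℚ))]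
    · simp
    · intro L _
      have hdN : #(deep p L.1) ≤ N := by
        simpa using Finset.card_le_univ (deep p L.1)
      exact div_self (by exact_mod_cast (Nat.choose_pos hdN).ne')
  rw [h2, h1, Lagrange.interpolate_apply, Polynomial.eval_finsetSum]
  refine Finset.sum_congr rfl fun s hs => ?_
  have hsN : s ≤ N := by have := Finset.mem_range.1 hs; omega
  rw [eval_mul, eval_C, hA, ← aCount_eq_sum p N s c hsN, mul_comm, Lagrange.basis,
    Polynomial.eval_prod]
  congr 1
  refine Finset.prod_congr rfl fun i _ => ?_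
  rw [Lagrange.basisDivisor, eval_mul, eval_C, eval_sub, eval_X, eval_C]
  rw [inv_mul_eq_div]

end count

end Pool.Agent.E07280
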