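/-
Extraction: from `gCount` rational in `p` for all `N` to `bCount` rational.
-/
import Pool.Agent.E07280.P2b

open Finset Polynomial

namespace Pool.Agent.E07280

/-- difference operator -/
def DD (P : ℕ → Nat.Primes → ℚ) : ℕ → Nat.Primes → ℚ := fun N p => P (N + 1) p - P N p

theorem DD_zero_iter (k : ℕ) : DD^[k] (fun _ _ => 0) = fun _ _ => 0 := by
  induction k with
  | zero => rfl
  | succ k ih =>
    rw [Function.iterate_succ_apply']
    rw [ih]; funext N p; simp [DD]

theorem DD_iter_comb (q r : Nat.Primes → ℚ) (k : ℕ) (P : ℕ → Nat.Primes → ℚ) :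
    DD^[k] (fun N p => q p * P (N + 1) p - r p * P N p) =
      fun N p => q p * (DD^[k] P) (N + 1) p - r p * (DD^[k] P) N p := by
  induction k with
  | zero => rfl
  | succ k ih =>
    rw [Function.iterate_succ_apply', ih]
    funext N p
    simp only [DD, Function.iterate_succ_apply']
    ring

theorem DD_iter_mul (q : Nat.Primes → ℚ) (k : ℕ) (P : ℕ → Nat.Primes → ℚ) :
    DD^[k] (fun N p => q p * P N p) = fun N p => q p * (DD^[k] P) N p := by
  induction k with
  | zero => rfl
  | succ k ih =>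
    rw [Function.iterate_succ_apply', ih]
    funext N p
    simp only [DD, Function.iterate_succ_apply']
    ring

theorem DD_iter_sum {ι : Type*} (s : Finset ι) (k : ℕ) (P : ι → ℕ → Nat.Primes → ℚ) :
    DD^[k] (fun N p => ∑ i ∈ s, P i N p) = fun N p => ∑ i ∈ s, (DD^[k] (P i)) N p := by
  induction k with
  | zero => rfl
  | succ k ih =>
    rw [Function.iterate_succ_apply', ih]
    funext N p
    simp only [DD, Function.iterate_succ_apply', Finset.sum_sub_distrib]

theorem DD_iter_poly (k : ℕ) (Q : ℚ[X]) (hQ : Q.natDegree < k) (v : Nat.Primes → ℚ) :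
    DD^[k] (fun N p => v p * Q.eval (N : ℚ)) = fun _ _ => 0 := by
  have h : ∀ k, DD^[k] (fun N p => v p * Q.eval (N : ℚ)) =
      fun (N : ℕ) (p : Nat.Primes) => v p * ((fwdDiff (1 : ℚ))^[k] (fun x => Q.eval x)) (N : ℚ) := by
    intro k
    induction k with
    | zero => rfl
    | succ k ih =>
      rw [Function.iterate_succ_apply', ih]
      funext N p
      rw [Function.iterate_succ_apply']
      simp only [DD, fwdDiff]
      push_cast
      ring
  rw [h, Polynomial.fwdDiff_iter_eq_zero_of_degree_lt hQ]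
  funext N p
  simp

theorem ratFun_of_comb {q r : Nat.Primes → ℚ} (hq : RatFun q) (hr : RatFun r)
    (hqr : ∀ p : Nat.Primes, 17 ≤ (p : ℕ) → q p - r p ≠ 0) (d : ℕ) :
    ∀ P : ℕ → Nat.Primes → ℚ, DD^[d] P = (fun _ _ => 0) →
      (∀ N, RatFun fun p => q p * P (N + 1) p - r p * P N p) → ∀ N, RatFun (P N) := by
  induction d with
  | zero =>
    intro P hP _ N
    have : P N = fun _ => 0 := by
      have := congrFun hP N
      simpa using this
    rw [this]
    exact RatFun.const 0
  | succ d ih =>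
    intro P hP h N
    have h1 : ∀ N, RatFun (DD P N) := by
      refine ih (DD P) ?_ fun N => ?_
      · rw [← Function.iterate_succ_apply]; exact hP
      · refine ((h (N + 1)).sub (h N)).congr fun p _ => ?_
        simp only [DD]
        ring
    refine (((h N).sub (hq.mul (h1 N))).div (hq.sub hr) hqr).congr fun p hp => ?_
    rw [eq_div_iff (hqr p hp)]
    simp only [DD]
    ring

theorem qq_ratFun (j : ℕ) : RatFun fun p => ((p : ℕ) : ℚ) ^ j := RatFun.self.pow j

theorem qq_ne (j : ℕ) (p : Nat.Primes) : ((p : ℕ) : ℚ) ^ j ≠ 0 :=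
  pow_ne_zero _ (by exact_mod_cast p.2.ne_zero)

theorem qq_sub_ne {i j : ℕ} (h : i ≠ j) (p : Nat.Primes) :
    ((p : ℕ) : ℚ) ^ i - ((p : ℕ) : ℚ) ^ j ≠ 0 := by
  have h1 : (1 : ℚ) < ((p : ℕ) : ℚ) := by exact_mod_cast p.2.one_lt
  rw [sub_ne_zero]
  exact fun h2 => h (pow_right_injective₀ (by linarith) h1.ne' h2)

/-- extraction lemma -/
theorem extract (J N₀ : ℕ) (n : ℕ) : ∀ (d : ℕ → ℕ) (P : ℕ → ℕ → Nat.Primes → ℚ),
    ∑ j ∈ range J, d j = n → (∀ j < J, DD^[d j] (P j) = fun _ _ => 0) →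
    (∀ N, N₀ ≤ N → RatFun fun p => ∑ j ∈ range J, (((p : ℕ) : ℚ) ^ j) ^ N * P j N p) →
    ∀ j < J, ∀ N, RatFun (P j N) := by
  induction n with
  | zero =>
    intro d P hd hP _ j hj N
    have h0 : d j = 0 := (Finset.sum_eq_zero_iff.1 hd) j (Finset.mem_range.2 hj)
    have := hP j hj
    rw [h0] at this
    have h2 : P j N = fun _ => 0 := congrFun this N
    rw [h2]
    exact RatFun.const 0
  | succ n ih =>
    intro d P hd hP hu
    obtain ⟨j₀, hj₀, hdj⟩ : ∃ j₀ ∈ range J, d j₀ ≠ 0 := by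
      by_contra hcon
      push Not at hcon
      rw [Finset.sum_eq_zero hcon] at hd
      omega
    have hj₀' := Finset.mem_range.1 hj₀
    let P' : ℕ → ℕ → Nat.Primes → ℚ := fun j => if j = j₀ then
        (fun N p => ((p : ℕ) : ℚ) ^ j₀ * DD (P j₀) N p)
      else fun N p => ((p : ℕ) : ℚ) ^ j * P j (N + 1) p - ((p : ℕ) : ℚ) ^ j₀ * P j N p
    let d' : ℕ → ℕ := fun j => if j = j₀ then d j₀ - 1 else d j
    have hd' : ∑ j ∈ range J, d' j = n := by
      have h1 := Finset.add_sum_erase (range J) d hj₀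
      have h2 := Finset.add_sum_erase (range J) d' hj₀
      have h3 : ∑ j ∈ (range J).erase j₀, d' j = ∑ j ∈ (range J).erase j₀, d j :=
        Finset.sum_congr rfl fun j hj => by
          simp only [d', if_neg (Finset.ne_of_mem_erase hj)]
      have h4 : d' j₀ = d j₀ - 1 := by simp [d']
      omega
    have hP' : ∀ j < J, DD^[d' j] (P' j) = fun _ _ => 0 := by
      intro j hj
      by_cases h : j = j₀
      · subst h
        simp only [P', d', if_true]
        rw [DD_iter_mul (fun p : Nat.Primes => ((p : ℕ) : ℚ) ^ j), ← Function.iterate_succ_apply,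
          Nat.succ_eq_add_one, Nat.sub_add_cancel (Nat.one_le_iff_ne_zero.2 hdj), hP j hj]
        funext N p
        simp
      · simp only [P', d', if_neg h]
        rw [DD_iter_comb (fun p : Nat.Primes => ((p : ℕ) : ℚ) ^ j)
          (fun p : Nat.Primes => ((p : ℕ) : ℚ) ^ j₀), hP j hj]
        funext N p
        simp
    have hu' : ∀ N, N₀ ≤ N → RatFun fun p =>
        ∑ j ∈ range J, (((p : ℕ) : ℚ) ^ j) ^ N * P' j N p := by
      intro N hN
      refine ((hu (N + 1) (by omega)).sub ((qq_ratFun j₀).mul (hu N hN))).congr fun p _ => ?_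
      rw [Finset.mul_sum, ← Finset.sum_sub_distrib]
      refine Finset.sum_congr rfl fun j _ => ?_
      by_cases h : j = j₀
      · subst h
        simp only [P', if_true, DD]
        ring
      · simp only [P', if_neg h]
        ring
    have key := ih d' P' hd' hP' hu'
    have hne : ∀ j < J, j ≠ j₀ → ∀ N, RatFun (P j N) := by
      intro j hj h
      refine ratFun_of_comb (qq_ratFun j) (qq_ratFun j₀) (fun p _ => qq_sub_ne h p) (d j) (P j)
        (hP j hj) fun N => ?_
      have := key j hj N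
      simp only [P', if_neg h] at this
      exact this
    have hDD : ∀ N, RatFun (DD (P j₀) N) := by
      intro N
      have := key j₀ hj₀' N
      simp only [P', if_true] at this
      refine (this.div (qq_ratFun j₀) fun p _ => qq_ne j₀ p).congr fun p _ => ?_
      rw [eq_div_iff (qq_ne j₀ p), mul_comm]
    have hbig : ∀ N, N₀ ≤ N → RatFun (P j₀ N) := by
      intro N hN
      have h1 : RatFun fun p => ∑ j ∈ (range J).erase j₀, (((p : ℕ) : ℚ) ^ j) ^ N * P j N p :=
        RatFun.sum _ fun j hj => ((qq_ratFun j).pow N).mul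
          (hne j (Finset.mem_range.1 (Finset.mem_of_mem_erase hj)) (Finset.ne_of_mem_erase hj) N)
      refine (((hu N hN).sub h1).div ((qq_ratFun j₀).pow N)
        fun p _ => pow_ne_zero _ (qq_ne j₀ p)).congr fun p _ => ?_
      rw [eq_div_iff (pow_ne_zero _ (qq_ne j₀ p)), ← Finset.add_sum_erase (range J) _ hj₀]
      ring
    have hsmall : ∀ k N, N₀ ≤ N + k → RatFun (P j₀ N) := by
      intro k
      induction k with
      | zero => intro N hN; exact hbig N hN
      | succ k ihk =>
        intro N hN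
        refine ((ihk (N + 1) (by omega)).sub (hDD N)).congr fun p _ => ?_
        simp only [DD]
        ring
    intro j hj N
    by_cases h : j = j₀
    · subst h
      exact hsmall N₀ N (by omega)
    · exact hne j hj h N

/-! ### Application -/

theorem grass_ratFun (y κ : ℕ) : RatFun fun p => grass p y κ := by
  unfold grass
  refine (RatFun.prod _ fun i _ => (qq_ratFun y).sub (qq_ratFun i)).div
    (RatFun.prod _ fun i _ => (qq_ratFun κ).sub (qq_ratFun i)) fun p _ => grass_den_ne p κ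

theorem grass_self (p κ : ℕ) [Fact p.Prime] : grass p κ κ = 1 :=
  div_self (grass_den_ne p κ)

theorem grass_gt (p y κ : ℕ) (h : y < κ) : grass p y κ = 0 := by
  rw [grass, Finset.prod_eq_zero (Finset.mem_range.2 h) (sub_self _), zero_div]

/-- `aCount` as a polynomial in `p^y` -/
noncomputable def aPoly (s c : ℕ) (p : Nat.Primes) : ℚ[X] :=
  ∑ κ ∈ range (c + 1), C ((bCount p (Fin s) (c - κ) κ : ℚ) /
    ∏ i ∈ range κ, (((p : ℕ) : ℚ) ^ κ - ((p : ℕ) : ℚ) ^ i)) *
      ∏ i ∈ range κ, (X - C (((p : ℕ) : ℚ) ^ i))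

theorem aPoly_natDegree (s c : ℕ) (p : Nat.Primes) : (aPoly s c p).natDegree < c + 1 := by
  rw [Nat.lt_succ_iff]
  refine Polynomial.natDegree_sum_le_of_forall_le _ _ fun κ hκ => ?_
  refine (Polynomial.natDegree_C_mul_le _ _).trans ?_
  rw [Polynomial.natDegree_prod_of_monic _ _ fun i _ => Polynomial.monic_X_sub_C _]
  simp only [Polynomial.natDegree_X_sub_C, Finset.sum_const, Finset.card_range, smul_eq_mul,
    mul_one]
  have := Finset.mem_range.1 hκ
  omega

theorem aPoly_eval (s y c : ℕ) (p : Nat.Primes) :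
    (aPoly s c p).eval (((p : ℕ) : ℚ) ^ y) = (aCount p (Fin s) (Fin y) c : ℚ) := by
  rw [aCount_eq, aPoly, Polynomial.eval_finsetSum]
  refine Finset.sum_congr rfl fun κ _ => ?_
  rw [eval_mul, eval_C, Polynomial.eval_prod, grass]
  simp only [eval_sub, eval_X, eval_C]
  ring

/-- Lagrange basis polynomial at the nodes `0..2c` -/
noncomputable def ell (c s : ℕ) : ℚ[X] :=
  ∏ i ∈ (range (2 * c + 1)).erase s, (C (((s : ℚ) - i)⁻¹) * (X - C (i : ℚ)))

theorem ell_eval (c s : ℕ) (N : ℕ) : (ell c s).eval (N : ℚ) =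
    ∏ i ∈ (range (2 * c + 1)).erase s, (((N : ℚ) - i) / ((s : ℚ) - i)) := by
  rw [ell, Polynomial.eval_prod]
  refine Finset.prod_congr rfl fun i _ => ?_
  rw [eval_mul, eval_C, eval_sub, eval_X, eval_C, inv_mul_eq_div]

theorem ell_natDegree (c s : ℕ) (hs : s ∈ range (2 * c + 1)) :
    (ell c s).natDegree < 2 * c + 1 := by
  rw [Nat.lt_succ_iff]
  refine (Polynomial.natDegree_prod_le _ _).trans ?_
  refine (Finset.sum_le_sum (g := fun _ => 1) fun i _ => ?_).trans ?_
  · refine (Polynomial.natDegree_C_mul_le _ _).trans ?_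
    rw [Polynomial.natDegree_X_sub_C]
  · rw [Finset.sum_const, Finset.card_erase_of_mem hs, Finset.card_range]
    simp

theorem ell_eval_self (c s : ℕ) : (ell c s).eval (s : ℚ) = 1 := by
  rw [ell_eval]
  refine Finset.prod_eq_one fun i hi => div_self ?_
  rw [sub_ne_zero]
  exact_mod_cast (Finset.ne_of_mem_erase hi).symm

theorem ell_eval_ne (c s t : ℕ) (ht : t ∈ range (2 * c + 1)) (hst : t ≠ s) :
    (ell c s).eval (t : ℚ) = 0 := by
  rw [ell_eval]
  refine Finset.prod_eq_zero (Finset.mem_erase.2 ⟨hst, ht⟩) ?_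
  rw [sub_self, zero_div]

theorem aCount_ratFun (H : ∀ N c : ℕ, RatFun fun p => (gCount p (Fin N) c : ℚ)) (s y c : ℕ)
    (hs : s ≤ 2 * c) : RatFun fun p => (aCount p (Fin s) (Fin y) c : ℚ) := by
  let P : ℕ → ℕ → Nat.Primes → ℚ := fun j N p => ∑ s ∈ range (2 * c + 1),
    ((aPoly s c p).coeff j * ((((p : ℕ) : ℚ) ^ j) ^ s)⁻¹) * (ell c s).eval (N : ℚ)
  have hP : ∀ j < c + 1, DD^[2 * c + 1] (P j) = fun _ _ => 0 := by
    intro j _
    rw [DD_iter_sum]
    funext N p
    refine Finset.sum_eq_zero fun s hs => ?_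
    rw [DD_iter_poly _ _ (ell_natDegree c s hs)
      (fun p => (aPoly s c p).coeff j * ((((p : ℕ) : ℚ) ^ j) ^ s)⁻¹)]
  have hu : ∀ N, 2 * c ≤ N → RatFun fun p =>
      ∑ j ∈ range (c + 1), (((p : ℕ) : ℚ) ^ j) ^ N * P j N p := by
    intro N hN
    refine (H N c).congr fun p _ => ?_
    rw [gCount_eq p c N hN]
    simp only [P, Finset.mul_sum]
    rw [Finset.sum_comm]
    refine Finset.sum_congr rfl fun s hs => ?_
    have hsN : s ≤ N := by have := Finset.mem_range.1 hs; omega
    rw [← aPoly_eval, ← ell_eval, Polynomial.eval_eq_sum_range' (aPoly_natDegree s c p),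
      Finset.mul_sum]
    refine Finset.sum_congr rfl fun j _ => ?_
    have h1 : (((p : ℕ) : ℚ) ^ j) ^ N = (((p : ℕ) : ℚ) ^ j) ^ (N - s) * (((p : ℕ) : ℚ) ^ j) ^ s := by
      rw [← pow_add, Nat.sub_add_cancel hsN]
    have h2 : (((p : ℕ) : ℚ) ^ j) ^ s ≠ 0 := pow_ne_zero _ (qq_ne j p)
    have h5 : (((p : ℕ) : ℚ) ^ (N - s)) ^ j = (((p : ℕ) : ℚ) ^ j) ^ (N - s) := by
      rw [← pow_mul, ← pow_mul, mul_comm]
    rw [h1, h5]
    generalize (((p : ℕ) : ℚ) ^ j) ^ s = x at h2 ⊢
    field_simp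
  have key := extract (c + 1) (2 * c) _ (fun _ => 2 * c + 1) P rfl hP hu
  have hsr : s ∈ range (2 * c + 1) := Finset.mem_range.2 (by omega)
  have h3 : ∀ j < c + 1, RatFun fun p => (aPoly s c p).coeff j := by
    intro j hj
    refine ((key j hj s).mul ((qq_ratFun j).pow s)).congr fun p _ => ?_
    have h2 : (((p : ℕ) : ℚ) ^ j) ^ s ≠ 0 := pow_ne_zero _ (qq_ne j p)
    have h4 : P j s p = (aPoly s c p).coeff j * ((((p : ℕ) : ℚ) ^ j) ^ s)⁻¹ := by
      simp only [P]
      rw [Finset.sum_eq_single s, ell_eval_self, mul_one]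
      · intro t _ hts
        rw [ell_eval_ne c t s hsr (Ne.symm hts), mul_zero]
      · intro h
        exact absurd hsr h
    rw [h4, mul_assoc, inv_mul_cancel₀ h2, mul_one]
  refine (RatFun.sum (range (c + 1)) (F := fun j p => (aPoly s c p).coeff j *
    (((p : ℕ) : ℚ) ^ y) ^ j) fun j hj => (h3 j (Finset.mem_range.1 hj)).mul
      ((qq_ratFun y).pow j)).congr fun p _ => ?_
  rw [← aPoly_eval, Polynomial.eval_eq_sum_range' (aPoly_natDegree s c p)]

theorem bCount_ratFun_aux (H : ∀ N c : ℕ, RatFun fun p => (gCount p (Fin N) c : ℚ)) (s c : ℕ)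
    (hs : s ≤ 2 * c) (κ : ℕ) : κ ≤ c → RatFun fun p => (bCount p (Fin s) (c - κ) κ : ℚ) := by
  induction κ using Nat.strong_induction_on with
  | _ κ ih =>
    intro hκ
    have h1 : RatFun fun p => ∑ k ∈ range κ, grass p κ k * (bCount p (Fin s) (c - k) k : ℚ) :=
      RatFun.sum _ fun k hk => (grass_ratFun κ k).mul
        (ih k (Finset.mem_range.1 hk) (by have := Finset.mem_range.1 hk; omega))
    refine ((aCount_ratFun H s κ c hs).sub h1).congr fun p _ => ?_
    rw [aCount_eq]
    have h2 : range (c + 1) = range (κ + 1 + (c - κ)) := by congr 1; omega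
    rw [h2, Finset.sum_range_add, Finset.sum_range_succ, grass_self]
    rw [Finset.sum_eq_zero (s := range (c - κ)) fun i _ => by
      rw [grass_gt p κ (κ + 1 + i) (by omega), zero_mul]]
    ring

/-- P2c -/
theorem bCount_ratFun (H : ∀ N c : ℕ, RatFun fun p => (gCount p (Fin N) c : ℚ)) (s c κ : ℕ)
    (hs : s ≤ 2 * (c + κ)) : RatFun fun p => (bCount p (Fin s) c κ : ℚ) := by
  have := bCount_ratFun_aux H s (c + κ) hs κ (by omega)
  rwa [Nat.add_sub_cancel] at this

end Pool.Agent.E07280
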