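/-
P3, part a: lattices in `ℤ^X`, products, indices, and the number of elements of `LHom`.
-/
import Pool.Agent.E07280.Defs

open Finset

namespace Pool.Agent.E07280

section Torsion

variable {G : Type} [AddCommGroup G] [Finite G] {p : ℕ} [Fact p.Prime]

lemma card_hom_of_torsion (h : ∀ x : G, p • x = 0) (κ : ℕ) :
    Nat.card (G →+ (Fin κ → ZMod p)) = Nat.card G ^ κ := by
  have i1 : Module (ZMod p) G := AddCommGroup.zmodModule h
  have i2 : Module.Finite (ZMod p) G := Module.Finite.of_finite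
  have e1 : Nat.card (G →ₗ[ZMod p] (Fin κ → ZMod p)) = Nat.card (ZMod p) ^
      Module.finrank (ZMod p) (G →ₗ[ZMod p] (Fin κ → ZMod p)) :=
    Module.natCard_eq_pow_finrank
  have e2 : Nat.card G = Nat.card (ZMod p) ^
      Module.finrank (ZMod p) G := Module.natCard_eq_pow_finrank
  rw [Nat.card_congr (AddMonoidHom.toZModLinearMapEquiv p).toEquiv,
    e1, e2, Module.finrank_linearMap, Module.finrank_fin_fun, pow_mul]

lemma card_eq_pow_of_torsion (h : ∀ x : G, p • x = 0) : ∃ b, Nat.card G = p ^ b := by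
  have i1 : Module (ZMod p) G := AddCommGroup.zmodModule h
  have i2 : Module.Finite (ZMod p) G := Module.Finite.of_finite
  have e2 : Nat.card G = Nat.card (ZMod p) ^
      Module.finrank (ZMod p) G := Module.natCard_eq_pow_finrank
  exact ⟨Module.finrank (ZMod p) G, by rw [e2, Nat.card_zmod]⟩

lemma exists_gens_of_torsion (h : ∀ x : G, p • x = 0) (hc : Nat.card G = p ^ 2) :
    ∃ x y : G, ∀ z : G, ∃ m n : ℤ, m • x + n • y = z := by
  have i1 : Module (ZMod p) G := AddCommGroup.zmodModule h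
  have i2 : Module.Finite (ZMod p) G := Module.Finite.of_finite
  have e2 : Nat.card G = Nat.card (ZMod p) ^
      Module.finrank (ZMod p) G := Module.natCard_eq_pow_finrank
  have hfr : Module.finrank (ZMod p) G = 2 := by
    rw [hc, Nat.card_zmod] at e2
    exact (Nat.pow_right_injective (Fact.out : p.Prime).two_le e2).symm
  let b : Module.Basis (Fin 2) (ZMod p) G := Module.finBasisOfFinrankEq (ZMod p) G hfr
  refine ⟨b 0, b 1, fun z => ?_⟩
  have h1 := b.sum_repr z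
  rw [Fin.sum_univ_two] at h1
  obtain ⟨n0, hn0⟩ := ZMod.intCast_surjective (b.repr z 0)
  obtain ⟨n1, hn1⟩ := ZMod.intCast_surjective (b.repr z 1)
  rw [← hn0, ← hn1, Int.cast_smul_eq_zsmul, Int.cast_smul_eq_zsmul] at h1
  exact ⟨n0, n1, h1⟩

end Torsion

section General

variable {X : Type}

/-- multiplication by `p` -/
def mulP (p : ℕ) (X : Type) : (X → ℤ) →+ (X → ℤ) :=
  DistribSMul.toAddMonoidHom (X → ℤ) (p : ℤ)

/-- `pM` -/
def pM (p : ℕ) (M : AddSubgroup (X → ℤ)) : AddSubgroup (X → ℤ) := M.map (mulP p X)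

lemma mem_pM {p : ℕ} {M : AddSubgroup (X → ℤ)} {z : X → ℤ} :
    z ∈ pM p M ↔ ∃ m ∈ M, (p : ℤ) • m = z := Iff.rfl

lemma smul_mem_pM {p : ℕ} {M : AddSubgroup (X → ℤ)} {m : X → ℤ} (h : m ∈ M) :
    (p : ℤ) • m ∈ pM p M := ⟨m, h, rfl⟩

lemma pM_le {p : ℕ} {M N : AddSubgroup (X → ℤ)} :
    pM p M ≤ N ↔ ∀ m ∈ M, (p : ℤ) • m ∈ N := by
  constructor
  · intro h m hm; exact h (smul_mem_pM hm)
  · rintro h z ⟨m, hm, rfl⟩; exact h m hm

lemma pM_mono {p : ℕ} {M N : AddSubgroup (X → ℤ)} (h : M ≤ N) : pM p M ≤ pM p N :=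
  AddSubgroup.map_mono h

lemma pM_le_self {p : ℕ} (M : AddSubgroup (X → ℤ)) : pM p M ≤ M :=
  pM_le.2 fun _ hm => M.zsmul_mem hm _

/-- reduction mod `p` -/
def red (p : ℕ) (X : Type) : (X → ℤ) →+* (X → ZMod p) := (Int.castRingHom (ZMod p)).compLeft X

lemma red_apply (p : ℕ) (x : X → ℤ) (i : X) : red p X x i = (x i : ZMod p) := rfl

lemma red_eq_zero_iff {p : ℕ} {x : X → ℤ} : red p X x = 0 ↔ ∃ m, (p : ℤ) • m = x := by
  constructor
  · intro h
    have h1 : ∀ i, (p : ℤ) ∣ x i := fun i =>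
      (ZMod.intCast_zmod_eq_zero_iff_dvd _ _).1 (congrFun h i)
    choose m hm using h1
    exact ⟨m, funext fun i => (hm i).symm⟩
  · rintro ⟨m, rfl⟩
    funext i
    simp [red_apply]

lemma red_surjective (p : ℕ) : Function.Surjective (red p X) := fun v =>
  ⟨fun i => (ZMod.intCast_surjective (v i)).choose, funext fun i =>
    (ZMod.intCast_surjective (v i)).choose_spec⟩

/-- the kernel of the reduction mod `p` -/
def pTop (p : ℕ) (X : Type) : AddSubgroup (X → ℤ) := pM p ⊤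

lemma mem_pTop {p : ℕ} {x : X → ℤ} : x ∈ pTop p X ↔ red p X x = 0 := by
  rw [red_eq_zero_iff]
  constructor
  · rintro ⟨m, _, hm⟩; exact ⟨m, hm⟩
  · rintro ⟨m, hm⟩; exact ⟨m, trivial, hm⟩

lemma pTop_eq_ker (p : ℕ) : pTop p X = (red p X).toAddMonoidHom.ker := by
  ext x
  rw [mem_pTop, AddMonoidHom.mem_ker]
  rfl

lemma mulP_injective {p : ℕ} (hp : p ≠ 0) : Function.Injective (mulP p X) := by
  intro x y h
  funext i
  have h1 := congrFun h i
  change (p : ℤ) * x i = (p : ℤ) * y i at h1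
  exact mul_left_cancel₀ (by exact_mod_cast hp) h1

lemma index_pTop [Fintype X] (p : ℕ) : (pTop p X).index = p ^ Fintype.card X := by
  rw [pTop_eq_ker, AddSubgroup.index_ker]
  have h : (red p X).toAddMonoidHom.range = ⊤ :=
    AddMonoidHom.range_eq_top.2 (red_surjective p)
  rw [h, Nat.card_congr (AddSubgroup.topEquiv).toEquiv, Nat.card_fun, Nat.card_zmod,
    Nat.card_eq_fintype_card]

lemma index_pM [Fintype X] {p : ℕ} (hp : p ≠ 0) (M : AddSubgroup (X → ℤ)) :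
    (pM p M).index = M.index * p ^ Fintype.card X := by
  have h1 : (mulP p X).range = pTop p X := by
    ext x
    rw [AddMonoidHom.mem_range]
    constructor
    · rintro ⟨m, hm⟩; exact ⟨m, trivial, hm⟩
    · rintro ⟨m, _, hm⟩; exact ⟨m, hm⟩
  rw [pM, AddSubgroup.index_map, (AddMonoidHom.ker_eq_bot_iff _).2 (mulP_injective hp),
    sup_bot_eq, h1, index_pTop]

/-- products of elements of two lattices -/
def mulS (L K : AddSubgroup (X → ℤ)) : AddSubgroup (X → ℤ) :=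
  AddSubgroup.closure {z | ∃ x ∈ L, ∃ y ∈ K, x * y = z}

lemma mul_mem_mulS {L K : AddSubgroup (X → ℤ)} {x y : X → ℤ} (hx : x ∈ L) (hy : y ∈ K) :
    x * y ∈ mulS L K := AddSubgroup.subset_closure ⟨x, hx, y, hy, rfl⟩

lemma mulS_le {L K M : AddSubgroup (X → ℤ)} :
    mulS L K ≤ M ↔ ∀ x ∈ L, ∀ y ∈ K, x * y ∈ M := by
  constructor
  · intro h x hx y hy; exact h (mul_mem_mulS hx hy)
  · intro h
    rw [mulS, AddSubgroup.closure_le]
    rintro z ⟨x, hx, y, hy, rfl⟩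
    exact h x hx y hy

/-- `L + L·L` -/
def L2 (L : AddSubgroup (X → ℤ)) : AddSubgroup (X → ℤ) := L ⊔ mulS L L

/-- `L + L·L + L·L·L` -/
def L3 (L : AddSubgroup (X → ℤ)) : AddSubgroup (X → ℤ) := L2 L ⊔ mulS L (L2 L)

lemma le_L2 (L : AddSubgroup (X → ℤ)) : L ≤ L2 L := le_sup_left

lemma L2_le_L3 (L : AddSubgroup (X → ℤ)) : L2 L ≤ L3 L := le_sup_left

lemma mul_mem_L2 {L : AddSubgroup (X → ℤ)} {x y : X → ℤ} (hx : x ∈ L) (hy : y ∈ L) :
    x * y ∈ L2 L := (le_sup_right : mulS L L ≤ L2 L) (mul_mem_mulS hx hy)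

lemma mul_mem_L3 {L : AddSubgroup (X → ℤ)} {x y : X → ℤ} (hx : x ∈ L) (hy : y ∈ L2 L) :
    x * y ∈ L3 L := (le_sup_right : mulS L (L2 L) ≤ L3 L) (mul_mem_mulS hx hy)

lemma L2_le {L M : AddSubgroup (X → ℤ)} (h1 : L ≤ M) (h2 : ∀ x ∈ L, ∀ y ∈ L, x * y ∈ M) :
    L2 L ≤ M := sup_le h1 (mulS_le.2 h2)

lemma L3_le {L M : AddSubgroup (X → ℤ)} (h1 : L2 L ≤ M) (h2 : ∀ x ∈ L, ∀ y ∈ L2 L, x * y ∈ M) :
    L3 L ≤ M := sup_le h1 (mulS_le.2 h2)

/-- the defining property of the lattices in `Lat` -/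
def PLL (p : ℕ) (L : AddSubgroup (X → ℤ)) : Prop := ∀ x ∈ L, ∀ y ∈ L, (p : ℤ) • (x * y) ∈ L

lemma pM_L2_le {p : ℕ} {L : AddSubgroup (X → ℤ)} (hL : PLL p L) : pM p (L2 L) ≤ L := by
  rw [pM, AddSubgroup.map_le_iff_le_comap]
  refine L2_le (fun x hx => ?_) (fun x hx y hy => ?_)
  · exact L.zsmul_mem hx _
  · exact hL x hx y hy

lemma pM_L3_le {p : ℕ} {L : AddSubgroup (X → ℤ)} (hL : PLL p L) : pM p (L3 L) ≤ L2 L := by
  rw [pM, AddSubgroup.map_le_iff_le_comap]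
  refine L3_le (fun x hx => ?_) (fun x hx y hy => ?_)
  · exact le_L2 L (pM_L2_le hL (smul_mem_pM hx))
  · have h1 : (p : ℤ) • y ∈ L := pM_L2_le hL (smul_mem_pM hy)
    change (p : ℤ) • (x * y) ∈ L2 L
    rw [← mul_smul_comm]
    exact mul_mem_L2 hx h1

/-- the subgroup `p L_2` of `L` -/
def KL (p : ℕ) (L : AddSubgroup (X → ℤ)) : AddSubgroup L := (pM p (L2 L)).addSubgroupOf L

lemma smul_mem_KL (p : ℕ) (L : AddSubgroup (X → ℤ)) (x : L) : p • x ∈ KL p L := by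
  rw [KL, AddSubgroup.mem_addSubgroupOf]
  refine ⟨x, le_L2 L x.2, ?_⟩
  change (p : ℤ) • (x : X → ℤ) = _
  simp

lemma LHom_KL {p : ℕ} {L : AddSubgroup (X → ℤ)} (hL : PLL p L) {κ : ℕ}
    (φ : L →+ (Fin κ → ZMod p))
    (h : ∀ x ∈ L, ∀ y ∈ L, ∀ z : L, (z : X → ℤ) = (p : ℤ) • (x * y) → φ z = 0) :
    KL p L ≤ φ.ker := by
  have hle := pM_L2_le hL
  -- the homomorphism `m ↦ φ (p m)` on `L2 L`
  let ψ : L2 L →+ L :=
    { toFun := fun m => ⟨(p : ℤ) • (m : X → ℤ), hle (smul_mem_pM m.2)⟩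
      map_zero' := by ext; simp
      map_add' := fun a b => by ext; simp [mul_add] }
  -- `m` in `L2 L` with `φ (p m) = 0`
  have key : L2 L ≤ ((φ.comp ψ).ker).map (L2 L).subtype := by
    refine L2_le (fun x hx => ?_) (fun x hx y hy => ?_)
    · refine ⟨⟨x, le_L2 L hx⟩, ?_, rfl⟩
      change φ (ψ ⟨x, _⟩) = 0
      have : ψ ⟨x, le_L2 L hx⟩ = p • (⟨x, hx⟩ : L) := by
        ext i
        simp [ψ]
      rw [this, map_nsmul]
      funext i
      simp
    · refine ⟨⟨x * y, mul_mem_L2 hx hy⟩, ?_, rfl⟩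
      exact h x hx y hy _ rfl
  intro z hz
  rw [KL, AddSubgroup.mem_addSubgroupOf] at hz
  obtain ⟨m, hm, hmz⟩ := hz
  obtain ⟨m', hm', hmm⟩ := key hm
  have h1 : ψ m' = z := by
    ext1
    rw [← hmz, ← hmm]
    rfl
  have h2 : φ (ψ m') = 0 := hm'
  rw [AddMonoidHom.mem_ker, ← h1]
  exact h2

/-- `LHom` as homomorphisms of the quotient `L / p L_2` -/
noncomputable def LHomEquiv {p : ℕ} {L : AddSubgroup (X → ℤ)} (hL : PLL p L) (κ : ℕ) :
    LHom p L κ ≃ ((L ⧸ KL p L) →+ (Fin κ → ZMod p)) where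
  toFun φ := QuotientAddGroup.lift (KL p L) φ.1 (LHom_KL hL φ.1 φ.2)
  invFun g := ⟨g.comp (QuotientAddGroup.mk' (KL p L)), by
    intro x hx y hy z hz
    have h1 : z ∈ KL p L := by
      rw [KL, AddSubgroup.mem_addSubgroupOf, hz]
      exact smul_mem_pM (mul_mem_L2 hx hy)
    change g ((QuotientAddGroup.mk' (KL p L)) z) = 0
    rw [QuotientAddGroup.mk'_apply, (QuotientAddGroup.eq_zero_iff z).2 h1, map_zero]⟩
  left_inv φ := by
    apply Subtype.ext
    ext z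
    rfl
  right_inv g := by
    ext z
    rfl

lemma quot_torsion (p : ℕ) (L : AddSubgroup (X → ℤ)) (x : L ⧸ KL p L) : p • x = 0 := by
  obtain ⟨y, rfl⟩ := QuotientAddGroup.mk_surjective x
  rw [← QuotientAddGroup.mk_nsmul]
  exact (QuotientAddGroup.eq_zero_iff _).2 (smul_mem_KL p L y)

/-- `[L : p L_2]` -/
noncomputable def qL (p : ℕ) (L : AddSubgroup (X → ℤ)) : ℕ := (pM p (L2 L)).relIndex L

lemma natCard_quot (p : ℕ) (L : AddSubgroup (X → ℤ)) : Nat.card (L ⧸ KL p L) = qL p L := rfl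

lemma card_LHom {p : ℕ} [Fact p.Prime] {L : AddSubgroup (X → ℤ)} (hL : PLL p L)
    (hq : qL p L ≠ 0) (κ : ℕ) : Nat.card (LHom p L κ) = qL p L ^ κ := by
  have hfin : Finite (L ⧸ KL p L) := Nat.finite_of_card_ne_zero hq
  rw [Nat.card_congr (LHomEquiv hL κ), card_hom_of_torsion (quot_torsion p L), natCard_quot]

/-- `[L : p L_2]` is a power of `p`. -/
lemma qL_eq_pow {p : ℕ} [Fact p.Prime] {L : AddSubgroup (X → ℤ)} (hq : qL p L ≠ 0) :
    ∃ b, qL p L = p ^ b := by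
  have hfin : Finite (L ⧸ KL p L) := Nat.finite_of_card_ne_zero hq
  rw [← natCard_quot]
  exact card_eq_pow_of_torsion (quot_torsion p L)

lemma qL_mul_index [Fintype X] {p : ℕ} (hp : p ≠ 0) {L : AddSubgroup (X → ℤ)} (hL : PLL p L) :
    qL p L * L.index = (L2 L).index * p ^ Fintype.card X := by
  rw [qL, AddSubgroup.relIndex_mul_index (pM_L2_le hL), index_pM hp]

/-- generators of `L` modulo `p L_2` -/
lemma exists_gens {p : ℕ} [Fact p.Prime] {L : AddSubgroup (X → ℤ)} (hq : qL p L = p ^ 2) :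
    ∃ x ∈ L, ∃ y ∈ L, L ≤ AddSubgroup.closure {x, y} ⊔ pM p (L2 L) := by
  have hp0 : p ≠ 0 := (Fact.out : p.Prime).ne_zero
  have hq0 : qL p L ≠ 0 := by rw [hq]; exact pow_ne_zero _ hp0
  have hfin : Finite (L ⧸ KL p L) := Nat.finite_of_card_ne_zero hq0
  obtain ⟨x', y', hxy⟩ := exists_gens_of_torsion (quot_torsion p L) hq
  obtain ⟨x, rfl⟩ := QuotientAddGroup.mk_surjective x'
  obtain ⟨y, rfl⟩ := QuotientAddGroup.mk_surjective y'
  refine ⟨x, x.2, y, y.2, fun l hl => ?_⟩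
  obtain ⟨n0, n1, h1⟩ := hxy (QuotientAddGroup.mk ⟨l, hl⟩ : L ⧸ KL p L)
  have h2 : -(n0 • x + n1 • y) + (⟨l, hl⟩ : L) ∈ KL p L := by
    rw [← QuotientAddGroup.eq]
    exact h1
  rw [KL, AddSubgroup.mem_addSubgroupOf] at h2
  have h3 : l = (n0 • (x : X → ℤ) + n1 • (y : X → ℤ)) + (-(n0 • (x : X → ℤ) + n1 • (y : X → ℤ)) + l) := by
    abel
  rw [h3]
  exact AddSubgroup.add_mem_sup (AddSubgroup.mem_closure_pair.2 ⟨n0, n1, rfl⟩) h2

end General

end Pool.Agent.E07280
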