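/-
P3, part b: finiteness of `Lat`, and the number of lattices with `[L : p L_2] = p ^ 2` as a
combination of the numbers `bCount`.
-/
import Pool.Agent.E07280.P3a

open Finset Polynomial

namespace Pool.Agent.E07280

section Fin

variable {X : Type} [Fintype X]

lemma finite_index_eq3 {m : ℕ} (hm : m ≠ 0) : Finite {L : AddSubgroup (X → ℤ) // L.index = m} := by
  have : NeZero m := ⟨hm⟩
  have hinj : Function.Injective (fun L : {L : AddSubgroup (X → ℤ) // L.index = m} =>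
      L.1.map (red m X).toAddMonoidHom) := by
    intro L L' h
    have key : ∀ L : {L : AddSubgroup (X → ℤ) // L.index = m},
        (L.1.map (red m X).toAddMonoidHom).comap (red m X).toAddMonoidHom = L.1 := by
      intro L
      apply AddSubgroup.comap_map_eq_self
      rw [← pTop_eq_ker]
      rintro x ⟨y, _, rfl⟩
      have h1 := AddSubgroup.nsmul_index_mem L.1 y
      rw [L.2] at h1
      change (m : ℤ) • y ∈ L.1
      rwa [natCast_zsmul]
    apply Subtype.ext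
    rw [← key L, ← key L']
    exact congrArg _ h
  have : Finite (AddSubgroup (X → ZMod m)) := by
    have : Finite (Set (X → ZMod m)) := inferInstance
    exact Finite.of_injective (fun H : AddSubgroup (X → ZMod m) => (H : Set (X → ZMod m)))
      SetLike.coe_injective
  exact Finite.of_injective _ hinj

lemma finite_Lat {p : ℕ} (hp : p ≠ 0) (c : ℕ) : Finite (Lat p X c) := by
  have := finite_index_eq3 (X := X) (m := p ^ c) (pow_ne_zero _ hp)
  exact Finite.of_injective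
    (fun L : Lat p X c => (⟨L.1, L.2.2⟩ : {L : AddSubgroup (X → ℤ) // L.index = p ^ c}))
    (fun L L' h => Subtype.ext
      (congrArg (fun z : {L : AddSubgroup (X → ℤ) // L.index = p ^ c} => z.1) h :))

omit [Fintype X] in
lemma index_L2_ne_zero {p : ℕ} (hp : p ≠ 0) {c : ℕ} {L : AddSubgroup (X → ℤ)}
    (hL : L ∈ Lat p X c) : (L2 L).index ≠ 0 := by
  have h1 := AddSubgroup.index_dvd_of_le (le_L2 L)
  rw [hL.2] at h1
  exact ne_zero_of_dvd_ne_zero (pow_ne_zero _ hp) h1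

lemma qL_ne_zero {p : ℕ} (hp : p ≠ 0) {c : ℕ} {L : AddSubgroup (X → ℤ)}
    (hL : L ∈ Lat p X c) : qL p L ≠ 0 := by
  have h1 := qL_mul_index hp hL.1
  intro h0
  rw [h0, zero_mul] at h1
  exact mul_ne_zero (index_L2_ne_zero hp hL) (pow_ne_zero _ hp) h1.symm

lemma qL_le {p : ℕ} (hp : p ≠ 0) {c : ℕ} {L : AddSubgroup (X → ℤ)}
    (hL : L ∈ Lat p X c) : qL p L ≤ p ^ Fintype.card X := by
  have h1 := qL_mul_index hp hL.1
  have h2 : (L2 L).index ≤ L.index := Nat.le_of_dvd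
    (by rw [hL.2]; exact Nat.pos_of_ne_zero (pow_ne_zero _ hp))
    (AddSubgroup.index_dvd_of_le (le_L2 L))
  have h3 : 0 < L.index := by rw [hL.2]; exact Nat.pos_of_ne_zero (pow_ne_zero _ hp)
  have h4 : qL p L * L.index ≤ p ^ Fintype.card X * L.index := by
    rw [h1, mul_comm]
    exact Nat.mul_le_mul_left _ h2
  exact Nat.le_of_mul_le_mul_right h4 h3

end Fin

lemma exists_qL {p : ℕ} [Fact p.Prime] {c : ℕ} {L : AddSubgroup (Fin 9 → ℤ)}
    (hL : L ∈ Lat p (Fin 9) c) : ∃ b < 10, qL p L = p ^ b := by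
  have hp := (Fact.out : p.Prime)
  obtain ⟨b, hb⟩ := qL_eq_pow (qL_ne_zero hp.ne_zero hL)
  refine ⟨b, ?_, hb⟩
  have h1 := qL_le hp.ne_zero hL
  rw [hb, Fintype.card_fin] at h1
  have := (Nat.pow_le_pow_iff_right hp.one_lt).1 h1
  omega

open Classical in
lemma bCount_eq_sum (p : ℕ) [Fact p.Prime] (c κ : ℕ) [Fintype (Lat p (Fin 9) c)] :
    bCount p (Fin 9) c κ = ∑ L : Lat p (Fin 9) c, qL p L.1 ^ κ := by
  have hp := (Fact.out : p.Prime)
  have h1 : ∀ L : Lat p (Fin 9) c, Nat.card (LHom p L.1 κ) = qL p L.1 ^ κ := fun L =>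
    card_LHom L.2.1 (qL_ne_zero hp.ne_zero L.2) κ
  have h2 : ∀ L : Lat p (Fin 9) c, Finite (LHom p L.1 κ) := fun L =>
    Nat.finite_of_card_ne_zero (by rw [h1]; exact pow_ne_zero _ (qL_ne_zero hp.ne_zero L.2))
  rw [bCount, Nat.card_sigma]
  exact Finset.sum_congr rfl fun L _ => h1 L

/-- the lattices of index `p ^ 11` in `ℤ ^ 9` with two generators modulo `p L_2` -/
def LLstr (p : ℕ) : Set (AddSubgroup (Fin 9 → ℤ)) := {L | L ∈ Lat p (Fin 9) 11 ∧ qL p L = p ^ 2}

/-- the polynomial whose values at `p ^ b`, `b < 10`, `b ≠ 2`, vanish -/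
noncomputable def WP (p : ℕ) : ℚ[X] := ∏ b ∈ (range 10).erase 2, (X - C ((p : ℚ) ^ b))

/-- the same over `ℚ[T]` -/
noncomputable def WWstr : ℚ[X][X] := ∏ b ∈ (range 10).erase 2, (X - C ((X : ℚ[X]) ^ b))

lemma WP_eq (p : ℕ) : WP p = WWstr.map (evalRingHom (p : ℚ)) := by
  rw [WWstr, Polynomial.map_prod, WP]
  apply Finset.prod_congr rfl
  intro b _
  simp

lemma WP_coeff_ratFun (κ : ℕ) : RatFun fun p => (WP p).coeff κ := by
  refine (RatFun.poly (WWstr.coeff κ)).congr fun p _ => ?_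
  rw [WP_eq, coeff_map]
  rfl

lemma WP_natDegree (p : ℕ) : (WP p).natDegree < 10 := by
  rw [WP, natDegree_prod_of_monic _ _ (fun b _ => monic_X_sub_C _)]
  simp only [natDegree_X_sub_C, Finset.sum_const, smul_eq_mul, mul_one]
  decide

lemma WP_eval_two (p : ℕ) : (WP p).eval ((p : ℚ) ^ 2) =
    ∏ b ∈ (range 10).erase 2, ((p : ℚ) ^ 2 - (p : ℚ) ^ b) := by
  rw [WP, eval_prod]
  simp

lemma WP_eval_of_ne (p : ℕ) {b : ℕ} (hb : b < 10) (h2 : b ≠ 2) :
    (WP p).eval ((p : ℚ) ^ b) = 0 := by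
  rw [WP, eval_prod]
  apply Finset.prod_eq_zero (Finset.mem_erase.2 ⟨h2, Finset.mem_range.2 hb⟩)
  simp

lemma WP_ne_zero (p : ℕ) (hp : 2 ≤ p) : (WP p).eval ((p : ℚ) ^ 2) ≠ 0 := by
  rw [WP_eval_two, Finset.prod_ne_zero_iff]
  intro b hb h0
  rw [sub_eq_zero] at h0
  have h1 : p ^ 2 = p ^ b := by exact_mod_cast h0
  exact (Finset.mem_erase.1 hb).1 (Nat.pow_right_injective hp h1).symm

lemma card_LL_mul (p : ℕ) [Fact p.Prime] : (Nat.card (LLstr p) : ℚ) * (WP p).eval ((p : ℚ) ^ 2) =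
    ∑ κ ∈ range 10, (WP p).coeff κ * (bCount p (Fin 9) 11 κ : ℚ) := by
  classical
  have hp := (Fact.out : p.Prime)
  have : Finite (Lat p (Fin 9) 11) := finite_Lat hp.ne_zero 11
  have : Fintype (Lat p (Fin 9) 11) := Fintype.ofFinite _
  have h1 : ∑ κ ∈ range 10, (WP p).coeff κ * (bCount p (Fin 9) 11 κ : ℚ) =
      ∑ L : Lat p (Fin 9) 11, (WP p).eval ((qL p L.1 : ℕ) : ℚ) := by
    have h2 : ∀ L : Lat p (Fin 9) 11, (WP p).eval ((qL p L.1 : ℕ) : ℚ) =
        ∑ κ ∈ range 10, (WP p).coeff κ * ((qL p L.1 : ℕ) : ℚ) ^ κ := fun L =>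
      eval_eq_sum_range' (WP_natDegree p) _
    simp only [h2]
    rw [Finset.sum_comm]
    apply Finset.sum_congr rfl
    intro κ _
    rw [bCount_eq_sum, Nat.cast_sum, Finset.mul_sum]
    apply Finset.sum_congr rfl
    intro L _
    push_cast
    rfl
  have h3 : ∀ L : Lat p (Fin 9) 11, (WP p).eval ((qL p L.1 : ℕ) : ℚ) =
      if qL p L.1 = p ^ 2 then (WP p).eval ((p : ℚ) ^ 2) else 0 := by
    intro L
    obtain ⟨b, hb, hb'⟩ := exists_qL L.2
    split_ifs with h
    · rw [h]; push_cast; rfl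
    · rw [hb']
      push_cast
      apply WP_eval_of_ne p hb
      rintro rfl
      exact h hb'
  rw [h1]
  simp only [h3]
  rw [← Finset.sum_filter, Finset.sum_const, nsmul_eq_mul]
  congr 2
  have e : LLstr p ≃ {L : Lat p (Fin 9) 11 // qL p L.1 = p ^ 2} :=
    { toFun := fun L => ⟨⟨L.1, L.2.1⟩, L.2.2⟩
      invFun := fun L => ⟨L.1.1, L.1.2, L.2⟩
      left_inv := fun L => rfl
      right_inv := fun L => rfl }
  rw [Nat.card_congr e, Nat.card_eq_fintype_card, Fintype.card_subtype]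

/-- the number of lattices in `LLstr` is a rational function of `p` -/
theorem card_LL_ratFun (H : ∀ κ : ℕ, RatFun fun p => (bCount p (Fin 9) 11 κ : ℚ)) :
    RatFun fun p => (Nat.card (LLstr p) : ℚ) := by
  have h1 : RatFun fun p => (WP p).eval (((p : ℕ) : ℚ) ^ 2) := by
    refine (RatFun.sum (range 10) (F := fun κ p => (WP p).coeff κ * (((p : ℕ) : ℚ) ^ 2) ^ κ)
      fun κ _ => (WP_coeff_ratFun κ).mul ((RatFun.self.pow 2).pow κ)).congr fun p _ => ?_
    exact eval_eq_sum_range' (WP_natDegree p) _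
  refine ((RatFun.sum (range 10) (F := fun κ p => (WP p).coeff κ * (bCount p (Fin 9) 11 κ : ℚ))
    fun κ _ => (WP_coeff_ratFun κ).mul (H κ)).div h1
    (fun p _ => WP_ne_zero p p.2.two_le)).congr fun p _ => ?_
  rw [eq_div_iff (WP_ne_zero p p.2.two_le)]
  exact card_LL_mul p

end Pool.Agent.E07280
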