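/-
P3, part c: structure of the lattices in `LLstr p`.
-/
import Pool.Agent.E07280.P3b

open Finset

namespace Pool.Agent.E07280

/-! ### monomials -/

section Mons

variable {R : Type} [CommRing R]

/-- the five monomials of degree 1, 2 -/
def mons5 (x y : R) : Fin 5 → R := ![x, y, x ^ 2, x * y, y ^ 2]

/-- the nine monomials of degree 1, 2, 3 -/
def mons9 (x y : R) : Fin 9 → R :=
  ![x, y, x ^ 2, x * y, y ^ 2, x ^ 3, x ^ 2 * y, x * y ^ 2, y ^ 3]

/-- additive span of two elements -/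
def C2 (x y : R) : AddSubgroup R := AddSubgroup.closure {x, y}

/-- additive span of the monomials of degree 1, 2 -/
def C5 (x y : R) : AddSubgroup R := AddSubgroup.closure (Set.range (mons5 x y))

/-- additive span of the monomials of degree 1, 2, 3 -/
def C9 (x y : R) : AddSubgroup R := AddSubgroup.closure (Set.range (mons9 x y))

lemma mem_C2 {x y z : R} : z ∈ C2 x y ↔ ∃ m n : ℤ, m • x + n • y = z :=
  AddSubgroup.mem_closure_pair

lemma mons5_mem (x y : R) (i : Fin 5) : mons5 x y i ∈ C5 x y :=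
  AddSubgroup.subset_closure ⟨i, rfl⟩

lemma mons9_mem (x y : R) (i : Fin 9) : mons9 x y i ∈ C9 x y :=
  AddSubgroup.subset_closure ⟨i, rfl⟩

lemma C5_le {x y : R} {H : AddSubgroup R} : C5 x y ≤ H ↔ x ∈ H ∧ y ∈ H ∧ x ^ 2 ∈ H ∧ x * y ∈ H ∧
    y ^ 2 ∈ H := by
  rw [C5, AddSubgroup.closure_le]
  constructor
  · intro h
    exact ⟨h ⟨0, rfl⟩, h ⟨1, rfl⟩, h ⟨2, rfl⟩, h ⟨3, rfl⟩, h ⟨4, rfl⟩⟩
  · rintro ⟨h0, h1, h2, h3, h4⟩ z ⟨i, rfl⟩
    fin_cases i <;> assumption

lemma C9_le {x y : R} {H : AddSubgroup R} : C9 x y ≤ H ↔ C5 x y ≤ H ∧ x ^ 3 ∈ H ∧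
    x ^ 2 * y ∈ H ∧ x * y ^ 2 ∈ H ∧ y ^ 3 ∈ H := by
  rw [C5_le, C9, AddSubgroup.closure_le]
  constructor
  · intro h
    exact ⟨⟨h ⟨0, rfl⟩, h ⟨1, rfl⟩, h ⟨2, rfl⟩, h ⟨3, rfl⟩, h ⟨4, rfl⟩⟩, h ⟨5, rfl⟩, h ⟨6, rfl⟩,
      h ⟨7, rfl⟩, h ⟨8, rfl⟩⟩
  · rintro ⟨⟨h0, h1, h2, h3, h4⟩, h5, h6, h7, h8⟩ z ⟨i, rfl⟩
    fin_cases i <;> assumption

lemma C2_le_C5 (x y : R) : C2 x y ≤ C5 x y := by
  rw [C2, AddSubgroup.closure_le]
  rintro z (rfl | rfl)
  · exact mons5_mem z y 0
  · exact mons5_mem x z 1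

lemma C5_le_C9 (x y : R) : C5 x y ≤ C9 x y :=
  (C9_le.1 le_rfl).1

lemma mul_mem_C5 {x y s t : R} (hs : s ∈ C2 x y) (ht : t ∈ C2 x y) : s * t ∈ C5 x y := by
  obtain ⟨m, n, rfl⟩ := mem_C2.1 hs
  obtain ⟨m', n', rfl⟩ := mem_C2.1 ht
  have e : (m • x + n • y) * (m' • x + n' • y) =
      (m * m') • x ^ 2 + (m * n' + n * m') • (x * y) + (n * n') • y ^ 2 := by
    simp only [zsmul_eq_mul]
    push_cast
    ring
  rw [e]
  have h2 : x ^ 2 ∈ C5 x y := mons5_mem x y 2
  have h3 : x * y ∈ C5 x y := mons5_mem x y 3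
  have h4 : y ^ 2 ∈ C5 x y := mons5_mem x y 4
  exact add_mem (add_mem (zsmul_mem h2 _) (zsmul_mem h3 _)) (zsmul_mem h4 _)

lemma mul_mem_C9 {x y s t : R} (hs : s ∈ C2 x y) (ht : t ∈ C5 x y) : s * t ∈ C9 x y := by
  obtain ⟨m, n, rfl⟩ := mem_C2.1 hs
  have key : C5 x y ≤ (C9 x y).comap (AddMonoidHom.mulLeft (m • x + n • y)) := by
    rw [C5_le]
    have h := C9_le.1 (le_refl (C9 x y))
    have h5 := C5_le.1 h.1
    refine ⟨?_, ?_, ?_, ?_, ?_⟩
    · change (m • x + n • y) * x ∈ C9 x y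
      have e : (m • x + n • y) * x = m • x ^ 2 + n • (x * y) := by
        simp only [zsmul_eq_mul]; ring
      rw [e]
      exact add_mem (zsmul_mem h5.2.2.1 _) (zsmul_mem h5.2.2.2.1 _)
    · change (m • x + n • y) * y ∈ C9 x y
      have e : (m • x + n • y) * y = m • (x * y) + n • y ^ 2 := by
        simp only [zsmul_eq_mul]; ring
      rw [e]
      exact add_mem (zsmul_mem h5.2.2.2.1 _) (zsmul_mem h5.2.2.2.2 _)
    · change (m • x + n • y) * x ^ 2 ∈ C9 x y
      have e : (m • x + n • y) * x ^ 2 = m • x ^ 3 + n • (x ^ 2 * y) := by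
        simp only [zsmul_eq_mul]; ring
      rw [e]
      exact add_mem (zsmul_mem h.2.1 _) (zsmul_mem h.2.2.1 _)
    · change (m • x + n • y) * (x * y) ∈ C9 x y
      have e : (m • x + n • y) * (x * y) = m • (x ^ 2 * y) + n • (x * y ^ 2) := by
        simp only [zsmul_eq_mul]; ring
      rw [e]
      exact add_mem (zsmul_mem h.2.2.1 _) (zsmul_mem h.2.2.2.1 _)
    · change (m • x + n • y) * y ^ 2 ∈ C9 x y
      have e : (m • x + n • y) * y ^ 2 = m • (x * y ^ 2) + n • (y ^ 3) := by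
        simp only [zsmul_eq_mul]; ring
      rw [e]
      exact add_mem (zsmul_mem h.2.2.2.1 _) (zsmul_mem h.2.2.2.2 _)
  exact key ht

lemma map_C2 {R' : Type} [CommRing R'] (f : R →+* R') (x y : R) :
    (C2 x y).map f.toAddMonoidHom = C2 (f x) (f y) := by
  rw [C2, AddMonoidHom.map_closure, C2]
  congr 1
  exact Set.image_pair _ _ _

lemma map_mons5 {R' : Type} [CommRing R'] (f : R →+* R') (x y : R) (i : Fin 5) :
    f (mons5 x y i) = mons5 (f x) (f y) i := by
  fin_cases i <;> simp [mons5]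

lemma map_mons9 {R' : Type} [CommRing R'] (f : R →+* R') (x y : R) (i : Fin 9) :
    f (mons9 x y i) = mons9 (f x) (f y) i := by
  fin_cases i <;> simp [mons9]

lemma map_C5 {R' : Type} [CommRing R'] (f : R →+* R') (x y : R) :
    (C5 x y).map f.toAddMonoidHom = C5 (f x) (f y) := by
  rw [C5, AddMonoidHom.map_closure, C5, ← Set.range_comp]
  congr 2
  funext i
  exact map_mons5 f x y i

lemma map_C9 {R' : Type} [CommRing R'] (f : R →+* R') (x y : R) :
    (C9 x y).map f.toAddMonoidHom = C9 (f x) (f y) := by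
  rw [C9, AddMonoidHom.map_closure, C9, ← Set.range_comp]
  congr 2
  funext i
  exact map_mons9 f x y i

end Mons

/-! ### linear algebra over `ZMod p` -/

section LinAlg

variable {p : ℕ} [Fact p.Prime] {V : Type} [AddCommGroup V] [Module (ZMod p) V]

lemma span_toAddSubgroup (s : Set V) :
    (Submodule.span (ZMod p) s).toAddSubgroup = AddSubgroup.closure s := by
  apply le_antisymm
  · have h : Submodule.span (ZMod p) s ≤ AddSubgroup.toZModSubmodule p (AddSubgroup.closure s) :=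
      Submodule.span_le.2 AddSubgroup.subset_closure
    exact h
  · rw [AddSubgroup.closure_le]
    exact Submodule.subset_span

lemma card_closure_of_li {k : ℕ} {u : Fin k → V} (h : LinearIndependent (ZMod p) u) :
    Nat.card (AddSubgroup.closure (Set.range u)) = p ^ k := by
  rw [← span_toAddSubgroup (p := p)]
  change Nat.card (Submodule.span (ZMod p) (Set.range u)) = p ^ k
  have : Module.Finite (ZMod p) (Submodule.span (ZMod p) (Set.range u)) :=
    Module.Finite.span_of_finite _ (Set.finite_range u)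
  rw [Module.natCard_eq_pow_finrank (K := ZMod p), finrank_span_eq_card h, Nat.card_zmod,
    Fintype.card_fin]

end LinAlg

variable {p : ℕ} [Fact p.Prime]

/-- the nine monomials are independent -/
def TTstr (v w : Fin 9 → ZMod p) : Prop := LinearIndependent (ZMod p) (mons9 v w)

lemma TT_of_top {v w : Fin 9 → ZMod p} (h : C9 v w = ⊤) : TTstr v w := by
  apply linearIndependent_of_top_le_span_of_card_eq_finrank
  · intro x _
    have h1 : x ∈ (Submodule.span (ZMod p) (Set.range (mons9 v w))).toAddSubgroup := by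
      rw [span_toAddSubgroup]
      change x ∈ C9 v w
      rw [h]; trivial
    exact h1
  · simp

lemma TTstr.top {v w : Fin 9 → ZMod p} (h : TTstr v w) : C9 v w = ⊤ := by
  have h1 := card_closure_of_li h
  apply AddSubgroup.eq_top_of_card_eq
  rw [C9, h1]
  simp

lemma TTstr.li5 {v w : Fin 9 → ZMod p} (h : TTstr v w) : LinearIndependent (ZMod p) (mons5 v w) := by
  have e : mons5 v w = mons9 v w ∘ (Fin.castLE (by norm_num : 5 ≤ 9)) := by
    funext i
    fin_cases i <;> rfl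
  rw [e]
  exact LinearIndependent.comp h _ (Fin.castLE_injective _)

lemma TTstr.li2 {v w : Fin 9 → ZMod p} (h : TTstr v w) : LinearIndependent (ZMod p) ![v, w] := by
  have e : ![v, w] = mons9 v w ∘ (Fin.castLE (by norm_num : 2 ≤ 9)) := by
    funext i
    fin_cases i <;> rfl
  rw [e]
  exact LinearIndependent.comp h _ (Fin.castLE_injective _)

lemma TTstr.card5 {v w : Fin 9 → ZMod p} (h : TTstr v w) : Nat.card (C5 v w) = p ^ 5 :=
  card_closure_of_li h.li5

lemma card_C2 {v w : Fin 9 → ZMod p} (h : LinearIndependent (ZMod p) ![v, w]) :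
    Nat.card (C2 v w) = p ^ 2 := by
  have e : ({v, w} : Set (Fin 9 → ZMod p)) = Set.range ![v, w] := by
    simp only [Matrix.range_cons, Matrix.range_empty, Set.union_empty, Set.singleton_union]
  rw [C2, e]
  exact card_closure_of_li h

/-! ### a bound for an index -/

omit [Fact p.Prime] in
lemma relIndex_dvd_pow {X : Type} {k : ℕ} {g : Fin k → (X → ℤ)} {K M : AddSubgroup (X → ℤ)}
    (hKM : K ≤ M) (hM : M ≤ AddSubgroup.closure (Set.range g) ⊔ K)
    (hg : ∀ i, (p : ℤ) • g i ∈ K) : K.relIndex M ∣ p ^ k := by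
  let G : (Fin k → ℤ) →+ (X → ℤ) := (Fintype.linearCombination ℤ g).toAddMonoidHom
  have hG : AddSubgroup.closure (Set.range g) ≤ G.range := by
    rw [AddSubgroup.closure_le]
    rintro z ⟨i, rfl⟩
    refine ⟨Pi.single i 1, ?_⟩
    change Fintype.linearCombination ℤ g (Pi.single i 1) = g i
    rw [Fintype.linearCombination_apply_single, one_smul]
  have h1 : M ≤ G.range ⊔ K := hM.trans (sup_le_sup_right hG K)
  have h2 := AddSubgroup.relIndex_mul_relIndex K M (G.range ⊔ K) hKM h1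
  rw [AddSubgroup.relIndex_sup_right] at h2
  have h3 : K.relIndex M ∣ K.relIndex G.range := ⟨_, h2.symm⟩
  refine h3.trans ?_
  rw [← AddSubgroup.index_comap]
  have h4 : pTop p (Fin k) ≤ K.comap G := by
    rintro z ⟨m, _, rfl⟩
    change G ((p : ℤ) • m) ∈ K
    rw [map_zsmul]
    change (p : ℤ) • (Fintype.linearCombination ℤ g m) ∈ K
    rw [Fintype.linearCombination_apply, Finset.smul_sum]
    apply AddSubgroup.sum_mem
    intro i _
    rw [smul_comm]
    exact K.zsmul_mem (hg i) _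
  have h5 := AddSubgroup.index_dvd_of_le h4
  rwa [index_pTop, Fintype.card_fin] at h5

/-! ### structure of the lattices in `LLstr p` -/

omit [Fact p.Prime] in
lemma L2_le_of_gens {X : Type} {L : AddSubgroup (X → ℤ)} (hL : PLL p L) {x y : X → ℤ}
    (hx : x ∈ L) (hy : y ∈ L) (hgen : L ≤ C2 x y ⊔ pM p (L2 L)) :
    L2 L ≤ C5 x y ⊔ pM p (L3 L) := by
  have hp23 : pM p (L2 L) ≤ pM p (L3 L) := pM_mono (L2_le_L3 L)
  have hC : C2 x y ≤ L := by
    rw [C2, AddSubgroup.closure_le]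
    rintro z (rfl | rfl)
    · exact hx
    · exact hy
  apply L2_le
  · exact hgen.trans (sup_le_sup (C2_le_C5 x y) hp23)
  · intro a ha b hb
    obtain ⟨s, hs, t, ht, rfl⟩ := AddSubgroup.mem_sup.1 (hgen ha)
    obtain ⟨s', hs', t', ht', rfl⟩ := AddSubgroup.mem_sup.1 (hgen hb)
    obtain ⟨m, hm, rfl⟩ := ht
    obtain ⟨m', hm', rfl⟩ := ht'
    change (s + (p : ℤ) • m) * (s' + (p : ℤ) • m') ∈ _
    have hpm' : (p : ℤ) • m' ∈ L := pM_L2_le hL (smul_mem_pM hm')
    have e : (s + (p : ℤ) • m) * (s' + (p : ℤ) • m') =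
        s * s' + (p : ℤ) • (s * m' + s' * m + ((p : ℤ) • m') * m) := by
      simp only [smul_add, zsmul_eq_mul]
      ring
    rw [e]
    apply AddSubgroup.add_mem_sup (mul_mem_C5 hs hs')
    apply smul_mem_pM
    exact add_mem (add_mem (mul_mem_L3 (hC hs) hm') (mul_mem_L3 (hC hs') hm))
      (mul_mem_L3 hpm' hm)

/-- first consequences of `L ∈ LLstr p` -/
lemma LL_basic {L : AddSubgroup (Fin 9 → ℤ)} (hL : L ∈ LLstr p) :
    L3 L = ⊤ ∧ pTop p (Fin 9) ≤ L2 L ∧ Nat.card (L.map (red p (Fin 9)).toAddMonoidHom) ≤ p ^ 2 := by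
  have hp := (Fact.out : p.Prime)
  obtain ⟨⟨hPLL, hidx⟩, hq⟩ := hL
  obtain ⟨x, hx, y, hy, hgen⟩ := exists_gens hq
  have h1 := qL_mul_index hp.ne_zero hPLL
  rw [hq, hidx, Fintype.card_fin] at h1
  have hi2 : (L2 L).index = p ^ 4 := by
    have h2 : (L2 L).index * p ^ 9 = p ^ 4 * p ^ 9 := by
      rw [← h1, ← pow_add, ← pow_add]
    exact Nat.eq_of_mul_eq_mul_right (pow_pos hp.pos 9) h2
  have h5 : (pM p (L3 L)).relIndex (L2 L) ∣ p ^ 5 := by
    apply relIndex_dvd_pow (g := mons5 x y) (pM_L3_le hPLL)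
    · exact L2_le_of_gens hPLL hx hy hgen
    · intro i
      apply pM_mono (L2_le_L3 L)
      apply smul_mem_pM
      have h6 : C5 x y ≤ L2 L := C5_le.2 ⟨le_L2 L hx, le_L2 L hy, by rw [sq]; exact mul_mem_L2 hx hx,
        mul_mem_L2 hx hy, by rw [sq]; exact mul_mem_L2 hy hy⟩
      exact h6 (mons5_mem x y i)
  have h6 := AddSubgroup.relIndex_mul_index (pM_L3_le hPLL)
  rw [index_pM hp.ne_zero, hi2, Fintype.card_fin] at h6
  have h7 : (pM p (L3 L)).relIndex (L2 L) ≤ p ^ 5 := Nat.le_of_dvd (pow_pos hp.pos 5) h5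
  have h8 : (L3 L).index * p ^ 9 ≤ 1 * p ^ 9 := by
    rw [← h6, one_mul]
    calc _ ≤ p ^ 5 * p ^ 4 := Nat.mul_le_mul_right _ h7
      _ = p ^ 9 := by rw [← pow_add]
  have h9 : (L3 L).index ≤ 1 := Nat.le_of_mul_le_mul_right h8 (pow_pos hp.pos 9)
  have h10 : (L3 L).index ≠ 0 := by
    have h11 := AddSubgroup.index_dvd_of_le ((le_L2 L).trans (L2_le_L3 L))
    rw [hidx] at h11
    exact ne_zero_of_dvd_ne_zero (pow_ne_zero _ hp.ne_zero) h11
  have h11 : L3 L = ⊤ := AddSubgroup.index_eq_one.1 (by omega)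
  have h12 : pTop p (Fin 9) ≤ L2 L := by
    have := pM_L3_le hPLL
    rwa [h11] at this
  refine ⟨h11, h12, ?_⟩
  -- the image of `L`
  have h13 : (pTop p (Fin 9)).relIndex L = Nat.card (L.map (red p (Fin 9)).toAddMonoidHom) := by
    rw [pTop_eq_ker, AddSubgroup.relIndex_ker]
  rw [← h13]
  have h14 : (pTop p (Fin 9)).relIndex L ∣ (pM p (L2 L)).relIndex L :=
    AddSubgroup.relIndex_dvd_of_le_left L (pM_mono le_top)
  have h15 : (pM p (L2 L)).relIndex L = p ^ 2 := hq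
  rw [h15] at h14
  exact Nat.le_of_dvd (pow_pos hp.pos 2) h14

/-- the lattice with given generators -/
def Lxy (p : ℕ) (x y : Fin 9 → ℤ) : AddSubgroup (Fin 9 → ℤ) :=
  C2 x y ⊔ pM p ((C5 (red p (Fin 9) x) (red p (Fin 9) y)).comap (red p (Fin 9)).toAddMonoidHom)

lemma LL_structure {L : AddSubgroup (Fin 9 → ℤ)} (hL : L ∈ LLstr p) {x y : Fin 9 → ℤ}
    (hx : x ∈ L) (hy : y ∈ L)
    (hli : LinearIndependent (ZMod p) ![red p (Fin 9) x, red p (Fin 9) y]) :
    TTstr (red p (Fin 9) x) (red p (Fin 9) y) ∧ L = Lxy p x y ∧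
      L.map (red p (Fin 9)).toAddMonoidHom = C2 (red p (Fin 9) x) (red p (Fin 9) y) := by
  have hp := (Fact.out : p.Prime)
  obtain ⟨h3, h2, hc⟩ := LL_basic hL
  obtain ⟨⟨hPLL, hidx⟩, hq⟩ := hL
  set r := (red p (Fin 9)).toAddMonoidHom with hr
  set v := red p (Fin 9) x with hv
  set w := red p (Fin 9) y with hw
  have hCL : C2 v w ≤ L.map r := by
    rw [C2, AddSubgroup.closure_le]
    rintro z (rfl | rfl)
    · exact ⟨x, hx, rfl⟩
    · exact ⟨y, hy, rfl⟩
  have hred : L.map r = C2 v w := by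
    symm
    have hfin : Finite (L.map r) := inferInstance
    exact AddSubgroup.eq_of_le_of_card_ge hCL (by rw [card_C2 hli]; exact hc)
  -- elements of `L`
  have hmemL : ∀ l ∈ L, r l ∈ C2 v w := by
    intro l hl
    rw [← hred]
    exact ⟨l, hl, rfl⟩
  have hmem2 : ∀ l ∈ L2 L, r l ∈ C5 v w := by
    have : L2 L ≤ (C5 v w).comap r := by
      apply L2_le
      · intro l hl
        exact C2_le_C5 v w (hmemL l hl)
      · intro a ha b hb
        change red p (Fin 9) (a * b) ∈ C5 v w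
        rw [map_mul]
        exact mul_mem_C5 (hmemL a ha) (hmemL b hb)
    exact this
  have hmem3 : ∀ l ∈ L3 L, r l ∈ C9 v w := by
    have : L3 L ≤ (C9 v w).comap r := by
      apply L3_le
      · intro l hl
        exact C5_le_C9 v w (hmem2 l hl)
      · intro a ha b hb
        change red p (Fin 9) (a * b) ∈ C9 v w
        rw [map_mul]
        exact mul_mem_C9 (hmemL a ha) (hmem2 b hb)
    exact this
  have hTT : TTstr v w := by
    apply TT_of_top
    rw [eq_top_iff]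
    intro z _
    obtain ⟨l, rfl⟩ := red_surjective p z
    exact hmem3 l (by rw [h3]; trivial)
  -- `L2 L` is the preimage of `C5`
  have hL2 : L2 L = (C5 v w).comap r := by
    apply le_antisymm
    · exact hmem2
    · have h5 : C5 x y ≤ L2 L := C5_le.2 ⟨le_L2 L hx, le_L2 L hy,
        by rw [sq]; exact mul_mem_L2 hx hx, mul_mem_L2 hx hy, by rw [sq]; exact mul_mem_L2 hy hy⟩
      intro z hz
      have hz' : r z ∈ (C5 x y).map r := by
        rw [hr, map_C5]
        exact hz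
      obtain ⟨c, hc5, hcz⟩ := hz'
      have h6 : z - c ∈ pTop p (Fin 9) := by
        rw [mem_pTop]
        change r (z - c) = 0
        rw [map_sub, hcz, sub_self]
      have h7 := add_mem (h5 hc5) (h2 h6)
      rwa [add_sub_cancel] at h7
  -- `L ∩ pℤ⁹ = p L2`
  have hcap : L ⊓ pTop p (Fin 9) ≤ pM p (L2 L) := by
    have h4 : (pM p (L2 L)).relIndex (pTop p (Fin 9) ⊓ L) * (pTop p (Fin 9)).relIndex L =
        (pM p (L2 L) ⊓ pTop p (Fin 9)).relIndex L := AddSubgroup.relIndex_inf_mul_relIndex _ _ _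
    have h5 : pM p (L2 L) ⊓ pTop p (Fin 9) = pM p (L2 L) := inf_eq_left.2 (pM_mono le_top)
    have h6 : (pTop p (Fin 9)).relIndex L = p ^ 2 := by
      rw [pTop_eq_ker, AddSubgroup.relIndex_ker]
      change Nat.card (L.map r) = p ^ 2
      rw [hred, card_C2 hli]
    have h7 : (pM p (L2 L)).relIndex L = p ^ 2 := hq
    rw [h5, h6, h7] at h4
    have h8 : (pM p (L2 L)).relIndex (pTop p (Fin 9) ⊓ L) = 1 := by
      apply Nat.eq_of_mul_eq_mul_right (pow_pos hp.pos 2)
      rw [h4, one_mul]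
    rw [inf_comm]
    exact AddSubgroup.relIndex_eq_one.1 h8
  refine ⟨hTT, ?_, hred⟩
  apply le_antisymm
  · intro l hl
    obtain ⟨m, n, hmn⟩ := mem_C2.1 (hmemL l hl)
    have h4 : l - (m • x + n • y) ∈ L ⊓ pTop p (Fin 9) := by
      refine AddSubgroup.mem_inf.2 ⟨sub_mem hl (add_mem (zsmul_mem hx m) (zsmul_mem hy n)), ?_⟩
      change l - (m • x + n • y) ∈ pTop p (Fin 9)
      rw [mem_pTop, map_sub, map_add, map_zsmul, map_zsmul]
      rw [sub_eq_zero]
      exact hmn.symm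
    have h5 := hcap h4
    rw [hL2] at h5
    have h6 : l = (m • x + n • y) + (l - (m • x + n • y)) := by abel
    rw [h6]
    exact AddSubgroup.add_mem_sup (mem_C2.2 ⟨m, n, rfl⟩) h5
  · apply sup_le
    · rw [C2, AddSubgroup.closure_le]
      rintro z (rfl | rfl)
      · exact hx
      · exact hy
    · change pM p ((C5 v w).comap r) ≤ L
      rw [← hL2]
      exact pM_L2_le hPLL

/-- converse: the lattices `Lxy` -/
lemma Lxy_mem {x y : Fin 9 → ℤ} (h : TTstr (red p (Fin 9) x) (red p (Fin 9) y)) :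
    Lxy p x y ∈ LLstr p ∧ Lxy p x y ⊓ pTop p (Fin 9) ≤
      pM p ((C5 (red p (Fin 9) x) (red p (Fin 9) y)).comap (red p (Fin 9)).toAddMonoidHom) := by
  have hp := (Fact.out : p.Prime)
  set r := (red p (Fin 9)).toAddMonoidHom with hr
  set v := red p (Fin 9) x with hv
  set w := red p (Fin 9) y with hw
  set M := (C5 v w).comap r with hM
  set L := Lxy p x y with hLdef
  have hLM : L = C2 x y ⊔ pM p M := rfl
  have hker : pTop p (Fin 9) ≤ M := by
    intro z hz
    rw [mem_pTop] at hz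
    change r z ∈ C5 v w
    have : r z = 0 := hz
    rw [this]
    exact zero_mem _
  have hxM : x ∈ M := C2_le_C5 v w (mem_C2.2 ⟨1, 0, by rw [one_smul, zero_smul, add_zero]; rfl⟩)
  have hyM : y ∈ M := C2_le_C5 v w (mem_C2.2 ⟨0, 1, by rw [one_smul, zero_smul, zero_add]; rfl⟩)
  have hxL : x ∈ L := (le_sup_left : C2 x y ≤ L) (mem_C2.2 ⟨1, 0, by simp⟩)
  have hyL : y ∈ L := (le_sup_left : C2 x y ≤ L) (mem_C2.2 ⟨0, 1, by simp⟩)
  have hpML : pM p M ≤ L := le_sup_right
  have hpMT : pM p M ≤ pTop p (Fin 9) := pM_mono le_top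
  have hred : L.map r = C2 v w := by
    rw [hLM, AddSubgroup.map_sup]
    have h1 : (pM p M).map r = ⊥ := by
      rw [eq_bot_iff]
      rintro z ⟨m, hm, rfl⟩
      have := hpMT hm
      rw [mem_pTop] at this
      exact this
    rw [h1, sup_bot_eq, hr, map_C2]
  have hmemL : ∀ l ∈ L, r l ∈ C2 v w := by
    intro l hl
    rw [← hred]
    exact ⟨l, hl, rfl⟩
  -- `L ∩ pℤ⁹ = p M`
  have hcap : L ⊓ pTop p (Fin 9) ≤ pM p M := by
    rintro l ⟨hl, hlT⟩
    obtain ⟨c, hc, t, ht, rfl⟩ := AddSubgroup.mem_sup.1 hl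
    obtain ⟨m, n, rfl⟩ := mem_C2.1 hc
    have h1 : r (m • x + n • y) = 0 := by
      have h2 : r (m • x + n • y + t) = 0 := mem_pTop.1 hlT
      have h3 : r t = 0 := mem_pTop.1 (hpMT ht)
      rwa [map_add, h3, add_zero] at h2
    have h2 : (m : ZMod p) • v + (n : ZMod p) • w = 0 := by
      rw [Int.cast_smul_eq_zsmul, Int.cast_smul_eq_zsmul]
      rw [map_add, map_zsmul, map_zsmul] at h1
      exact h1
    obtain ⟨h3, h4⟩ := LinearIndependent.pair_iff.1 h.li2 _ _ h2
    obtain ⟨m', hm'⟩ := (ZMod.intCast_zmod_eq_zero_iff_dvd m p).1 h3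
    obtain ⟨n', hn'⟩ := (ZMod.intCast_zmod_eq_zero_iff_dvd n p).1 h4
    refine add_mem ?_ ht
    refine ⟨m' • x + n' • y, add_mem (zsmul_mem hxM _) (zsmul_mem hyM _), ?_⟩
    change (p : ℤ) • (m' • x + n' • y) = m • x + n • y
    rw [hm', hn', smul_add, mul_smul, mul_smul]
  have hcap' : L ⊓ pTop p (Fin 9) = pM p M := le_antisymm hcap (le_inf hpML hpMT)
  have hrel : (pM p M).relIndex L = p ^ 2 := by
    rw [← hcap', AddSubgroup.inf_relIndex_left, pTop_eq_ker, AddSubgroup.relIndex_ker]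
    change Nat.card (L.map r) = p ^ 2
    rw [hred, card_C2 h.li2]
  have hMi : M.index = p ^ 4 := by
    rw [hM, AddSubgroup.index_comap_of_surjective _ (red_surjective p)]
    have h1 := AddSubgroup.card_mul_index (C5 v w)
    rw [h.card5, Nat.card_fun, Nat.card_zmod, Nat.card_eq_fintype_card, Fintype.card_fin] at h1
    apply Nat.eq_of_mul_eq_mul_left (pow_pos hp.pos 5)
    rw [h1, ← pow_add]
  have hLi : L.index = p ^ 11 := by
    have h1 := AddSubgroup.relIndex_mul_index hpML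
    rw [hrel, index_pM hp.ne_zero, hMi, Fintype.card_fin] at h1
    apply Nat.eq_of_mul_eq_mul_left (pow_pos hp.pos 2)
    rw [h1, ← pow_add, ← pow_add]
  have hmulM : ∀ a ∈ L, ∀ b ∈ L, a * b ∈ M := by
    intro a ha b hb
    change red p (Fin 9) (a * b) ∈ C5 v w
    rw [map_mul]
    exact mul_mem_C5 (hmemL a ha) (hmemL b hb)
  have hPLL : PLL p L := fun a ha b hb => hpML (smul_mem_pM (hmulM a ha b hb))
  -- `L2 L = M`
  have hC5L2 : C5 x y ≤ L2 L := C5_le.2 ⟨le_L2 L hxL, le_L2 L hyL,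
        by rw [sq]; exact mul_mem_L2 hxL hxL, mul_mem_L2 hxL hyL,
        by rw [sq]; exact mul_mem_L2 hyL hyL⟩
  have hC5M : C5 x y ≤ M := C5_le.2 ⟨hxM, hyM, by rw [sq]; exact hmulM x hxL x hxL,
    hmulM x hxL y hyL, by rw [sq]; exact hmulM y hyL y hyL⟩
  have hTop : pTop p (Fin 9) ≤ L2 L := by
    rintro z ⟨a, _, rfl⟩
    change (p : ℤ) • a ∈ L2 L
    have h1 : r a ∈ (C9 x y).map r := by
      rw [hr, map_C9]
      change _ ∈ C9 v w
      rw [h.top]; trivial
    obtain ⟨c, hc, hca⟩ := h1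
    have h2 : a - c ∈ pTop p (Fin 9) := by
      rw [mem_pTop]
      change r (a - c) = 0
      rw [map_sub, hca, sub_self]
    have h3 : (p : ℤ) • (a - c) ∈ L2 L := le_L2 L (hpML (smul_mem_pM (hker h2)))
    have h4 : C9 x y ≤ (L2 L).comap (mulP p (Fin 9)) := by
      have hx2 : (p : ℤ) • x ^ 2 ∈ L := hpML (smul_mem_pM (by rw [sq]; exact hmulM x hxL x hxL))
      have hy2 : (p : ℤ) • y ^ 2 ∈ L := hpML (smul_mem_pM (by rw [sq]; exact hmulM y hyL y hyL))
      rw [C9_le]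
      refine ⟨fun z hz => le_L2 L (hpML (smul_mem_pM (hC5M hz))), ?_, ?_, ?_, ?_⟩
      · change (p : ℤ) • x ^ 3 ∈ L2 L
        have e : (p : ℤ) • x ^ 3 = x * ((p : ℤ) • x ^ 2) := by
          simp only [zsmul_eq_mul]; ring
        rw [e]; exact mul_mem_L2 hxL hx2
      · change (p : ℤ) • (x ^ 2 * y) ∈ L2 L
        have e : (p : ℤ) • (x ^ 2 * y) = y * ((p : ℤ) • x ^ 2) := by
          simp only [zsmul_eq_mul]; ring
        rw [e]; exact mul_mem_L2 hyL hx2
      · change (p : ℤ) • (x * y ^ 2) ∈ L2 L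
        have e : (p : ℤ) • (x * y ^ 2) = x * ((p : ℤ) • y ^ 2) := by
          simp only [zsmul_eq_mul]; ring
        rw [e]; exact mul_mem_L2 hxL hy2
      · change (p : ℤ) • y ^ 3 ∈ L2 L
        have e : (p : ℤ) • y ^ 3 = y * ((p : ℤ) • y ^ 2) := by
          simp only [zsmul_eq_mul]; ring
        rw [e]; exact mul_mem_L2 hyL hy2
    have h5 : (p : ℤ) • c ∈ L2 L := h4 hc
    have h6 := add_mem h5 h3
    rwa [← smul_add, add_sub_cancel] at h6
  have hL2 : L2 L = M := by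
    apply le_antisymm
    · apply L2_le
      · intro l hl
        exact C2_le_C5 v w (hmemL l hl)
      · exact hmulM
    · intro z hz
      have hz' : r z ∈ (C5 x y).map r := by
        rw [hr, map_C5]
        exact hz
      obtain ⟨c, hc5, hcz⟩ := hz'
      have h6 : z - c ∈ pTop p (Fin 9) := by
        rw [mem_pTop]
        change r (z - c) = 0
        rw [map_sub, hcz, sub_self]
      have h7 := add_mem (hC5L2 hc5) (hTop h6)
      rwa [add_sub_cancel] at h7
  refine ⟨⟨⟨hPLL, hLi⟩, ?_⟩, hcap⟩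
  rw [qL, hL2, hrel]

end Pool.Agent.E07280
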