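/-
P3: the number `kappa9` of 9-tuples of points on no cubic through the origin is a rational function
of `p` if the numbers `bCount` are.
-/
import Pool.Agent.E07280.P3c

open Finset

namespace Pool.Agent.E07280

variable {p : ℕ} [Fact p.Prime]

lemma exists_TT {L : AddSubgroup (Fin 9 → ℤ)} (hL : L ∈ LLstr p) :
    ∃ x ∈ L, ∃ y ∈ L, TTstr (red p (Fin 9) x) (red p (Fin 9) y) := by
  obtain ⟨h3, -, -⟩ := LL_basic hL
  obtain ⟨-, hq⟩ := hL
  obtain ⟨x, hx, y, hy, hgen⟩ := exists_gens hq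
  refine ⟨x, hx, y, hy, ?_⟩
  set r := (red p (Fin 9)).toAddMonoidHom with hr
  set v := red p (Fin 9) x with hv
  set w := red p (Fin 9) y with hw
  have hmemL : ∀ l ∈ L, r l ∈ C2 v w := by
    intro l hl
    obtain ⟨c, hc, t, ht, rfl⟩ := AddSubgroup.mem_sup.1 (hgen hl)
    have h1 : r t = 0 := mem_pTop.1 (pM_mono le_top ht : t ∈ pTop p (Fin 9))
    rw [map_add, h1, add_zero]
    have h2 : r c ∈ (C2 x y).map r := ⟨c, hc, rfl⟩
    rwa [hr, map_C2] at h2
  have hmem2 : L2 L ≤ (C5 v w).comap r := by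
    apply L2_le
    · intro l hl
      exact C2_le_C5 v w (hmemL l hl)
    · intro a ha b hb
      change red p (Fin 9) (a * b) ∈ C5 v w
      rw [map_mul]
      exact mul_mem_C5 (hmemL a ha) (hmemL b hb)
  have hmem3 : L3 L ≤ (C9 v w).comap r := by
    apply L3_le
    · intro l hl
      exact C5_le_C9 v w (hmem2 hl)
    · intro a ha b hb
      change red p (Fin 9) (a * b) ∈ C9 v w
      rw [map_mul]
      exact mul_mem_C9 (hmemL a ha) (hmem2 hb)
  apply TT_of_top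
  rw [eq_top_iff]
  intro z _
  obtain ⟨l, rfl⟩ := red_surjective p z
  exact hmem3 (by rw [h3]; trivial)

/-- the image of `L` modulo `p` -/
def rL (p : ℕ) (L : AddSubgroup (Fin 9 → ℤ)) : AddSubgroup (Fin 9 → ZMod p) :=
  L.map (red p (Fin 9)).toAddMonoidHom

/-- fibres of the double counting: bases of the image of `L` -/
lemma card_bases {L : AddSubgroup (Fin 9 → ℤ)} (hL : L ∈ LLstr p) :
    Nat.card {vw : (Fin 9 → ZMod p) × (Fin 9 → ZMod p) //
      (vw.1 ∈ rL p L ∧ vw.2 ∈ rL p L) ∧ LinearIndependent (ZMod p) ![vw.1, vw.2]} =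
      (p ^ 2 - 1) * (p ^ 2 - p) := by
  have hp := (Fact.out : p.Prime)
  obtain ⟨x, hx, y, hy, hT⟩ := exists_TT hL
  obtain ⟨-, -, hred⟩ := LL_structure hL hx hy hT.li2
  let W : Submodule (ZMod p) (Fin 9 → ZMod p) := AddSubgroup.toZModSubmodule p (rL p L)
  have hW : Nat.card W = p ^ 2 := by
    change Nat.card (rL p L) = p ^ 2
    rw [rL, hred, card_C2 hT.li2]
  have hfr : Module.finrank (ZMod p) W = 2 := by
    have e2 : Nat.card W = Nat.card (ZMod p) ^ Module.finrank (ZMod p) W :=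
      Module.natCard_eq_pow_finrank
    rw [hW, Nat.card_zmod] at e2
    exact (Nat.pow_right_injective hp.two_le e2).symm
  have h1 := card_linearIndependent (K := ZMod p) (V := W) (k := 2) hfr.ge
  rw [hfr, ZMod.card, Fin.prod_univ_two] at h1
  simp only [Fin.val_zero, pow_zero, Fin.val_one, pow_one] at h1
  rw [← h1]
  apply Nat.card_congr
  exact
    { toFun := fun vw => ⟨![⟨vw.1.1, vw.2.1.1⟩, ⟨vw.1.2, vw.2.1.2⟩], by
        rw [← LinearMap.linearIndependent_iff W.subtype (Submodule.ker_subtype W)]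
        have e : (W.subtype ∘ ![⟨vw.1.1, vw.2.1.1⟩, ⟨vw.1.2, vw.2.1.2⟩]) = ![vw.1.1, vw.1.2] := by
          funext i
          fin_cases i <;> rfl
        rw [e]
        exact vw.2.2⟩
      invFun := fun s => ⟨((s.1 0 : Fin 9 → ZMod p), (s.1 1 : Fin 9 → ZMod p)),
        ⟨(s.1 0).2, (s.1 1).2⟩, by
        have h2 := s.2
        rw [← LinearMap.linearIndependent_iff W.subtype (Submodule.ker_subtype W)] at h2
        have e : (W.subtype ∘ s.1) = ![(s.1 0 : Fin 9 → ZMod p), (s.1 1 : Fin 9 → ZMod p)] := by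
          funext i
          fin_cases i <;> rfl
        rw [e] at h2
        exact h2⟩
      left_inv := fun vw => rfl
      right_inv := fun s => by
        apply Subtype.ext
        funext i
        fin_cases i <;> rfl }

/-- fibres of the double counting: lattices over a given pair -/
lemma card_lattices {v w : Fin 9 → ZMod p} (hT : TTstr v w) :
    Nat.card {L : LLstr p // v ∈ rL p L.1 ∧ w ∈ rL p L.1} = p ^ 8 := by
  have hp := (Fact.out : p.Prime)
  obtain ⟨x0, hx0⟩ := red_surjective p v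
  obtain ⟨y0, hy0⟩ := red_surjective p w
  set M : AddSubgroup (Fin 9 → ℤ) := (C5 v w).comap (red p (Fin 9)).toAddMonoidHom with hM
  have hMi : M.index = p ^ 4 := by
    rw [hM, AddSubgroup.index_comap_of_surjective _ (red_surjective p)]
    have h1 := AddSubgroup.card_mul_index (C5 v w)
    rw [hT.card5, Nat.card_fun, Nat.card_zmod, Nat.card_eq_fintype_card, Fintype.card_fin] at h1
    apply Nat.eq_of_mul_eq_mul_left (pow_pos hp.pos 5)
    rw [h1, ← pow_add]
  have hredp : ∀ c : Fin 9 → ℤ, red p (Fin 9) ((p : ℤ) • c) = 0 := fun c =>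
    red_eq_zero_iff.2 ⟨c, rfl⟩
  have hx : ∀ c : Fin 9 → ℤ, red p (Fin 9) (x0 + (p : ℤ) • c) = v := by
    intro c; rw [map_add, hredp, add_zero, hx0]
  have hy : ∀ c : Fin 9 → ℤ, red p (Fin 9) (y0 + (p : ℤ) • c) = w := by
    intro c; rw [map_add, hredp, add_zero, hy0]
  have hmem : ∀ c c' : Fin 9 → ℤ, Lxy p (x0 + (p : ℤ) • c) (y0 + (p : ℤ) • c') ∈ LLstr p ∧
      Lxy p (x0 + (p : ℤ) • c) (y0 + (p : ℤ) • c') ⊓ pTop p (Fin 9) ≤ pM p M := by
    intro c c'
    have h1 := Lxy_mem (p := p) (x := x0 + (p : ℤ) • c) (y := y0 + (p : ℤ) • c')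
      (by rw [hx, hy]; exact hT)
    rw [hx, hy] at h1
    exact h1
  have hmx : ∀ x y : Fin 9 → ℤ, x ∈ Lxy p x y ∧ y ∈ Lxy p x y := fun x y =>
    ⟨(le_sup_left : C2 x y ≤ Lxy p x y) (mem_C2.2 ⟨1, 0, by simp⟩),
      (le_sup_left : C2 x y ≤ Lxy p x y) (mem_C2.2 ⟨0, 1, by simp⟩)⟩
  let f : ((Fin 9 → ℤ) ⧸ M) × ((Fin 9 → ℤ) ⧸ M) → {L : LLstr p // v ∈ rL p L.1 ∧ w ∈ rL p L.1} :=
    fun c => ⟨⟨Lxy p (x0 + (p : ℤ) • c.1.out) (y0 + (p : ℤ) • c.2.out), (hmem _ _).1⟩,
      ⟨x0 + (p : ℤ) • c.1.out, (hmx _ _).1, hx _⟩, ⟨y0 + (p : ℤ) • c.2.out, (hmx _ _).2, hy _⟩⟩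
  have hf : Function.Bijective f := by
    constructor
    · rintro ⟨c1, c2⟩ ⟨d1, d2⟩ h
      have h1 : Lxy p (x0 + (p : ℤ) • c1.out) (y0 + (p : ℤ) • c2.out) =
          Lxy p (x0 + (p : ℤ) • d1.out) (y0 + (p : ℤ) • d2.out) :=
        congrArg (fun z : {L : LLstr p // v ∈ rL p L.1 ∧ w ∈ rL p L.1} => z.1.1) h
      have key : ∀ z c d : Fin 9 → ℤ, z + (p : ℤ) • c ∈
          Lxy p (x0 + (p : ℤ) • c1.out) (y0 + (p : ℤ) • c2.out) → z + (p : ℤ) • d ∈
          Lxy p (x0 + (p : ℤ) • c1.out) (y0 + (p : ℤ) • c2.out) → c - d ∈ M := by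
        intro z c d hc hd
        have h2 := sub_mem hc hd
        rw [add_sub_add_left_eq_sub, ← smul_sub] at h2
        have h3 : (p : ℤ) • (c - d) ∈ pM p M := (hmem _ _).2
          (AddSubgroup.mem_inf.2 ⟨h2, mem_pTop.2 (hredp _)⟩)
        obtain ⟨m, hm, hm'⟩ := h3
        have h4 : m = c - d := mulP_injective hp.ne_zero hm'
        rwa [← h4]
      have hc1 := key x0 c1.out d1.out (hmx _ _).1 (by rw [h1]; exact (hmx _ _).1)
      have hc2 := key y0 c2.out d2.out (hmx _ _).2 (by rw [h1]; exact (hmx _ _).2)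
      have e1 : c1 = d1 := by
        rw [← QuotientAddGroup.out_eq' c1, ← QuotientAddGroup.out_eq' d1, eq_comm,
          QuotientAddGroup.eq]
        rwa [neg_add_eq_sub]
      have e2 : c2 = d2 := by
        rw [← QuotientAddGroup.out_eq' c2, ← QuotientAddGroup.out_eq' d2, eq_comm,
          QuotientAddGroup.eq]
        rwa [neg_add_eq_sub]
      rw [e1, e2]
    · rintro ⟨⟨L, hL⟩, ⟨x, hxL, hxv⟩, ⟨y, hyL, hyw⟩⟩
      have hxv' : red p (Fin 9) x = v := hxv
      have hyw' : red p (Fin 9) y = w := hyw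
      have hxx : x - x0 ∈ pTop p (Fin 9) := by
        rw [mem_pTop, map_sub, hxv', hx0, sub_self]
      have hyy : y - y0 ∈ pTop p (Fin 9) := by
        rw [mem_pTop, map_sub, hyw', hy0, sub_self]
      obtain ⟨c1, -, hc1⟩ := hxx
      obtain ⟨c2, -, hc2⟩ := hyy
      have hpML : pM p M ≤ L := by
        obtain ⟨-, h2, -⟩ := LL_structure hL hxL hyL (by rw [hxv', hyw']; exact hT.li2)
        rw [h2]
        have : pM p ((C5 (red p (Fin 9) x) (red p (Fin 9) y)).comap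
          (red p (Fin 9)).toAddMonoidHom) ≤ Lxy p x y := le_sup_right
        rw [hxv', hyw'] at this
        exact this
      have key : ∀ z z0 c : Fin 9 → ℤ, z ∈ L → (p : ℤ) • c = z - z0 →
          z0 + (p : ℤ) • (QuotientAddGroup.mk c : (Fin 9 → ℤ) ⧸ M).out ∈ L := by
        intro z z0 c hz hc
        have h1 : -(QuotientAddGroup.mk c : (Fin 9 → ℤ) ⧸ M).out + c ∈ M := by
          rw [← QuotientAddGroup.eq]
          exact QuotientAddGroup.out_eq' _
        have h2 := sub_mem hz (hpML (smul_mem_pM h1))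
        have h3 : z - (p : ℤ) • (-(QuotientAddGroup.mk c : (Fin 9 → ℤ) ⧸ M).out + c) =
            z0 + (p : ℤ) • (QuotientAddGroup.mk c : (Fin 9 → ℤ) ⧸ M).out := by
          rw [smul_add, hc, smul_neg]
          abel
        rwa [h3] at h2
      have k1 := key x x0 c1 hxL hc1
      have k2 := key y y0 c2 hyL hc2
      refine ⟨(QuotientAddGroup.mk c1, QuotientAddGroup.mk c2), ?_⟩
      apply Subtype.ext
      apply Subtype.ext
      obtain ⟨-, h2, -⟩ := LL_structure hL k1 k2 (by rw [hx, hy]; exact hT.li2)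
      exact h2.symm
  rw [← Nat.card_congr (Equiv.ofBijective f hf), Nat.card_prod]
  change M.index * M.index = p ^ 8
  rw [hMi, ← pow_add]

lemma mono9_mons9 (P : Fin 9 → ZMod p × ZMod p) (i j : Fin 9) :
    mono9 (P i) j = mons9 (fun i => (P i).1) (fun i => (P i).2) j i := by
  fin_cases j <;> rfl

lemma kappa9_eq_card : kappa9 p =
    Nat.card {vw : (Fin 9 → ZMod p) × (Fin 9 → ZMod p) // TTstr vw.1 vw.2} := by
  rw [kappa9]
  apply Nat.card_congr
  refine (Equiv.arrowProdEquivProdArrow (Fin 9) (fun _ => ZMod p) (fun _ => ZMod p)).subtypeEquiv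
    fun P => ?_
  let A : Matrix (Fin 9) (Fin 9) (ZMod p) := Matrix.of fun i j => mono9 (P i) j
  have h1 : (fun i => mono9 (P i)) = A.row := rfl
  have h2 : mons9 (fun i => (P i).1) (fun i => (P i).2) = A.col := by
    funext j i
    exact (mono9_mons9 P i j).symm
  rw [h1, Matrix.linearIndependent_rows_iff_isUnit, ← Matrix.linearIndependent_cols_iff_isUnit,
    ← h2]
  rfl

lemma finite_LL : Finite (LLstr p) := by
  have := finite_Lat (X := Fin 9) (Fact.out : p.Prime).ne_zero 11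
  exact Finite.of_injective (fun L : LLstr p => (⟨L.1, L.2.1⟩ : Lat p (Fin 9) 11))
    (fun L L' h => Subtype.ext (congrArg (fun z : Lat p (Fin 9) 11 => z.1) h :))

/-- the double counting -/
theorem double_count :
    Nat.card (LLstr p) * ((p ^ 2 - 1) * (p ^ 2 - p)) = kappa9 p * p ^ 8 := by
  classical
  have hfin : Finite (LLstr p) := finite_LL
  have : Fintype (LLstr p) := Fintype.ofFinite _
  let B := {vw : (Fin 9 → ZMod p) × (Fin 9 → ZMod p) // TTstr vw.1 vw.2}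
  have : Fintype B := Fintype.ofFinite _
  have e : (Σ L : LLstr p, {vw : (Fin 9 → ZMod p) × (Fin 9 → ZMod p) //
      (vw.1 ∈ rL p L.1 ∧ vw.2 ∈ rL p L.1) ∧ LinearIndependent (ZMod p) ![vw.1, vw.2]}) ≃
      (Σ vw : B, {L : LLstr p // vw.1.1 ∈ rL p L.1 ∧ vw.1.2 ∈ rL p L.1}) :=
    { toFun := fun z => ⟨⟨z.2.1, by
          obtain ⟨L, ⟨⟨v, w⟩, ⟨⟨x, hx, hxv⟩, ⟨y, hy, hyw⟩⟩, hli⟩⟩ := z
          have hxv' : red p (Fin 9) x = v := hxv
          have hyw' : red p (Fin 9) y = w := hyw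
          have h1 := (LL_structure L.2 hx hy (by rw [hxv', hyw']; exact hli)).1
          rw [hxv', hyw'] at h1
          exact h1⟩, ⟨z.1, z.2.2.1⟩⟩
      invFun := fun z => ⟨z.2.1, ⟨z.1.1, z.2.2, z.1.2.li2⟩⟩
      left_inv := fun z => rfl
      right_inv := fun z => rfl }
  have h1 := Nat.card_congr e
  rw [Nat.card_sigma, Nat.card_sigma] at h1
  have h2 : ∀ L : LLstr p, Nat.card {vw : (Fin 9 → ZMod p) × (Fin 9 → ZMod p) //
      (vw.1 ∈ rL p L.1 ∧ vw.2 ∈ rL p L.1) ∧ LinearIndependent (ZMod p) ![vw.1, vw.2]} =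
      (p ^ 2 - 1) * (p ^ 2 - p) := fun L => card_bases L.2
  have h3 : ∀ vw : B, Nat.card {L : LLstr p // vw.1.1 ∈ rL p L.1 ∧ vw.1.2 ∈ rL p L.1} = p ^ 8 :=
    fun vw => card_lattices vw.2
  rw [Finset.sum_congr rfl fun L _ => h2 L, Finset.sum_congr rfl fun vw _ => h3 vw,
    Finset.sum_const, Finset.sum_const, Finset.card_univ, Finset.card_univ, smul_eq_mul,
    smul_eq_mul, ← Nat.card_eq_fintype_card, ← Nat.card_eq_fintype_card] at h1
  rw [h1, kappa9_eq_card]

/-- P3 -/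
theorem kappa9_ratFun (H : ∀ κ : ℕ, RatFun fun p => (bCount p (Fin 9) 11 κ : ℚ)) :
    RatFun fun p => (kappa9 p : ℚ) := by
  have hp : RatFun fun p => ((p : ℕ) : ℚ) := RatFun.self
  have h1 := card_LL_ratFun H
  have h8 : ∀ p : Nat.Primes, 17 ≤ (p : ℕ) → (((p : ℕ) : ℚ)) ^ 8 ≠ 0 := by
    intro p _
    have : ((p : ℕ) : ℚ) ≠ 0 := by exact_mod_cast p.2.ne_zero
    positivity
  refine ((h1.mul (((hp.pow 2).sub (RatFun.const 1)).mul ((hp.pow 2).sub hp))).div (hp.pow 8)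
    h8).congr fun p h => ?_
  rw [eq_div_iff (h8 p h)]
  have h2 := double_count (p := (p : ℕ))
  have h3 : 1 ≤ (p : ℕ) ^ 2 := Nat.one_le_pow _ _ p.2.pos
  have h4 : (p : ℕ) ≤ (p : ℕ) ^ 2 := Nat.le_self_pow two_ne_zero _
  have h5 : ((Nat.card (LLstr p) * (((p : ℕ) ^ 2 - 1) * ((p : ℕ) ^ 2 - p)) : ℕ) : ℚ) =
      ((kappa9 p * (p : ℕ) ^ 8 : ℕ) : ℚ) := by rw [h2]
  push_cast [Nat.cast_sub h3, Nat.cast_sub h4] at h5
  rw [← h5]

end Pool.Agent.E07280
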