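/-
Package P4 of the disproof of MP_e07280_nt: `kappa10_eq` and `X10_eq`.
-/
import Pool.Agent.E07280.Defs

open Finset

namespace Pool.Agent.E07280

namespace P4

section General

variable {K : Type} [Field K]

/-- the linear map of `K^10` induced by the translation by `c` -/
def shiftFun (c : K × K) (v : Fin 10 → K) : Fin 10 → K :=
  ![v 0,
    v 1 + c.1 * v 0,
    v 2 + c.2 * v 0,
    v 3 + 2 * c.1 * v 1 + c.1 ^ 2 * v 0,
    v 4 + c.2 * v 1 + c.1 * v 2 + c.1 * c.2 * v 0,
    v 5 + 2 * c.2 * v 2 + c.2 ^ 2 * v 0,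
    v 6 + 3 * c.1 * v 3 + 3 * c.1 ^ 2 * v 1 + c.1 ^ 3 * v 0,
    v 7 + c.2 * v 3 + 2 * c.1 * v 4 + 2 * c.1 * c.2 * v 1 + c.1 ^ 2 * v 2 + c.1 ^ 2 * c.2 * v 0,
    v 8 + c.1 * v 5 + 2 * c.2 * v 4 + 2 * c.1 * c.2 * v 2 + c.2 ^ 2 * v 1 + c.1 * c.2 ^ 2 * v 0,
    v 9 + 3 * c.2 * v 5 + 3 * c.2 ^ 2 * v 2 + c.2 ^ 3 * v 0]

theorem shiftFun_mono10 (c P : K × K) : shiftFun c (mono10 P) = mono10 (P + c) := by
  ext i
  fin_cases i <;> simp [shiftFun, mono10] <;> ring

theorem shiftFun_shiftFun (c : K × K) (v : Fin 10 → K) : shiftFun (-c) (shiftFun c v) = v := by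
  ext i
  fin_cases i <;> simp [shiftFun] <;> ring

/-- `shiftFun` as a linear map -/
def shift (c : K × K) : (Fin 10 → K) →ₗ[K] (Fin 10 → K) where
  toFun := shiftFun c
  map_add' v w := by
    ext i
    fin_cases i <;> simp [shiftFun] <;> ring
  map_smul' a v := by
    ext i
    fin_cases i <;> simp [shiftFun] <;> ring

theorem shift_injective (c : K × K) : Function.Injective (shift c) := by
  intro v w h
  have h1 : shiftFun c v = shiftFun c w := h
  rw [← shiftFun_shiftFun c v, h1, shiftFun_shiftFun]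

theorem linInd_shift {ι : Type} (c : K × K) (P : ι → K × K) :
    LinearIndependent K (fun i => mono10 (P i + c)) ↔ LinearIndependent K fun i => mono10 (P i) := by
  have h : (fun i => mono10 (P i + c)) = (shift c) ∘ (fun i => mono10 (P i)) := by
    funext i
    exact (shiftFun_mono10 c (P i)).symm
  rw [h]
  exact (shift c).linearIndependent_iff (LinearMap.ker_eq_bot.mpr (shift_injective c))

theorem mono10_zero : mono10 (0 : K × K) = Pi.single 0 1 := by
  ext i
  fin_cases i <;> simp [mono10]

theorem mono10_succ (P : K × K) (i : Fin 9) : mono10 P i.succ = mono9 P i := by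
  fin_cases i <;> rfl

theorem mono10_at_zero (P : K × K) : mono10 P 0 = 1 := rfl

theorem linInd_cons (Q : Fin 9 → K × K) :
    LinearIndependent K (fun i : Fin 10 => mono10 ((Fin.cons 0 Q : Fin 10 → K × K) i)) ↔
      LinearIndependent K fun i => mono9 (Q i) := by
  have h1 : (LinearIndependent K (fun i : Fin 10 => mono10 ((Fin.cons 0 Q : Fin 10 → K × K) i))) ↔
      IsUnit (Matrix.of fun i : Fin 10 => mono10 ((Fin.cons 0 Q : Fin 10 → K × K) i)) := by
    rw [← Matrix.linearIndependent_rows_iff_isUnit]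
    rfl
  have h2 : (LinearIndependent K fun i => mono9 (Q i)) ↔
      IsUnit (Matrix.of fun i : Fin 9 => mono9 (Q i)) := by
    rw [← Matrix.linearIndependent_rows_iff_isUnit]
    rfl
  rw [h1, h2, Matrix.isUnit_iff_isUnit_det, Matrix.isUnit_iff_isUnit_det]
  have h3 : (Matrix.of fun i : Fin 10 => mono10 ((Fin.cons 0 Q : Fin 10 → K × K) i)).det =
      (Matrix.of fun i : Fin 9 => mono9 (Q i)).det := by
    rw [Matrix.det_succ_row_zero, Finset.sum_eq_single 0]
    · simp only [Fin.val_zero, pow_zero, one_mul, Matrix.of_apply, Fin.cons_zero, mono10_zero,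
        Pi.single_eq_same]
      have h4 : ((Matrix.of fun i : Fin 10 => mono10 ((Fin.cons 0 Q : Fin 10 → K × K) i)).submatrix
          Fin.succ (Fin.succAbove 0)) = (Matrix.of fun i : Fin 9 => mono9 (Q i)) := by
        ext i j
        simp only [Matrix.submatrix_apply, Matrix.of_apply, Fin.cons_succ, Fin.succAbove_zero]
        exact mono10_succ _ _
      rw [h4]
    · intro j _ hj
      simp only [Matrix.of_apply, Fin.cons_zero, mono10_zero]
      rw [Pi.single_eq_of_ne hj]
      ring
    · intro h; exact absurd (Finset.mem_univ _) h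
  rw [h3]

/-- the translation bijection -/
def splitEquiv : (Fin 10 → K × K) ≃ (K × K) × (Fin 9 → K × K) where
  toFun P := (P 0, fun i => P i.succ - P 0)
  invFun q := fun i => (Fin.cons 0 q.2 : Fin 10 → K × K) i + q.1
  left_inv P := by
    funext i
    refine Fin.cases ?_ (fun j => ?_) i
    · simp
    · simp
  right_inv q := by
    obtain ⟨c, Q⟩ := q
    simp

theorem card_kappa [Fintype K] :
    Nat.card {P : Fin 10 → K × K // LinearIndependent K fun i => mono10 (P i)} =
      Fintype.card K ^ 2 * Nat.card {P : Fin 9 → K × K // LinearIndependent K fun i => mono9 (P i)} := by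
  have e : {P : Fin 10 → K × K // LinearIndependent K fun i => mono10 (P i)} ≃
      (K × K) × {P : Fin 9 → K × K // LinearIndependent K fun i => mono9 (P i)} := by
    refine (Equiv.subtypeEquiv (q := fun q : (K × K) × (Fin 9 → K × K) =>
      LinearIndependent K fun i => mono9 (q.2 i)) splitEquiv ?_).trans ?_
    · intro P
      have h := splitEquiv.symm_apply_apply P
      conv_lhs => rw [← h]
      change LinearIndependent K (fun i => mono10
        ((Fin.cons 0 (splitEquiv P).2 : Fin 10 → K × K) i + (splitEquiv P).1)) ↔ _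
      rw [linInd_shift (splitEquiv P).1 (Fin.cons 0 (splitEquiv P).2 : Fin 10 → K × K)]
      exact linInd_cons _
    · exact
      { toFun := fun x => (x.1.1, ⟨x.1.2, x.2⟩)
        invFun := fun y => ⟨(y.1, y.2.1), y.2.2⟩
        left_inv := fun x => rfl
        right_inv := fun y => rfl }
  rw [Nat.card_congr e, Nat.card_prod, Nat.card_prod, Nat.card_eq_fintype_card (α := K)]
  ring


/-! ### independence and `A3` -/

section Fin

variable [Fintype K] [DecidableEq K]

theorem A3_eq_one_iff (Γ : Finset (K × K)) :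
    A3 Γ = 1 ↔ ∀ f : Fin 10 → K, (∀ P ∈ Γ, ev3 f P = 0) → f = 0 := by
  unfold A3
  rw [Finset.card_eq_one]
  constructor
  · rintro ⟨g, hg⟩ f hf
    have h0 : (0 : Fin 10 → K) ∈ (univ.filter fun f : Fin 10 → K => ∀ P ∈ Γ, ev3 f P = 0) := by
      simp [ev3]
    have h1 : f ∈ (univ.filter fun f : Fin 10 → K => ∀ P ∈ Γ, ev3 f P = 0) := by
      simp only [mem_filter, mem_univ, true_and]; exact hf
    rw [hg, mem_singleton] at h0 h1
    rw [h1, h0]
  · intro h
    refine ⟨0, ?_⟩
    ext f
    simp only [mem_filter, mem_univ, true_and, mem_singleton]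
    constructor
    · exact h f
    · rintro rfl P _
      simp [ev3]

/-- the cubics vanishing on `Γ` as a subspace -/
def vanish (Γ : Finset (K × K)) : Submodule K (Fin 10 → K) where
  carrier := {f | ∀ P ∈ Γ, ev3 f P = 0}
  add_mem' := by
    intro f g hf hg P hP
    have h1 := hf P hP
    have h2 := hg P hP
    unfold ev3 at h1 h2 ⊢
    simp only [Pi.add_apply, add_mul, Finset.sum_add_distrib, h1, h2, add_zero]
  zero_mem' := by intro P _; simp [ev3]
  smul_mem' := by
    intro c f hf P hP
    have h1 := hf P hP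
    unfold ev3 at h1 ⊢
    simp only [Pi.smul_apply, smul_eq_mul, mul_assoc, ← Finset.mul_sum, h1, mul_zero]

theorem A3_eq_pow (Γ : Finset (K × K)) :
    A3 Γ = Fintype.card K ^ (Module.finrank K (vanish Γ)) := by
  classical
  have h : Fintype.card (vanish Γ) = Fintype.card K ^ (Module.finrank K (vanish Γ)) :=
    Module.card_eq_pow_finrank (K := K) (V := vanish Γ)
  rw [← h]
  unfold A3
  rw [← Fintype.card_subtype]
  exact Fintype.card_congr (Equiv.refl _)

theorem A3_le_or (Γ : Finset (K × K)) : A3 Γ = 1 ∨ Fintype.card K ≤ A3 Γ := by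
  rw [A3_eq_pow]
  rcases Nat.eq_zero_or_pos (Module.finrank K (vanish Γ)) with h | h
  · left; rw [h, pow_zero]
  · right
    calc Fintype.card K = Fintype.card K ^ 1 := (pow_one _).symm
      _ ≤ _ := Nat.pow_le_pow_right Fintype.card_pos h

theorem linInd_iff_A3 (P : Fin 10 → K × K) :
    LinearIndependent K (fun i => mono10 (P i)) ↔ A3 (Finset.univ.image P) = 1 := by
  have h1 : (LinearIndependent K (fun i => mono10 (P i))) ↔
      IsUnit (Matrix.of fun i : Fin 10 => mono10 (P i)) := by
    rw [← Matrix.linearIndependent_rows_iff_isUnit]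
    rfl
  rw [h1, ← Matrix.mulVec_injective_iff_isUnit, A3_eq_one_iff]
  have key : ∀ (f : Fin 10 → K) (i : Fin 10),
      (Matrix.of fun i : Fin 10 => mono10 (P i)).mulVec f i = ev3 f (P i) := by
    intro f i
    simp only [Matrix.mulVec, dotProduct, Matrix.of_apply, ev3]
    exact Finset.sum_congr rfl fun j _ => mul_comm _ _
  constructor
  · intro hinj f hf
    apply hinj
    rw [Matrix.mulVec_zero]
    funext i
    rw [key, Pi.zero_apply]
    exact hf _ (Finset.mem_image_of_mem _ (Finset.mem_univ _))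
  · intro h f g hfg
    rw [← sub_eq_zero]
    apply h
    intro Q hQ
    obtain ⟨i, _, rfl⟩ := Finset.mem_image.mp hQ
    rw [← key, Matrix.mulVec_sub, Pi.sub_apply]
    have := congrFun hfg i
    rw [this, sub_self]

/-- enumerations of a ten-element set -/
theorem card_enum {α : Type} [DecidableEq α] (Γ : Finset α) (hΓ : Γ.card = 10) :
    Nat.card {P : Fin 10 → α // Function.Injective P ∧ Finset.univ.image P = Γ} =
      Nat.factorial 10 := by
  have e : {P : Fin 10 → α // Function.Injective P ∧ Finset.univ.image P = Γ} ≃ (Fin 10 ≃ Γ) :=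
    { toFun := fun P => Equiv.ofBijective
        (fun i => (⟨P.1 i, (Finset.ext_iff.mp P.2.2 _).mp
          (Finset.mem_image_of_mem _ (Finset.mem_univ _))⟩ : Γ))
        ⟨fun i j h => P.2.1 (Subtype.ext_iff.mp h), fun y => by
          obtain ⟨i, _, hi⟩ := Finset.mem_image.mp ((Finset.ext_iff.mp P.2.2 _).mpr y.2)
          exact ⟨i, Subtype.ext hi⟩⟩
      invFun := fun e => ⟨fun i => (e i : α), fun i j h => e.injective (Subtype.ext h), by
        ext y
        simp only [Finset.mem_image, Finset.mem_univ, true_and]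
        constructor
        · rintro ⟨i, rfl⟩; exact (e i).2
        · intro hy; exact ⟨e.symm ⟨y, hy⟩, by simp⟩⟩
      left_inv := fun P => rfl
      right_inv := fun e => by ext i; rfl }
  rw [Nat.card_congr e]
  have h10 : Fintype.card Γ = 10 := by rw [Fintype.card_coe, hΓ]
  rw [Nat.card_eq_fintype_card, Fintype.card_equiv (Fintype.equivOfCardEq (by rw [h10]; simp))]
  simp

theorem card_kappa10 :
    Nat.card {P : Fin 10 → K × K // LinearIndependent K fun i => mono10 (P i)} =
      Nat.factorial 10 *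
        #((powersetCard 10 (univ : Finset (K × K))).filter fun Γ => A3 Γ = 1) := by
  classical
  set S := (powersetCard 10 (univ : Finset (K × K))).filter fun Γ => A3 Γ = 1 with hS
  have hinj : ∀ P : Fin 10 → K × K, LinearIndependent K (fun i => mono10 (P i)) →
      Function.Injective P := fun P h i j hij => h.injective (by simp only [hij])
  have e : {P : Fin 10 → K × K // LinearIndependent K fun i => mono10 (P i)} ≃
      (Σ Γ : S, {P : Fin 10 → K × K // Function.Injective P ∧ Finset.univ.image P = Γ.1}) :=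
    { toFun := fun P => ⟨⟨Finset.univ.image P.1, by
        rw [hS, mem_filter, mem_powersetCard]
        refine ⟨⟨Finset.subset_univ _, ?_⟩, (linInd_iff_A3 P.1).mp P.2⟩
        rw [Finset.card_image_of_injective _ (hinj P.1 P.2)]
        simp⟩, ⟨P.1, hinj P.1 P.2, rfl⟩⟩
      invFun := fun x => ⟨x.2.1, by
        rw [linInd_iff_A3, x.2.2.2]
        exact (mem_filter.mp x.1.2).2⟩
      left_inv := fun P => rfl
      right_inv := by
        rintro ⟨⟨Γ, hΓ⟩, ⟨P, hP⟩⟩
        obtain ⟨hP1, hP2⟩ := hP
        have hP3 : image P univ = Γ := hP2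
        subst hP3
        rfl }
  rw [Nat.card_congr e, Nat.card_sigma]
  have h10 : ∀ Γ : S, Nat.card {P : Fin 10 → K × K //
      Function.Injective P ∧ Finset.univ.image P = Γ.1} = Nat.factorial 10 := fun Γ =>
    card_enum Γ.1 (mem_powersetCard.mp (mem_filter.mp Γ.2).1).2
  rw [Finset.sum_congr rfl (fun Γ _ => h10 Γ), Finset.sum_const, Finset.card_univ,
    Fintype.card_coe, smul_eq_mul, mul_comm]

theorem X10_sum : X10 K = ∑ Γ ∈ powersetCard 10 (univ : Finset (K × K)), A3 Γ := by
  unfold X10 A3
  have h1 : ∀ f : Fin 10 → K, (#(Z3 f)).choose 10 =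
      ∑ Γ ∈ powersetCard 10 (univ : Finset (K × K)), if (∀ P ∈ Γ, ev3 f P = 0) then 1 else 0 := by
    intro f
    rw [← Finset.card_powersetCard, ← Finset.card_filter]
    congr 1
    ext Γ
    simp only [mem_powersetCard, mem_filter, subset_univ, true_and]
    constructor
    · rintro ⟨h1, h2⟩
      exact ⟨h2, fun P hP => by have := h1 hP; unfold Z3 at this; simpa using this⟩
    · rintro ⟨h1, h2⟩
      exact ⟨fun P hP => by unfold Z3; simpa using h2 P hP, h1⟩
  rw [Finset.sum_congr rfl fun f _ => h1 f, Finset.sum_comm]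
  refine Finset.sum_congr rfl fun Γ _ => ?_
  rw [Finset.card_filter]

end Fin

end General

end P4

/-- P4a -/
theorem kappa10_eq (p : ℕ) [Fact p.Prime] : kappa10 p = p ^ 2 * kappa9 p := by
  unfold kappa10 kappa9
  rw [P4.card_kappa, ZMod.card]

/-- P4b -/
theorem X10_eq (p : ℕ) [Fact p.Prime] :
    (X10 (ZMod p) : ℚ) = p * ((p ^ 2).choose 10 : ℚ) +
      (1 - p) * ((kappa10 p : ℚ) / (Nat.factorial 10 : ℚ)) + Exc p := by
  classical
  set U := powersetCard 10 (univ : Finset (ZMod p × ZMod p)) with hU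
  have hcardU : (#U : ℚ) = ((p ^ 2).choose 10 : ℚ) := by
    rw [hU, Finset.card_powersetCard, Finset.card_univ, Fintype.card_prod, ZMod.card, sq]
  have hk : (kappa10 p : ℚ) / (Nat.factorial 10 : ℚ) = #(U.filter fun Γ => A3 Γ = 1) := by
    have h := P4.card_kappa10 (K := ZMod p)
    unfold kappa10
    rw [h]
    push_cast
    rw [mul_div_cancel_left₀]
    exact_mod_cast (Nat.factorial_pos 10).ne'
  have hp1 : 1 < p := (Fact.out : p.Prime).one_lt
  rw [P4.X10_sum, hk, ← hcardU]
  unfold Exc
  rw [← hU]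
  rw [Finset.sum_filter, Finset.card_filter, Finset.card_eq_sum_ones]
  push_cast
  rw [Finset.mul_sum, Finset.mul_sum, ← Finset.sum_add_distrib, ← Finset.sum_add_distrib]
  refine Finset.sum_congr rfl fun Γ _ => ?_
  rcases P4.A3_le_or Γ with h | h
  · rw [h]
    have : ¬ (p < 1) := by omega
    simp [this]
  · rw [ZMod.card] at h
    have h1 : A3 Γ ≠ 1 := by omega
    rcases Nat.lt_or_ge p (A3 Γ) with h2 | h2
    · simp [h1, h2]
    · have h3 : A3 Γ = p := le_antisymm h2 h
      rw [h3]
      have h4 : p ≠ 1 := by omega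
      simp [h4]

end Pool.Agent.E07280
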