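/-
Plane curves of small degree through few points: consequences of the affine Bezout inequality.
-/
import Pool.Agent.E07280.P5a

open Finset MvPolynomial

namespace Pool.Agent.E07280

set_option linter.unusedSectionVars false

variable {K : Type} [Field K] [DecidableEq K]

theorem exists_C_of_totalDegree {f : MvPolynomial (Fin 2) K} (h : f.totalDegree = 0) :
    ∃ c, f = C c := ⟨_, totalDegree_eq_zero_iff_eq_C.1 h⟩

theorem evp_C (P : K × K) (c : K) : evp P (C c) = c := by
  simp [evp]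

theorem evp_ne_zero_of_totalDegree {f : MvPolynomial (Fin 2) K} (hf : f ≠ 0)
    (h : f.totalDegree = 0) (P : K × K) : evp P f ≠ 0 := by
  obtain ⟨c, rfl⟩ := exists_C_of_totalDegree h
  rw [evp_C]
  rintro rfl
  exact hf (by simp)

/-- Bezout with a common factor -/
theorem bezout_gcd {f g : MvPolynomial (Fin 2) K} (hf : f ≠ 0) (hg : g ≠ 0) :
    ∃ h f' g' : MvPolynomial (Fin 2) K, f = h * f' ∧ g = h * g' ∧ h ≠ 0 ∧ f' ≠ 0 ∧ g' ≠ 0 ∧
      f.totalDegree = h.totalDegree + f'.totalDegree ∧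
      g.totalDegree = h.totalDegree + g'.totalDegree ∧
      ∀ Γ : Finset (K × K), (∀ P ∈ Γ, evp P f = 0) → (∀ P ∈ Γ, evp P g = 0) →
        #Γ ≤ #(Γ.filter fun P => evp P h = 0) + f'.totalDegree * g'.totalDegree := by
  obtain ⟨f', g', h, hrel, rfl, rfl⟩ := UniqueFactorizationMonoid.exists_reduced_factors f hf g
  have hh : h ≠ 0 := left_ne_zero_of_mul hf
  have hf' : f' ≠ 0 := right_ne_zero_of_mul hf
  have hg' : g' ≠ 0 := right_ne_zero_of_mul hg
  refine ⟨h, f', g', rfl, rfl, hh, hf', hg', totalDegree_mul_of_isDomain hh hf',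
    totalDegree_mul_of_isDomain hh hg', ?_⟩
  intro Γ h1 h2
  have h3 : #(Γ.filter fun P => ¬ evp P h = 0) ≤ f'.totalDegree * g'.totalDegree := by
    refine bezout hg' hrel _ ?_ ?_
    · intro P hP
      obtain ⟨hP1, hP2⟩ := mem_filter.1 hP
      have := h1 P hP1
      rw [map_mul] at this
      exact (mul_eq_zero.1 this).resolve_left hP2
    · intro P hP
      obtain ⟨hP1, hP2⟩ := mem_filter.1 hP
      have := h2 P hP1
      rw [map_mul] at this
      exact (mul_eq_zero.1 this).resolve_left hP2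
  have h4 := Finset.card_filter_add_card_filter_not (s := Γ) (fun P => evp P h = 0)
  omega

/-- the space of polynomials of degree at most `d` vanishing on `Γ` -/
def VD (d : ℕ) (Γ : Finset (K × K)) : Submodule K (MvPolynomial (Fin 2) K) where
  carrier := {f | f.totalDegree ≤ d ∧ ∀ P ∈ Γ, evp P f = 0}
  zero_mem' := by simp
  add_mem' := by
    rintro f g ⟨hf1, hf2⟩ ⟨hg1, hg2⟩
    refine ⟨(totalDegree_add _ _).trans (max_le hf1 hg1), fun P hP => ?_⟩
    rw [map_add, hf2 P hP, hg2 P hP, add_zero]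
  smul_mem' := by
    rintro c f ⟨hf1, hf2⟩
    refine ⟨(totalDegree_smul_le _ _).trans hf1, fun P hP => ?_⟩
    rw [map_smul, hf2 P hP, smul_zero]

theorem mem_VD {d : ℕ} {Γ : Finset (K × K)} {f : MvPolynomial (Fin 2) K} :
    f ∈ VD d Γ ↔ f.totalDegree ≤ d ∧ ∀ P ∈ Γ, evp P f = 0 := Iff.rfl

theorem VD_le_PV (d : ℕ) (Γ : Finset (K × K)) : VD d Γ ≤ PV K d := fun f hf => by
  rw [mem_restrictTotalDegree]
  exact hf.1

theorem VD_anti (d : ℕ) {Γ Γ' : Finset (K × K)} (h : Γ ⊆ Γ') : VD d Γ' ≤ VD d Γ :=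
  fun _ hf => ⟨hf.1, fun P hP => hf.2 P (h hP)⟩

instance (d : ℕ) (Γ : Finset (K × K)) : Module.Finite K (VD d Γ) :=
  Submodule.finiteDimensional_of_le (VD_le_PV d Γ)

/-- dimension of the space of polynomials of degree at most `d` vanishing on `Γ` -/
noncomputable def aD (d : ℕ) (Γ : Finset (K × K)) : ℕ := Module.finrank K (VD d Γ)

theorem VD_eq_map (d : ℕ) (Γ : Finset (K × K)) :
    VD d Γ = (LinearMap.ker (evG d Γ)).map (PV K d).subtype := by
  ext f
  rw [Submodule.mem_map]
  constructor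
  · intro hf
    refine ⟨⟨f, VD_le_PV d Γ hf⟩, ?_, rfl⟩
    rw [LinearMap.mem_ker]
    ext P
    exact hf.2 P.1 P.2
  · rintro ⟨⟨g, hg⟩, h1, rfl⟩
    rw [LinearMap.mem_ker] at h1
    refine ⟨(mem_restrictTotalDegree _ _ _).1 hg, fun P hP => ?_⟩
    exact congrFun h1 ⟨P, hP⟩

theorem aD_eq_ker (d : ℕ) (Γ : Finset (K × K)) :
    aD d Γ = Module.finrank K (LinearMap.ker (evG d Γ)) := by
  rw [aD, VD_eq_map]
  exact Submodule.finrank_map_subtype_eq _ _

theorem aD_eq (d : ℕ) (Γ : Finset (K × K)) (h : #Γ ≤ d + 1) :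
    2 * (aD d Γ + #Γ) = (d + 1) * (d + 2) := by
  rw [aD_eq_ker, finrank_ker_evG d Γ h, finrank_PV]

theorem aD_ge (d : ℕ) (Γ : Finset (K × K)) : (d + 1) * (d + 2) ≤ 2 * (aD d Γ + #Γ) := by
  rw [aD_eq_ker, ← finrank_PV (K := K) d]
  have := finrank_ker_evG_ge d Γ
  omega

theorem aD_anti (d : ℕ) {Γ Γ' : Finset (K × K)} (h : Γ ⊆ Γ') : aD d Γ' ≤ aD d Γ :=
  Submodule.finrank_mono (VD_anti d h)

theorem aD_insert (d : ℕ) (Γ : Finset (K × K)) (P : K × K) :
    aD d Γ ≤ aD d (insert P Γ) + 1 := by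
  let φ : VD d Γ →ₗ[K] K := (evp P).toLinearMap ∘ₗ (VD d Γ).subtype
  have h1 := LinearMap.finrank_range_add_finrank_ker φ
  have h2 : Module.finrank K (LinearMap.range φ) ≤ 1 := by
    refine (Submodule.finrank_le _).trans ?_
    rw [Module.finrank_self]
  have h3 : VD d (insert P Γ) = (LinearMap.ker φ).map (VD d Γ).subtype := by
    ext f
    rw [Submodule.mem_map]
    constructor
    · intro hf
      refine ⟨⟨f, VD_anti d (subset_insert _ _) hf⟩, ?_, rfl⟩
      rw [LinearMap.mem_ker]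
      exact hf.2 P (mem_insert_self _ _)
    · rintro ⟨⟨g, hg⟩, h1, rfl⟩
      rw [LinearMap.mem_ker] at h1
      refine ⟨hg.1, fun Q hQ => ?_⟩
      rcases mem_insert.1 hQ with rfl | hQ
      · exact h1
      · exact hg.2 Q hQ
  have h4 : aD d (insert P Γ) = Module.finrank K (LinearMap.ker φ) := by
    rw [aD, h3]
    exact Submodule.finrank_map_subtype_eq _ _
  rw [h4, aD]
  omega

/-- multiplication by `g` -/
theorem aD_mul {g : MvPolynomial (Fin 2) K} (hg : g ≠ 0) {e : ℕ} (he : g.totalDegree = e) (d : ℕ)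
    (Γ : Finset (K × K)) (h : ∀ f ∈ VD (d + e) Γ, g ∣ f) :
    aD (d + e) Γ = aD d (Γ.filter fun P => evp P g ≠ 0) := by
  have h1 : VD (d + e) Γ =
      (VD d (Γ.filter fun P => evp P g ≠ 0)).map (LinearMap.mulLeft K g) := by
    ext f
    rw [Submodule.mem_map]
    constructor
    · intro hf
      obtain ⟨u, rfl⟩ := h f hf
      refine ⟨u, ⟨?_, ?_⟩, rfl⟩
      · by_cases hu : u = 0
        · rw [hu]; simp
        · have := hf.1
          rw [totalDegree_mul_of_isDomain hg hu] at this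
          omega
      · intro P hP
        obtain ⟨hP1, hP2⟩ := mem_filter.1 hP
        have := hf.2 P hP1
        rw [map_mul] at this
        exact (mul_eq_zero.1 this).resolve_left hP2
    · rintro ⟨u, hu, rfl⟩
      rw [LinearMap.mulLeft_apply]
      refine ⟨(totalDegree_mul _ _).trans ?_, ?_⟩
      · have := hu.1
        omega
      · intro P hP
        rw [map_mul]
        by_cases h0 : evp P g = 0
        · rw [h0, zero_mul]
        · rw [hu.2 P (mem_filter.2 ⟨hP, h0⟩), mul_zero]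
  rw [aD, aD, h1]
  exact (Submodule.equivMapOfInjective _ (mul_right_injective₀ hg) _).finrank_eq.symm

theorem dvd_of_line {l g : MvPolynomial (Fin 2) K} (hl : l.totalDegree = 1) {n : ℕ}
    (hg : g.totalDegree ≤ n) (Γ : Finset (K × K)) (h1 : ∀ P ∈ Γ, evp P l = 0)
    (h2 : ∀ P ∈ Γ, evp P g = 0) (hn : n < #Γ) : l ∣ g := by
  have hl0 : l ≠ 0 := by
    rintro rfl
    simp at hl
  by_cases hg0 : g = 0
  · rw [hg0]; exact dvd_zero _
  obtain ⟨h, f', g', e1, e2, hh, hf', hg', d1, d2, hb⟩ := bezout_gcd hl0 hg0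
  have hb' := hb Γ h1 h2
  by_cases hd : h.totalDegree = 0
  · have : Γ.filter (fun P => evp P h = 0) = ∅ := by
      rw [filter_eq_empty_iff]
      intro P _
      exact evp_ne_zero_of_totalDegree hh hd P
    rw [this, card_empty] at hb'
    have h3 : f'.totalDegree = 1 := by omega
    rw [h3] at hb'
    omega
  · have h3 : f'.totalDegree = 0 := by omega
    obtain ⟨c, rfl⟩ := exists_C_of_totalDegree h3
    have hc : c ≠ 0 := by
      rintro rfl
      exact hf' (by simp)
    rw [e1, e2]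
    have hu : IsUnit (C c : MvPolynomial (Fin 2) K) := (isUnit_iff_ne_zero.2 hc).map C
    exact (hu.mul_right_dvd).2 (dvd_mul_right _ _)

theorem aD_line {l : MvPolynomial (Fin 2) K} (hl : l.totalDegree = 1) (d : ℕ)
    (Γ : Finset (K × K)) (h : d + 1 < #(Γ.filter fun P => evp P l = 0)) :
    aD (d + 1) Γ = aD d (Γ.filter fun P => evp P l ≠ 0) := by
  have hl0 : l ≠ 0 := by
    rintro rfl
    simp at hl
  refine aD_mul hl0 hl d Γ fun f hf => ?_
  refine dvd_of_line hl hf.1 (Γ.filter fun P => evp P l = 0) (fun P hP => (mem_filter.1 hP).2)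
    (fun P hP => hf.2 P (mem_filter.1 hP).1) h

/-- two independent curves of degree `≤ d` through `Γ` -/
theorem exists_common {d : ℕ} {Γ : Finset (K × K)} (h : 2 ≤ aD d Γ) :
    ∃ u : MvPolynomial (Fin 2) K, u ≠ 0 ∧ u.totalDegree < d ∧
      #Γ ≤ #(Γ.filter fun P => evp P u = 0) + (d - u.totalDegree) * (d - u.totalDegree) := by
  have h0 : ∃ f : VD d Γ, f ≠ 0 := by
    by_contra hcon
    push Not at hcon
    have : Subsingleton (VD d Γ) := ⟨fun a b => (hcon a).trans (hcon b).symm⟩
    have h1 : aD d Γ = 0 := Module.finrank_zero_of_subsingleton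
    omega
  obtain ⟨f, hf⟩ := h0
  have h2 : ∃ g : VD d Γ, ∀ c : K, c • f ≠ g := by
    by_contra hcon
    push Not at hcon
    have := finrank_le_one f hcon
    change aD d Γ ≤ 1 at this
    omega
  obtain ⟨g, hg⟩ := h2
  have hf0 : (f : MvPolynomial (Fin 2) K) ≠ 0 := fun h => hf (Subtype.ext h)
  have hg0 : (g : MvPolynomial (Fin 2) K) ≠ 0 := fun h => hg 0 (Subtype.ext (by simp [h]))
  obtain ⟨u, f', g', e1, e2, hu, hf', hg', d1, d2, hb⟩ := bezout_gcd hf0 hg0
  have hfd := f.2.1
  have hgd := g.2.1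
  refine ⟨u, hu, ?_, ?_⟩
  · by_contra hcon
    push Not at hcon
    have h3 : f'.totalDegree = 0 := by omega
    have h4 : g'.totalDegree = 0 := by omega
    obtain ⟨a, rfl⟩ := exists_C_of_totalDegree h3
    obtain ⟨b, rfl⟩ := exists_C_of_totalDegree h4
    have ha : a ≠ 0 := by
      rintro rfl
      exact hf' (by simp)
    refine hg (b / a) (Subtype.ext ?_)
    rw [Submodule.coe_smul, e1, e2, MvPolynomial.smul_eq_C_mul, ← mul_assoc, mul_comm _ u,
      mul_assoc, ← C_mul, div_mul_cancel₀ _ ha]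
  · refine (hb Γ f.2.2 g.2.2).trans ?_
    have := Nat.mul_le_mul (show f'.totalDegree ≤ d - u.totalDegree by omega)
      (show g'.totalDegree ≤ d - u.totalDegree by omega)
    omega

theorem filter_zero_of_const {u : MvPolynomial (Fin 2) K} (hu : u ≠ 0) (hd : u.totalDegree = 0)
    (Γ : Finset (K × K)) : Γ.filter (fun P => evp P u = 0) = ∅ := by
  rw [filter_eq_empty_iff]
  intro P _
  exact evp_ne_zero_of_totalDegree hu hd P

/-- four points: the dimension of conics and lines through them -/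
theorem aD_four (Δ : Finset (K × K)) (h4 : #Δ = 4) (P : K × K) (hP : P ∉ Δ) :
    aD 2 Δ = 2 + aD 1 Δ := by
  by_cases h : ∃ l : MvPolynomial (Fin 2) K, l.totalDegree = 1 ∧
      3 ≤ #(Δ.filter fun P => evp P l = 0)
  · obtain ⟨l, hl, h3⟩ := h
    have h5 : #(Δ.filter fun P => evp P l = 0) + #(Δ.filter fun P => evp P l ≠ 0) = #Δ :=
      Finset.card_filter_add_card_filter_not (s := Δ) (fun P => evp P l = 0)
    have e1 : aD 2 Δ = aD 1 (Δ.filter fun P => evp P l ≠ 0) := aD_line hl 1 Δ (by omega)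
    have e2 : aD 1 Δ = aD 0 (Δ.filter fun P => evp P l ≠ 0) := aD_line hl 0 Δ (by omega)
    have e3 := aD_eq 1 (Δ.filter fun P => evp P l ≠ 0) (by omega)
    have e4 := aD_eq 0 (Δ.filter fun P => evp P l ≠ 0) (by omega)
    omega
  · push Not at h
    have e1 : aD 1 Δ = 0 := by
      by_contra hcon
      have h0 : ∃ f : VD 1 Δ, f ≠ 0 := by
        by_contra hcon'
        push Not at hcon'
        have : Subsingleton (VD 1 Δ) := ⟨fun a b => (hcon' a).trans (hcon' b).symm⟩
        exact hcon Module.finrank_zero_of_subsingleton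
      obtain ⟨f, hf⟩ := h0
      have hf0 : (f : MvPolynomial (Fin 2) K) ≠ 0 := fun h => hf (Subtype.ext h)
      have hfilter : Δ.filter (fun P => evp P (f : MvPolynomial (Fin 2) K) = 0) = Δ :=
        filter_true_of_mem f.2.2
      have hd : (f : MvPolynomial (Fin 2) K).totalDegree = 1 := by
        have h1 := f.2.1
        by_contra h2
        have h3 := filter_zero_of_const hf0 (by omega) Δ
        rw [hfilter] at h3
        rw [h3] at h4
        simp at h4
      have := h f hd
      rw [hfilter] at this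
      omega
    have e2 := aD_ge 2 Δ
    by_contra hcon
    have e3 := aD_insert 2 Δ P
    obtain ⟨u, hu, hd, hc⟩ := exists_common (d := 2) (Γ := insert P Δ) (by omega)
    rw [card_insert_of_notMem hP] at hc
    by_cases hd0 : u.totalDegree = 0
    · rw [filter_zero_of_const hu hd0, hd0, card_empty] at hc
      omega
    · have hd1 : u.totalDegree = 1 := by omega
      have h6 := h u hd1
      rw [hd1] at hc
      have h7 : #((insert P Δ).filter fun P => evp P u = 0) ≤
          #(Δ.filter fun P => evp P u = 0) + 1 := by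
        rw [filter_insert]
        split_ifs
        · exact card_insert_le _ _
        · omega
      omega

end Pool.Agent.E07280
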