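/-
Coefficient vectors of lines, conics, cubics and the classification of ten-point sets lying on at
least two independent cubics.
-/
import Pool.Agent.E07280.P5b
import Pool.Agent.E07280.Defs

open Finset MvPolynomial

set_option linter.unusedSectionVars false

namespace Pool.Agent.E07280

variable {K : Type} [Field K] [Fintype K] [DecidableEq K]

section Dict

/-- polynomial with given coefficient vector -/
noncomputable def mvOf {N : ℕ} (ab : Fin N → ℕ × ℕ) : (Fin N → K) →ₗ[K] MvPolynomial (Fin 2) K :=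
  Fintype.linearCombination K fun i => X 0 ^ (ab i).1 * X 1 ^ (ab i).2

theorem mvOf_apply {N : ℕ} (ab : Fin N → ℕ × ℕ) (f : Fin N → K) :
    mvOf ab f = ∑ i, f i • (X 0 ^ (ab i).1 * X 1 ^ (ab i).2 : MvPolynomial (Fin 2) K) := rfl

theorem evp_mvOf {N : ℕ} (ab : Fin N → ℕ × ℕ) (f : Fin N → K) (P : K × K) :
    evp P (mvOf ab f) = ∑ i, f i * (P.1 ^ (ab i).1 * P.2 ^ (ab i).2) := by
  rw [mvOf_apply, map_sum]
  refine Finset.sum_congr rfl fun i _ => ?_
  rw [map_smul, smul_eq_mul]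
  simp [evp]

theorem mvOf_mem {N d : ℕ} (ab : Fin N → ℕ × ℕ) (hle : ∀ i, (ab i).1 + (ab i).2 ≤ d)
    (f : Fin N → K) : (mvOf ab f).totalDegree ≤ d := by
  rw [mvOf_apply]
  refine totalDegree_finsetSum_le fun i _ => ?_
  refine (totalDegree_smul_le _ _).trans ((totalDegree_mul _ _).trans ?_)
  rw [totalDegree_X_pow, totalDegree_X_pow]
  exact hle i

theorem mvOf_injective {N : ℕ} (ab : Fin N → ℕ × ℕ) (hab : Function.Injective ab) :
    Function.Injective (mvOf (K := K) ab) := by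
  have h1 : LinearIndependent K
      (fun i => (X 0 ^ (ab i).1 * X 1 ^ (ab i).2 : MvPolynomial (Fin 2) K)) := by
    have h2 := (basisMonomials (Fin 2) K).linearIndependent
    have h3 : Function.Injective
        (fun i => (Finsupp.single 0 (ab i).1 + Finsupp.single 1 (ab i).2 : Fin 2 →₀ ℕ)) := by
      intro i j hij
      have e0 := DFunLike.congr_fun hij 0
      have e1 := DFunLike.congr_fun hij 1
      simp at e0 e1
      exact hab (Prod.ext e0 e1)
    have h4 := h2.comp _ h3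
    have h5 : (fun i => (X 0 ^ (ab i).1 * X 1 ^ (ab i).2 : MvPolynomial (Fin 2) K)) =
        (basisMonomials (Fin 2) K) ∘
          fun i => (Finsupp.single 0 (ab i).1 + Finsupp.single 1 (ab i).2 : Fin 2 →₀ ℕ) := by
      ext1 i
      simp only [Function.comp, coe_basisMonomials, X_pow_eq_monomial, monomial_mul, mul_one]
    rw [h5]
    exact h4
  rw [injective_iff_map_eq_zero]
  intro f hf
  ext i
  exact Fintype.linearIndependent_iff.1 h1 f hf i

theorem mvOf_surj {N d : ℕ} (ab : Fin N → ℕ × ℕ) (hab : Function.Injective ab)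
    (hle : ∀ i, (ab i).1 + (ab i).2 ≤ d) (hN : 2 * N = (d + 1) * (d + 2))
    (u : MvPolynomial (Fin 2) K) (hu : u.totalDegree ≤ d) : ∃ f, mvOf ab f = u := by
  let φ : (Fin N → K) →ₗ[K] PV K d := LinearMap.codRestrict (PV K d) (mvOf ab) fun f => by
    rw [mem_restrictTotalDegree]
    exact mvOf_mem ab hle f
  have hφ : Function.Injective φ := by
    intro f g hfg
    exact mvOf_injective ab hab (congrArg Subtype.val hfg)
  have hr : Module.finrank K (Fin N → K) = Module.finrank K (PV K d) := by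
    rw [Module.finrank_fin_fun]
    have := finrank_PV (K := K) d
    omega
  have hs := (LinearMap.injective_iff_surjective_of_finrank_eq_finrank hr).1 hφ
  obtain ⟨f, hf⟩ := hs ⟨u, (mem_restrictTotalDegree _ _ _).2 hu⟩
  exact ⟨f, congrArg Subtype.val hf⟩

theorem card_mvOf {N d : ℕ} (ab : Fin N → ℕ × ℕ) (hab : Function.Injective ab)
    (hle : ∀ i, (ab i).1 + (ab i).2 ≤ d) (hN : 2 * N = (d + 1) * (d + 2)) (Γ : Finset (K × K)) :
    #{f : Fin N → K | ∀ P ∈ Γ, evp P (mvOf ab f) = 0} = Fintype.card K ^ aD d Γ := by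
  classical
  rw [← Nat.card_eq_fintype_card, aD, ← Module.natCard_eq_pow_finrank, ← Nat.card_eq_finsetCard]
  refine Nat.card_congr ?_
  refine Equiv.ofBijective
    (fun f => ⟨mvOf ab f.1, ⟨mvOf_mem ab hle f.1, (mem_filter.1 f.2).2⟩⟩) ⟨?_, ?_⟩
  · intro f g hfg
    exact Subtype.ext (mvOf_injective ab hab (congrArg Subtype.val hfg))
  · rintro ⟨u, hu⟩
    obtain ⟨f, hf⟩ := mvOf_surj ab hab hle hN u hu.1
    refine ⟨⟨f, mem_filter.2 ⟨mem_univ _, ?_⟩⟩, Subtype.ext hf⟩
    rw [hf]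
    exact hu.2

end Dict

def ab1 : Fin 3 → ℕ × ℕ := ![(0, 0), (1, 0), (0, 1)]
def ab2 : Fin 6 → ℕ × ℕ := ![(0, 0), (1, 0), (0, 1), (2, 0), (1, 1), (0, 2)]
def ab3 : Fin 10 → ℕ × ℕ :=
  ![(0, 0), (1, 0), (0, 1), (2, 0), (1, 1), (0, 2), (3, 0), (2, 1), (1, 2), (0, 3)]

theorem ab1_inj : Function.Injective ab1 := by decide
theorem ab2_inj : Function.Injective ab2 := by decide
theorem ab3_inj : Function.Injective ab3 := by decide
theorem ab1_le : ∀ i, (ab1 i).1 + (ab1 i).2 ≤ 1 := by decide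
theorem ab2_le : ∀ i, (ab2 i).1 + (ab2 i).2 ≤ 2 := by decide
theorem ab3_le : ∀ i, (ab3 i).1 + (ab3 i).2 ≤ 3 := by decide

/-- value of the linear polynomial with coefficient vector `l` -/
def ev1 (l : Fin 3 → K) (P : K × K) : K := l 0 + l 1 * P.1 + l 2 * P.2

/-- value of the quadratic polynomial with coefficient vector `c` -/
def ev2 (c : Fin 6 → K) (P : K × K) : K :=
  c 0 + c 1 * P.1 + c 2 * P.2 + c 3 * P.1 ^ 2 + c 4 * (P.1 * P.2) + c 5 * P.2 ^ 2

noncomputable def p1 : (Fin 3 → K) →ₗ[K] MvPolynomial (Fin 2) K := mvOf ab1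
noncomputable def p2 : (Fin 6 → K) →ₗ[K] MvPolynomial (Fin 2) K := mvOf ab2
noncomputable def p3 : (Fin 10 → K) →ₗ[K] MvPolynomial (Fin 2) K := mvOf ab3

theorem evp_p1 (l : Fin 3 → K) (P : K × K) : evp P (p1 l) = ev1 l P := by
  rw [p1, evp_mvOf, ev1]
  simp [Fin.sum_univ_succ, ab1]
  ring

theorem evp_p2 (c : Fin 6 → K) (P : K × K) : evp P (p2 c) = ev2 c P := by
  rw [p2, evp_mvOf, ev2]
  simp [Fin.sum_univ_succ, ab2]
  ring

theorem evp_p3 (c : Fin 10 → K) (P : K × K) : evp P (p3 c) = ev3 c P := by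
  rw [p3, evp_mvOf, ev3]
  simp [Fin.sum_univ_succ, ab3, mono10]

theorem p1_inj : Function.Injective (p1 (K := K)) := mvOf_injective ab1 ab1_inj
theorem p2_inj : Function.Injective (p2 (K := K)) := mvOf_injective ab2 ab2_inj

theorem p1_surj (u : MvPolynomial (Fin 2) K) (hu : u.totalDegree ≤ 1) : ∃ l, p1 l = u :=
  mvOf_surj ab1 ab1_inj ab1_le rfl u hu

theorem p2_surj (u : MvPolynomial (Fin 2) K) (hu : u.totalDegree ≤ 2) : ∃ l, p2 l = u :=
  mvOf_surj ab2 ab2_inj ab2_le rfl u hu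

theorem card1 (Γ : Finset (K × K)) :
    #{l : Fin 3 → K | ∀ P ∈ Γ, ev1 l P = 0} = Fintype.card K ^ aD 1 Γ := by
  rw [← card_mvOf ab1 ab1_inj ab1_le rfl Γ]
  simp only [← evp_p1]
  rfl

theorem card2 (Γ : Finset (K × K)) :
    #{l : Fin 6 → K | ∀ P ∈ Γ, ev2 l P = 0} = Fintype.card K ^ aD 2 Γ := by
  rw [← card_mvOf ab2 ab2_inj ab2_le rfl Γ]
  simp only [← evp_p2]
  rfl

theorem card3 (Γ : Finset (K × K)) : A3 Γ = Fintype.card K ^ aD 3 Γ := by
  rw [← card_mvOf ab3 ab3_inj ab3_le rfl Γ, A3]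
  simp only [← evp_p3]
  rfl

/-- coefficient vectors of lines -/
def LL (K : Type) [Field K] [Fintype K] [DecidableEq K] : Finset (Fin 3 → K) :=
  univ.filter fun l => l 1 ≠ 0 ∨ l 2 ≠ 0

theorem mem_LL {l : Fin 3 → K} : l ∈ LL K ↔ l 1 ≠ 0 ∨ l 2 ≠ 0 := by simp [LL]

theorem totalDegree_p1_le (l : Fin 3 → K) : (p1 l).totalDegree ≤ 1 := mvOf_mem ab1 ab1_le l

theorem totalDegree_p2_le (l : Fin 6 → K) : (p2 l).totalDegree ≤ 2 := mvOf_mem ab2 ab2_le l

theorem totalDegree_p1 {l : Fin 3 → K} : (p1 l).totalDegree = 1 ↔ l ∈ LL K := by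
  have h1 := totalDegree_p1_le l
  constructor
  · intro h
    rw [mem_LL]
    by_contra hcon
    push Not at hcon
    have : p1 l = C (l 0) := by
      rw [p1, mvOf_apply]
      simp [Fin.sum_univ_succ, hcon.1, ab1, MvPolynomial.smul_eq_C_mul,
        show l 2 = 0 from hcon.2]
    rw [this] at h
    simp at h
  · intro h
    by_contra hcon
    obtain ⟨c, hc⟩ := exists_C_of_totalDegree (show (p1 l).totalDegree = 0 by omega)
    have h2 : p1 (![c, 0, 0] : Fin 3 → K) = C c := by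
      rw [p1, mvOf_apply]
      simp [Fin.sum_univ_succ, ab1, MvPolynomial.smul_eq_C_mul]
    have h3 := p1_inj (hc.trans h2.symm)
    rw [mem_LL, h3] at h
    simp at h

theorem exists_line {u : MvPolynomial (Fin 2) K} (hu : u.totalDegree = 1) :
    ∃ l ∈ LL K, p1 l = u := by
  obtain ⟨l, rfl⟩ := p1_surj u hu.le
  exact ⟨l, totalDegree_p1.1 hu, rfl⟩

/-- the affine line with coefficient vector `l` -/
def Z1 (l : Fin 3 → K) : Finset (K × K) := univ.filter fun P => ev1 l P = 0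

/-- the affine conic with coefficient vector `c` -/
def Z2 (c : Fin 6 → K) : Finset (K × K) := univ.filter fun P => ev2 c P = 0

theorem mem_Z1 {l : Fin 3 → K} {P : K × K} : P ∈ Z1 l ↔ ev1 l P = 0 := by simp [Z1]

theorem mem_Z2 {l : Fin 6 → K} {P : K × K} : P ∈ Z2 l ↔ ev2 l P = 0 := by simp [Z2]

theorem filter_p1 (l : Fin 3 → K) (Γ : Finset (K × K)) :
    Γ.filter (fun P => evp P (p1 l) = 0) = Γ ∩ Z1 l := by
  ext P
  simp [mem_Z1, evp_p1]

theorem filter_p1_ne (l : Fin 3 → K) (Γ : Finset (K × K)) :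
    Γ.filter (fun P => evp P (p1 l) ≠ 0) = Γ \ Z1 l := by
  ext P
  simp [mem_Z1, evp_p1]

theorem filter_p2 (l : Fin 6 → K) (Γ : Finset (K × K)) :
    Γ.filter (fun P => evp P (p2 l) = 0) = Γ ∩ Z2 l := by
  ext P
  simp [mem_Z2, evp_p2]

theorem filter_p2_ne (l : Fin 6 → K) (Γ : Finset (K × K)) :
    Γ.filter (fun P => evp P (p2 l) ≠ 0) = Γ \ Z2 l := by
  ext P
  simp [mem_Z2, evp_p2]

theorem card_Z1 {l : Fin 3 → K} (hl : l ∈ LL K) : #(Z1 l) = Fintype.card K := by
  rw [mem_LL] at hl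
  by_cases h2 : l 2 = 0
  · have h1 : l 1 ≠ 0 := hl.resolve_right (not_not.2 h2)
    rw [← Finset.card_univ]
    refine Finset.card_bij (fun P _ => P.2) (fun _ _ => mem_univ _) ?_ ?_
    · rintro ⟨x, y⟩ hP ⟨x', y'⟩ hP' h
      rw [mem_Z1, ev1] at hP hP'
      simp only [h2, zero_mul, add_zero] at hP hP'
      simp only at h
      refine Prod.ext ?_ h
      exact mul_left_cancel₀ h1 (by linear_combination hP - hP')
    · intro y _
      refine ⟨(-(l 0) / l 1, y), ?_, rfl⟩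
      rw [mem_Z1, ev1]
      simp only [h2]
      field_simp
      ring
  · rw [← Finset.card_univ]
    refine Finset.card_bij (fun P _ => P.1) (fun _ _ => mem_univ _) ?_ ?_
    · rintro ⟨x, y⟩ hP ⟨x', y'⟩ hP' h
      rw [mem_Z1, ev1] at hP hP'
      simp only at hP hP' h
      subst h
      refine Prod.ext rfl ?_
      exact mul_left_cancel₀ h2 (by linear_combination hP - hP')
    · intro x _
      refine ⟨(x, -(l 0 + l 1 * x) / l 2), ?_, rfl⟩
      rw [mem_Z1, ev1]
      simp only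
      field_simp
      ring

/-- two lines with two common points are proportional -/
theorem line_unique {l l' : Fin 3 → K} (hl : l ∈ LL K) (hl' : l' ∈ LL K)
    (h : 2 ≤ #(Z1 l ∩ Z1 l')) : ∃ c : K, c ≠ 0 ∧ l' = c • l := by
  have h1 : p1 l ∣ p1 l' := by
    refine dvd_of_line (totalDegree_p1.2 hl) (totalDegree_p1_le l') (Z1 l ∩ Z1 l') ?_ ?_ h
    · intro P hP
      rw [evp_p1]
      exact mem_Z1.1 (mem_inter.1 hP).1
    · intro P hP
      rw [evp_p1]
      exact mem_Z1.1 (mem_inter.1 hP).2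
  obtain ⟨u, hu⟩ := h1
  have d1 := totalDegree_p1.2 hl
  have d2 := totalDegree_p1.2 hl'
  have n1 : p1 l ≠ 0 := by
    intro h0
    rw [h0] at d1
    simp at d1
  have n2 : u ≠ 0 := by
    rintro rfl
    rw [hu] at d2
    simp at d2
  rw [hu, totalDegree_mul_of_isDomain n1 n2, d1] at d2
  obtain ⟨c, rfl⟩ := exists_C_of_totalDegree (show u.totalDegree = 0 by omega)
  refine ⟨c, ?_, ?_⟩
  · rintro rfl
    exact n2 (by simp)
  · apply p1_inj
    rw [map_smul, hu, MvPolynomial.smul_eq_C_mul, mul_comm]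

theorem smul_mem_LL {l : Fin 3 → K} (hl : l ∈ LL K) {c : K} (hc : c ≠ 0) : c • l ∈ LL K := by
  rw [mem_LL] at hl ⊢
  simpa [hc] using hl

theorem Z1_smul (l : Fin 3 → K) {c : K} (hc : c ≠ 0) : Z1 (c • l) = Z1 l := by
  ext P
  rw [mem_Z1, mem_Z1]
  have : ev1 (c • l) P = c * ev1 l P := by
    simp only [ev1, Pi.smul_apply, smul_eq_mul]
    ring
  rw [this, mul_eq_zero]
  exact or_iff_right hc

theorem Z2_smul (l : Fin 6 → K) {c : K} (hc : c ≠ 0) : Z2 (c • l) = Z2 l := by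
  ext P
  rw [mem_Z2, mem_Z2]
  have : ev2 (c • l) P = c * ev2 l P := by
    simp only [ev2, Pi.smul_apply, smul_eq_mul]
    ring
  rw [this, mul_eq_zero]
  exact or_iff_right hc

theorem card_multiples {N : ℕ} (v : Fin N → K) (hv : v ≠ 0) :
    #((univ.filter fun c : K => c ≠ 0).image fun c => c • v) = Fintype.card K - 1 := by
  rw [Finset.card_image_of_injective _ (smul_left_injective K hv), Finset.filter_ne' univ (0 : K),
    Finset.card_erase_of_mem (mem_univ _), Finset.card_univ]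

/-- ten points: six of them on a line -/
def CL (Γ : Finset (K × K)) : Prop := ∃ l ∈ LL K, 6 ≤ #(Γ ∩ Z1 l)

/-- ten points: nine of them on a conic -/
def CQ (Γ : Finset (K × K)) : Prop := ∃ c : Fin 6 → K, c ≠ 0 ∧ 9 ≤ #(Γ ∩ Z2 c)

theorem LL_ne_zero {l : Fin 3 → K} (hl : l ∈ LL K) : l ≠ 0 := by
  rintro rfl
  simp [mem_LL] at hl

theorem card_lines_CL {Γ : Finset (K × K)} (h10 : #Γ = 10) (h : CL Γ) :
    #((LL K).filter fun l => 6 ≤ #(Γ ∩ Z1 l)) = Fintype.card K - 1 := by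
  obtain ⟨l, hl, h6⟩ := h
  rw [← card_multiples l (LL_ne_zero hl)]
  congr 1
  ext l'
  simp only [mem_filter, mem_image, mem_univ, true_and]
  constructor
  · rintro ⟨hl', h6'⟩
    obtain ⟨c, hc, rfl⟩ := line_unique hl hl' (by
      have h1 : #((Γ ∩ Z1 l) ∪ (Γ ∩ Z1 l')) ≤ #Γ :=
        card_le_card (union_subset inter_subset_left inter_subset_left)
      have h2 := card_union_add_card_inter (Γ ∩ Z1 l) (Γ ∩ Z1 l')
      have h3 : #((Γ ∩ Z1 l) ∩ (Γ ∩ Z1 l')) ≤ #(Z1 l ∩ Z1 l') :=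
        card_le_card (inter_subset_inter inter_subset_right inter_subset_right)
      omega)
    exact ⟨c, hc, rfl⟩
  · rintro ⟨c, hc, rfl⟩
    exact ⟨smul_mem_LL hl hc, by rwa [Z1_smul l hc]⟩

theorem p2_ne_zero {c : Fin 6 → K} (hc : c ≠ 0) : p2 c ≠ 0 := fun h =>
  hc (p2_inj (h.trans (map_zero _).symm))

theorem not_CL {Γ : Finset (K × K)} (h : ¬ CL Γ) (u : MvPolynomial (Fin 2) K)
    (hu : u.totalDegree = 1) : #(Γ.filter fun P => evp P u = 0) ≤ 5 := by
  by_contra hcon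
  obtain ⟨l, hl, rfl⟩ := exists_line hu
  rw [filter_p1] at hcon
  exact h ⟨l, hl, by omega⟩

/-- a conic through nine points (no six collinear) divides every cubic through them -/
theorem conic_dvd {Γ Γ' : Finset (K × K)} (hΓ : Γ' ⊆ Γ) (h : ¬ CL Γ) (h9 : 9 ≤ #Γ')
    {c : Fin 6 → K} (hc : c ≠ 0) (h1 : ∀ P ∈ Γ', ev2 c P = 0) :
    (p2 c).totalDegree = 2 ∧ ∀ f : MvPolynomial (Fin 2) K, f.totalDegree ≤ 3 →
      (∀ P ∈ Γ', evp P f = 0) → p2 c ∣ f := by
  have hsub : ∀ u : MvPolynomial (Fin 2) K, u.totalDegree = 1 →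
      #(Γ'.filter fun P => evp P u = 0) ≤ 5 := fun u hu =>
    (card_le_card (filter_subset_filter _ hΓ)).trans (not_CL h u hu)
  have hc0 := p2_ne_zero hc
  have h1' : ∀ P ∈ Γ', evp P (p2 c) = 0 := fun P hP => by rw [evp_p2]; exact h1 P hP
  have hfilter : Γ'.filter (fun P => evp P (p2 c) = 0) = Γ' := filter_true_of_mem h1'
  have hdeg := totalDegree_p2_le c
  refine ⟨?_, ?_⟩
  · by_contra hcon
    by_cases hd0 : (p2 c).totalDegree = 0
    · have := filter_zero_of_const hc0 hd0 Γ'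
      rw [hfilter] at this
      rw [this] at h9
      simp at h9
    · have := hsub (p2 c) (by omega)
      rw [hfilter] at this
      omega
  · intro f hf hf0
    by_cases hfz : f = 0
    · rw [hfz]; exact dvd_zero _
    obtain ⟨u, c', f', e1, e2, hu, hc', hf', d1, d2, hb⟩ := bezout_gcd hc0 hfz
    have hb' := hb Γ' h1' hf0
    by_cases hd0 : u.totalDegree = 0
    · rw [filter_zero_of_const hu hd0, card_empty] at hb'
      have := Nat.mul_le_mul (show c'.totalDegree ≤ 2 by omega) (show f'.totalDegree ≤ 3 by omega)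
      omega
    · by_cases hd1 : u.totalDegree = 1
      · have h5 := hsub u hd1
        have := Nat.mul_le_mul (show c'.totalDegree ≤ 1 by omega)
          (show f'.totalDegree ≤ 2 by omega)
        omega
      · obtain ⟨a, rfl⟩ := exists_C_of_totalDegree (show c'.totalDegree = 0 by omega)
        have ha : a ≠ 0 := by
          rintro rfl
          exact hc' (by simp)
        rw [e1, e2]
        have hun : IsUnit (C a : MvPolynomial (Fin 2) K) := (isUnit_iff_ne_zero.2 ha).map C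
        exact (hun.mul_right_dvd).2 (dvd_mul_right _ _)

/-- the dimension of cubics through `Γ` in the conic case -/
theorem aD_three_CQ {Γ : Finset (K × K)} (h : ¬ CL Γ) {c : Fin 6 → K} (hc : c ≠ 0)
    (h9 : 9 ≤ #(Γ ∩ Z2 c)) : aD 3 Γ = aD 1 (Γ \ Z2 c) := by
  obtain ⟨h1, h2⟩ := conic_dvd inter_subset_left h h9 hc
    (fun P hP => mem_Z2.1 (mem_inter.1 hP).2)
  rw [← filter_p2_ne]
  refine aD_mul (p2_ne_zero hc) h1 1 Γ fun f hf => ?_
  exact h2 f hf.1 fun P hP => hf.2 P (mem_inter.1 hP).1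

theorem card_conics_CQ {Γ : Finset (K × K)} (h10 : #Γ = 10) (h : ¬ CL Γ) (hQ : CQ Γ) :
    #((univ : Finset (Fin 6 → K)).filter fun c => c ≠ 0 ∧ 9 ≤ #(Γ ∩ Z2 c)) =
      Fintype.card K - 1 := by
  obtain ⟨c, hc, h9⟩ := hQ
  rw [← card_multiples c hc]
  congr 1
  ext c'
  simp only [mem_filter, mem_image, mem_univ, true_and]
  constructor
  · rintro ⟨hc', h9'⟩
    have h8 : 8 ≤ #(Γ ∩ Z2 c ∩ Z2 c') := by
      have h1 : #((Γ ∩ Z2 c) ∪ (Γ ∩ Z2 c')) ≤ #Γ :=
        card_le_card (union_subset inter_subset_left inter_subset_left)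
      have h2 := card_union_add_card_inter (Γ ∩ Z2 c) (Γ ∩ Z2 c')
      have h3 : (Γ ∩ Z2 c) ∩ (Γ ∩ Z2 c') = Γ ∩ Z2 c ∩ Z2 c' := by
        ext P
        simp only [mem_inter]
        tauto
      rw [h3] at h2
      omega
    obtain ⟨u, f', g', e1, e2, hu, hf', hg', d1, d2, hb⟩ :=
      bezout_gcd (p2_ne_zero hc) (p2_ne_zero hc')
    have hb' := hb (Γ ∩ Z2 c ∩ Z2 c')
      (fun P hP => by rw [evp_p2]; exact mem_Z2.1 (mem_inter.1 (mem_inter.1 hP).1).2)
      (fun P hP => by rw [evp_p2]; exact mem_Z2.1 (mem_inter.1 hP).2)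
    have m1 := totalDegree_p2_le c
    have m2 := totalDegree_p2_le c'
    by_cases hd0 : u.totalDegree = 0
    · rw [filter_zero_of_const hu hd0, card_empty] at hb'
      have := Nat.mul_le_mul (show f'.totalDegree ≤ 2 by omega) (show g'.totalDegree ≤ 2 by omega)
      omega
    by_cases hd1 : u.totalDegree = 1
    · have h5 := (card_le_card (filter_subset_filter (fun P => evp P u = 0)
        (show Γ ∩ Z2 c ∩ Z2 c' ⊆ Γ from inter_subset_left.trans inter_subset_left))).trans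
        (not_CL h u hd1)
      have := Nat.mul_le_mul (show f'.totalDegree ≤ 1 by omega)
        (show g'.totalDegree ≤ 1 by omega)
      omega
    obtain ⟨a, rfl⟩ := exists_C_of_totalDegree (show f'.totalDegree = 0 by omega)
    obtain ⟨b, rfl⟩ := exists_C_of_totalDegree (show g'.totalDegree = 0 by omega)
    have ha : a ≠ 0 := by
      rintro rfl
      exact hf' (by simp)
    have hb0 : b ≠ 0 := by
      rintro rfl
      exact hg' (by simp)
    refine ⟨b / a, div_ne_zero hb0 ha, p2_inj ?_⟩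
    rw [map_smul, e1, e2, MvPolynomial.smul_eq_C_mul, ← mul_assoc, mul_comm _ u,
      mul_assoc, ← C_mul, div_mul_cancel₀ _ ha]
  · rintro ⟨a, ha, rfl⟩
    exact ⟨smul_ne_zero ha hc, by rwa [Z2_smul c ha]⟩

theorem aD_three_CL {Γ : Finset (K × K)} {l : Fin 3 → K} (hl : l ∈ LL K)
    (h6 : 4 ≤ #(Γ ∩ Z1 l)) : aD 3 Γ = aD 2 (Γ \ Z1 l) := by
  rw [← filter_p1_ne]
  refine aD_line (totalDegree_p1.2 hl) 2 Γ ?_
  rw [filter_p1]
  omega

theorem aD_two_CL {Γ : Finset (K × K)} {l : Fin 3 → K} (hl : l ∈ LL K)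
    (h6 : 3 ≤ #(Γ ∩ Z1 l)) : aD 2 Γ = aD 1 (Γ \ Z1 l) := by
  rw [← filter_p1_ne]
  refine aD_line (totalDegree_p1.2 hl) 1 Γ ?_
  rw [filter_p1]
  omega

/-- classification of the ten point sets with at least `q²` cubics through them -/
theorem two_le_aD_iff {Γ : Finset (K × K)} (h10 : #Γ = 10) : 2 ≤ aD 3 Γ ↔ CL Γ ∨ CQ Γ := by
  constructor
  · intro h
    obtain ⟨u, hu, hd, hc⟩ := exists_common h
    by_cases hd0 : u.totalDegree = 0
    · rw [filter_zero_of_const hu hd0, hd0, card_empty] at hc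
      omega
    by_cases hd1 : u.totalDegree = 1
    · obtain ⟨l, hl, rfl⟩ := exists_line hd1
      rw [filter_p1, hd1] at hc
      exact Or.inl ⟨l, hl, by omega⟩
    · obtain ⟨c, rfl⟩ := p2_surj u (by omega)
      rw [filter_p2, show (p2 c).totalDegree = 2 by omega] at hc
      refine Or.inr ⟨c, ?_, by omega⟩
      rintro rfl
      exact hu (map_zero _)
  · intro h
    by_cases hL : CL Γ
    · obtain ⟨l, hl, h6⟩ := hL
      rw [aD_three_CL hl (by omega)]
      have h1 := aD_ge 2 (Γ \ Z1 l)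
      have h2 : #(Γ ∩ Z1 l) + #(Γ \ Z1 l) = #Γ := by
        rw [add_comm]; exact card_sdiff_add_card_inter _ _
      omega
    · obtain ⟨c, hc, h9⟩ := h.resolve_left hL
      rw [aD_three_CQ hL hc h9]
      have h1 := aD_ge 1 (Γ \ Z2 c)
      have h2 : #(Γ ∩ Z2 c) + #(Γ \ Z2 c) = #Γ := by
        rw [add_comm]; exact card_sdiff_add_card_inter _ _
      omega

end Pool.Agent.E07280
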