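/-
Double counting: the excess in terms of the numbers of points of plane conics.
-/
import Pool.Agent.E07280.P5c

open Finset MvPolynomial

set_option linter.unusedSectionVars false

namespace Pool.Agent.E07280

section Comb

variable {α : Type} [Fintype α] [DecidableEq α]

/-- decomposition of `N`-subsets along `Z` -/
theorem sum_split (Z : Finset α) (N : ℕ) (H : Finset α → Finset α → ℚ) :
    ∑ Γ ∈ powersetCard N (univ : Finset α), H (Γ ∩ Z) (Γ \ Z) =
      ∑ k ∈ range (N + 1), ∑ A ∈ powersetCard (N - k) Z, ∑ B ∈ powersetCard k Zᶜ, H A B := by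
  rw [← Finset.sum_fiberwise_of_maps_to (t := range (N + 1)) (g := fun Γ => #(Γ \ Z))]
  · refine Finset.sum_congr rfl fun k hk => ?_
    rw [← Finset.sum_product']
    refine Finset.sum_bij' (fun Γ _ => (Γ ∩ Z, Γ \ Z)) (fun x _ => x.1 ∪ x.2) ?_ ?_ ?_ ?_ ?_
    · intro Γ hΓ
      rw [mem_filter, mem_powersetCard] at hΓ
      obtain ⟨⟨_, h1⟩, h2⟩ := hΓ
      have h3 : #(Γ \ Z) + #(Γ ∩ Z) = #Γ := card_sdiff_add_card_inter _ _
      rw [mem_product, mem_powersetCard, mem_powersetCard]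
      refine ⟨⟨inter_subset_right, ?_⟩, ?_, h2⟩
      · change #(Γ ∩ Z) = N - k
        omega
      · intro x hx
        exact mem_compl.2 (mem_sdiff.1 hx).2
    · rintro ⟨A, B⟩ hAB
      rw [mem_product, mem_powersetCard, mem_powersetCard] at hAB
      obtain ⟨⟨hA, hA'⟩, hB, hB'⟩ := hAB
      simp only at hA hA' hB hB'
      have hdisj : Disjoint A B := by
        rw [Finset.disjoint_left]
        intro x hx hx'
        exact mem_compl.1 (hB hx') (hA hx)
      rw [mem_filter, mem_powersetCard]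
      refine ⟨⟨subset_univ _, ?_⟩, ?_⟩
      · rw [card_union_of_disjoint hdisj]
        rw [mem_range] at hk
        omega
      · have : (A ∪ B) \ Z = B := by
          ext x
          simp only [mem_sdiff, mem_union]
          constructor
          · rintro ⟨h | h, h'⟩
            · exact absurd (hA h) h'
            · exact h
          · intro h
            exact ⟨Or.inr h, mem_compl.1 (hB h)⟩
        simp only [this]
        exact hB'
    · intro Γ _
      simp only
      rw [union_comm]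
      exact sdiff_union_inter _ _
    · rintro ⟨A, B⟩ hAB
      rw [mem_product, mem_powersetCard, mem_powersetCard] at hAB
      obtain ⟨⟨hA, _⟩, hB, _⟩ := hAB
      simp only at hA hB
      refine Prod.ext ?_ ?_
      · ext x
        simp only [mem_inter, mem_union]
        constructor
        · rintro ⟨h | h, h'⟩
          · exact h
          · exact absurd h' (mem_compl.1 (hB h))
        · intro h
          exact ⟨Or.inl h, hA h⟩
      · ext x
        simp only [mem_sdiff, mem_union]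
        constructor
        · rintro ⟨h | h, h'⟩
          · exact absurd (hA h) h'
          · exact h
        · intro h
          exact ⟨Or.inr h, mem_compl.1 (hB h)⟩
    · intro Γ _
      rfl
  · intro Γ hΓ
    rw [mem_powersetCard] at hΓ
    rw [mem_range]
    have := card_le_card (sdiff_subset : Γ \ Z ⊆ Γ)
    omega

/-- removing a point from a `k`-subset -/
theorem sum_erase (Y : Finset α) (k : ℕ) (F : Finset α → ℚ) :
    ∑ B ∈ powersetCard (k + 1) Y, ∑ P ∈ B, F (B.erase P) =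
      ((#Y - k : ℕ) : ℚ) * ∑ B ∈ powersetCard k Y, F B := by
  have h1 : ∑ B ∈ powersetCard k Y, ∑ P ∈ Y \ B, F B =
      ((#Y - k : ℕ) : ℚ) * ∑ B ∈ powersetCard k Y, F B := by
    rw [Finset.mul_sum]
    refine Finset.sum_congr rfl fun B hB => ?_
    rw [mem_powersetCard] at hB
    rw [Finset.sum_const, card_sdiff_of_subset hB.1, hB.2, nsmul_eq_mul]
  rw [← h1, Finset.sum_sigma', Finset.sum_sigma']
  refine Finset.sum_bij' (fun x _ => ⟨x.1.erase x.2, x.2⟩) (fun x _ => ⟨insert x.2 x.1, x.2⟩)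
    ?_ ?_ ?_ ?_ ?_
  · rintro ⟨B, P⟩ h
    simp only [mem_sigma, mem_powersetCard, mem_sdiff] at h ⊢
    refine ⟨⟨(erase_subset _ _).trans h.1.1, ?_⟩, h.1.1 h.2, notMem_erase _ _⟩
    rw [card_erase_of_mem h.2, h.1.2]
    rfl
  · rintro ⟨B, P⟩ h
    simp only [mem_sigma, mem_powersetCard, mem_sdiff] at h ⊢
    refine ⟨⟨insert_subset h.2.1 h.1.1, ?_⟩, mem_insert_self _ _⟩
    rw [card_insert_of_notMem h.2.2, h.1.2]
  · rintro ⟨B, P⟩ h
    simp only [mem_sigma, mem_powersetCard] at h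
    simp only [insert_erase h.2]
  · rintro ⟨B, P⟩ h
    simp only [mem_sigma, mem_powersetCard, mem_sdiff] at h
    simp only [erase_insert h.2.2]
  · rintro ⟨B, P⟩ _
    rfl

/-- number of `k`-subsets of `Y` inside `Z` -/
theorem card_sub (Y Z : Finset α) (k : ℕ) :
    #((powersetCard k Y).filter fun B => B ⊆ Z) = (#(Y ∩ Z)).choose k := by
  rw [← card_powersetCard]
  congr 1
  ext B
  simp only [mem_filter, mem_powersetCard, subset_inter_iff]
  tauto

end Comb

variable {K : Type} [Field K] [Fintype K] [DecidableEq K]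


open Classical in
/-- summation over the ten point sets with six points on a line -/
theorem sum_CL (F F' : Finset (K × K) → ℚ)
    (hF : ∀ Γ : Finset (K × K), #Γ = 10 → ∀ l ∈ LL K, 6 ≤ #(Γ ∩ Z1 l) → F Γ = F' (Γ \ Z1 l)) :
    ((Fintype.card K : ℚ) - 1) * ∑ Γ ∈ (powersetCard 10 (univ : Finset (K × K))).filter CL, F Γ =
      ∑ l ∈ LL K, ∑ k ∈ range 5, ((Fintype.card K).choose (10 - k) : ℚ) *
        ∑ B ∈ powersetCard k (Z1 l)ᶜ, F' B := by
  have hq : 1 ≤ Fintype.card K := Fintype.card_pos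
  have h1 : ((Fintype.card K : ℚ) - 1) * ∑ Γ ∈ (powersetCard 10 (univ : Finset (K × K))).filter CL, F Γ =
      ∑ Γ ∈ powersetCard 10 (univ : Finset (K × K)), ∑ l ∈ LL K,
        if 6 ≤ #(Γ ∩ Z1 l) then F Γ else 0 := by
    rw [Finset.mul_sum, Finset.sum_filter]
    refine Finset.sum_congr rfl fun Γ hΓ => ?_
    have h10 : #Γ = 10 := (mem_powersetCard.1 hΓ).2
    rw [← Finset.sum_filter, Finset.sum_const, nsmul_eq_mul]
    split_ifs with h
    · rw [card_lines_CL h10 h, Nat.cast_sub hq, Nat.cast_one]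
    · have : (LL K).filter (fun l => 6 ≤ #(Γ ∩ Z1 l)) = ∅ := by
        rw [filter_eq_empty_iff]
        intro l hl h6
        exact h ⟨l, hl, h6⟩
      rw [this, card_empty, Nat.cast_zero, zero_mul]
  rw [h1, Finset.sum_comm]
  refine Finset.sum_congr rfl fun l hl => ?_
  have h2 : ∑ Γ ∈ powersetCard 10 (univ : Finset (K × K)),
      (if 6 ≤ #(Γ ∩ Z1 l) then F Γ else 0) =
      ∑ Γ ∈ powersetCard 10 (univ : Finset (K × K)),
        (if 6 ≤ #(Γ ∩ Z1 l) then F' (Γ \ Z1 l) else 0) := by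
    refine Finset.sum_congr rfl fun Γ hΓ => ?_
    split_ifs with h6
    · exact hF Γ (mem_powersetCard.1 hΓ).2 l hl h6
    · rfl
  rw [h2]
  refine (sum_split (Z1 l) 10 (fun A B => if 6 ≤ #A then F' B else 0)).trans ?_
  have h3 : ∀ k ∈ range (10 + 1), ∑ A ∈ powersetCard (10 - k) (Z1 l),
      ∑ B ∈ powersetCard k (Z1 l)ᶜ, (if 6 ≤ #A then F' B else 0) =
      if k < 5 then ((Fintype.card K).choose (10 - k) : ℚ) *
        ∑ B ∈ powersetCard k (Z1 l)ᶜ, F' B else 0 := by
    intro k hk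
    rw [mem_range] at hk
    have h4 : ∀ A ∈ powersetCard (10 - k) (Z1 l),
        ∑ B ∈ powersetCard k (Z1 l)ᶜ, (if 6 ≤ #A then F' B else 0) =
        if k < 5 then ∑ B ∈ powersetCard k (Z1 l)ᶜ, F' B else 0 := by
      intro A hA
      have hA' : #A = 10 - k := (mem_powersetCard.1 hA).2
      simp only [hA']
      by_cases hk5 : k < 5
      · simp only [hk5, if_true, show 6 ≤ 10 - k by omega]
      · simp only [hk5, if_false, show ¬ 6 ≤ 10 - k by omega, Finset.sum_const_zero]
    rw [Finset.sum_congr rfl h4, Finset.sum_const, card_powersetCard, card_Z1 hl, nsmul_eq_mul]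
    split_ifs <;> simp
  rw [Finset.sum_congr rfl h3, ← Finset.sum_filter]
  refine Finset.sum_congr ?_ fun _ _ => rfl
  ext k
  simp only [mem_filter, mem_range]
  omega

/-- weight of a ten point set in the conic sum -/
def GG (Γ : Finset (K × K)) : ℚ :=
  ∑ c ∈ (univ : Finset (Fin 6 → K)).filter (fun c => c ≠ 0),
    ((if #(Γ ∩ Z2 c) = 10 then ((Fintype.card K : ℚ) ^ 3 - (Fintype.card K : ℚ)) else 0) + (if #(Γ ∩ Z2 c) = 9 then ((Fintype.card K : ℚ) ^ 2 - (Fintype.card K : ℚ)) else 0))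

theorem GG_CQ {Γ : Finset (K × K)} (h10 : #Γ = 10) (h : ¬ CL Γ) (hQ : CQ Γ) :
    GG Γ = ((Fintype.card K : ℚ) - 1) * ((A3 Γ : ℚ) - (Fintype.card K : ℚ)) := by
  have hq : 1 ≤ Fintype.card K := Fintype.card_pos
  have h1 : ∀ c ∈ (univ : Finset (Fin 6 → K)).filter (fun c => c ≠ 0),
      ((if #(Γ ∩ Z2 c) = 10 then ((Fintype.card K : ℚ) ^ 3 - (Fintype.card K : ℚ)) else 0) +
        (if #(Γ ∩ Z2 c) = 9 then ((Fintype.card K : ℚ) ^ 2 - (Fintype.card K : ℚ)) else 0)) =
      if 9 ≤ #(Γ ∩ Z2 c) then ((A3 Γ : ℚ) - (Fintype.card K : ℚ)) else 0 := by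
    intro c hc
    have hc0 : c ≠ 0 := (mem_filter.1 hc).2
    have hle : #(Γ ∩ Z2 c) ≤ 10 := h10 ▸ card_le_card inter_subset_left
    have hsum : #(Γ \ Z2 c) + #(Γ ∩ Z2 c) = #Γ := card_sdiff_add_card_inter _ _
    by_cases h9 : 9 ≤ #(Γ ∩ Z2 c)
    · rw [if_pos h9, card3, aD_three_CQ h hc0 h9]
      have e1 := aD_eq 1 (Γ \ Z2 c) (by omega)
      by_cases ht : #(Γ ∩ Z2 c) = 10
      · have : aD 1 (Γ \ Z2 c) = 3 := by omega
        rw [if_pos ht, if_neg (by omega), this]
        push_cast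
        ring
      · have : aD 1 (Γ \ Z2 c) = 2 := by omega
        rw [if_neg ht, if_pos (by omega), this]
        push_cast
        ring
    · rw [if_neg h9, if_neg (by omega), if_neg (by omega), add_zero]
  rw [GG, Finset.sum_congr rfl h1, ← Finset.sum_filter, Finset.sum_const, Finset.filter_filter,
    card_conics_CQ h10 h hQ, nsmul_eq_mul, Nat.cast_sub hq, Nat.cast_one]

theorem GG_not {Γ : Finset (K × K)} (hQ : ¬ CQ Γ) : GG Γ = 0 := by
  rw [GG]
  refine Finset.sum_eq_zero fun c hc => ?_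
  have hc0 : c ≠ 0 := (mem_filter.1 hc).2
  have h9 : ¬ 9 ≤ #(Γ ∩ Z2 c) := fun h9 => hQ ⟨c, hc0, h9⟩
  rw [if_neg (by omega), if_neg (by omega), add_zero]

/-- summing the weights over all ten point sets -/
theorem sum_GG :
    ∑ Γ ∈ powersetCard 10 (univ : Finset (K × K)), GG Γ =
      ∑ c ∈ (univ : Finset (Fin 6 → K)).filter (fun c => c ≠ 0),
        (((Fintype.card K : ℚ) ^ 3 - (Fintype.card K : ℚ)) * ((#(Z2 c)).choose 10 : ℚ) +
          ((Fintype.card K : ℚ) ^ 2 - (Fintype.card K : ℚ)) * (((#(Z2 c)).choose 9 : ℚ) * ((Fintype.card K : ℚ) ^ 2 - #(Z2 c)))) := by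
  simp only [GG]
  rw [Finset.sum_comm]
  refine Finset.sum_congr rfl fun c _ => ?_
  refine (sum_split (Z2 c) 10 (fun A _ => ((if #A = 10 then ((Fintype.card K : ℚ) ^ 3 - (Fintype.card K : ℚ)) else 0) +
        (if #A = 9 then ((Fintype.card K : ℚ) ^ 2 - (Fintype.card K : ℚ)) else 0)))).trans ?_
  have h3 : ∀ k ∈ range (10 + 1), ∑ A ∈ powersetCard (10 - k) (Z2 c),
      ∑ _B ∈ powersetCard k (Z2 c)ᶜ, ((if #A = 10 then ((Fintype.card K : ℚ) ^ 3 - (Fintype.card K : ℚ)) else 0) +
        (if #A = 9 then ((Fintype.card K : ℚ) ^ 2 - (Fintype.card K : ℚ)) else 0)) =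
      ((#(Z2 c)).choose (10 - k) : ℚ) * ((#(Z2 c)ᶜ).choose k : ℚ) *
       ((if k = 0 then ((Fintype.card K : ℚ) ^ 3 - (Fintype.card K : ℚ)) else 0) + (if k = 1 then ((Fintype.card K : ℚ) ^ 2 - (Fintype.card K : ℚ)) else 0)) := by
    intro k hk
    rw [mem_range] at hk
    have h4 : ∀ A ∈ powersetCard (10 - k) (Z2 c),
        ∑ _B ∈ powersetCard k (Z2 c)ᶜ, ((if #A = 10 then ((Fintype.card K : ℚ) ^ 3 - (Fintype.card K : ℚ)) else 0) +
        (if #A = 9 then ((Fintype.card K : ℚ) ^ 2 - (Fintype.card K : ℚ)) else 0)) =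
        ((#(Z2 c)ᶜ).choose k : ℚ) *
       ((if k = 0 then ((Fintype.card K : ℚ) ^ 3 - (Fintype.card K : ℚ)) else 0) + (if k = 1 then ((Fintype.card K : ℚ) ^ 2 - (Fintype.card K : ℚ)) else 0)) := by
      intro A hA
      have hA' : #A = 10 - k := (mem_powersetCard.1 hA).2
      rw [Finset.sum_const, card_powersetCard, nsmul_eq_mul, hA']
      congr 2
      · by_cases hk0 : k = 0
        · rw [if_pos hk0, if_pos (by omega)]
        · rw [if_neg hk0, if_neg (by omega)]
      · by_cases hk0 : k = 1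
        · rw [if_pos hk0, if_pos (by omega)]
        · rw [if_neg hk0, if_neg (by omega)]
    rw [Finset.sum_congr rfl h4, Finset.sum_const, card_powersetCard, nsmul_eq_mul, mul_assoc]
  rw [Finset.sum_congr rfl h3]
  have hcompl : ((#(Z2 c)ᶜ : ℕ) : ℚ) = (Fintype.card K : ℚ) ^ 2 - #(Z2 c) := by
    rw [card_compl, Nat.cast_sub (card_le_univ _), Fintype.card_prod]
    push_cast
    ring
  simp only [Finset.sum_range_succ, Finset.sum_range_zero, Nat.reduceEqDiff, if_true, if_false,
    Nat.sub_zero, Nat.choose_zero_right, Nat.choose_one_right, hcompl]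
  norm_num
  ring

/-- the number of conics through `Γ` resp. missing exactly one point of `Γ` -/
theorem GG_eq {Γ : Finset (K × K)} (h10 : #Γ = 10) :
    GG Γ = ((Fintype.card K : ℚ) ^ 3 - (Fintype.card K : ℚ)) * ((Fintype.card K : ℚ) ^ aD 2 Γ - 1) +
      ((Fintype.card K : ℚ) ^ 2 - (Fintype.card K : ℚ)) * ∑ P ∈ Γ, ((Fintype.card K : ℚ) ^ aD 2 (Γ.erase P) - (Fintype.card K : ℚ) ^ aD 2 Γ) := by
  rw [GG, Finset.sum_add_distrib]
  have hall : ∀ Γ' : Finset (K × K), ∀ c : Fin 6 → K, (∀ P ∈ Γ', ev2 c P = 0) ↔ Γ' ⊆ Z2 c := by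
    intro Γ' c
    constructor
    · intro h P hP
      exact mem_Z2.2 (h P hP)
    · intro h P hP
      exact mem_Z2.1 (h hP)
  have h1 : ∀ Γ' : Finset (K × K), ((Fintype.card K : ℚ) ^ aD 2 Γ' : ℚ) =
      ∑ c : Fin 6 → K, if Γ' ⊆ Z2 c then (1 : ℚ) else 0 := by
    intro Γ'
    rw [← Finset.sum_filter, Finset.sum_const, nsmul_eq_mul, mul_one]
    have := card2 Γ'
    simp only [hall] at this
    rw [this]
    push_cast
    rfl
  have hsub : ∀ c : Fin 6 → K, #(Γ ∩ Z2 c) = 10 ↔ Γ ⊆ Z2 c := by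
    intro c
    rw [← h10]
    constructor
    · intro h
      have := Finset.eq_of_subset_of_card_le (inter_subset_left : Γ ∩ Z2 c ⊆ Γ) (by omega)
      rw [← this]
      exact inter_subset_right
    · intro h
      rw [inter_eq_left.2 h]
  have hz : Γ ⊆ Z2 (0 : Fin 6 → K) := by
    intro P _
    rw [mem_Z2]
    simp [ev2]
  congr 1
  · rw [← Finset.sum_filter, Finset.sum_const, nsmul_eq_mul, mul_comm]
    congr 1
    rw [h1 Γ, ← Finset.sum_filter, Finset.sum_const, nsmul_eq_mul, mul_one, Finset.filter_filter]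
    simp only [hsub]
    have : (univ : Finset (Fin 6 → K)).filter (fun c => Γ ⊆ Z2 c) =
        insert 0 (univ.filter fun c => c ≠ 0 ∧ Γ ⊆ Z2 c) := by
      ext c
      simp only [mem_filter, mem_univ, true_and, mem_insert]
      constructor
      · intro h
        by_cases h0 : c = 0
        · exact Or.inl h0
        · exact Or.inr ⟨h0, h⟩
      · rintro (rfl | h)
        · exact hz
        · exact h.2
    rw [this, card_insert_of_notMem (by simp)]
    push_cast
    ring
  · rw [← Finset.sum_filter, Finset.sum_const, nsmul_eq_mul, mul_comm]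
    congr 1
    simp only [h1]
    simp_rw [← Finset.sum_sub_distrib]
    rw [Finset.sum_comm, Finset.filter_filter, Finset.card_filter]
    push_cast
    refine Finset.sum_congr rfl fun c _ => ?_
    by_cases hc : Γ ⊆ Z2 c
    · have h2 : ∀ P ∈ Γ, ((if Γ.erase P ⊆ Z2 c then (1 : ℚ) else 0) -
          (if Γ ⊆ Z2 c then 1 else 0)) = 0 := by
        intro P _
        rw [if_pos hc, if_pos ((erase_subset _ _).trans hc), sub_self]
      rw [Finset.sum_congr rfl h2, Finset.sum_const_zero]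
      rw [if_neg]
      rintro ⟨_, h9⟩
      rw [(hsub c).2 hc] at h9
      omega
    · have h2 : ∀ P ∈ Γ, ((if Γ.erase P ⊆ Z2 c then (1 : ℚ) else 0) -
          (if Γ ⊆ Z2 c then 1 else 0)) = if Γ.erase P ⊆ Z2 c then (1 : ℚ) else 0 := by
        intro P _
        rw [if_neg hc, sub_zero]
      rw [Finset.sum_congr rfl h2]
      have hc0 : c ≠ 0 := by
        rintro rfl
        exact hc hz
      have hlt : #(Γ ∩ Z2 c) ≠ 10 := fun h => hc ((hsub c).1 h)
      by_cases h9 : #(Γ ∩ Z2 c) = 9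
      · rw [if_pos ⟨hc0, h9⟩]
        have h3 : #(Γ \ Z2 c) + #(Γ ∩ Z2 c) = #Γ := card_sdiff_add_card_inter _ _
        have h4 : #(Γ \ Z2 c) = 1 := by omega
        obtain ⟨Q, hQ⟩ := card_eq_one.1 h4
        have hQm : Q ∈ Γ \ Z2 c := hQ ▸ mem_singleton_self _
        rw [Finset.sum_eq_single Q]
        · rw [if_pos]
          intro P hP
          by_contra hcon
          have : P ∈ Γ \ Z2 c := mem_sdiff.2 ⟨mem_of_mem_erase hP, hcon⟩
          rw [hQ, mem_singleton] at this
          exact (ne_of_mem_erase hP) this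
        · intro P hP hPQ
          rw [if_neg]
          intro hsubs
          exact (mem_sdiff.1 hQm).2 (hsubs (mem_erase.2 ⟨hPQ.symm, (mem_sdiff.1 hQm).1⟩))
        · intro h
          exact absurd (mem_sdiff.1 hQm).1 h
      · rw [if_neg (fun h => h9 h.2)]
        symm
        refine Finset.sum_eq_zero fun P hP => ?_
        rw [if_neg]
        intro hsubs
        have h5 : Γ.erase P ⊆ Γ ∩ Z2 c := subset_inter (erase_subset _ _) hsubs
        have h6 := card_le_card h5
        rw [card_erase_of_mem hP, h10] at h6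
        have h7 : #(Γ ∩ Z2 c) ≤ #Γ := card_le_card inter_subset_left
        omega

end Pool.Agent.E07280
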