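/-
The excess: closed formula in terms of the numbers of points of plane conics.
-/
import Pool.Agent.E07280.P5d

open Finset MvPolynomial

set_option linter.unusedSectionVars false

namespace Pool.Agent.E07280

variable {K : Type} [Field K] [Fintype K] [DecidableEq K]


/-- reduced weight -/
noncomputable def GF (Δ : Finset (K × K)) : ℚ :=
  ((Fintype.card K : ℚ) ^ 3 - (Fintype.card K : ℚ)) * ((Fintype.card K : ℚ) ^ aD 1 Δ - 1) + ((Fintype.card K : ℚ) ^ 2 - (Fintype.card K : ℚ)) * ∑ P ∈ Δ, ((Fintype.card K : ℚ) ^ aD 1 (Δ.erase P) - (Fintype.card K : ℚ) ^ aD 1 Δ)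

theorem GG_CL {Γ : Finset (K × K)} (h10 : #Γ = 10) {l : Fin 3 → K} (hl : l ∈ LL K)
    (h6 : 6 ≤ #(Γ ∩ Z1 l)) : GG Γ = GF (Γ \ Z1 l) := by
  rw [GG_eq h10, GF, aD_two_CL hl (by omega)]
  congr 2
  rw [← Finset.sum_inter_add_sum_sdiff Γ (Z1 l)]
  have h5 : ∀ P ∈ Γ, 5 ≤ #(Γ.erase P ∩ Z1 l) := by
    intro P _
    have : (Γ ∩ Z1 l).erase P ⊆ Γ.erase P ∩ Z1 l := by
      intro x hx
      rw [mem_erase, mem_inter] at hx
      rw [mem_inter, mem_erase]
      exact ⟨⟨hx.1, hx.2.1⟩, hx.2.2⟩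
    have h1 := card_le_card this
    have h2 := pred_card_le_card_erase (s := Γ ∩ Z1 l) (a := P)
    omega
  have h1 : ∀ P ∈ Γ ∩ Z1 l, ((Fintype.card K : ℚ) ^ aD 2 (Γ.erase P) - (Fintype.card K : ℚ) ^ aD 1 (Γ \ Z1 l)) = 0 := by
    intro P hP
    rw [mem_inter] at hP
    rw [aD_two_CL hl (by have := h5 P hP.1; omega)]
    have : Γ.erase P \ Z1 l = Γ \ Z1 l := by
      ext x
      simp only [mem_sdiff, mem_erase]
      constructor
      · rintro ⟨⟨_, h⟩, h'⟩
        exact ⟨h, h'⟩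
      · rintro ⟨h, h'⟩
        exact ⟨⟨fun h0 => h' (h0 ▸ hP.2), h⟩, h'⟩
    rw [this, sub_self]
  rw [Finset.sum_congr rfl h1, Finset.sum_const_zero, zero_add]
  refine Finset.sum_congr rfl fun P hP => ?_
  rw [mem_sdiff] at hP
  rw [aD_two_CL hl (by have := h5 P hP.1; omega)]
  have : Γ.erase P \ Z1 l = (Γ \ Z1 l).erase P := by
    ext x
    simp only [mem_sdiff, mem_erase]
    tauto
  rw [this]

/-- the excess over a general finite field -/
def ExcK (K : Type) [Field K] [Fintype K] [DecidableEq K] : ℚ :=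
  ∑ Γ ∈ (powersetCard 10 (univ : Finset (K × K))).filter (fun Γ => Fintype.card K < A3 Γ),
    ((A3 Γ : ℚ) - Fintype.card K)

/-- sum over all conics -/
def MM (K : Type) [Field K] [Fintype K] [DecidableEq K] : ℚ :=
  ∑ c ∈ (univ : Finset (Fin 6 → K)).filter (fun c => c ≠ 0),
        (((Fintype.card K : ℚ) ^ 3 - Fintype.card K) * ((#(Z2 c)).choose 10 : ℚ) +
          ((Fintype.card K : ℚ) ^ 2 - Fintype.card K) *
            (((#(Z2 c)).choose 9 : ℚ) * ((Fintype.card K : ℚ) ^ 2 - #(Z2 c))))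

theorem ExcK_eq : ((Fintype.card K : ℚ) - 1) * ExcK K = MM K +
    ∑ l ∈ LL K, ∑ k ∈ range 5, ((Fintype.card K).choose (10 - k) : ℚ) *
      ∑ B ∈ powersetCard k (Z1 l)ᶜ, (((Fintype.card K : ℚ) ^ aD 2 B - (Fintype.card K : ℚ)) - GF B / ((Fintype.card K : ℚ) - 1)) := by
  classical
  have hq1 : 1 < Fintype.card K := Fintype.one_lt_card
  have hq0 : ((Fintype.card K : ℚ) - 1) ≠ 0 := by
    have : (1 : ℚ) < (Fintype.card K : ℚ) := by exact_mod_cast hq1
    linarith
  have hclass : ∀ Γ ∈ powersetCard 10 (univ : Finset (K × K)),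
      (Fintype.card K < A3 Γ ↔ CL Γ ∨ CQ Γ) := by
    intro Γ hΓ
    have h10 : #Γ = 10 := (mem_powersetCard.1 hΓ).2
    rw [← two_le_aD_iff h10, card3]
    constructor
    · intro h
      by_contra hcon
      have : Fintype.card K ^ aD 3 Γ ≤ Fintype.card K ^ 1 :=
        Nat.pow_le_pow_right (by omega) (by omega)
      rw [pow_one] at this
      omega
    · intro h
      calc Fintype.card K = Fintype.card K ^ 1 := (pow_one _).symm
        _ < Fintype.card K ^ aD 3 Γ := Nat.pow_lt_pow_right hq1 (by omega)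
  have e1 : ExcK K = ∑ Γ ∈ (powersetCard 10 (univ : Finset (K × K))).filter CL,
      ((A3 Γ : ℚ) - (Fintype.card K : ℚ)) + ∑ Γ ∈ (powersetCard 10 (univ : Finset (K × K))).filter
        (fun Γ => ¬ CL Γ ∧ CQ Γ), ((A3 Γ : ℚ) - (Fintype.card K : ℚ)) := by
    rw [ExcK, ← Finset.sum_union]
    · refine Finset.sum_congr ?_ fun _ _ => rfl
      ext Γ
      simp only [mem_filter, mem_union]
      constructor
      · rintro ⟨h1, h2⟩
        rw [hclass Γ h1] at h2
        by_cases hL : CL Γ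
        · exact Or.inl ⟨h1, hL⟩
        · exact Or.inr ⟨h1, hL, h2.resolve_left hL⟩
      · rintro (⟨h1, h2⟩ | ⟨h1, h2, h3⟩)
        · exact ⟨h1, (hclass Γ h1).2 (Or.inl h2)⟩
        · exact ⟨h1, (hclass Γ h1).2 (Or.inr h3)⟩
    · rw [Finset.disjoint_left]
      intro Γ h1 h2
      exact (mem_filter.1 h2).2.1 (mem_filter.1 h1).2
  have e2 : ((Fintype.card K : ℚ) - 1) * ∑ Γ ∈ (powersetCard 10 (univ : Finset (K × K))).filter
        (fun Γ => ¬ CL Γ ∧ CQ Γ), ((A3 Γ : ℚ) - (Fintype.card K : ℚ)) = MM K -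
        ∑ Γ ∈ (powersetCard 10 (univ : Finset (K × K))).filter CL, GG Γ := by
    have h1 : MM K = ∑ Γ ∈ powersetCard 10 (univ : Finset (K × K)), GG Γ := sum_GG.symm
    rw [h1, ← Finset.sum_filter_add_sum_filter_not (powersetCard 10 (univ : Finset (K × K))) CL,
      add_sub_cancel_left, Finset.mul_sum, ← Finset.filter_filter, Finset.sum_filter]
    refine Finset.sum_congr rfl fun Γ hΓ => ?_
    rw [mem_filter] at hΓ
    have h10 : #Γ = 10 := (mem_powersetCard.1 hΓ.1).2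
    split_ifs with h
    · exact (GG_CQ h10 hΓ.2 h).symm
    · exact (GG_not h).symm
  have e3 := sum_CL (K := K) (fun Γ => ((A3 Γ : ℚ) - (Fintype.card K : ℚ)) - GG Γ / ((Fintype.card K : ℚ) - 1))
    (fun B => ((Fintype.card K : ℚ) ^ aD 2 B - (Fintype.card K : ℚ)) - GF B / ((Fintype.card K : ℚ) - 1)) (by
      intro Γ h10 l hl h6
      rw [GG_CL h10 hl h6, card3, aD_three_CL hl (by omega)]
      push_cast
      rfl)
  have e4 : ∑ Γ ∈ (powersetCard 10 (univ : Finset (K × K))).filter CL,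
      (((A3 Γ : ℚ) - (Fintype.card K : ℚ)) - GG Γ / ((Fintype.card K : ℚ) - 1)) =
      ∑ Γ ∈ (powersetCard 10 (univ : Finset (K × K))).filter CL, ((A3 Γ : ℚ) - (Fintype.card K : ℚ)) -
      (∑ Γ ∈ (powersetCard 10 (univ : Finset (K × K))).filter CL, GG Γ) / ((Fintype.card K : ℚ) - 1) := by
    rw [Finset.sum_sub_distrib, Finset.sum_div]
  rw [← e3, e1, mul_add, e2, e4, mul_sub, mul_div_cancel₀ _ hq0]
  ring

/-! ### Lines relative to a fixed line -/

theorem sum_aD1 (Y : Finset (K × K)) (k : ℕ) :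
    ∑ B ∈ powersetCard k Y, ((Fintype.card K : ℚ) ^ aD 1 B : ℚ) =
      ∑ l : Fin 3 → K, ((#(Y ∩ Z1 l)).choose k : ℚ) := by
  have h1 : ∀ B : Finset (K × K), ((Fintype.card K : ℚ) ^ aD 1 B : ℚ) =
      ∑ l : Fin 3 → K, if B ⊆ Z1 l then (1 : ℚ) else 0 := by
    intro B
    rw [← Finset.sum_filter, Finset.sum_const, nsmul_eq_mul, mul_one]
    have := card1 B
    have h2 : ∀ l : Fin 3 → K, (∀ P ∈ B, ev1 l P = 0) ↔ B ⊆ Z1 l := by
      intro l
      constructor
      · intro h P hP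
        exact mem_Z1.2 (h P hP)
      · intro h P hP
        exact mem_Z1.1 (h hP)
    simp only [h2] at this
    rw [this]
    push_cast
    rfl
  simp only [h1]
  rw [Finset.sum_comm]
  refine Finset.sum_congr rfl fun l _ => ?_
  rw [← Finset.sum_filter, Finset.sum_const, nsmul_eq_mul, mul_one, card_sub]

theorem Z1_const {l : Fin 3 → K} (hl : l ∉ LL K) : Z1 l = if l = 0 then univ else ∅ := by
  rw [mem_LL] at hl
  push Not at hl
  split_ifs with h
  · ext P
    simp [mem_Z1, ev1, h]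
  · ext P
    simp only [mem_Z1, ev1, hl.1, hl.2, zero_mul, add_zero, notMem_empty, iff_false]
    intro h0
    apply h
    ext i
    fin_cases i
    · exact h0
    · exact hl.1
    · exact hl.2

theorem card_compl_LL : #(LL K)ᶜ = Fintype.card K := by
  rw [← Finset.card_univ]
  symm
  refine Finset.card_bij (fun a _ => ![a, 0, 0]) ?_ ?_ ?_
  · intro a _
    rw [mem_compl, mem_LL]
    simp
  · intro a _ b _ h
    exact congrFun h 0
  · intro l hl
    rw [mem_compl, mem_LL] at hl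
    push Not at hl
    refine ⟨l 0, mem_univ _, ?_⟩
    ext i
    fin_cases i
    · rfl
    · exact hl.1.symm
    · exact hl.2.symm

theorem card_LL : (#(LL K) : ℚ) = (Fintype.card K : ℚ) ^ 3 - (Fintype.card K : ℚ) := by
  have h1 := card_compl_add_card (LL K)
  rw [card_compl_LL, Fintype.card_fun, Fintype.card_fin] at h1
  have h2 : (Fintype.card K : ℚ) + #(LL K) = (Fintype.card K : ℚ) ^ 3 := by exact_mod_cast h1
  linarith

theorem zero_notMem_LL : (0 : Fin 3 → K) ∉ LL K := by simp [mem_LL]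

/-- lines through a point -/
theorem card_lines_point (P : K × K) :
    (#((LL K).filter fun l => ev1 l P = 0) : ℚ) = (Fintype.card K : ℚ) ^ 2 - 1 := by
  have h1 := card1 {P}
  have h2 := aD_eq 1 {P} (by simp)
  rw [card_singleton] at h2
  have h3 : aD 1 {P} = 2 := by omega
  rw [h3] at h1
  have h4 : (univ : Finset (Fin 3 → K)).filter (fun l => ∀ Q ∈ ({P} : Finset (K × K)), ev1 l Q = 0) =
      insert 0 ((LL K).filter fun l => ev1 l P = 0) := by
    ext l
    simp only [mem_filter, mem_univ, true_and, mem_insert, mem_singleton, forall_eq]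
    constructor
    · intro h
      by_cases hl : l ∈ LL K
      · exact Or.inr ⟨hl, h⟩
      · left
        by_contra hcon
        have h5 := Z1_const hl
        rw [if_neg hcon] at h5
        have : P ∈ Z1 l := mem_Z1.2 h
        rw [h5] at this
        exact notMem_empty _ this
    · rintro (rfl | h)
      · simp [ev1]
      · exact h.2
  rw [h4, card_insert_of_notMem (by simp [mem_LL])] at h1
  have h5 : (#((LL K).filter fun l => ev1 l P = 0) : ℚ) + 1 = (Fintype.card K : ℚ) ^ 2 := by exact_mod_cast h1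
  linarith

/-- numbers of pairs -/
theorem sum_inter (l : Fin 3 → K) (hl : l ∈ LL K) :
    ∑ l' ∈ LL K, (#(Z1 l' ∩ Z1 l) : ℚ) = (Fintype.card K : ℚ) * ((Fintype.card K : ℚ) ^ 2 - 1) := by
  have h1 : ∀ l' ∈ LL K, (#(Z1 l' ∩ Z1 l) : ℚ) =
      ∑ P ∈ Z1 l, if ev1 l' P = 0 then (1 : ℚ) else 0 := by
    intro l' _
    rw [← Finset.sum_filter, Finset.sum_const, nsmul_eq_mul, mul_one]
    congr 2
    ext P
    simp only [mem_inter, mem_Z1, mem_filter]
    tauto
  rw [Finset.sum_congr rfl h1, Finset.sum_comm]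
  have h2 : ∀ P ∈ Z1 l, ∑ l' ∈ LL K, (if ev1 l' P = 0 then (1 : ℚ) else 0) = (Fintype.card K : ℚ) ^ 2 - 1 := by
    intro P _
    rw [← Finset.sum_filter, Finset.sum_const, nsmul_eq_mul, mul_one, card_lines_point]
  rw [Finset.sum_congr rfl h2, Finset.sum_const, card_Z1 hl, nsmul_eq_mul]

/-- the explicit value of the line sum -/
def TTexc (n k : ℕ) : ℚ :=
  ((n ^ 2 - n).choose k : ℚ) + 2 * ((n : ℚ) - 1) * ((0 : ℕ).choose k : ℚ) +
    ((n : ℚ) - 1) ^ 2 * (n.choose k : ℚ) + ((n : ℚ) ^ 3 - (n : ℚ) ^ 2) * ((n - 1).choose k : ℚ)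

theorem card_compl_Z1 {l : Fin 3 → K} (hl : l ∈ LL K) :
    #(Z1 l)ᶜ = Fintype.card K ^ 2 - Fintype.card K := by
  rw [card_compl, card_Z1 hl, Fintype.card_prod, sq]

theorem sum_TT {l : Fin 3 → K} (hl : l ∈ LL K) (k : ℕ) :
    ∑ l' : Fin 3 → K, ((#((Z1 l)ᶜ ∩ Z1 l')).choose k : ℚ) = TTexc (Fintype.card K) k := by
  have hq1 : 1 ≤ Fintype.card K := Fintype.card_pos
  rw [← Finset.sum_add_sum_compl (LL K)]
  -- constants
  have hc : ∑ l' ∈ (LL K)ᶜ, ((#((Z1 l)ᶜ ∩ Z1 l')).choose k : ℚ) =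
      ((Fintype.card K ^ 2 - Fintype.card K).choose k : ℚ) +
        ((Fintype.card K : ℚ) - 1) * ((0 : ℕ).choose k : ℚ) := by
    have h0 : (0 : Fin 3 → K) ∈ (LL K)ᶜ := mem_compl.2 zero_notMem_LL
    rw [← Finset.add_sum_erase _ _ h0]
    congr 1
    · have := Z1_const (zero_notMem_LL (K := K))
      rw [if_pos rfl] at this
      rw [this, inter_univ, card_compl_Z1 hl]
    · have h1 : ∀ l' ∈ (LL K)ᶜ.erase 0, ((#((Z1 l)ᶜ ∩ Z1 l')).choose k : ℚ) =
          ((0 : ℕ).choose k : ℚ) := by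
        intro l' hl'
        rw [mem_erase, mem_compl] at hl'
        have := Z1_const hl'.2
        rw [if_neg hl'.1] at this
        rw [this, inter_empty, card_empty]
      rw [Finset.sum_congr rfl h1, Finset.sum_const, card_erase_of_mem h0, card_compl_LL,
        nsmul_eq_mul, Nat.cast_sub hq1, Nat.cast_one]
  -- multiples of `l`
  set S := (univ.filter fun c : K => c ≠ 0).image fun c => c • l with hS
  have hSsub : S ⊆ LL K := by
    intro l' hl'
    obtain ⟨c, hc, rfl⟩ := mem_image.1 hl'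
    exact smul_mem_LL hl (mem_filter.1 hc).2
  have hScard : #S = Fintype.card K - 1 := card_multiples l (LL_ne_zero hl)
  have hScard' : (#S : ℚ) = (Fintype.card K : ℚ) - 1 := by rw [hScard, Nat.cast_sub hq1, Nat.cast_one]
  have hSmem : ∀ l' ∈ S, Z1 l' = Z1 l := by
    intro l' hl'
    obtain ⟨c, hc, rfl⟩ := mem_image.1 hl'
    exact Z1_smul l (mem_filter.1 hc).2
  have hm : ∑ l' ∈ S, ((#((Z1 l)ᶜ ∩ Z1 l')).choose k : ℚ) = ((Fintype.card K : ℚ) - 1) * ((0 : ℕ).choose k : ℚ) := by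
    have h1 : ∀ l' ∈ S, ((#((Z1 l)ᶜ ∩ Z1 l')).choose k : ℚ) = ((0 : ℕ).choose k : ℚ) := by
      intro l' hl'
      rw [hSmem l' hl', inter_comm, inter_compl, card_empty]
    rw [Finset.sum_congr rfl h1, Finset.sum_const, nsmul_eq_mul, hScard']
  -- the others
  have hi : ∀ l' ∈ LL K \ S, #(Z1 l' ∩ Z1 l) ≤ 1 := by
    intro l' hl'
    rw [mem_sdiff] at hl'
    by_contra hcon
    obtain ⟨c, hc, rfl⟩ := line_unique hl hl'.1 (by rw [inter_comm]; omega)
    exact hl'.2 (mem_image.2 ⟨c, mem_filter.2 ⟨mem_univ _, hc⟩, rfl⟩)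
  have ho : ∀ l' ∈ LL K \ S, ((#((Z1 l)ᶜ ∩ Z1 l')).choose k : ℚ) =
      ((Fintype.card K).choose k : ℚ) - (#(Z1 l' ∩ Z1 l) : ℚ) *
        (((Fintype.card K).choose k : ℚ) - ((Fintype.card K - 1).choose k : ℚ)) := by
    intro l' hl'
    have h1 := hi l' hl'
    have h2 : #((Z1 l)ᶜ ∩ Z1 l') + #(Z1 l' ∩ Z1 l) = Fintype.card K := by
      rw [← card_Z1 (mem_sdiff.1 hl').1, ← card_sdiff_add_card_inter (Z1 l') (Z1 l)]
      congr 2
      ext P
      simp only [mem_inter, mem_compl, mem_sdiff]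
      tauto
    rcases Nat.le_one_iff_eq_zero_or_eq_one.1 h1 with h0 | h0
    · rw [h0] at h2 ⊢
      rw [show #((Z1 l)ᶜ ∩ Z1 l') = Fintype.card K by omega]
      simp
    · rw [h0] at h2 ⊢
      rw [show #((Z1 l)ᶜ ∩ Z1 l') = Fintype.card K - 1 by omega]
      simp
  have hsd : (#(LL K \ S) : ℚ) = (Fintype.card K : ℚ) ^ 3 - (Fintype.card K : ℚ) - ((Fintype.card K : ℚ) - 1) := by
    rw [card_sdiff_of_subset hSsub, Nat.cast_sub (card_le_card hSsub), card_LL, hScard']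
  have hsi : ∑ l' ∈ LL K \ S, (#(Z1 l' ∩ Z1 l) : ℚ) = (Fintype.card K : ℚ) * ((Fintype.card K : ℚ) ^ 2 - 1) - ((Fintype.card K : ℚ) - 1) * (Fintype.card K : ℚ) := by
    have h1 := Finset.sum_sdiff (f := fun l' => (#(Z1 l' ∩ Z1 l) : ℚ)) hSsub
    rw [sum_inter l hl] at h1
    have h2 : ∑ l' ∈ S, (#(Z1 l' ∩ Z1 l) : ℚ) = ((Fintype.card K : ℚ) - 1) * (Fintype.card K : ℚ) := by
      have h3 : ∀ l' ∈ S, (#(Z1 l' ∩ Z1 l) : ℚ) = (Fintype.card K : ℚ) := by
        intro l' hl'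
        rw [hSmem l' hl', inter_self, card_Z1 hl]
      rw [Finset.sum_congr rfl h3, Finset.sum_const, nsmul_eq_mul, hScard']
    rw [h2] at h1
    linarith
  have hoo : ∑ l' ∈ LL K \ S, ((#((Z1 l)ᶜ ∩ Z1 l')).choose k : ℚ) =
      ((Fintype.card K : ℚ) - 1) ^ 2 * ((Fintype.card K).choose k : ℚ) +
        ((Fintype.card K : ℚ) ^ 3 - (Fintype.card K : ℚ) ^ 2) * ((Fintype.card K - 1).choose k : ℚ) := by
    rw [Finset.sum_congr rfl ho, Finset.sum_sub_distrib, Finset.sum_const, nsmul_eq_mul, hsd,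
      ← Finset.sum_mul, hsi]
    ring
  rw [hc, ← Finset.sum_sdiff hSsub, hm, hoo, TTexc]
  ring

/-- sum of the derivative term -/
def EE (n k : ℕ) : ℚ := match k with
  | 0 => 0
  | k + 1 => ((n ^ 2 - n - k : ℕ) : ℚ) * TTexc n k

/-- first part of the weight -/
def FFexc (n k : ℕ) : ℚ :=
  if k = 4 then (n : ℚ) ^ 2 * TTexc n 4 - n * ((n ^ 2 - n).choose 4 : ℚ)
  else ((n ^ 2 - n).choose k : ℚ) * ((n : ℚ) ^ (6 - k) - n)

/-- explicit value of the weight -/
def WWexc (n k : ℕ) : ℚ :=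
  FFexc n k - (((n : ℚ) ^ 3 - n) * (TTexc n k - ((n ^ 2 - n).choose k : ℚ)) +
    ((n : ℚ) ^ 2 - n) * (EE n k - k * TTexc n k)) / ((n : ℚ) - 1)

theorem sum_WW (hq3 : 3 ≤ Fintype.card K) {l : Fin 3 → K} (hl : l ∈ LL K) {k : ℕ} (hk : k < 5) :
    ∑ B ∈ powersetCard k (Z1 l)ᶜ, (((Fintype.card K : ℚ) ^ aD 2 B - (Fintype.card K : ℚ)) - GF B / ((Fintype.card K : ℚ) - 1)) =
      WWexc (Fintype.card K) k := by
  have hcard := card_compl_Z1 hl
  rw [Finset.sum_sub_distrib, ← Finset.sum_div, WWexc]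
  have hT : ∑ B ∈ powersetCard k (Z1 l)ᶜ, ((Fintype.card K : ℚ) ^ aD 1 B : ℚ) = TTexc (Fintype.card K) k := by
    rw [sum_aD1, sum_TT hl]
  congr 1
  · rw [FFexc]
    split_ifs with h4
    · subst h4
      have h1 : ∀ B ∈ powersetCard 4 (Z1 l)ᶜ, ((Fintype.card K : ℚ) ^ aD 2 B - (Fintype.card K : ℚ) : ℚ) = (Fintype.card K : ℚ) ^ 2 * (Fintype.card K : ℚ) ^ aD 1 B - (Fintype.card K : ℚ) := by
        intro B hB
        have hB4 : #B = 4 := (mem_powersetCard.1 hB).2
        obtain ⟨P, hP⟩ : ∃ P, P ∉ B := by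
          by_contra hcon
          push Not at hcon
          have : B = univ := by
            ext P
            simp [hcon P]
          rw [this, Finset.card_univ, Fintype.card_prod] at hB4
          nlinarith
        rw [aD_four B hB4 P hP, pow_add]
      rw [Finset.sum_congr rfl h1, Finset.sum_sub_distrib, ← Finset.mul_sum, hT, Finset.sum_const,
        card_powersetCard, hcard, nsmul_eq_mul]
      ring
    · have h1 : ∀ B ∈ powersetCard k (Z1 l)ᶜ, ((Fintype.card K : ℚ) ^ aD 2 B - (Fintype.card K : ℚ) : ℚ) = (Fintype.card K : ℚ) ^ (6 - k) - (Fintype.card K : ℚ) := by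
        intro B hB
        have hBk : #B = k := (mem_powersetCard.1 hB).2
        have := aD_eq 2 B (by omega)
        rw [show aD 2 B = 6 - k by omega]
      rw [Finset.sum_congr rfl h1, Finset.sum_const, card_powersetCard, hcard, nsmul_eq_mul]
  · congr 1
    simp only [GF]
    rw [Finset.sum_add_distrib, ← Finset.mul_sum, ← Finset.mul_sum]
    congr 2
    · rw [Finset.sum_sub_distrib, hT, Finset.sum_const, card_powersetCard, hcard, nsmul_eq_mul,
        mul_one]
    · simp_rw [Finset.sum_sub_distrib]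
      congr 1
      · cases k with
        | zero => simp [EE]
        | succ k =>
          have := sum_erase (Z1 l)ᶜ k (fun B => ((Fintype.card K : ℚ) ^ aD 1 B : ℚ))
          rw [this, hcard, sum_aD1, sum_TT hl, EE]
      · have h1 : ∀ B ∈ powersetCard k (Z1 l)ᶜ, ∑ _P ∈ B, ((Fintype.card K : ℚ) ^ aD 1 B : ℚ) = k * (Fintype.card K : ℚ) ^ aD 1 B := by
          intro B hB
          rw [Finset.sum_const, (mem_powersetCard.1 hB).2, nsmul_eq_mul]
        rw [Finset.sum_congr rfl h1, ← Finset.mul_sum, hT]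

/-- closed formula for the excess -/
theorem ExcK_closed (hq3 : 3 ≤ Fintype.card K) : ((Fintype.card K : ℚ) - 1) * ExcK K = MM K +
    ((Fintype.card K : ℚ) ^ 3 - (Fintype.card K : ℚ)) * ∑ k ∈ range 5, ((Fintype.card K).choose (10 - k) : ℚ) *
      WWexc (Fintype.card K) k := by
  rw [ExcK_eq]
  congr 1
  have h1 : ∀ l ∈ LL K, ∑ k ∈ range 5, ((Fintype.card K).choose (10 - k) : ℚ) *
      ∑ B ∈ powersetCard k (Z1 l)ᶜ, (((Fintype.card K : ℚ) ^ aD 2 B - (Fintype.card K : ℚ)) - GF B / ((Fintype.card K : ℚ) - 1)) =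
      ∑ k ∈ range 5, ((Fintype.card K).choose (10 - k) : ℚ) * WWexc (Fintype.card K) k := by
    intro l hl
    refine Finset.sum_congr rfl fun k hk => ?_
    rw [sum_WW hq3 hl (mem_range.1 hk)]
  rw [Finset.sum_congr rfl h1, Finset.sum_const, nsmul_eq_mul, card_LL]

end Pool.Agent.E07280
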