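/-
The distribution of the number of points of plane conics over a finite field of odd order.
-/
import Mathlib

open Finset

set_option linter.unusedSectionVars false

namespace Pool.Agent.E07280

variable {K : Type} [Field K] [Fintype K] [DecidableEq K]


section Basic

/-- number of square roots -/
def rt (a : K) : ℕ := #{z : K | z ^ 2 = a}

theorem sum_affine (u : K) {v : K} (hv : v ≠ 0) (f : K → ℚ) :
    ∑ x : K, f (u + v * x) = ∑ x : K, f x :=
  Fintype.sum_bijective (fun x => u + v * x)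
    ⟨fun a b h => by
      have : v * a = v * b := by linear_combination h
      exact mul_left_cancel₀ hv this,
    fun y => ⟨(y - u) / v, by field_simp; ring⟩⟩ _ _ fun _ => rfl

theorem rt_zero : rt (0 : K) = 1 := by
  rw [rt, card_eq_one]
  refine ⟨0, ?_⟩
  ext z
  simp

theorem rt_nonsq {a : K} (ha : ¬ IsSquare a) : rt a = 0 := by
  rw [rt, card_eq_zero, filter_eq_empty_iff]
  intro z _ hz
  exact ha ⟨z, by rw [← hz, sq]⟩

theorem rt_sq (h2 : (2 : K) ≠ 0) {b : K} (hb : b ≠ 0) : rt (b ^ 2) = 2 := by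
  rw [rt, card_eq_two]
  refine ⟨b, -b, ?_, ?_⟩
  · intro h
    apply hb
    have : (2 : K) * b = 0 := by linear_combination h
    exact (mul_eq_zero.1 this).resolve_left h2
  · ext z
    simp [sq_eq_sq_iff_eq_or_eq_neg]

theorem rt_isSquare (h2 : (2 : K) ≠ 0) {a : K} (ha0 : a ≠ 0) (ha : IsSquare a) : rt a = 2 := by
  obtain ⟨b, rfl⟩ := ha
  rw [← sq]
  exact rt_sq h2 fun h => ha0 (by rw [h, zero_mul])

/-- the nonzero squares -/
def SQ (K : Type) [Field K] [Fintype K] [DecidableEq K] : Finset K :=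
  univ.filter fun a => rt a = 2

/-- the nonsquares -/
def NS (K : Type) [Field K] [Fintype K] [DecidableEq K] : Finset K :=
  univ.filter fun a => rt a = 0

theorem mem_SQ (h2 : (2 : K) ≠ 0) {a : K} : a ∈ SQ K ↔ ∃ b, b ≠ 0 ∧ a = b ^ 2 := by
  simp only [SQ, mem_filter, mem_univ, true_and]
  constructor
  · intro h
    by_cases ha0 : a = 0
    · rw [ha0, rt_zero] at h
      omega
    by_cases ha : IsSquare a
    · obtain ⟨b, rfl⟩ := ha
      exact ⟨b, fun hb => ha0 (by rw [hb, zero_mul]), by rw [sq]⟩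
    · rw [rt_nonsq ha] at h
      omega
  · rintro ⟨b, hb, rfl⟩
    exact rt_sq h2 hb

theorem mem_NS (h2 : (2 : K) ≠ 0) {a : K} : a ∈ NS K ↔ ¬ IsSquare a := by
  simp only [NS, mem_filter, mem_univ, true_and]
  constructor
  · intro h ha
    by_cases ha0 : a = 0
    · rw [ha0, rt_zero] at h
      omega
    · rw [rt_isSquare h2 ha0 ha] at h
      omega
  · exact rt_nonsq

theorem sum_split3 (h2 : (2 : K) ≠ 0) (f : K → ℚ) :
    ∑ a : K, f a = f 0 + (∑ a ∈ SQ K, f a + ∑ a ∈ NS K, f a) := by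
  rw [← Finset.add_sum_erase univ f (mem_univ 0), ← Finset.sum_union]
  · congr 1
    refine Finset.sum_congr ?_ fun _ _ => rfl
    ext a
    rw [mem_union, mem_SQ h2, mem_NS h2, mem_erase]
    simp only [mem_univ, and_true]
    constructor
    · intro ha0
      by_cases ha : IsSquare a
      · obtain ⟨b, rfl⟩ := ha
        exact Or.inl ⟨b, fun hb => ha0 (by rw [hb, zero_mul]), by rw [sq]⟩
      · exact Or.inr ha
    · rintro (⟨b, hb, rfl⟩ | h)
      · exact pow_ne_zero 2 hb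
      · rintro rfl
        exact h ⟨0, by simp⟩
  · rw [Finset.disjoint_left]
    intro a ha hb
    rw [mem_SQ h2] at ha
    rw [mem_NS h2] at hb
    obtain ⟨b, _, rfl⟩ := ha
    exact hb ⟨b, by rw [sq]⟩

theorem sum_rt : ∑ a : K, (rt a : ℚ) = (Fintype.card K : ℚ) := by
  have : ∀ a : K, (rt a : ℚ) = ∑ z : K, if z ^ 2 = a then (1 : ℚ) else 0 := by
    intro a
    rw [← Finset.sum_filter, Finset.sum_const, nsmul_eq_mul, mul_one, rt]
  simp only [this]
  rw [Finset.sum_comm]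
  simp

theorem card_SQ (h2 : (2 : K) ≠ 0) : (#(SQ K) : ℚ) = ((Fintype.card K : ℚ) - 1) / 2 := by
  have h1 := sum_rt (K := K)
  rw [sum_split3 h2, rt_zero] at h1
  have e1 : ∑ a ∈ SQ K, (rt a : ℚ) = #(SQ K) * 2 := by
    rw [Finset.sum_congr rfl (g := fun _ => (2 : ℚ)), Finset.sum_const, nsmul_eq_mul]
    intro a ha
    rw [(mem_filter.1 ha).2]
    norm_num
  have e2 : ∑ a ∈ NS K, (rt a : ℚ) = 0 := by
    refine Finset.sum_eq_zero fun a ha => ?_
    rw [(mem_filter.1 ha).2]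
    norm_num
  rw [e1, e2] at h1
  push_cast at h1
  linarith

theorem card_NS (h2 : (2 : K) ≠ 0) : (#(NS K) : ℚ) = ((Fintype.card K : ℚ) - 1) / 2 := by
  have h1 := sum_split3 h2 (fun _ => (1 : ℚ))
  simp only [Finset.sum_const, nsmul_eq_mul, mul_one, Finset.card_univ] at h1
  rw [card_SQ h2] at h1
  linarith

/-- sum of a function of the number of square roots -/
theorem sum_fun_rt (h2 : (2 : K) ≠ 0) (φ : ℕ → ℚ) :
    ∑ a : K, φ (rt a) = φ 1 + ((Fintype.card K : ℚ) - 1) / 2 * (φ 2 + φ 0) := by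
  rw [sum_split3 h2, rt_zero]
  have e1 : ∑ a ∈ SQ K, φ (rt a) = ((Fintype.card K : ℚ) - 1) / 2 * φ 2 := by
    rw [Finset.sum_congr rfl (g := fun _ => φ 2), Finset.sum_const, nsmul_eq_mul, card_SQ h2]
    intro a ha
    rw [(mem_filter.1 ha).2]
  have e2 : ∑ a ∈ NS K, φ (rt a) = ((Fintype.card K : ℚ) - 1) / 2 * φ 0 := by
    rw [Finset.sum_congr rfl (g := fun _ => φ 0), Finset.sum_const, nsmul_eq_mul, card_NS h2]
    intro a ha
    rw [(mem_filter.1 ha).2]
  rw [e1, e2]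
  ring

end Basic

section SS

/-- number of points of `y² = D₀ + D₁ x + D₂ x²` -/
def SS (D0 D1 D2 : K) : ℕ := #{P : K × K | P.2 ^ 2 = D0 + D1 * P.1 + D2 * P.1 ^ 2}

theorem SS_const (D0 : K) : SS D0 0 0 = Fintype.card K * rt D0 := by
  have h0 : SS D0 0 0 = ∑ x : K, #{y : K | y ^ 2 = D0 + 0 * x + 0 * x ^ 2} := by
    simp only [SS, Finset.card_filter]
    rw [Fintype.sum_prod_type]
  rw [h0]
  simp [rt]

theorem SS_lin (D0 : K) {D1 : K} (h : D1 ≠ 0) : SS D0 D1 0 = Fintype.card K := by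
  rw [SS, ← Finset.card_univ]
  refine Finset.card_bij (fun P _ => P.2) (fun _ _ => mem_univ _) ?_ ?_
  · rintro ⟨x, y⟩ hP ⟨x', y'⟩ hP' h'
    simp only [mem_filter, mem_univ, true_and] at hP hP' h'
    subst h'
    refine Prod.ext ?_ rfl
    exact mul_left_cancel₀ h (by linear_combination hP' - hP)
  · intro y _
    refine ⟨((y ^ 2 - D0) / D1, y), ?_, rfl⟩
    simp only [mem_filter, mem_univ, true_and]
    field_simp
    ring

theorem SS_complete (h2 : (2 : K) ≠ 0) (D0 D1 : K) {D2 : K} (h : D2 ≠ 0) :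
    SS D0 D1 D2 = SS (D0 - D1 ^ 2 / (4 * D2)) 0 D2 := by
  have h4 : (4 : K) ≠ 0 := by
    have : (4 : K) = 2 * 2 := by norm_num
    rw [this]
    exact mul_ne_zero h2 h2
  refine Finset.card_bij' (fun P _ => (P.1 + D1 / (2 * D2), P.2))
    (fun P _ => (P.1 - D1 / (2 * D2), P.2)) ?_ ?_ ?_ ?_
  · rintro ⟨x, y⟩ hP
    simp only [mem_filter, mem_univ, true_and] at hP ⊢
    rw [hP]
    field_simp
    ring
  · rintro ⟨x, y⟩ hP
    simp only [mem_filter, mem_univ, true_and] at hP ⊢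
    rw [hP]
    field_simp
    ring
  · rintro ⟨x, y⟩ _
    simp
  · rintro ⟨x, y⟩ _
    simp

theorem card_hyperbola {δ : K} (hδ : δ ≠ 0) :
    #{P : K × K | P.1 * P.2 = δ} = Fintype.card K - 1 := by
  rw [← Finset.card_univ, ← Finset.card_erase_of_mem (mem_univ (0 : K))]
  refine Finset.card_bij' (fun P _ => P.1) (fun x _ => (x, δ / x)) ?_ ?_ ?_ ?_
  · rintro ⟨x, y⟩ hP
    simp only [mem_filter, mem_univ, true_and] at hP
    rw [mem_erase]
    refine ⟨?_, mem_univ _⟩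
    rintro h
    simp only at h
    rw [h, zero_mul] at hP
    exact hδ hP.symm
  · intro x hx
    rw [mem_erase] at hx
    simp only [mem_filter, mem_univ, true_and]
    exact mul_div_cancel₀ _ hx.1
  · rintro ⟨x, y⟩ hP
    simp only [mem_filter, mem_univ, true_and] at hP
    have hx : x ≠ 0 := by
      rintro rfl
      rw [zero_mul] at hP
      exact hδ hP.symm
    refine Prod.ext rfl ?_
    simp only
    rw [← hP]
    field_simp
  · intro x _
    rfl

theorem card_cross : #{P : K × K | P.1 * P.2 = 0} = 2 * Fintype.card K - 1 := by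
  have h0 : #{P : K × K | P.1 * P.2 = 0} = ∑ x : K, #{y : K | x * y = 0} := by
    simp only [Finset.card_filter]
    rw [Fintype.sum_prod_type]
  rw [h0, ← Finset.add_sum_erase univ _ (mem_univ (0 : K))]
  have h1 : ∀ x ∈ (univ : Finset K).erase 0, #{y : K | x * y = 0} = 1 := by
    intro x hx
    rw [card_eq_one]
    refine ⟨0, ?_⟩
    ext y
    simp [(mem_erase.1 hx).1]
  rw [Finset.sum_congr rfl h1, Finset.sum_const, card_erase_of_mem (mem_univ _)]
  simp only [zero_mul, Finset.filter_true, Finset.card_univ, smul_eq_mul, mul_one]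
  have : 0 < Fintype.card K := Fintype.card_pos
  omega

theorem SS_sq_eq (h2 : (2 : K) ≠ 0) (δ : K) {b : K} (hb : b ≠ 0) :
    SS δ 0 (b ^ 2) = #{P : K × K | P.1 * P.2 = δ} := by
  refine Finset.card_bij' (fun P _ => (P.2 - b * P.1, P.2 + b * P.1))
    (fun P _ => ((P.2 - P.1) / (2 * b), (P.1 + P.2) / 2)) ?_ ?_ ?_ ?_
  · rintro ⟨x, y⟩ hP
    simp only [mem_filter, mem_univ, true_and] at hP ⊢
    linear_combination hP
  · rintro ⟨x, y⟩ hP
    simp only [mem_filter, mem_univ, true_and] at hP ⊢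
    rw [← hP]
    field_simp
    ring
  · rintro ⟨x, y⟩ _
    refine Prod.ext ?_ ?_
    · simp only
      field_simp
      ring
    · simp only
      field_simp
      ring
  · rintro ⟨x, y⟩ _
    refine Prod.ext ?_ ?_
    · simp only
      field_simp
      ring
    · simp only
      field_simp
      ring

theorem SS_SQ_zero (h2 : (2 : K) ≠ 0) {α : K} (hα : α ∈ SQ K) :
    SS 0 0 α = 2 * Fintype.card K - 1 := by
  obtain ⟨b, hb, rfl⟩ := (mem_SQ h2).1 hα
  rw [SS_sq_eq h2 0 hb, card_cross]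

theorem SS_SQ (h2 : (2 : K) ≠ 0) {α : K} (hα : α ∈ SQ K) {δ : K} (hδ : δ ≠ 0) :
    SS δ 0 α = Fintype.card K - 1 := by
  obtain ⟨b, hb, rfl⟩ := (mem_SQ h2).1 hα
  rw [SS_sq_eq h2 δ hb, card_hyperbola hδ]

theorem SS_NS_zero (h2 : (2 : K) ≠ 0) {α : K} (hα : α ∈ NS K) : SS 0 0 α = 1 := by
  rw [mem_NS h2] at hα
  rw [SS, card_eq_one]
  refine ⟨(0, 0), ?_⟩
  ext ⟨x, y⟩
  simp only [mem_filter, mem_univ, true_and, mem_singleton, Prod.mk.injEq]
  constructor
  · intro h
    have h' : y ^ 2 = α * x ^ 2 := by linear_combination h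
    by_cases hx : x = 0
    · rw [hx] at h'
      refine ⟨hx, ?_⟩
      have : y ^ 2 = 0 := by rw [h']; ring
      exact pow_eq_zero_iff (two_ne_zero) |>.1 this
    · exfalso
      apply hα
      refine ⟨y / x, ?_⟩
      field_simp
      linear_combination -h'
  · rintro ⟨rfl, rfl⟩
    ring

theorem SS_scale (δ α : K) {c : K} (hc : c ≠ 0) : SS δ 0 (α * c ^ 2) = SS δ 0 α := by
  refine Finset.card_bij' (fun P _ => (c * P.1, P.2)) (fun P _ => (P.1 / c, P.2)) ?_ ?_ ?_ ?_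
  · rintro ⟨x, y⟩ hP
    simp only [mem_filter, mem_univ, true_and] at hP ⊢
    rw [hP]
    ring
  · rintro ⟨x, y⟩ hP
    simp only [mem_filter, mem_univ, true_and] at hP ⊢
    rw [hP]
    field_simp
    ring
  · rintro ⟨x, y⟩ _
    refine Prod.ext ?_ rfl
    simp only
    field_simp
  · rintro ⟨x, y⟩ _
    refine Prod.ext ?_ rfl
    simp only
    field_simp

theorem NS_ratio (h2 : (2 : K) ≠ 0) {α β : K} (hα : α ∈ NS K) (hβ : β ∈ NS K) :
    ∃ c : K, c ≠ 0 ∧ β = α * c ^ 2 := by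
  rw [mem_NS h2] at hα hβ
  have hα0 : α ≠ 0 := by
    rintro rfl
    exact hα ⟨0, by simp⟩
  have hβ0 : β ≠ 0 := by
    rintro rfl
    exact hβ ⟨0, by simp⟩
  have hchar : ringChar K ≠ 2 := by
    intro h
    apply h2
    have := ringChar.Nat.cast_ringChar (R := K)
    rw [h] at this
    exact_mod_cast this
  have h1 := (quadraticChar_neg_one_iff_not_isSquare (F := K)).2 hα
  have h3 := (quadraticChar_neg_one_iff_not_isSquare (F := K)).2 hβ
  have h4 : quadraticChar K (α * β) = 1 := by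
    rw [map_mul, h1, h3]
    norm_num
  obtain ⟨c, hc⟩ := (quadraticChar_one_iff_isSquare (mul_ne_zero hα0 hβ0)).1 h4
  have hc0 : c ≠ 0 := by
    rintro rfl
    rw [zero_mul] at hc
    exact mul_ne_zero hα0 hβ0 hc
  refine ⟨c / α, div_ne_zero hc0 hα0, ?_⟩
  field_simp
  linear_combination hc

theorem sum_SS_alpha {δ : K} : ∑ α : K, (SS δ 0 α : ℚ) = (Fintype.card K : ℚ) * ((Fintype.card K : ℚ) - 1) + (Fintype.card K : ℚ) * rt δ := by
  have h1 : ∀ α : K, (SS δ 0 α : ℚ) = ∑ x : K, ∑ y : K, if y ^ 2 = δ + α * x ^ 2 then (1 : ℚ) else 0 := by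
    intro α
    have h0 : SS δ 0 α = ∑ x : K, #{y : K | y ^ 2 = δ + 0 * x + α * x ^ 2} := by
      simp only [SS, Finset.card_filter]
      rw [Fintype.sum_prod_type]
    rw [h0]
    push_cast
    refine Finset.sum_congr rfl fun x _ => ?_
    rw [← Finset.sum_filter, Finset.sum_const, nsmul_eq_mul, mul_one]
    simp only [zero_mul, add_zero]
  simp only [h1]
  rw [Finset.sum_comm, ← Finset.add_sum_erase univ _ (mem_univ (0 : K))]
  have h3 : ∀ x ∈ (univ : Finset K).erase 0,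
      ∑ α : K, ∑ y : K, (if y ^ 2 = δ + α * x ^ 2 then (1 : ℚ) else 0) = (Fintype.card K : ℚ) := by
    intro x hx
    have hx0 : x ≠ 0 := (mem_erase.1 hx).1
    rw [Finset.sum_comm]
    have : ∀ y : K, ∑ α : K, (if y ^ 2 = δ + α * x ^ 2 then (1 : ℚ) else 0) = 1 := by
      intro y
      rw [Finset.sum_eq_single ((y ^ 2 - δ) / x ^ 2)]
      · rw [if_pos]
        field_simp
        ring
      · intro α _ hα
        rw [if_neg]
        intro h
        apply hα
        rw [h]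
        field_simp
        ring
      · intro h
        exact absurd (mem_univ _) h
    simp only [this]
    simp
  rw [Finset.sum_congr rfl h3, Finset.sum_const, card_erase_of_mem (mem_univ _), Finset.card_univ]
  have h4 : ∑ α : K, ∑ y : K, (if y ^ 2 = δ + α * (0 : K) ^ 2 then (1 : ℚ) else 0) = (Fintype.card K : ℚ) * rt δ := by
    have : ∀ α : K, ∑ y : K, (if y ^ 2 = δ + α * (0 : K) ^ 2 then (1 : ℚ) else 0) = rt δ := by
      intro α
      rw [← Finset.sum_filter, Finset.sum_const, nsmul_eq_mul, mul_one, rt]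
      simp
    simp only [this]
    rw [Finset.sum_const, nsmul_eq_mul, Finset.card_univ]
  rw [h4, nsmul_eq_mul, Nat.cast_sub (Fintype.card_pos), Nat.cast_one]
  ring

theorem SS_NS (h2 : (2 : K) ≠ 0) {α : K} (hα : α ∈ NS K) {δ : K} (hδ : δ ≠ 0) :
    SS δ 0 α = Fintype.card K + 1 := by
  have hq1 : (1 : ℚ) < (Fintype.card K : ℚ) := by exact_mod_cast Fintype.one_lt_card (α := K)
  have h1 := sum_SS_alpha (δ := δ)
  rw [sum_split3 h2, SS_const] at h1
  have e1 : ∑ a ∈ SQ K, (SS δ 0 a : ℚ) = ((Fintype.card K : ℚ) - 1) / 2 * ((Fintype.card K : ℚ) - 1) := by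
    rw [Finset.sum_congr rfl (g := fun _ => ((Fintype.card K : ℚ) - 1)), Finset.sum_const, nsmul_eq_mul, card_SQ h2]
    intro a ha
    rw [SS_SQ h2 ha hδ, Nat.cast_sub Fintype.card_pos, Nat.cast_one]
  have e2 : ∑ a ∈ NS K, (SS δ 0 a : ℚ) = ((Fintype.card K : ℚ) - 1) / 2 * (SS δ 0 α) := by
    rw [Finset.sum_congr rfl (g := fun _ => (SS δ 0 α : ℚ)), Finset.sum_const, nsmul_eq_mul,
      card_NS h2]
    intro a ha
    obtain ⟨c, hc, rfl⟩ := NS_ratio h2 hα ha
    rw [SS_scale δ α hc]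
  rw [e1, e2] at h1
  push_cast at h1
  have h3 : ((Fintype.card K : ℚ) - 1) * ((SS δ 0 α : ℚ) - ((Fintype.card K : ℚ) + 1)) = 0 := by linear_combination 2 * h1
  have h4 : (SS δ 0 α : ℚ) = (Fintype.card K : ℚ) + 1 := by
    rcases mul_eq_zero.1 h3 with h | h
    · linarith
    · linarith
  exact_mod_cast h4

/-- the sum over all `y² = δ + α x²`, `α ≠ 0` -/
theorem sum_SS_quad (h2 : (2 : K) ≠ 0) (ψ : ℕ → ℚ) :
    ∑ α ∈ (univ : Finset K).erase 0, ∑ δ : K, ψ (SS δ 0 α) =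
      ((Fintype.card K : ℚ) - 1) / 2 * (ψ (2 * Fintype.card K - 1) + ((Fintype.card K : ℚ) - 1) * ψ (Fintype.card K - 1) + ψ 1 +
        ((Fintype.card K : ℚ) - 1) * ψ (Fintype.card K + 1)) := by
  have h0 := sum_split3 h2 (fun α => ∑ δ : K, ψ (SS δ 0 α))
  rw [← Finset.add_sum_erase univ _ (mem_univ (0 : K))] at h0
  have h1 := add_left_cancel h0
  rw [h1]
  have hsplit : ∀ α : K, ∑ δ : K, ψ (SS δ 0 α) =
      ψ (SS 0 0 α) + ∑ δ ∈ (univ : Finset K).erase 0, ψ (SS δ 0 α) := fun α =>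
    (Finset.add_sum_erase univ _ (mem_univ (0 : K))).symm
  have hcard : ((#((univ : Finset K).erase 0) : ℕ) : ℚ) = (Fintype.card K : ℚ) - 1 := by
    rw [card_erase_of_mem (mem_univ _), Finset.card_univ, Nat.cast_sub Fintype.card_pos,
      Nat.cast_one]
  have e1 : ∀ α ∈ SQ K, ∑ δ : K, ψ (SS δ 0 α) =
      ψ (2 * Fintype.card K - 1) + ((Fintype.card K : ℚ) - 1) * ψ (Fintype.card K - 1) := by
    intro α hα
    rw [hsplit, SS_SQ_zero h2 hα, Finset.sum_congr rfl (g := fun _ => ψ (Fintype.card K - 1)),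
      Finset.sum_const, nsmul_eq_mul, hcard]
    intro δ hδ
    rw [SS_SQ h2 hα (mem_erase.1 hδ).1]
  have e2 : ∀ α ∈ NS K, ∑ δ : K, ψ (SS δ 0 α) =
      ψ 1 + ((Fintype.card K : ℚ) - 1) * ψ (Fintype.card K + 1) := by
    intro α hα
    rw [hsplit, SS_NS_zero h2 hα, Finset.sum_congr rfl (g := fun _ => ψ (Fintype.card K + 1)),
      Finset.sum_const, nsmul_eq_mul, hcard]
    intro δ hδ
    rw [SS_NS h2 hα (mem_erase.1 hδ).1]
  rw [Finset.sum_congr rfl e1, Finset.sum_congr rfl e2, Finset.sum_const, Finset.sum_const,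
    nsmul_eq_mul, nsmul_eq_mul, card_SQ h2, card_NS h2]
  ring

/-- the sum over all quadratic `D` -/
theorem sum_SS (h2 : (2 : K) ≠ 0) (ψ : ℕ → ℚ) :
    ∑ D2 : K, ∑ D1 : K, ∑ D0 : K, ψ (SS D0 D1 D2) =
      (Fintype.card K : ℚ) * (((Fintype.card K : ℚ) - 1) / 2 * (ψ (2 * Fintype.card K - 1) + ((Fintype.card K : ℚ) - 1) * ψ (Fintype.card K - 1) + ψ 1 +
        ((Fintype.card K : ℚ) - 1) * ψ (Fintype.card K + 1))) + ((Fintype.card K : ℚ) - 1) * (Fintype.card K : ℚ) * ψ (Fintype.card K) +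
      (ψ (Fintype.card K) + ((Fintype.card K : ℚ) - 1) / 2 * (ψ (2 * Fintype.card K) + ψ 0)) := by
  have hcard : ((#((univ : Finset K).erase 0) : ℕ) : ℚ) = (Fintype.card K : ℚ) - 1 := by
    rw [card_erase_of_mem (mem_univ _), Finset.card_univ, Nat.cast_sub Fintype.card_pos,
      Nat.cast_one]
  rw [← Finset.add_sum_erase univ _ (mem_univ (0 : K)),
    ← Finset.add_sum_erase univ (fun D1 : K => ∑ D0 : K, ψ (SS D0 D1 0)) (mem_univ (0 : K))]
  have e1 : ∑ D0 : K, ψ (SS D0 0 0) =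
      ψ (Fintype.card K) + ((Fintype.card K : ℚ) - 1) / 2 * (ψ (2 * Fintype.card K) + ψ 0) := by
    simp only [SS_const]
    have := sum_fun_rt h2 (fun n => ψ (Fintype.card K * n))
    simp only [mul_one, mul_zero] at this
    rw [this, mul_comm 2 (Fintype.card K)]
  have e2 : ∑ D1 ∈ (univ : Finset K).erase 0, ∑ D0 : K, ψ (SS D0 D1 0) =
      ((Fintype.card K : ℚ) - 1) * (Fintype.card K : ℚ) * ψ (Fintype.card K) := by
    have : ∀ D1 ∈ (univ : Finset K).erase 0, ∑ D0 : K, ψ (SS D0 D1 0) = (Fintype.card K : ℚ) * ψ (Fintype.card K) := by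
      intro D1 hD1
      simp only [SS_lin _ (mem_erase.1 hD1).1]
      rw [Finset.sum_const, nsmul_eq_mul, Finset.card_univ]
    rw [Finset.sum_congr rfl this, Finset.sum_const, nsmul_eq_mul, hcard]
    ring
  have e3 : ∑ D2 ∈ (univ : Finset K).erase 0, ∑ D1 : K, ∑ D0 : K, ψ (SS D0 D1 D2) =
      (Fintype.card K : ℚ) * ∑ α ∈ (univ : Finset K).erase 0, ∑ δ : K, ψ (SS δ 0 α) := by
    rw [Finset.mul_sum]
    refine Finset.sum_congr rfl fun D2 hD2 => ?_
    have hD : D2 ≠ 0 := (mem_erase.1 hD2).1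
    have : ∀ D1 : K, ∑ D0 : K, ψ (SS D0 D1 D2) = ∑ δ : K, ψ (SS δ 0 D2) := by
      intro D1
      have h1 := sum_affine (-(D1 ^ 2 / (4 * D2))) (one_ne_zero) (fun δ => ψ (SS δ 0 D2))
      rw [← h1]
      refine Finset.sum_congr rfl fun D0 _ => ?_
      rw [SS_complete h2 D0 D1 hD]
      congr 2
      ring
    simp only [this]
    rw [Finset.sum_const, nsmul_eq_mul, Finset.card_univ]
  rw [e1, e2, e3, sum_SS_quad h2]
  ring

end SS

end Pool.Agent.E07280
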