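/-
The distribution of the number of points of all plane conics (six coefficients).
-/
import Pool.Agent.E07280.P5e
import Pool.Agent.E07280.P5f

open Finset

set_option linter.unusedSectionVars false

namespace Pool.Agent.E07280

variable {K : Type} [Field K] [Fintype K] [DecidableEq K]


/-- number of points of `a y² + (b₀ + b₁ x) y + c₀ + c₁ x + c₂ x² = 0` -/
def NN (a b0 b1 c0 c1 c2 : K) : ℕ :=
  #{P : K × K | a * P.2 ^ 2 + (b0 + b1 * P.1) * P.2 + (c0 + c1 * P.1 + c2 * P.1 ^ 2) = 0}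

/-- splitting the six coefficients -/
def e6 : (Fin 6 → K) ≃ K × K × K × K × K × K where
  toFun c := (c 5, c 2, c 4, c 3, c 1, c 0)
  invFun t := ![t.2.2.2.2.2, t.2.2.2.2.1, t.2.1, t.2.2.2.1, t.2.2.1, t.1]
  left_inv c := by
    ext i
    fin_cases i <;> rfl
  right_inv t := rfl

theorem card_Z2 (c : Fin 6 → K) : #(Z2 c) = NN (c 5) (c 2) (c 4) (c 0) (c 1) (c 3) := by
  refine congrArg Finset.card (Finset.filter_congr fun P _ => ?_)
  rw [ev2]
  constructor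
  · intro h
    linear_combination h
  · intro h
    linear_combination h

theorem sum_Z2_iter (ψ : ℕ → ℚ) : ∑ c : Fin 6 → K, ψ (#(Z2 c)) =
    ∑ a : K, ∑ b0 : K, ∑ b1 : K, ∑ c2 : K, ∑ c1 : K, ∑ c0 : K, ψ (NN a b0 b1 c0 c1 c2) := by
  have h1 : ∑ c : Fin 6 → K, ψ (#(Z2 c)) = ∑ t : K × K × K × K × K × K,
      ψ (NN t.1 t.2.1 t.2.2.1 t.2.2.2.2.2 t.2.2.2.2.1 t.2.2.2.1) := by
    refine Fintype.sum_equiv e6 _ _ fun c => ?_
    rw [card_Z2]
    rfl
  rw [h1]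
  simp only [Fintype.sum_prod_type]

theorem card_erase_q : ((#((univ : Finset K).erase 0) : ℕ) : ℚ) = (Fintype.card K : ℚ) - 1 := by
  rw [card_erase_of_mem (mem_univ _), Finset.card_univ, Nat.cast_sub Fintype.card_pos,
    Nat.cast_one]

theorem NN_quad (h2 : (2 : K) ≠ 0) {a : K} (ha : a ≠ 0) (b0 b1 c0 c1 c2 : K) :
    NN a b0 b1 c0 c1 c2 =
      SS (b0 ^ 2 + -(4 * a) * c0) (2 * b0 * b1 + -(4 * a) * c1) (b1 ^ 2 + -(4 * a) * c2) := by
  refine Finset.card_bij' (fun P _ => (P.1, 2 * a * P.2 + b0 + b1 * P.1))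
    (fun P _ => (P.1, (P.2 - b0 - b1 * P.1) / (2 * a))) ?_ ?_ ?_ ?_
  · rintro ⟨x, y⟩ hP
    simp only [mem_filter, mem_univ, true_and] at hP ⊢
    linear_combination 4 * a * hP
  · rintro ⟨x, y⟩ hP
    simp only [mem_filter, mem_univ, true_and] at hP ⊢
    have h4 : (4 : K) ≠ 0 := by
      have : (4 : K) = 2 * 2 := by norm_num
      rw [this]
      exact mul_ne_zero h2 h2
    have h5 : (4 * a) * (a * ((y - b0 - b1 * x) / (2 * a)) ^ 2 +
        (b0 + b1 * x) * ((y - b0 - b1 * x) / (2 * a)) + (c0 + c1 * x + c2 * x ^ 2)) = 0 := by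
      field_simp
      linear_combination 4 * hP
    exact (mul_eq_zero.1 h5).resolve_left (mul_ne_zero h4 ha)
  · rintro ⟨x, y⟩ _
    refine Prod.ext rfl ?_
    simp only
    field_simp
    ring
  · rintro ⟨x, y⟩ _
    refine Prod.ext rfl ?_
    simp only
    field_simp
    ring

theorem sum_NN_quad (h2 : (2 : K) ≠ 0) {a : K} (ha : a ≠ 0) (b0 b1 : K) (ψ : ℕ → ℚ) :
    ∑ c2 : K, ∑ c1 : K, ∑ c0 : K, ψ (NN a b0 b1 c0 c1 c2) =
      ∑ D2 : K, ∑ D1 : K, ∑ D0 : K, ψ (SS D0 D1 D2) := by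
  have h4 : (-(4 * a)) ≠ 0 := by
    have : (4 : K) = 2 * 2 := by norm_num
    rw [this]
    exact neg_ne_zero.2 (mul_ne_zero (mul_ne_zero h2 h2) ha)
  simp only [NN_quad h2 ha]
  rw [← sum_affine (b1 ^ 2) h4 (fun D2 => ∑ D1 : K, ∑ D0 : K, ψ (SS D0 D1 D2))]
  refine Finset.sum_congr rfl fun c2 _ => ?_
  rw [← sum_affine (2 * b0 * b1) h4
    (fun D1 => ∑ D0 : K, ψ (SS D0 D1 (b1 ^ 2 + -(4 * a) * c2)))]
  refine Finset.sum_congr rfl fun c1 _ => ?_
  rw [← sum_affine (b0 ^ 2) h4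
    (fun D0 => ψ (SS D0 (2 * b0 * b1 + -(4 * a) * c1) (b1 ^ 2 + -(4 * a) * c2)))]

/-- the case `a = 0`, `b₁ ≠ 0` -/
theorem NN_b1 (b0 : K) {b1 : K} (hb : b1 ≠ 0) (c0 c1 c2 : K) :
    NN 0 b0 b1 c0 c1 c2 = (Fintype.card K - 1) +
      if c0 + (c1 * (-b0 / b1) + c2 * (-b0 / b1) ^ 2) = 0 then Fintype.card K else 0 := by
  have h0 : NN 0 b0 b1 c0 c1 c2 =
      ∑ x : K, #{y : K | (b0 + b1 * x) * y + (c0 + c1 * x + c2 * x ^ 2) = 0} := by
    simp only [NN, Finset.card_filter, zero_mul, zero_add]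
    rw [Fintype.sum_prod_type]
  rw [h0, ← Finset.add_sum_erase univ _ (mem_univ (-b0 / b1)), add_comm]
  congr 1
  · have h1 : ∀ x ∈ (univ : Finset K).erase (-b0 / b1),
        #{y : K | (b0 + b1 * x) * y + (c0 + c1 * x + c2 * x ^ 2) = 0} = 1 := by
      intro x hx
      have hx1 : x ≠ -b0 / b1 := (mem_erase.1 hx).1
      have hx2 : b0 + b1 * x ≠ 0 := by
        intro h
        apply hx1
        field_simp
        linear_combination h
      rw [card_eq_one]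
      refine ⟨-(c0 + c1 * x + c2 * x ^ 2) / (b0 + b1 * x), ?_⟩
      ext y
      simp only [mem_filter, mem_univ, true_and, mem_singleton]
      constructor
      · intro h
        rw [eq_div_iff hx2]
        linear_combination h
      · rintro rfl
        rw [mul_div_cancel₀ _ hx2]
        ring
    rw [Finset.sum_congr rfl h1, Finset.sum_const, card_erase_of_mem (mem_univ _),
      Finset.card_univ, smul_eq_mul, mul_one]
  · have h2 : b0 + b1 * (-b0 / b1) = 0 := by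
      field_simp
      ring
    simp only [h2, zero_mul, zero_add]
    rw [← add_assoc]
    split_ifs with h
    · rw [Finset.filter_true_of_mem (fun _ _ => h), Finset.card_univ]
    · rw [Finset.filter_false_of_mem (fun _ _ => h), card_empty]

theorem sum_NN_b1 (b0 : K) {b1 : K} (hb : b1 ≠ 0) (ψ : ℕ → ℚ) :
    ∑ c2 : K, ∑ c1 : K, ∑ c0 : K, ψ (NN 0 b0 b1 c0 c1 c2) =
      (Fintype.card K : ℚ) ^ 2 * (ψ (2 * Fintype.card K - 1) + ((Fintype.card K : ℚ) - 1) * ψ (Fintype.card K - 1)) := by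
  have hpos : 0 < Fintype.card K := Fintype.card_pos
  have h1 : ∀ c2 c1 : K, ∑ c0 : K, ψ (NN 0 b0 b1 c0 c1 c2) =
      ψ (2 * Fintype.card K - 1) + ((Fintype.card K : ℚ) - 1) * ψ (Fintype.card K - 1) := by
    intro c2 c1
    simp only [NN_b1 b0 hb]
    rw [← Finset.add_sum_erase univ _
      (mem_univ (-(c1 * (-b0 / b1) + c2 * (-b0 / b1) ^ 2)))]
    congr 1
    · rw [if_pos (by ring)]
      congr 1
      omega
    · have h2 : ∀ c0 ∈ (univ : Finset K).erase (-(c1 * (-b0 / b1) + c2 * (-b0 / b1) ^ 2)),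
          ψ ((Fintype.card K - 1) +
            if c0 + (c1 * (-b0 / b1) + c2 * (-b0 / b1) ^ 2) = 0 then Fintype.card K else 0) =
          ψ (Fintype.card K - 1) := by
        intro c0 hc0
        rw [if_neg, add_zero]
        intro h
        exact (mem_erase.1 hc0).1 (by linear_combination h)
      rw [Finset.sum_congr rfl h2, Finset.sum_const, nsmul_eq_mul,
        card_erase_of_mem (mem_univ _), Finset.card_univ, Nat.cast_sub hpos, Nat.cast_one]
  simp only [h1]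
  rw [Finset.sum_const, Finset.sum_const, nsmul_eq_mul, nsmul_eq_mul, Finset.card_univ]
  ring

/-- the case `a = 0`, `b₁ = 0`, `b₀ ≠ 0` -/
theorem NN_b0 {b0 : K} (hb : b0 ≠ 0) (c0 c1 c2 : K) :
    NN 0 b0 0 c0 c1 c2 = Fintype.card K := by
  have h0 : NN 0 b0 0 c0 c1 c2 =
      ∑ x : K, #{y : K | b0 * y + (c0 + c1 * x + c2 * x ^ 2) = 0} := by
    simp only [NN, Finset.card_filter, zero_mul, zero_add, add_zero]
    rw [Fintype.sum_prod_type]
  have h1 : ∀ x : K, #{y : K | b0 * y + (c0 + c1 * x + c2 * x ^ 2) = 0} = 1 := by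
    intro x
    rw [card_eq_one]
    refine ⟨-(c0 + c1 * x + c2 * x ^ 2) / b0, ?_⟩
    ext y
    simp only [mem_filter, mem_univ, true_and, mem_singleton]
    constructor
    · intro h
      field_simp
      linear_combination h
    · rintro rfl
      field_simp
      ring
  rw [h0]
  simp only [h1]
  simp

/-- number of zeros of `c₀ + c₁ x + c₂ x²` -/
def RZ (c0 c1 c2 : K) : ℕ := #{x : K | c0 + c1 * x + c2 * x ^ 2 = 0}

theorem NN_zero (c0 c1 c2 : K) : NN 0 0 0 c0 c1 c2 = Fintype.card K * RZ c0 c1 c2 := by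
  have h0 : NN 0 0 0 c0 c1 c2 =
      ∑ x : K, #{y : K | c0 + c1 * x + c2 * x ^ 2 = 0} := by
    simp only [NN, Finset.card_filter, zero_mul, zero_add]
    rw [Fintype.sum_prod_type]
  have h1 : ∀ x : K, #{y : K | c0 + c1 * x + c2 * x ^ 2 = 0} =
      if c0 + c1 * x + c2 * x ^ 2 = 0 then Fintype.card K else 0 := by
    intro x
    split_ifs with h
    · rw [Finset.filter_true_of_mem (fun _ _ => h), Finset.card_univ]
    · rw [Finset.filter_false_of_mem (fun _ _ => h), card_empty]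
  rw [h0]
  simp only [h1]
  rw [← Finset.sum_filter, Finset.sum_const, smul_eq_mul, mul_comm, RZ]

theorem RZ_quad (h2 : (2 : K) ≠ 0) (c0 c1 : K) {c2 : K} (hc : c2 ≠ 0) :
    RZ c0 c1 c2 = rt (c1 ^ 2 + -(4 * c2) * c0) := by
  refine Finset.card_bij' (fun x _ => 2 * c2 * x + c1) (fun z _ => (z - c1) / (2 * c2))
    ?_ ?_ ?_ ?_
  · intro x hx
    simp only [mem_filter, mem_univ, true_and] at hx ⊢
    linear_combination 4 * c2 * hx
  · intro z hz
    simp only [mem_filter, mem_univ, true_and] at hz ⊢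
    have h4 : (4 : K) ≠ 0 := by
      have : (4 : K) = 2 * 2 := by norm_num
      rw [this]
      exact mul_ne_zero h2 h2
    have h5 : (4 * c2) * (c0 + c1 * ((z - c1) / (2 * c2)) + c2 * ((z - c1) / (2 * c2)) ^ 2) = 0 := by
      field_simp
      linear_combination 4 * hz
    exact (mul_eq_zero.1 h5).resolve_left (mul_ne_zero h4 hc)
  · intro x _
    field_simp
    ring
  · intro z _
    field_simp
    ring

theorem RZ_lin (c0 : K) {c1 : K} (hc : c1 ≠ 0) : RZ c0 c1 0 = 1 := by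
  rw [RZ, card_eq_one]
  refine ⟨-c0 / c1, ?_⟩
  ext x
  simp only [mem_filter, mem_univ, true_and, mem_singleton, zero_mul, add_zero]
  constructor
  · intro h
    field_simp
    linear_combination h
  · rintro rfl
    field_simp
    ring

theorem RZ_const (c0 : K) : RZ c0 0 0 = if c0 = 0 then Fintype.card K else 0 := by
  rw [RZ]
  simp only [zero_mul, add_zero]
  split_ifs with h
  · rw [Finset.filter_true_of_mem (fun _ _ => h), Finset.card_univ]
  · rw [Finset.filter_false_of_mem (fun _ _ => h), card_empty]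

theorem sum_RZ (h2 : (2 : K) ≠ 0) (φ : ℕ → ℚ) :
    ∑ c2 : K, ∑ c1 : K, ∑ c0 : K, φ (RZ c0 c1 c2) =
      ((Fintype.card K : ℚ) - 1) * (Fintype.card K : ℚ) * (φ 1 + ((Fintype.card K : ℚ) - 1) / 2 * (φ 2 + φ 0)) + ((Fintype.card K : ℚ) - 1) * (Fintype.card K : ℚ) * φ 1 +
        (φ (Fintype.card K) + ((Fintype.card K : ℚ) - 1) * φ 0) := by
  rw [← Finset.add_sum_erase univ _ (mem_univ (0 : K)),
    ← Finset.add_sum_erase univ (fun c1 : K => ∑ c0 : K, φ (RZ c0 c1 0)) (mem_univ (0 : K))]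
  have e1 : ∑ c0 : K, φ (RZ c0 0 0) = φ (Fintype.card K) + ((Fintype.card K : ℚ) - 1) * φ 0 := by
    rw [← Finset.add_sum_erase univ _ (mem_univ (0 : K)), RZ_const, if_pos rfl]
    congr 1
    rw [← card_erase_q, ← nsmul_eq_mul, ← Finset.sum_const]
    refine Finset.sum_congr rfl fun c0 hc0 => ?_
    rw [RZ_const, if_neg (mem_erase.1 hc0).1]
  have e2 : ∑ c1 ∈ (univ : Finset K).erase 0, ∑ c0 : K, φ (RZ c0 c1 0) = ((Fintype.card K : ℚ) - 1) * (Fintype.card K : ℚ) * φ 1 := by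
    have : ∀ c1 ∈ (univ : Finset K).erase 0, ∑ c0 : K, φ (RZ c0 c1 0) = (Fintype.card K : ℚ) * φ 1 := by
      intro c1 hc1
      simp only [RZ_lin _ (mem_erase.1 hc1).1]
      rw [Finset.sum_const, nsmul_eq_mul, Finset.card_univ]
    rw [Finset.sum_congr rfl this, Finset.sum_const, nsmul_eq_mul, card_erase_q]
    ring
  have e3 : ∑ c2 ∈ (univ : Finset K).erase 0, ∑ c1 : K, ∑ c0 : K, φ (RZ c0 c1 c2) =
      ((Fintype.card K : ℚ) - 1) * (Fintype.card K : ℚ) * (φ 1 + ((Fintype.card K : ℚ) - 1) / 2 * (φ 2 + φ 0)) := by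
    have : ∀ c2 ∈ (univ : Finset K).erase 0, ∑ c1 : K, ∑ c0 : K, φ (RZ c0 c1 c2) =
        (Fintype.card K : ℚ) * (φ 1 + ((Fintype.card K : ℚ) - 1) / 2 * (φ 2 + φ 0)) := by
      intro c2 hc2
      have hc : c2 ≠ 0 := (mem_erase.1 hc2).1
      have h4 : (-(4 * c2)) ≠ 0 := by
        have : (4 : K) = 2 * 2 := by norm_num
        rw [this]
        exact neg_ne_zero.2 (mul_ne_zero (mul_ne_zero h2 h2) hc)
      have h3 : ∀ c1 : K, ∑ c0 : K, φ (RZ c0 c1 c2) = φ 1 + ((Fintype.card K : ℚ) - 1) / 2 * (φ 2 + φ 0) := by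
        intro c1
        simp only [RZ_quad h2 _ c1 hc]
        rw [sum_affine (c1 ^ 2) h4 (fun D => φ (rt D)), sum_fun_rt h2]
      simp only [h3]
      rw [Finset.sum_const, nsmul_eq_mul, Finset.card_univ]
    rw [Finset.sum_congr rfl this, Finset.sum_const, nsmul_eq_mul, card_erase_q]
    ring
  rw [e1, e2, e3]
  ring

/-- explicit value of the sum over all `D` -/
def PD (n : ℕ) (ψ : ℕ → ℚ) : ℚ :=
  (n : ℚ) * (((n : ℚ) - 1) / 2 * (ψ (2 * n - 1) + ((n : ℚ) - 1) * ψ (n - 1) + ψ 1 +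
        ((n : ℚ) - 1) * ψ (n + 1))) + ((n : ℚ) - 1) * n * ψ n +
      (ψ n + ((n : ℚ) - 1) / 2 * (ψ (2 * n) + ψ 0))

/-- explicit value of the sum over all conics -/
def PP (n : ℕ) (ψ : ℕ → ℚ) : ℚ :=
  ((n : ℚ) - 1) * (n : ℚ) ^ 2 * PD n ψ +
  (n : ℚ) * ((n : ℚ) - 1) * ((n : ℚ) ^ 2 * (ψ (2 * n - 1) + ((n : ℚ) - 1) * ψ (n - 1))) +
  ((n : ℚ) - 1) * ((n : ℚ) ^ 3 * ψ n) +
  (((n : ℚ) - 1) * n * (ψ n + ((n : ℚ) - 1) / 2 * (ψ (2 * n) + ψ 0)) + ((n : ℚ) - 1) * n * ψ n +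
        (ψ (n * n) + ((n : ℚ) - 1) * ψ 0))

theorem sum_Z2 (h2 : (2 : K) ≠ 0) (ψ : ℕ → ℚ) :
    ∑ c : Fin 6 → K, ψ (#(Z2 c)) = PP (Fintype.card K) ψ := by
  rw [sum_Z2_iter, ← Finset.add_sum_erase univ _ (mem_univ (0 : K))]
  have e1 : ∑ a ∈ (univ : Finset K).erase 0, ∑ b0 : K, ∑ b1 : K, ∑ c2 : K, ∑ c1 : K, ∑ c0 : K,
      ψ (NN a b0 b1 c0 c1 c2) = ((Fintype.card K : ℚ) - 1) * (Fintype.card K : ℚ) ^ 2 * PD (Fintype.card K) ψ := by
    have : ∀ a ∈ (univ : Finset K).erase 0, ∑ b0 : K, ∑ b1 : K, ∑ c2 : K, ∑ c1 : K, ∑ c0 : K,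
      ψ (NN a b0 b1 c0 c1 c2) = (Fintype.card K : ℚ) ^ 2 * PD (Fintype.card K) ψ := by
      intro a ha
      simp only [sum_NN_quad h2 (mem_erase.1 ha).1, sum_SS h2]
      rw [Finset.sum_const, Finset.sum_const, nsmul_eq_mul, nsmul_eq_mul, Finset.card_univ, PD]
      ring
    rw [Finset.sum_congr rfl this, Finset.sum_const, nsmul_eq_mul, card_erase_q]
    ring
  have e2 : ∑ b0 : K, ∑ b1 : K, ∑ c2 : K, ∑ c1 : K, ∑ c0 : K, ψ (NN 0 b0 b1 c0 c1 c2) =
      (Fintype.card K : ℚ) * (((Fintype.card K : ℚ) - 1) * ((Fintype.card K : ℚ) ^ 2 * (ψ (2 * Fintype.card K - 1) + ((Fintype.card K : ℚ) - 1) * ψ (Fintype.card K - 1)))) +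
        ∑ b0 : K, ∑ c2 : K, ∑ c1 : K, ∑ c0 : K, ψ (NN 0 b0 0 c0 c1 c2) := by
    have : ∀ b0 : K, ∑ b1 : K, ∑ c2 : K, ∑ c1 : K, ∑ c0 : K, ψ (NN 0 b0 b1 c0 c1 c2) =
        ((Fintype.card K : ℚ) - 1) * ((Fintype.card K : ℚ) ^ 2 * (ψ (2 * Fintype.card K - 1) + ((Fintype.card K : ℚ) - 1) * ψ (Fintype.card K - 1))) +
          ∑ c2 : K, ∑ c1 : K, ∑ c0 : K, ψ (NN 0 b0 0 c0 c1 c2) := by
      intro b0
      rw [← Finset.add_sum_erase univ _ (mem_univ (0 : K)), add_comm]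
      congr 1
      have h1 : ∀ b1 ∈ (univ : Finset K).erase 0, ∑ c2 : K, ∑ c1 : K, ∑ c0 : K,
          ψ (NN 0 b0 b1 c0 c1 c2) =
          (Fintype.card K : ℚ) ^ 2 * (ψ (2 * Fintype.card K - 1) + ((Fintype.card K : ℚ) - 1) * ψ (Fintype.card K - 1)) := fun b1 hb1 =>
        sum_NN_b1 b0 (mem_erase.1 hb1).1 ψ
      rw [Finset.sum_congr rfl h1, Finset.sum_const, nsmul_eq_mul, card_erase_q]
    simp only [this]
    rw [Finset.sum_add_distrib, Finset.sum_const, nsmul_eq_mul, Finset.card_univ]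
  have e3 : ∑ b0 : K, ∑ c2 : K, ∑ c1 : K, ∑ c0 : K, ψ (NN 0 b0 0 c0 c1 c2) =
      ((Fintype.card K : ℚ) - 1) * ((Fintype.card K : ℚ) ^ 3 * ψ (Fintype.card K)) +
        ∑ c2 : K, ∑ c1 : K, ∑ c0 : K, ψ (Fintype.card K * RZ c0 c1 c2) := by
    rw [← Finset.add_sum_erase univ _ (mem_univ (0 : K)), add_comm]
    congr 1
    · have h1 : ∀ b0 ∈ (univ : Finset K).erase 0, ∑ c2 : K, ∑ c1 : K, ∑ c0 : K,
          ψ (NN 0 b0 0 c0 c1 c2) = (Fintype.card K : ℚ) ^ 3 * ψ (Fintype.card K) := by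
        intro b0 hb0
        simp only [NN_b0 (mem_erase.1 hb0).1]
        rw [Finset.sum_const, Finset.sum_const, Finset.sum_const, nsmul_eq_mul, nsmul_eq_mul,
          nsmul_eq_mul, Finset.card_univ]
        ring
      rw [Finset.sum_congr rfl h1, Finset.sum_const, nsmul_eq_mul, card_erase_q]
    · simp only [NN_zero]
  have e4 := sum_RZ (K := K) h2 (fun n => ψ (Fintype.card K * n))
  simp only [mul_one, mul_zero] at e4
  rw [e1, e2, e3, e4, PP, mul_comm (Fintype.card K) 2]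
  ring

theorem sum_Z2_ne (h2 : (2 : K) ≠ 0) (ψ : ℕ → ℚ) :
    ∑ c ∈ (univ : Finset (Fin 6 → K)).filter (fun c => c ≠ 0), ψ (#(Z2 c)) =
      PP (Fintype.card K) ψ - ψ (Fintype.card K * Fintype.card K) := by
  rw [← sum_Z2 h2, Finset.filter_ne', ← Finset.add_sum_erase univ _ (mem_univ (0 : Fin 6 → K))]
  have : Z2 (0 : Fin 6 → K) = univ := by
    ext P
    simp [mem_Z2, ev2]
  rw [this, Finset.card_univ, Fintype.card_prod]
  ring

end Pool.Agent.E07280
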