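/-
The excess is a rational function of `p`.
-/
import Pool.Agent.E07280.P5g

open Finset

namespace Pool.Agent.E07280

/-- the weight of a conic with `m` points -/
def psi5 (n m : ℕ) : ℚ :=
  ((n : ℚ) ^ 3 - n) * (m.choose 10 : ℚ) + ((n : ℚ) ^ 2 - n) * ((m.choose 9 : ℚ) * ((n : ℚ) ^ 2 - m))

theorem rf_psi5 {m : Nat.Primes → ℕ} (hm : RatFun fun p => (m p : ℚ)) :
    RatFun fun p => psi5 p (m p) :=
  ((((RatFun.self.pow 3).sub RatFun.self).mul (hm.choose 10)).add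
    (((RatFun.self.pow 2).sub RatFun.self).mul
      ((hm.choose 9).mul ((RatFun.self.pow 2).sub hm)))).congr fun _ _ => rfl

theorem rf_nat (k : ℕ) : RatFun fun _ => (k : ℚ) := RatFun.const _

theorem rf_pm1 : RatFun fun p => (((p : ℕ) - 1 : ℕ) : ℚ) :=
  RatFun.natSub (m := fun p => (p : ℕ)) (n := fun _ => 1) RatFun.self (rf_nat 1)
    fun p hp => by omega

theorem rf_2p : RatFun fun p => ((2 * (p : ℕ) : ℕ) : ℚ) :=
  ((rf_nat 2).mul RatFun.self).congr fun p _ => by push_cast; rfl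

theorem rf_2pm1 : RatFun fun p => ((2 * (p : ℕ) - 1 : ℕ) : ℚ) :=
  RatFun.natSub (m := fun p => 2 * (p : ℕ)) (n := fun _ => 1) rf_2p (rf_nat 1)
    fun p hp => by omega

theorem rf_pp1 : RatFun fun p => (((p : ℕ) + 1 : ℕ) : ℚ) :=
  (RatFun.self.add (rf_nat 1)).congr fun p _ => by push_cast; rfl

theorem rf_pp : RatFun fun p => (((p : ℕ) * (p : ℕ) : ℕ) : ℚ) :=
  (RatFun.self.mul RatFun.self).congr fun p _ => by push_cast; rfl

theorem rf_pm1' : RatFun fun p => (((p : ℕ) : ℚ) - 1) :=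
  (RatFun.self.sub (RatFun.const 1)).congr fun _ _ => rfl

theorem rf_half' : RatFun fun p => ((((p : ℕ) : ℚ) - 1) / 2) :=
  (rf_pm1'.mul (RatFun.const (1 / 2))).congr fun p _ => by ring

theorem rf_PD : RatFun fun p => PD p (psi5 p) := by
  have h1 := rf_psi5 (m := fun p => 2 * (p : ℕ) - 1) rf_2pm1
  have h2 := rf_psi5 (m := fun p => (p : ℕ) - 1) rf_pm1
  have h3 := rf_psi5 (m := fun _ => 1) (rf_nat 1)
  have h4 := rf_psi5 (m := fun p => (p : ℕ) + 1) rf_pp1
  have h5 := rf_psi5 (m := fun p => (p : ℕ)) RatFun.self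
  have h6 := rf_psi5 (m := fun p => 2 * (p : ℕ)) rf_2p
  have h7 := rf_psi5 (m := fun _ => 0) (rf_nat 0)
  exact ((RatFun.self.mul (rf_half'.mul ((((h1.add (rf_pm1'.mul h2)).add h3)).add
    (rf_pm1'.mul h4)))).add ((rf_pm1'.mul RatFun.self).mul h5)).add
      (h5.add (rf_half'.mul (h6.add h7))) |>.congr fun _ _ => rfl

theorem rf_PP : RatFun fun p => PP p (psi5 p) := by
  have h1 := rf_psi5 (m := fun p => 2 * (p : ℕ) - 1) rf_2pm1
  have h2 := rf_psi5 (m := fun p => (p : ℕ) - 1) rf_pm1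
  have h5 := rf_psi5 (m := fun p => (p : ℕ)) RatFun.self
  have h6 := rf_psi5 (m := fun p => 2 * (p : ℕ)) rf_2p
  have h7 := rf_psi5 (m := fun _ => 0) (rf_nat 0)
  have h8 := rf_psi5 (m := fun p => (p : ℕ) * (p : ℕ)) rf_pp
  exact ((((((rf_pm1'.mul (RatFun.self.pow 2)).mul rf_PD).add
    ((RatFun.self.mul rf_pm1').mul ((RatFun.self.pow 2).mul (h1.add (rf_pm1'.mul h2))))).add
    (rf_pm1'.mul ((RatFun.self.pow 3).mul h5))).add
    (((((rf_pm1'.mul RatFun.self).mul (h5.add (rf_half'.mul (h6.add h7)))).add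
      ((rf_pm1'.mul RatFun.self).mul h5)).add (h8.add (rf_pm1'.mul h7)))))).congr
      fun _ _ => rfl

theorem rf_sqsub : RatFun fun p => (((p : ℕ) ^ 2 - (p : ℕ) : ℕ) : ℚ) :=
  RatFun.natSub (m := fun p => (p : ℕ) ^ 2) (n := fun p => (p : ℕ))
    ((RatFun.self.pow 2).congr fun p _ => by push_cast; rfl) RatFun.self
    fun p hp => by nlinarith

theorem rf_TT (k : ℕ) : RatFun fun p => TTexc p k :=
  ((((rf_sqsub.choose k).add (((rf_nat 2).mul rf_pm1').mul (rf_nat ((0 : ℕ).choose k)))).add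
    ((rf_pm1'.pow 2).mul (RatFun.choose (m := fun p => (p : ℕ)) RatFun.self k))).add
    (((RatFun.self.pow 3).sub (RatFun.self.pow 2)).mul (rf_pm1.choose k))).congr
      fun _ _ => by rw [TTexc]; push_cast; rfl

theorem rf_EE {k : ℕ} (hk : k < 5) : RatFun fun p => EE p k := by
  cases k with
  | zero => exact (RatFun.const 0).congr fun _ _ => rfl
  | succ k =>
    refine ((RatFun.natSub (m := fun p => (p : ℕ) ^ 2 - (p : ℕ)) (n := fun _ => k) rf_sqsub
      (rf_nat k) fun p hp => ?_).mul (rf_TT k)).congr fun _ _ => rfl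
    have h1 : (p : ℕ) * 17 ≤ (p : ℕ) ^ 2 := by nlinarith
    omega

theorem rf_FF {k : ℕ} : RatFun fun p => FFexc p k := by
  by_cases h : k = 4
  · exact (((RatFun.self.pow 2).mul (rf_TT 4)).sub (RatFun.self.mul (rf_sqsub.choose 4))).congr
      fun _ _ => by rw [FFexc, if_pos h]
  · exact ((rf_sqsub.choose k).mul ((RatFun.self.pow (6 - k)).sub RatFun.self)).congr
      fun _ _ => by rw [FFexc, if_neg h]

theorem pm1_ne (p : Nat.Primes) (hp : 17 ≤ (p : ℕ)) : (((p : ℕ) : ℚ) - 1) ≠ 0 := by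
  have : (17 : ℚ) ≤ ((p : ℕ) : ℚ) := by exact_mod_cast hp
  linarith

theorem rf_WW {k : ℕ} (hk : k < 5) : RatFun fun p => WWexc p k :=
  (rf_FF.sub ((((((RatFun.self.pow 3).sub RatFun.self).mul
    ((rf_TT k).sub (rf_sqsub.choose k))).add
    (((RatFun.self.pow 2).sub RatFun.self).mul ((rf_EE hk).sub ((rf_nat k).mul (rf_TT k)))))).div
      rf_pm1' pm1_ne)).congr fun _ _ => rfl

/-- P5 -/
theorem Exc_ratFun : RatFun fun p => Exc p := by
  have h8 := rf_psi5 (m := fun p => (p : ℕ) * (p : ℕ)) rf_pp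
  have hsum : RatFun fun p => ∑ k ∈ range 5, ((p : ℕ).choose (10 - k) : ℚ) * WWexc p k :=
    RatFun.sum (range 5) (F := fun k p => ((p : ℕ).choose (10 - k) : ℚ) * WWexc p k)
      fun k hk => (RatFun.choose (m := fun p => (p : ℕ)) RatFun.self (10 - k)).mul
        (rf_WW (mem_range.1 hk))
  refine (((rf_PP.sub h8).add (((RatFun.self.pow 3).sub RatFun.self).mul hsum)).div
    rf_pm1' pm1_ne).congr fun p hp => ?_
  have hp0 := pm1_ne p hp
  rw [eq_div_iff hp0]
  have h2 : (2 : ZMod p) ≠ 0 := by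
    intro h
    have h' : ((2 : ℕ) : ZMod p) = 0 := by exact_mod_cast h
    rw [ZMod.natCast_eq_zero_iff] at h'
    have := Nat.le_of_dvd (by norm_num) h'
    omega
  have h3 := ExcK_closed (K := ZMod p) (by rw [ZMod.card]; omega)
  rw [ZMod.card] at h3
  have h4 : ExcK (ZMod p) = Exc p := by
    rw [ExcK, Exc, ZMod.card]
  have h5 := sum_Z2_ne (K := ZMod p) h2 (psi5 p)
  have h6 : MM (ZMod p) = PP p (psi5 p) - psi5 p (p * p) := by
    rw [ZMod.card] at h5
    rw [← h5, MM, ZMod.card]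
    rfl
  rw [h4, h6] at h3
  rw [mul_comm]
  exact h3

end Pool.Agent.E07280
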