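/-
P7: the relation between `X10`, `X9` and `T0, W1, W2, RR, UU`.
-/
import Pool.Agent.E07280.Defs

open Finset

namespace Pool.Agent.E07280

section P7

variable {K : Type} [Field K]

/-- coefficient space -/
abbrev CV (K : Type) : Type := (Fin 2 → K) × (Fin 3 → K) × (Fin 4 → K)

/-- the value `a(t) y² + b(t) y + c(t)` -/
def FF (v : CV K) (t : Option K) (y : K) : K := lin v.1 t * y ^ 2 + quad v.2.1 t * y + cub v.2.2 t

/-- translation by the section `m` -/
def sec (m : Fin 2 → K) (v : CV K) : CV K :=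
  (v.1, ![v.2.1 0 + 2 * (v.1 0 * m 0), v.2.1 1 + 2 * (v.1 0 * m 1 + v.1 1 * m 0),
      v.2.1 2 + 2 * (v.1 1 * m 1)],
    ![v.2.2 0 + v.2.1 0 * m 0 + v.1 0 * m 0 ^ 2,
      v.2.2 1 + (v.2.1 0 * m 1 + v.2.1 1 * m 0) + (v.1 1 * m 0 ^ 2 + 2 * (v.1 0 * m 0 * m 1)),
      v.2.2 2 + (v.2.1 1 * m 1 + v.2.1 2 * m 0) + (2 * (v.1 1 * m 0 * m 1) + v.1 0 * m 1 ^ 2),
      v.2.2 3 + v.2.1 2 * m 1 + v.1 1 * m 1 ^ 2])

theorem FF_sec (m : Fin 2 → K) (v : CV K) (t : Option K) (y : K) :
    FF (sec m v) t y = FF v t (y + lin m t) := by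
  cases t <;> (simp [FF, sec, lin, quad, cub]; ring)

theorem sec_neg (m : Fin 2 → K) (v : CV K) : sec (-m) (sec m v) = v := by
  obtain ⟨a, b, c⟩ := v
  simp only [sec, Prod.mk.injEq, true_and]
  constructor
  · funext i
    fin_cases i <;> simp <;> ring
  · funext i
    fin_cases i <;> simp <;> ring

def secE (m : Fin 2 → K) : CV K ≃ CV K where
  toFun := sec m
  invFun := sec (-m)
  left_inv v := sec_neg m v
  right_inv v := by
    have := sec_neg (-m) v
    rwa [neg_neg] at this

/-- translation `t ↦ t + s` of the base -/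
def tr (s : K) (v : CV K) : CV K :=
  (![v.1 0 + v.1 1 * s, v.1 1],
    ![v.2.1 0 + v.2.1 1 * s + v.2.1 2 * s ^ 2, v.2.1 1 + 2 * (v.2.1 2 * s), v.2.1 2],
    ![v.2.2 0 + v.2.2 1 * s + v.2.2 2 * s ^ 2 + v.2.2 3 * s ^ 3,
      v.2.2 1 + 2 * (v.2.2 2 * s) + 3 * (v.2.2 3 * s ^ 2), v.2.2 2 + 3 * (v.2.2 3 * s), v.2.2 3])

theorem FF_tr_some (s : K) (v : CV K) (t y : K) :
    FF (tr s v) (some t) y = FF v (some (t + s)) y := by
  simp [FF, tr, lin, quad, cub]; ring

theorem FF_tr_none (s : K) (v : CV K) (y : K) :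
    FF (tr s v) none y = FF v none y := by
  simp [FF, tr, lin, quad, cub]

theorem tr_neg (s : K) (v : CV K) : tr (-s) (tr s v) = v := by
  obtain ⟨a, b, c⟩ := v
  simp only [tr, Prod.mk.injEq]
  refine ⟨?_, ?_, ?_⟩
  · funext i
    fin_cases i <;> simp
  · funext i
    fin_cases i <;> simp <;> ring
  · funext i
    fin_cases i <;> simp <;> ring

def trE (s : K) : CV K ≃ CV K where
  toFun := tr s
  invFun := tr (-s)
  left_inv v := tr_neg s v
  right_inv v := by
    have := tr_neg (-s) v
    rwa [neg_neg] at this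

/-- the inversion `t ↦ 1/t` of the base -/
def iv (v : CV K) : CV K :=
  (![v.1 1, v.1 0], ![v.2.1 2, v.2.1 1, v.2.1 0], ![v.2.2 3, v.2.2 2, v.2.2 1, v.2.2 0])

theorem FF_iv_none (v : CV K) (y : K) : FF (iv v) none y = FF v (some 0) y := by
  simp [FF, iv, lin, quad, cub]

theorem FF_iv_zero (v : CV K) (y : K) : FF (iv v) (some 0) y = FF v none y := by
  simp [FF, iv, lin, quad, cub]

theorem FF_iv_some (v : CV K) (t : K) (ht : t ≠ 0) (y : K) :
    FF (iv v) (some t) (t * y) = t ^ 3 * FF v (some t⁻¹) y := by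
  simp [FF, iv, lin, quad, cub]
  field_simp
  ring

omit [Field K] in
theorem iv_iv (v : CV K) : iv (iv v) = v := by
  obtain ⟨a, b, c⟩ := v
  simp only [iv, Prod.mk.injEq]
  refine ⟨?_, ?_, ?_⟩
  · funext i
    fin_cases i <;> simp
  · funext i
    fin_cases i <;> simp
  · funext i
    fin_cases i <;> simp

def ivE : CV K ≃ CV K where
  toFun := iv
  invFun := iv
  left_inv v := iv_iv v
  right_inv v := iv_iv v

/-- the swap of the fibre coordinate and the base coordinate -/
def sw (v : CV K) : CV K :=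
  (![v.2.2 2, v.2.1 2], ![v.2.2 1, v.2.1 1, v.1 1], ![v.2.2 0, v.2.1 0, v.1 0, v.2.2 3])

theorem FF_sw_some (v : CV K) (hv : v.2.2 3 = 0) (t y : K) :
    FF (sw v) (some t) y = FF v (some y) t := by
  simp [FF, sw, lin, quad, cub, hv]; ring

theorem FF_sw_none (v : CV K) (hv : v.2.2 3 = 0) (y : K) :
    FF (sw v) none y = y * (v.2.1 2 * y + v.1 1) := by
  simp [FF, sw, lin, quad, cub, hv]; ring

theorem FF_none (v : CV K) (hv : v.2.2 3 = 0) (y : K) :
    FF v none y = y * (v.1 1 * y + v.2.1 2) := by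
  simp [FF, lin, quad, cub, hv]; ring

omit [Field K] in
theorem sw_sw (v : CV K) : sw (sw v) = v := by
  obtain ⟨a, b, c⟩ := v
  simp only [sw, Prod.mk.injEq]
  refine ⟨?_, ?_, ?_⟩
  · funext i
    fin_cases i <;> simp
  · funext i
    fin_cases i <;> simp
  · funext i
    fin_cases i <;> simp

def swE : CV K ≃ CV K where
  toFun := sw
  invFun := sw
  left_inv v := sw_sw v
  right_inv v := sw_sw v

variable [Fintype K] [DecidableEq K]

/-- fibre cardinality -/
def fb (v : CV K) (t : Option K) : ℕ := fib v.1 v.2.1 v.2.2 t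

/-- total -/
def Ph (v : CV K) : ℕ := Phi v.1 v.2.1 v.2.2

/-- number of zeros of `c` -/
def zz (v : CV K) : ℕ := zc v.2.2

theorem fb_def (v : CV K) (t : Option K) : fb v t = #{y : K | FF v t y = 0} := rfl

theorem Ph_def (v : CV K) : Ph v = ∑ t, fb v t := rfl

omit [Fintype K] [DecidableEq K] in
theorem FF_zero (v : CV K) (t : Option K) : FF v t 0 = cub v.2.2 t := by
  simp [FF]

theorem zz_def (v : CV K) : zz v = #{t : Option K | FF v t 0 = 0} := by
  simp only [FF_zero]; rfl

theorem zz_eq_sum (v : CV K) : zz v = ∑ t : Option K, if FF v t 0 = 0 then 1 else 0 := by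
  rw [zz_def, card_filter]

/-! ### invariance -/

theorem fb_sec (m : Fin 2 → K) (v : CV K) (t : Option K) : fb (sec m v) t = fb v t := by
  rw [fb_def, fb_def]
  refine card_equiv (Equiv.addRight (lin m t)) fun y => ?_
  simp [FF_sec]

theorem Ph_sec (m : Fin 2 → K) (v : CV K) : Ph (sec m v) = Ph v := by
  simp only [Ph_def, fb_sec]

theorem fb_tr_some (s : K) (v : CV K) (t : K) : fb (tr s v) (some t) = fb v (some (t + s)) := by
  rw [fb_def, fb_def]
  simp only [FF_tr_some]

theorem fb_tr_none (s : K) (v : CV K) : fb (tr s v) none = fb v none := by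
  rw [fb_def, fb_def]
  simp only [FF_tr_none]

theorem Ph_tr (s : K) (v : CV K) : Ph (tr s v) = Ph v := by
  rw [Ph_def, Ph_def, Fintype.sum_option, Fintype.sum_option, fb_tr_none]
  simp only [fb_tr_some]
  congr 1
  exact Equiv.sum_comp (Equiv.addRight s) fun t => fb v (some t)

theorem zz_tr (s : K) (v : CV K) : zz (tr s v) = zz v := by
  rw [zz_eq_sum, zz_eq_sum, Fintype.sum_option, Fintype.sum_option]
  simp only [FF_tr_none, FF_tr_some]
  congr 1
  exact Equiv.sum_comp (Equiv.addRight s) fun t => if FF v (some t) 0 = 0 then 1 else 0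

omit [Fintype K] [DecidableEq K] in
theorem FF_iv_some_eq_zero (v : CV K) (t : K) (ht : t ≠ 0) (y : K) :
    FF (iv v) (some t) (t * y) = 0 ↔ FF v (some t⁻¹) y = 0 := by
  rw [FF_iv_some v t ht]
  simp [ht]

theorem fb_iv_none (v : CV K) : fb (iv v) none = fb v (some 0) := by
  rw [fb_def, fb_def]
  simp only [FF_iv_none]

theorem fb_iv_zero (v : CV K) : fb (iv v) (some 0) = fb v none := by
  rw [fb_def, fb_def]
  simp only [FF_iv_zero]

theorem fb_iv_some (v : CV K) (t : K) (ht : t ≠ 0) : fb (iv v) (some t) = fb v (some t⁻¹) := by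
  rw [fb_def, fb_def]
  symm
  refine card_equiv (Equiv.mulLeft₀ t ht) fun y => ?_
  simp [FF_iv_some_eq_zero v t ht]

/-- the inversion on the base -/
def bi : Option K ≃ Option K where
  toFun t := match t with
    | none => some 0
    | some t => if t = 0 then none else some t⁻¹
  invFun t := match t with
    | none => some 0
    | some t => if t = 0 then none else some t⁻¹
  left_inv t := by
    cases t with
    | none => simp
    | some t => by_cases h : t = 0 <;> simp [h]
  right_inv t := by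
    cases t with
    | none => simp
    | some t => by_cases h : t = 0 <;> simp [h]

theorem fb_iv (v : CV K) (t : Option K) : fb (iv v) t = fb v (bi t) := by
  cases t with
  | none => exact fb_iv_none v
  | some t =>
    by_cases h : t = 0
    · subst h; simpa [bi] using fb_iv_zero v
    · simpa [bi, h] using fb_iv_some v t h

theorem Ph_iv (v : CV K) : Ph (iv v) = Ph v := by
  rw [Ph_def, Ph_def]
  simp only [fb_iv]
  exact bi.sum_comp fun t => fb v t

omit [Fintype K] in
theorem FF_iv_at_zero (v : CV K) (t : Option K) : FF (iv v) t 0 = 0 ↔ FF v (bi t) 0 = 0 := by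
  cases t with
  | none => simp [bi, FF_iv_none]
  | some t =>
    by_cases h : t = 0
    · subst h; simp [bi, FF_iv_zero]
    · have := FF_iv_some_eq_zero v t h 0
      rw [mul_zero] at this
      simpa [bi, h] using this

theorem zz_iv (v : CV K) : zz (iv v) = zz v := by
  rw [zz_eq_sum, zz_eq_sum]
  simp only [FF_iv_at_zero]
  exact bi.sum_comp fun t => if FF v t 0 = 0 then 1 else 0

/-! ### the swap -/

theorem card_lin_aux (a b : K) : #{y : K | y * (a * y + b) = 0} = #{y : K | y * (b * y + a) = 0} := by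
  by_cases ha : a = 0
  · by_cases hb : b = 0
    · simp [ha, hb]
    · simp [ha, hb]
  · by_cases hb : b = 0
    · simp [ha, hb]
    · have h1 : (univ.filter fun y : K => y * (a * y + b) = 0) = {0, -b / a} := by
        ext y
        simp only [mem_filter, mem_univ, true_and, mul_eq_zero, mem_insert, mem_singleton]
        refine or_congr Iff.rfl ?_
        rw [eq_div_iff ha, ← eq_neg_iff_add_eq_zero, mul_comm]
      have h2 : (univ.filter fun y : K => y * (b * y + a) = 0) = {0, -a / b} := by
        ext y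
        simp only [mem_filter, mem_univ, true_and, mul_eq_zero, mem_insert, mem_singleton]
        refine or_congr Iff.rfl ?_
        rw [eq_div_iff hb, ← eq_neg_iff_add_eq_zero, mul_comm]
      rw [h1, h2, card_pair, card_pair]
      · exact (div_ne_zero (neg_ne_zero.2 ha) hb).symm
      · exact (div_ne_zero (neg_ne_zero.2 hb) ha).symm

theorem Ph_sw (v : CV K) (hv : v.2.2 3 = 0) : Ph (sw v) = Ph v := by
  rw [Ph_def, Ph_def, Fintype.sum_option, Fintype.sum_option]
  congr 1
  · rw [fb_def, fb_def]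
    simp only [FF_sw_none v hv, FF_none v hv]
    exact card_lin_aux _ _
  · simp only [fb_def, FF_sw_some v hv, card_filter]
    exact sum_comm

theorem zz_sw (v : CV K) (hv : v.2.2 3 = 0) : zz v - 1 = fb (sw v) (some 0) := by
  rw [zz_eq_sum, Fintype.sum_option, fb_def, card_filter]
  simp only [FF_sw_some v hv]
  have : FF v none 0 = 0 := by rw [FF_none v hv, zero_mul]
  rw [if_pos this]
  omega

/-! ### averaging over sections -/

omit [DecidableEq K] in
theorem sum_sec (t : Option K) (f : K → ℕ) :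
    ∑ m : Fin 2 → K, f (lin m t) = Fintype.card K * ∑ y, f y := by
  rw [← Equiv.sum_comp (finTwoArrowEquiv K).symm, Fintype.sum_prod_type]
  cases t with
  | none => simp [lin, finTwoArrowEquiv]
  | some t =>
    rw [sum_comm]
    have : ∀ y : K, ∑ x : K, f (lin ((finTwoArrowEquiv K).symm (x, y)) (some t)) = ∑ x, f x := by
      intro y
      simp only [lin, finTwoArrowEquiv_symm_apply, Matrix.cons_val_zero, Matrix.cons_val_one]
      exact Equiv.sum_comp (Equiv.addRight (y * t)) f
    rw [sum_congr rfl fun y _ => this y, sum_const, card_univ, smul_eq_mul]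

omit [Fintype K] [DecidableEq K] in
theorem lin_inj {t t' : Option K} (h : t ≠ t') :
    Function.Injective fun m : Fin 2 → K => (lin m t, lin m t') := by
  intro m m' hm
  simp only [Prod.mk.injEq] at hm
  obtain ⟨h1, h2⟩ := hm
  cases t with
  | none =>
    cases t' with
    | none => exact absurd rfl h
    | some t' =>
      simp only [lin] at h1 h2
      have h0 : m 0 = m' 0 := by rw [h1] at h2; exact add_right_cancel h2
      funext i; fin_cases i
      · exact h0
      · exact h1
  | some t =>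
    cases t' with
    | none =>
      simp only [lin] at h1 h2
      have h0 : m 0 = m' 0 := by rw [h2] at h1; exact add_right_cancel h1
      funext i; fin_cases i
      · exact h0
      · exact h2
    | some t' =>
      simp only [lin] at h1 h2
      have hne : t - t' ≠ 0 := sub_ne_zero.2 fun e => h (by rw [e])
      have h3 : (m 1 - m' 1) * (t - t') = 0 := by linear_combination h1 - h2
      have h4 : m 1 = m' 1 := sub_eq_zero.1 ((mul_eq_zero.1 h3).resolve_right hne)
      have h0 : m 0 = m' 0 := by rw [h4] at h1; exact add_right_cancel h1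
      funext i; fin_cases i
      · exact h0
      · exact h4

omit [DecidableEq K] in
theorem sum_sec2 {t t' : Option K} (h : t ≠ t') (f g : K → ℕ) :
    ∑ m : Fin 2 → K, f (lin m t) * g (lin m t') = (∑ y, f y) * ∑ y, g y := by
  have hb : Function.Bijective fun m : Fin 2 → K => (lin m t, lin m t') := by
    rw [Fintype.bijective_iff_injective_and_card]
    refine ⟨lin_inj h, ?_⟩
    simp [sq]
  rw [hb.sum_comp fun z : K × K => f z.1 * g z.2, Fintype.sum_prod_type, sum_mul_sum]

theorem fb_eq_sum (v : CV K) (t : Option K) : fb v t = ∑ y, if FF v t y = 0 then 1 else 0 := by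
  rw [fb_def, card_filter]

theorem avg_t (t : Option K) (G : CV K → ℕ) (hG : ∀ m v, G (sec m v) = G v) :
    Fintype.card K * ∑ v, (if FF v t 0 = 0 then 1 else 0) * G v = ∑ v, fb v t * G v := by
  have h1 : ∀ m : Fin 2 → K, ∑ v, (if FF v t 0 = 0 then 1 else 0) * G v =
      ∑ v, (if FF v t (lin m t) = 0 then 1 else 0) * G v := by
    intro m
    rw [← Equiv.sum_comp (secE m)]
    refine sum_congr rfl fun v _ => ?_
    change (if FF (sec m v) t 0 = 0 then 1 else 0) * G (sec m v) = _
    rw [hG, FF_sec, zero_add]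
  have h2 : ∑ m : Fin 2 → K, ∑ v, (if FF v t 0 = 0 then 1 else 0) * G v =
      ∑ v, (Fintype.card K * fb v t) * G v := by
    rw [sum_congr rfl fun m _ => h1 m, sum_comm]
    refine sum_congr rfl fun v _ => ?_
    rw [← sum_mul, sum_sec t fun y => if FF v t y = 0 then 1 else 0, fb_eq_sum]
  rw [sum_const, card_univ, Fintype.card_pi, prod_const, card_univ, Fintype.card_fin,
    smul_eq_mul, sq] at h2
  have h3 : 0 < Fintype.card K := Fintype.card_pos
  refine Nat.eq_of_mul_eq_mul_left h3 ?_
  rw [← mul_assoc, h2, mul_sum]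
  refine sum_congr rfl fun v _ => by ring

theorem avg1 (G : CV K → ℕ) (hG : ∀ m v, G (sec m v) = G v) :
    Fintype.card K * ∑ v, zz v * G v = ∑ v, Ph v * G v := by
  have h : ∀ v : CV K, zz v * G v = ∑ t, (if FF v t 0 = 0 then 1 else 0) * G v := fun v => by
    rw [← sum_mul, ← zz_eq_sum]
  rw [sum_congr rfl fun v _ => h v, sum_comm, mul_sum, sum_congr rfl fun t _ => avg_t t G hG,
    sum_comm]
  refine sum_congr rfl fun v _ => ?_
  rw [← sum_mul, Ph_def]

theorem avg2 (G : CV K → ℕ) (hG : ∀ m v, G (sec m v) = G v) :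
    Fintype.card K ^ 2 * ∑ v, zz v ^ 2 * G v + ∑ v, (∑ t, fb v t ^ 2) * G v =
      ∑ v, (Ph v ^ 2 + Fintype.card K * Ph v) * G v := by
  have h1 : ∀ m : Fin 2 → K, ∑ v, zz v ^ 2 * G v =
      ∑ v, (∑ t, if FF v t (lin m t) = 0 then 1 else 0) ^ 2 * G v := by
    intro m
    rw [← Equiv.sum_comp (secE m)]
    refine sum_congr rfl fun v _ => ?_
    change zz (sec m v) ^ 2 * G (sec m v) = _
    rw [hG, zz_eq_sum]
    simp only [FF_sec, zero_add]
  have h2 : Fintype.card K ^ 2 * ∑ v, zz v ^ 2 * G v =
      ∑ v, (∑ m : Fin 2 → K, (∑ t, if FF v t (lin m t) = 0 then 1 else 0) ^ 2) * G v := by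
    have : Fintype.card K ^ 2 * ∑ v, zz v ^ 2 * G v = ∑ m : Fin 2 → K, ∑ v, zz v ^ 2 * G v := by
      rw [sum_const, card_univ, Fintype.card_pi, prod_const, card_univ, Fintype.card_fin,
        smul_eq_mul]
    rw [this, sum_congr rfl fun m _ => h1 m, sum_comm]
    exact sum_congr rfl fun v _ => (sum_mul _ _ _).symm
  rw [h2, ← sum_add_distrib]
  refine sum_congr rfl fun v _ => ?_
  rw [← add_mul]
  congr 1
  have h3 : ∀ t t' : Option K, ∑ m : Fin 2 → K, ((if FF v t (lin m t) = 0 then 1 else 0) *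
      (if FF v t' (lin m t') = 0 then 1 else 0)) + (if t = t' then fb v t ^ 2 else 0) =
      fb v t * fb v t' + (if t = t' then Fintype.card K * fb v t else 0) := by
    intro t t'
    by_cases h : t = t'
    · subst h
      rw [if_pos rfl, if_pos rfl]
      have : ∀ m : Fin 2 → K, ((if FF v t (lin m t) = 0 then 1 else 0) *
        (if FF v t (lin m t) = 0 then 1 else 0)) = if FF v t (lin m t) = 0 then 1 else 0 := by
        intro m; split_ifs <;> rfl
      rw [sum_congr rfl fun m _ => this m, sum_sec t fun y => if FF v t y = 0 then 1 else 0,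
        ← fb_eq_sum]
      ring
    · rw [if_neg h, if_neg h, add_zero, add_zero,
        sum_sec2 h (fun y => if FF v t y = 0 then 1 else 0)
          (fun y => if FF v t' y = 0 then 1 else 0), ← fb_eq_sum, ← fb_eq_sum]
  have h4 : ∑ m : Fin 2 → K, (∑ t, if FF v t (lin m t) = 0 then 1 else 0) ^ 2 =
      ∑ t, ∑ t', ∑ m : Fin 2 → K, ((if FF v t (lin m t) = 0 then 1 else 0) *
      (if FF v t' (lin m t') = 0 then 1 else 0)) := by
    have e : ∀ m : Fin 2 → K, (∑ t, if FF v t (lin m t) = 0 then 1 else 0) ^ 2 =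
        ∑ t, ∑ t', ((if FF v t (lin m t) = 0 then 1 else 0) *
          (if FF v t' (lin m t') = 0 then 1 else 0)) := fun m => by rw [sq, sum_mul_sum]
    rw [sum_congr rfl fun m _ => e m, sum_comm]
    exact sum_congr rfl fun t _ => sum_comm
  have h5 : ∑ t : Option K, fb v t ^ 2 = ∑ t, ∑ t', if t = t' then fb v t ^ 2 else 0 := by
    refine sum_congr rfl fun t _ => ?_
    rw [sum_ite_eq, if_pos (mem_univ _)]
  have h6 : Fintype.card K * Ph v = ∑ t, ∑ t', if t = t' then Fintype.card K * fb v t else 0 := by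
    rw [Ph_def, mul_sum]
    refine sum_congr rfl fun t _ => ?_
    rw [sum_ite_eq, if_pos (mem_univ _)]
  rw [h4, h5, h6, sq, Ph_def, sum_mul_sum, ← sum_add_distrib, ← sum_add_distrib]
  refine sum_congr rfl fun t _ => ?_
  rw [← sum_add_distrib, ← sum_add_distrib]
  exact sum_congr rfl fun t' _ => h3 t t'

/-! ### symmetry in `t` -/

omit [DecidableEq K] in
theorem sym_t (H : CV K → Option K → ℕ) (h1 : ∀ s v, H (tr s v) (some 0) = H v (some s))
    (h2 : ∀ v, H (iv v) none = H v (some 0)) (t : Option K) : ∑ v, H v t = ∑ v, H v none := by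
  cases t with
  | none => rfl
  | some s =>
    rw [← Equiv.sum_comp ivE fun v => H v none]
    change _ = ∑ v, H (iv v) none
    simp only [h2]
    rw [← Equiv.sum_comp (trE s) fun v => H v (some 0)]
    change _ = ∑ v, H (tr s v) (some 0)
    simp only [h1]

end P7

end Pool.Agent.E07280
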