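/-
P7: the relation between `X9` and `T0, W1, W2, RR, UU`.
-/
import Pool.Agent.E07280.P7a

open Finset

namespace Pool.Agent.E07280

section P7

variable {K : Type} [Field K] [Fintype K] [DecidableEq K]

/-- `∑_v C(z,j) C(Φ-j, 9-j)` -/
def TT (K : Type) [Field K] [Fintype K] [DecidableEq K] (j : ℕ) : ℕ :=
  ∑ v : CV K, (zz v).choose j * (Ph v - j).choose (9 - j)

omit [Field K] [DecidableEq K] in
theorem sum_CV {M : Type*} [AddCommMonoid M] (f : CV K → M) :
    ∑ v, f v = ∑ a : Fin 2 → K, ∑ b : Fin 3 → K, ∑ c : Fin 4 → K, f (a, b, c) := by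
  rw [Fintype.sum_prod_type]
  exact sum_congr rfl fun a _ => Fintype.sum_prod_type _

theorem T0_eq : T0 K = ∑ v : CV K, (Ph v).choose 9 := by
  rw [sum_CV]; rfl

theorem TT0 : TT K 0 = T0 K := by
  rw [T0_eq, TT]
  simp

theorem mul_choose_aux (n k : ℕ) : n * (n - 1).choose k = (k + 1) * n.choose (k + 1) := by
  rcases n with _ | n
  · simp
  · rw [Nat.add_sub_cancel, Nat.add_one_mul_choose_eq, mul_comm]

theorem TT1 : Fintype.card K * TT K 1 = 9 * T0 K := by
  have := avg1 (K := K) (fun v => (Ph v - 1).choose 8) fun m v => by rw [Ph_sec]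
  simp only [mul_choose_aux] at this
  rw [← mul_sum] at this
  rw [T0_eq, TT]
  simpa using this

/-- the sum `∑_v Ψ C(Φ-2, 7)` -/
def WW (K : Type) [Field K] [Fintype K] [DecidableEq K] : ℕ :=
  ∑ v : CV K, (∑ t, (fb v t).choose 2) * (Ph v - 2).choose 7

theorem choose2_aux (n : ℕ) : 2 * n.choose 2 + n = n ^ 2 := by
  rcases n with _ | n
  · simp
  · rw [Nat.choose_two_right, Nat.mul_div_cancel']
    · rw [Nat.add_sub_cancel]; ring
    · rw [Nat.add_sub_cancel, mul_comm]
      exact Nat.even_mul_succ_self n |>.two_dvd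

theorem choose2_mul (n : ℕ) : n.choose 2 * (n - 2).choose 7 = 36 * n.choose 9 := by
  rcases n with _ | _ | n
  · simp [Nat.choose]
  · simp [Nat.choose]
  · have h1 : (n + 2) * (n + 1).choose 8 = 9 * (n + 2).choose 9 := mul_choose_aux (n + 2) 8
    have h2 : (n + 1) * n.choose 7 = 8 * (n + 1).choose 8 := mul_choose_aux (n + 1) 7
    have h3 := choose2_aux (n + 2)
    have h4 : 2 * (n + 2).choose 2 = (n + 2) * (n + 1) := by nlinarith
    change (n + 2).choose 2 * n.choose 7 = 36 * (n + 2).choose 9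
    have h5 : 2 * ((n + 2).choose 2 * n.choose 7) = 2 * (36 * (n + 2).choose 9) := by
      rw [← mul_assoc, h4, mul_assoc, h2, mul_left_comm, h1]
      ring
    omega

theorem TT2 : Fintype.card K ^ 2 * TT K 2 + WW K = 36 * T0 K := by
  set G : CV K → ℕ := fun v => (Ph v - 2).choose 7 with hGdef
  have hG : ∀ m v, G (sec m v) = G v := fun m v => by simp only [hGdef, Ph_sec]
  have h1 := avg1 G hG
  have h2 := avg2 G hG
  have e1 : 2 * TT K 2 + ∑ v, zz v * G v = ∑ v, zz v ^ 2 * G v := by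
    rw [TT, mul_sum, ← sum_add_distrib]
    refine sum_congr rfl fun v _ => ?_
    rw [← choose2_aux (zz v)]; simp only [hGdef]; ring
  have e2 : 2 * WW K + ∑ v, Ph v * G v = ∑ v, (∑ t, fb v t ^ 2) * G v := by
    rw [WW, mul_sum, ← sum_add_distrib]
    refine sum_congr rfl fun v _ => ?_
    have : ∑ t, fb v t ^ 2 = 2 * (∑ t, (fb v t).choose 2) + Ph v := by
      rw [Ph_def, mul_sum, ← sum_add_distrib]
      exact sum_congr rfl fun t _ => (choose2_aux _).symm
    rw [this]; simp only [hGdef]; ring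
  have e3 : 2 * (36 * T0 K) + ∑ v, Ph v * G v = ∑ v, Ph v ^ 2 * G v := by
    rw [T0_eq, mul_sum, mul_sum, ← sum_add_distrib]
    refine sum_congr rfl fun v _ => ?_
    rw [← choose2_mul, ← choose2_aux (Ph v)]; simp only [hGdef]; ring
  have e4 : ∑ v, (Ph v ^ 2 + Fintype.card K * Ph v) * G v =
      ∑ v, Ph v ^ 2 * G v + Fintype.card K * ∑ v, Ph v * G v := by
    rw [mul_sum, ← sum_add_distrib]
    exact sum_congr rfl fun v _ => by ring
  rw [e4, ← e1, ← e2, ← e3, mul_add] at h2
  have h3 : Fintype.card K ^ 2 * ∑ v, zz v * G v = Fintype.card K * ∑ v, Ph v * G v := by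
    rw [sq, mul_assoc, h1]
  rw [h3] at h2
  have : Fintype.card K ^ 2 * (2 * TT K 2) = 2 * (Fintype.card K ^ 2 * TT K 2) := by ring
  rw [this] at h2
  omega

open Polynomial in
theorem card_root_le (P : K[X]) (hP : P ≠ 0) : #{y : K | P.eval y = 0} ≤ P.natDegree := by
  have h : (univ.filter fun y : K => P.eval y = 0) ⊆ P.roots.toFinset := by
    intro y hy
    rw [mem_filter] at hy
    rw [Multiset.mem_toFinset, Polynomial.mem_roots hP]
    exact hy.2
  exact (card_le_card h).trans ((Multiset.toFinset_card_le _).trans (Polynomial.card_roots' P))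

open Polynomial in
theorem card_quad_le (u v w : K) (h : ¬ (u = 0 ∧ v = 0 ∧ w = 0)) :
    #{y : K | u * y ^ 2 + v * y + w = 0} ≤ 2 := by
  have h0 : (C u * X ^ 2 + C v * X + C w : K[X]) ≠ 0 := by
    intro h1
    apply h
    have e0 := congrArg (fun P => Polynomial.coeff P 0) h1
    have e1 := congrArg (fun P => Polynomial.coeff P 1) h1
    have e2 := congrArg (fun P => Polynomial.coeff P 2) h1
    simp [Polynomial.coeff_X, Polynomial.coeff_C] at e0 e1 e2
    exact ⟨e2, e1, e0⟩
  have h1 := (card_root_le _ h0).trans Polynomial.natDegree_quadratic_le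
  simpa using h1

theorem fb_none_zero (v : CV K) (h : v.1 1 = 0 ∧ v.2.1 2 = 0 ∧ v.2.2 3 = 0) :
    fb v none = Fintype.card K := by
  rw [fb_def]
  simp [FF, lin, quad, cub, h.1, h.2.1, h.2.2]

theorem fb_none_le (v : CV K) (h : ¬ (v.1 1 = 0 ∧ v.2.1 2 = 0 ∧ v.2.2 3 = 0)) :
    fb v none ≤ 2 := card_quad_le _ _ _ h

/-- the sum over one fibre at infinity -/
def S0 (K : Type) [Field K] [Fintype K] [DecidableEq K] : ℕ :=
  ∑ v : CV K, (fb v none).choose 2 * (Ph v - 2).choose 7

theorem WW_eq : WW K = (Fintype.card K + 1) * S0 K := by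
  have h : ∀ t : Option K, ∑ v : CV K, (fb v t).choose 2 * (Ph v - 2).choose 7 =
      ∑ v : CV K, (fb v none).choose 2 * (Ph v - 2).choose 7 :=
    sym_t (fun v t => (fb v t).choose 2 * (Ph v - 2).choose 7)
      (fun s v => by simp only [fb_tr_some, Ph_tr, zero_add])
      (fun v => by simp only [fb_iv_none, Ph_iv])
  have h1 : WW K = ∑ t : Option K, ∑ v : CV K, (fb v t).choose 2 * (Ph v - 2).choose 7 := by
    rw [WW, sum_comm]
    exact sum_congr rfl fun v _ => sum_mul _ _ _
  rw [h1, sum_congr rfl fun t _ => h t, sum_const, card_univ, Fintype.card_option, smul_eq_mul, S0]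

theorem W1_eq : W1 K = ∑ v : CV K, if fb v none = 2 then (Ph v - 2).choose 7 else 0 := by
  rw [sum_CV]; rfl

theorem W2_eq : W2 K = ∑ v : CV K,
    if v.1 1 = 0 ∧ v.2.1 2 = 0 ∧ v.2.2 3 = 0 then (Ph v - 2).choose 7 else 0 := by
  rw [sum_CV]; rfl

theorem RR_eq : RR K = ∑ v : CV K,
    if v.1 1 = 0 ∧ v.2.1 2 = 0 ∧ v.2.2 3 = 0 then (Ph v - 3).choose 6 else 0 := by
  rw [sum_CV]; rfl

theorem S0_eq (h3 : 3 ≤ Fintype.card K) :
    S0 K = W1 K + (Fintype.card K).choose 2 * W2 K := by
  rw [S0, W1_eq, W2_eq, mul_sum, ← sum_add_distrib]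
  refine sum_congr rfl fun v _ => ?_
  by_cases h : v.1 1 = 0 ∧ v.2.1 2 = 0 ∧ v.2.2 3 = 0
  · rw [if_pos h, fb_none_zero v h, if_neg (by omega), zero_add]
  · rw [if_neg h, mul_zero, add_zero]
    have := fb_none_le v h
    split_ifs with h2
    · rw [h2]; simp
    · have : fb v none < 2 := by omega
      rw [Nat.choose_eq_zero_of_lt this, zero_mul]

theorem TT3 (h3 : 3 ≤ Fintype.card K) : 3 * (Fintype.card K ^ 2 * TT K 3) +
    (Fintype.card K + 1) * ((Fintype.card K).choose 2 * (Fintype.card K - 2) * RR K) =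
      7 * WW K := by
  set q := Fintype.card K with hq
  set g : CV K → ℕ := fun v => (Ph v - 3).choose 6 with hg
  have e1 : 3 * TT K 3 = ∑ v, ∑ t, (if FF v t 0 = 0 then 1 else 0) * ((zz v - 1).choose 2 * g v) := by
    rw [TT, mul_sum]
    refine sum_congr rfl fun v _ => ?_
    rw [← sum_mul, ← zz_eq_sum, ← mul_assoc, ← mul_assoc, mul_choose_aux]
  have e2 : ∀ t : Option K, ∑ v, (if FF v t 0 = 0 then 1 else 0) * ((zz v - 1).choose 2 * g v) =
      ∑ v, (if FF v none 0 = 0 then 1 else 0) * ((zz v - 1).choose 2 * g v) :=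
    sym_t (fun v t => (if FF v t 0 = 0 then 1 else 0) * ((zz v - 1).choose 2 * g v))
      (fun s v => by simp only [hg, FF_tr_some, Ph_tr, zz_tr, zero_add])
      (fun v => by simp only [hg, FF_iv_none, Ph_iv, zz_iv])
  have e3 : 3 * TT K 3 =
      (q + 1) * ∑ v, (if FF v none 0 = 0 then 1 else 0) * ((zz v - 1).choose 2 * g v) := by
    rw [e1, sum_comm, sum_congr rfl fun t _ => e2 t, sum_const, card_univ, Fintype.card_option,
      smul_eq_mul]
  have hn : ∀ v : CV K, FF v none 0 = v.2.2 3 := fun v => FF_zero v none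
  have e4 : ∑ v, (if FF v none 0 = 0 then 1 else 0) * ((zz v - 1).choose 2 * g v) =
      ∑ v, (if FF v none 0 = 0 then 1 else 0) * ((fb v (some 0)).choose 2 * g v) := by
    rw [← Equiv.sum_comp swE fun v : CV K => (if FF v none 0 = 0 then 1 else 0) *
      ((fb v (some 0)).choose 2 * g v)]
    refine sum_congr rfl fun v _ => ?_
    change _ = (if FF (sw v) none 0 = 0 then 1 else 0) * ((fb (sw v) (some 0)).choose 2 * g (sw v))
    have hs : FF (sw v) none 0 = FF v none 0 := by rw [hn, hn]; rfl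
    rw [hs]
    by_cases h : FF v none 0 = 0
    · rw [hn] at h
      simp only [hg, Ph_sw v h, zz_sw v h]
    · rw [if_neg h, zero_mul, zero_mul]
  set G : CV K → ℕ := fun v => (fb v none).choose 2 * g v with hGdef
  have hG1 : ∀ m v, G (sec m v) = G v := fun m v => by simp only [hGdef, hg, Ph_sec, fb_sec]
  have hG2 : ∀ s v, G (tr s v) = G v := fun m v => by simp only [hGdef, hg, Ph_tr, fb_tr_none]
  have e5 : ∑ v, (if FF v none 0 = 0 then 1 else 0) * ((fb v (some 0)).choose 2 * g v) =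
      ∑ v, (if FF v (some 0) 0 = 0 then 1 else 0) * G v := by
    rw [← Equiv.sum_comp ivE]
    refine sum_congr rfl fun v _ => ?_
    change (if FF (iv v) none 0 = 0 then 1 else 0) * ((fb (iv v) (some 0)).choose 2 * g (iv v)) = _
    simp only [hGdef, hg, FF_iv_none, Ph_iv, fb_iv_zero]
  have e6 : ∀ s : K, ∑ v, (if FF v (some s) 0 = 0 then 1 else 0) * G v =
      ∑ v, (if FF v (some 0) 0 = 0 then 1 else 0) * G v := by
    intro s
    rw [← Equiv.sum_comp (trE s) fun v : CV K => (if FF v (some 0) 0 = 0 then 1 else 0) * G v]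
    refine sum_congr rfl fun v _ => ?_
    change _ = (if FF (tr s v) (some 0) 0 = 0 then 1 else 0) * G (tr s v)
    rw [hG2, FF_tr_some, zero_add]
  have e7 : q ^ 2 * ∑ v, (if FF v (some 0) 0 = 0 then 1 else 0) * G v =
      ∑ v, (∑ s : K, fb v (some s)) * G v := by
    have : ∀ s : K, q * ∑ v, (if FF v (some 0) 0 = 0 then 1 else 0) * G v =
        ∑ v, fb v (some s) * G v := fun s => by rw [← e6 s]; exact avg_t (some s) G hG1
    have h2 : ∑ s : K, q * ∑ v, (if FF v (some 0) 0 = 0 then 1 else 0) * G v =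
        ∑ s : K, ∑ v, fb v (some s) * G v := sum_congr rfl fun s _ => this s
    rw [sum_const, card_univ, smul_eq_mul, ← mul_assoc, ← sq, sum_comm] at h2
    rw [h2]
    exact sum_congr rfl fun v _ => (sum_mul _ _ _).symm
  have e8 : 3 * (q ^ 2 * TT K 3) = (q + 1) * ∑ v, (∑ s : K, fb v (some s)) * G v := by
    rw [← e7, ← e5, ← e4]
    calc 3 * (q ^ 2 * TT K 3) = q ^ 2 * (3 * TT K 3) := by ring
      _ = _ := by rw [e3]; ring
  rw [e8, WW_eq, ← mul_add, mul_left_comm]
  congr 1
  rw [S0, RR_eq, mul_sum, mul_sum, ← sum_add_distrib]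
  refine sum_congr rfl fun v _ => ?_
  have hPh : Ph v = fb v none + ∑ s : K, fb v (some s) := by rw [Ph_def, Fintype.sum_option]
  by_cases h : v.1 1 = 0 ∧ v.2.1 2 = 0 ∧ v.2.2 3 = 0
  · rw [if_pos h]
    have hf := fb_none_zero v h
    simp only [hGdef, hg]
    have h5 := mul_choose_aux (Ph v - 2) 6
    have h6 : Ph v - 2 - 1 = Ph v - 3 := by omega
    rw [h6] at h5
    have h7 : Ph v - 2 = (q - 2) + ∑ s : K, fb v (some s) := by omega
    rw [hf]
    calc (∑ s : K, fb v (some s)) * (q.choose 2 * (Ph v - 3).choose 6) +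
        q.choose 2 * (q - 2) * (Ph v - 3).choose 6 =
        q.choose 2 * (((q - 2) + ∑ s : K, fb v (some s)) * (Ph v - 3).choose 6) := by ring
      _ = q.choose 2 * ((Ph v - 2) * (Ph v - 3).choose 6) := by rw [← h7]
      _ = _ := by rw [h5]; ring
  · rw [if_neg h, mul_zero, add_zero]
    have hle := fb_none_le v h
    simp only [hGdef, hg]
    by_cases h2 : fb v none = 2
    · have h5 := mul_choose_aux (Ph v - 2) 6
      have h6 : Ph v - 2 - 1 = Ph v - 3 := by omega
      rw [h6] at h5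
      have h7 : Ph v - 2 = ∑ s : K, fb v (some s) := by omega
      rw [h2, ← h7, Nat.choose_self, one_mul, one_mul, h5]
    · have : fb v none < 2 := by omega
      rw [Nat.choose_eq_zero_of_lt this]; simp

end P7

end Pool.Agent.E07280
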