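/-
P7: the relation between `X9` and `T0, W1, W2, RR, UU` (conclusion), and between `X10` and `X9`.
-/
import Pool.Agent.E07280.P7b

open Finset

namespace Pool.Agent.E07280

section P7

variable {K : Type} [Field K] [Fintype K] [DecidableEq K]

theorem X9_sum : X9 K = ∑ v : CV K, (Ph v - zz v).choose 9 := by
  rw [sum_CV]; rfl

theorem zz_le_Ph (v : CV K) : zz v ≤ Ph v := by
  rw [zz_eq_sum, Ph_def]
  refine sum_le_sum fun t _ => ?_
  split_ifs with h
  · rw [fb_def]
    exact card_pos.2 ⟨0, by simpa using h⟩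
  · exact Nat.zero_le _

theorem zz_zero (v : CV K) (h : v.2.2 = 0) : zz v = Fintype.card K + 1 := by
  rw [zz_def]
  have : ∀ t : Option K, FF v t 0 = 0 := by
    intro t
    rw [FF_zero, h]
    cases t <;> simp [cub]
  simp [this, card_univ, Fintype.card_option]

open Polynomial in
theorem zz_le (v : CV K) (h : v.2.2 ≠ 0) : zz v ≤ 3 := by
  rw [zz_eq_sum, Fintype.sum_option]
  simp only [FF_zero]
  obtain ⟨a, b, c⟩ := v
  simp only at h ⊢
  rw [← card_filter]
  by_cases h3 : c 3 = 0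
  · have h1 : ¬ (c 2 = 0 ∧ c 1 = 0 ∧ c 0 = 0) := by
      rintro ⟨e2, e1, e0⟩
      apply h
      funext i
      fin_cases i
      · exact e0
      · exact e1
      · exact e2
      · exact h3
    have h2 := card_quad_le _ _ _ h1
    have h4 : (univ.filter fun t : K => cub c (some t) = 0) =
        univ.filter fun t : K => c 2 * t ^ 2 + c 1 * t + c 0 = 0 := by
      ext t
      rw [mem_filter, mem_filter]
      simp only [mem_univ, true_and, cub, h3]
      constructor <;> intro h <;> linear_combination h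
    rw [h4]
    simp only [cub, h3, if_true]
    omega
  · have h0 : (C (c 3) * X ^ 3 + C (c 2) * X ^ 2 + C (c 1) * X + C (c 0) : K[X]) ≠ 0 := by
      intro h1
      apply h3
      have e3 := congrArg (fun P => Polynomial.coeff P 3) h1
      simpa [Polynomial.coeff_X, Polynomial.coeff_C] using e3
    have h1 := (card_root_le _ h0).trans Polynomial.natDegree_cubic_le
    have h4 : (univ.filter fun t : K => cub c (some t) = 0) =
        univ.filter fun t : K => (C (c 3) * X ^ 3 + C (c 2) * X ^ 2 + C (c 1) * X + C (c 0) :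
          K[X]).eval t = 0 := by
      ext t
      rw [mem_filter, mem_filter]
      simp only [mem_univ, true_and, cub, eval_add, eval_mul, eval_pow, eval_X, eval_C]
      constructor <;> intro h <;> linear_combination h
    rw [h4]
    simp only [cub, h3, if_false]
    omega

theorem expand_aux (z F : ℕ) (hz : z ≤ 3) (hF : z ≤ F) : ((F - z).choose 9 : ℚ) =
    ∑ j ∈ range 4, (-1) ^ j * (z.choose j : ℚ) * ((F - j).choose (9 - j) : ℚ) := by
  obtain ⟨n, rfl⟩ := Nat.exists_eq_add_of_le hF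
  simp only [sum_range_succ, range_zero, sum_empty]
  interval_cases z
  · simp
  · have e : 1 + n = n + 1 := by ring
    rw [e]
    simp [Nat.choose_succ_succ]
  · have e : 2 + n = n + 1 + 1 := by ring
    have e2 : n + 1 + 1 - 1 = n + 1 := by omega
    rw [e]
    simp [Nat.choose_succ_succ, e2]
    ring
  · have e : 3 + n = n + 1 + 1 + 1 := by ring
    have e1 : n + 1 + 1 + 1 - 1 = n + 1 + 1 := by omega
    have e2 : n + 1 + 1 + 1 - 2 = n + 1 := by omega
    have e3 : (3 : ℕ).choose 2 = 3 := rfl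
    rw [e]
    simp [Nat.choose_succ_succ, e1, e2]
    ring

theorem UU_eq : UU K = ∑ v : CV K, if v.2.2 = 0 then
    (((Ph v - (Fintype.card K + 1)).choose 9 : ℚ) -
    ∑ j ∈ range 4, (-1) ^ j * ((Fintype.card K + 1).choose j : ℚ) *
      ((Ph v - j).choose (9 - j) : ℚ)) else 0 := by
  rw [sum_CV, UU]
  refine sum_congr rfl fun a _ => sum_congr rfl fun b _ => ?_
  rw [← Finset.sum_filter]
  have : (univ.filter fun c : Fin 4 → K => c = 0) = {0} := by
    ext c; simp
  rw [this, sum_singleton]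
  rfl

theorem X9_TT : (X9 K : ℚ) = TT K 0 - TT K 1 + TT K 2 - TT K 3 + UU K := by
  have h : ∀ v : CV K, ((Ph v - zz v).choose 9 : ℚ) =
      ∑ j ∈ range 4, (-1) ^ j * ((zz v).choose j : ℚ) * ((Ph v - j).choose (9 - j) : ℚ) +
      if v.2.2 = 0 then (((Ph v - (Fintype.card K + 1)).choose 9 : ℚ) -
    ∑ j ∈ range 4, (-1) ^ j * ((Fintype.card K + 1).choose j : ℚ) *
      ((Ph v - j).choose (9 - j) : ℚ)) else 0 := by
    intro v
    by_cases hc : v.2.2 = 0
    · rw [if_pos hc, zz_zero v hc]; ring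
    · rw [if_neg hc, add_zero]
      exact expand_aux _ _ (zz_le v hc) (zz_le_Ph v)
  rw [X9_sum, UU_eq]
  push_cast
  rw [sum_congr rfl fun v _ => h v, sum_add_distrib, sum_comm]
  congr 1
  simp only [sum_range_succ, range_zero, sum_empty, TT]
  push_cast
  simp only [mul_assoc, ← mul_sum]
  ring

theorem X9_eq_gen (h3 : 3 ≤ Fintype.card K) :
    (Fintype.card K : ℚ) ^ 2 * X9 K =
      ((Fintype.card K : ℚ) ^ 2 - 9 * Fintype.card K + 36) * T0 K
      - 10 / 3 * (Fintype.card K + 1) * (W1 K + ((Fintype.card K).choose 2 : ℚ) * W2 K)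
      + 1 / 3 * (Fintype.card K + 1) * ((Fintype.card K).choose 2 : ℚ) *
        (Fintype.card K - 2) * RR K
      + (Fintype.card K : ℚ) ^ 2 * UU K := by
  have t0 : (TT K 0 : ℚ) = T0 K := by rw [TT0]
  have t1 : (Fintype.card K : ℚ) * TT K 1 = 9 * T0 K := by exact_mod_cast TT1 (K := K)
  have t2 : (Fintype.card K : ℚ) ^ 2 * TT K 2 + WW K = 36 * T0 K := by
    exact_mod_cast TT2 (K := K)
  have w : (WW K : ℚ) = (Fintype.card K + 1) * (W1 K + ((Fintype.card K).choose 2 : ℚ) * W2 K) := by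
    rw [WW_eq, S0_eq h3]; push_cast; ring
  have t3 : 3 * ((Fintype.card K : ℚ) ^ 2 * TT K 3) +
      (Fintype.card K + 1) * ((Fintype.card K).choose 2 * ((Fintype.card K : ℚ) - 2) * RR K) =
      7 * WW K := by
    have := TT3 h3
    have h2 : ((Fintype.card K - 2 : ℕ) : ℚ) = (Fintype.card K : ℚ) - 2 := by
      rw [Nat.cast_sub (by omega)]; norm_num
    rw [← h2]
    exact_mod_cast this
  rw [X9_TT, t0]
  linear_combination (-(Fintype.card K : ℚ)) * t1 + t2 - 1 / 3 * t3 - 10 / 3 * w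

end P7

/-- P7b -/
theorem X9_eq (p : ℕ) [Fact p.Prime] (hp : 5 ≤ p) :
    (p : ℚ) ^ 2 * X9 (ZMod p) = ((p : ℚ) ^ 2 - 9 * p + 36) * T0 (ZMod p)
      - 10 / 3 * (p + 1) * (W1 (ZMod p) + (p.choose 2 : ℚ) * W2 (ZMod p))
      + 1 / 3 * (p + 1) * (p.choose 2 : ℚ) * (p - 2) * RR (ZMod p)
      + (p : ℚ) ^ 2 * UU (ZMod p) := by
  have := X9_eq_gen (K := ZMod p) (by rw [ZMod.card]; omega)
  rwa [ZMod.card] at this

end Pool.Agent.E07280
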