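/-
P7: the relation between `X10` and `X9`.  (`X9_eq` is in `P7c`.)
-/
import Pool.Agent.E07280.P7c

open Finset

namespace Pool.Agent.E07280

section P7

variable {K : Type} [Field K]

/-- translation of a cubic -/
def tp (P : K × K) (f : Fin 10 → K) : Fin 10 → K :=
  ![f 0 + f 1 * P.1 + f 2 * P.2 + f 3 * P.1 ^ 2 + f 4 * (P.1 * P.2) + f 5 * P.2 ^ 2 +
      f 6 * P.1 ^ 3 + f 7 * (P.1 ^ 2 * P.2) + f 8 * (P.1 * P.2 ^ 2) + f 9 * P.2 ^ 3,
    f 1 + 2 * (f 3 * P.1) + f 4 * P.2 + 3 * (f 6 * P.1 ^ 2) + 2 * (f 7 * (P.1 * P.2)) +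
      f 8 * P.2 ^ 2,
    f 2 + f 4 * P.1 + 2 * (f 5 * P.2) + f 7 * P.1 ^ 2 + 2 * (f 8 * (P.1 * P.2)) +
      3 * (f 9 * P.2 ^ 2),
    f 3 + 3 * (f 6 * P.1) + f 7 * P.2,
    f 4 + 2 * (f 7 * P.1) + 2 * (f 8 * P.2),
    f 5 + f 8 * P.1 + 3 * (f 9 * P.2),
    f 6, f 7, f 8, f 9]

theorem tp_neg (P : K × K) (f : Fin 10 → K) : tp (-P) (tp P f) = f := by
  funext i
  fin_cases i <;> simp [tp] <;> ring

theorem ev3_tp (P : K × K) (f : Fin 10 → K) (Q : K × K) : ev3 (tp P f) Q = ev3 f (Q + P) := by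
  simp [ev3, tp, mono10, Fin.sum_univ_succ]
  ring

def tpE (P : K × K) : (Fin 10 → K) ≃ (Fin 10 → K) where
  toFun := tp P
  invFun := tp (-P)
  left_inv f := tp_neg P f
  right_inv f := by
    have := tp_neg (-P) f
    rwa [neg_neg] at this

/-- coefficient vectors of cubics -/
def vecE : K × CV K ≃ (Fin 10 → K) where
  toFun z := ![z.1, z.2.1 0, z.2.1 1, z.2.2.1 0, z.2.2.1 1, z.2.2.1 2,
    z.2.2.2 0, z.2.2.2 1, z.2.2.2 2, z.2.2.2 3]
  invFun f := (f 0, ![f 1, f 2], ![f 3, f 4, f 5], ![f 6, f 7, f 8, f 9])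
  left_inv z := by
    obtain ⟨k, a, b, c⟩ := z
    simp only [Prod.mk.injEq]
    refine ⟨rfl, ?_, ?_, ?_⟩
    · funext i; fin_cases i <;> rfl
    · funext i; fin_cases i <;> rfl
    · funext i; fin_cases i <;> rfl
  right_inv f := by
    funext i; fin_cases i <;> rfl

theorem ev3_vec_some (v : CV K) (t Y : K) (hY : Y ≠ 0) :
    ev3 (vecE (0, v)) (Y⁻¹, Y⁻¹ * t) = (Y⁻¹) ^ 3 * FF v (some t) Y := by
  simp [ev3, vecE, mono10, Fin.sum_univ_succ, FF, lin, quad, cub]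
  field_simp
  ring

theorem ev3_vec_none (v : CV K) (Y : K) (hY : Y ≠ 0) :
    ev3 (vecE (0, v)) (0, Y⁻¹) = (Y⁻¹) ^ 3 * FF v none Y := by
  simp [ev3, vecE, mono10, Fin.sum_univ_succ, FF, lin, quad, cub]
  field_simp
  ring

theorem ev3_vec_zero (k : K) (v : CV K) : ev3 (vecE (k, v)) (0, 0) = k := by
  simp [ev3, vecE, mono10, Fin.sum_univ_succ]

variable [DecidableEq K] [Fintype K]

theorem sum_inv_ne {M : Type*} [AddCommMonoid M] (h : K → M) :
    ∑ x : K, (if x = 0 then 0 else h x⁻¹) = ∑ x : K, if x = 0 then 0 else h x := by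
  rw [← Equiv.sum_comp (Equiv.inv K) fun x => if x = 0 then 0 else h x]
  refine sum_congr rfl fun x _ => ?_
  simp [Equiv.inv_apply, inv_eq_zero]

theorem sum_ne_zero {M : Type*} [AddCommMonoid M] (h : K → M) :
    ∑ x : K, h x = h 0 + ∑ x : K, if x = 0 then 0 else h x := by
  have h1 : ∀ x : K, h x = (if x = 0 then h 0 else 0) + (if x = 0 then 0 else h x) := by
    intro x; by_cases hx : x = 0 <;> simp [hx]
  conv_lhs => rw [sum_congr rfl fun x _ => h1 x]
  rw [sum_add_distrib, sum_ite_eq' univ 0, if_pos (mem_univ _)]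

theorem card_Z3 (v : CV K) : #(Z3 (vecE (0, v))) + zz v = 1 + Ph v := by
  have h1 : ∀ t : Option K, fb v t = (if FF v t 0 = 0 then 1 else 0) +
      ∑ Y : K, if Y = 0 then 0 else if FF v t Y = 0 then 1 else 0 := by
    intro t
    rw [fb_eq_sum, sum_ne_zero]
  have h2 : Ph v = zz v + ∑ t : Option K, ∑ Y : K, if Y = 0 then 0 else
      if FF v t Y = 0 then 1 else 0 := by
    rw [Ph_def, zz_eq_sum, ← sum_add_distrib]
    exact sum_congr rfl fun t _ => h1 t
  have h3 : ∀ x : K, x ≠ 0 → ∑ y : K, (if ev3 (vecE (0, v)) (x, y) = 0 then 1 else 0) =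
      ∑ t : K, if FF v (some t) x⁻¹ = 0 then 1 else 0 := by
    intro x hx
    rw [← Equiv.sum_comp (Equiv.mulLeft₀ x hx)]
    refine sum_congr rfl fun t _ => ?_
    have := ev3_vec_some v t x⁻¹ (inv_ne_zero hx)
    rw [inv_inv] at this
    change (if ev3 (vecE (0, v)) (x, x * t) = 0 then 1 else 0) = _
    rw [this]
    simp [hx]
  have h4 : ∑ y : K, (if ev3 (vecE (0, v)) (0, y) = 0 then 1 else 0) =
      1 + ∑ Y : K, if Y = 0 then 0 else if FF v none Y = 0 then 1 else 0 := by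
    rw [sum_ne_zero, ev3_vec_zero, if_pos rfl]
    congr 1
    rw [← sum_inv_ne]
    refine sum_congr rfl fun x _ => ?_
    by_cases hx : x = 0
    · simp [hx]
    · have := ev3_vec_none v x hx
      rw [if_neg hx, if_neg hx, this]
      simp [hx]
  have h5 : #(Z3 (vecE (0, v))) = 1 + ∑ t : Option K, ∑ Y : K, if Y = 0 then 0 else
      if FF v t Y = 0 then 1 else 0 := by
    rw [Z3, card_filter, Fintype.sum_prod_type, sum_ne_zero, h4, Fintype.sum_option, add_assoc]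
    congr 2
    rw [sum_comm, ← sum_inv_ne]
    refine sum_congr rfl fun x _ => ?_
    by_cases hx : x = 0
    · simp [hx]
    · rw [if_neg hx, h3 x⁻¹ (inv_ne_zero hx)]
      simp [hx]
  omega

theorem X9_Z3 : X9 K = ∑ v : CV K, (#(Z3 (vecE (0, v))) - 1).choose 9 := by
  rw [X9_sum]
  refine sum_congr rfl fun v _ => ?_
  have := card_Z3 v
  have h : Ph v - zz v = #(Z3 (vecE (0, v))) - 1 := by omega
  rw [h]

theorem Z3_tp (P : K × K) (f : Fin 10 → K) : #(Z3 (tp P f)) = #(Z3 f) := by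
  refine card_equiv (Equiv.addRight P) fun Q => ?_
  simp [Z3, ev3_tp]

theorem X10_X9_gen : 10 * X10 K = Fintype.card K ^ 2 * X9 K := by
  have h1 : 10 * X10 K = ∑ P : K × K, ∑ f : Fin 10 → K,
      (if ev3 f P = 0 then 1 else 0) * (#(Z3 f) - 1).choose 9 := by
    rw [X10, mul_sum, sum_comm]
    refine sum_congr rfl fun f _ => ?_
    rw [← sum_mul, ← card_filter, ← mul_choose_aux (#(Z3 f)) 9]
    rfl
  have h2 : ∀ P : K × K, ∑ f : Fin 10 → K,
      (if ev3 f P = 0 then 1 else 0) * (#(Z3 f) - 1).choose 9 = X9 K := by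
    intro P
    rw [X9_Z3]
    have h3 : ∑ f : Fin 10 → K, (if ev3 f P = 0 then 1 else 0) * (#(Z3 f) - 1).choose 9 =
        ∑ f : Fin 10 → K, (if ev3 f (0, 0) = 0 then 1 else 0) * (#(Z3 f) - 1).choose 9 := by
      rw [← Equiv.sum_comp (tpE P) fun f => (if ev3 f (0, 0) = 0 then 1 else 0) *
        (#(Z3 f) - 1).choose 9]
      refine sum_congr rfl fun f _ => ?_
      change _ = (if ev3 (tp P f) (0, 0) = 0 then 1 else 0) * (#(Z3 (tp P f)) - 1).choose 9
      rw [Z3_tp, ev3_tp]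
      have : ((0, 0) : K × K) + P = P := zero_add P
      rw [this]
    rw [h3, ← Equiv.sum_comp vecE, Fintype.sum_prod_type]
    rw [sum_eq_single (0 : K)]
    · refine sum_congr rfl fun v _ => ?_
      rw [ev3_vec_zero, if_pos rfl, one_mul]
    · intro k _ hk
      refine sum_eq_zero fun v _ => ?_
      rw [ev3_vec_zero, if_neg hk, zero_mul]
    · intro h; exact absurd (mem_univ _) h
  rw [h1, sum_congr rfl fun P _ => h2 P, sum_const, card_univ, Fintype.card_prod, smul_eq_mul, sq]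

end P7

/-- P7a -/
theorem X10_X9 (p : ℕ) [Fact p.Prime] (_hp : 5 ≤ p) :
    10 * X10 (ZMod p) = p ^ 2 * X9 (ZMod p) := by
  have := X10_X9_gen (K := ZMod p)
  rwa [ZMod.card] at this

end Pool.Agent.E07280
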