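/-
Package P8, basics: sums over coefficient vectors, fibres, symmetries of `Phi`.
-/
import Pool.Agent.E07280.Defs

open Finset

namespace Pool.Agent.E07280.P8

variable {K : Type} [Field K] [Fintype K] [DecidableEq K]

/-! ### Sums over vectors and substitutions -/

section Sums

variable {M : Type*} [AddCommMonoid M]

omit [Field K] [DecidableEq K] in
theorem sum_fin2 (f : (Fin 2 → K) → M) : ∑ a, f a = ∑ x, ∑ y, f ![x, y] := by
  rw [← Fintype.sum_prod_type' (f := fun x y => f ![x, y])]
  refine Fintype.sum_equiv (finTwoArrowEquiv K) _ _ fun a => ?_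
  congr 1
  ext i
  fin_cases i <;> rfl

omit [Field K] [DecidableEq K] in
theorem sum_consFin (n : ℕ) (f : (Fin (n + 1) → K) → M) :
    ∑ a, f a = ∑ x, ∑ b : Fin n → K, f (Matrix.vecCons x b) := by
  rw [← Fintype.sum_prod_type' (f := fun (x : K) (b : Fin n → K) => f (Matrix.vecCons x b))]
  refine Fintype.sum_equiv (Fin.consEquiv fun _ => K).symm _ _ fun a => ?_
  congr 1
  ext i
  refine Fin.cases ?_ (fun j => ?_) i
  · rfl
  · rfl

omit [Field K] [DecidableEq K] in
theorem sum_fin3 (f : (Fin 3 → K) → M) : ∑ a, f a = ∑ x, ∑ y, ∑ z, f ![x, y, z] := by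
  rw [sum_consFin]
  refine Finset.sum_congr rfl fun x _ => ?_
  rw [sum_fin2]

omit [Field K] [DecidableEq K] in
theorem sum_fin4 (f : (Fin 4 → K) → M) :
    ∑ a, f a = ∑ x, ∑ y, ∑ z, ∑ w, f ![x, y, z, w] := by
  rw [sum_consFin]
  refine Finset.sum_congr rfl fun x _ => ?_
  rw [sum_fin3]

omit [DecidableEq K] in
/-- affine substitution -/
theorem sum_aff {v : K} (hv : v ≠ 0) (u : K) (f : K → M) : ∑ x, f (u + v * x) = ∑ x, f x := by
  refine Fintype.sum_bijective (fun x => u + v * x) ⟨fun x y h => ?_, fun y => ⟨(y - u) / v, ?_⟩⟩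
    _ _ fun x => rfl
  · have : v * x = v * y := by simpa using h
    exact mul_left_cancel₀ hv this
  · field_simp
    ring

omit [DecidableEq K] in
/-- translation -/
theorem sum_add (u : K) (f : K → M) : ∑ x, f (x + u) = ∑ x, f x := by
  simpa using Fintype.sum_equiv (Equiv.addRight u) (fun x => f (x + u)) f fun x => rfl

omit [DecidableEq K] in
theorem sum_scale {v : K} (hv : v ≠ 0) (f : K → M) : ∑ x, f (v * x) = ∑ x, f x := by
  simpa using sum_aff hv 0 f

end Sums

/-! ### Numbers of square roots and fibres -/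

/-- number of square roots -/
def nsq (D : K) : ℕ := #{y : K | y ^ 2 = D}

theorem cnt_eq_sum (D : K → K) : cnt D = ∑ t, nsq (D t) := by
  simp only [cnt, nsq, Finset.card_filter, Fintype.sum_prod_type]

theorem nsq_zero : nsq (0 : K) = 1 := by
  rw [nsq, Finset.card_eq_one]
  exact ⟨0, by ext y; simp⟩

theorem nsq_scale {e : K} (he : e ≠ 0) (D : K) : nsq (e ^ 2 * D) = nsq D := by
  rw [nsq, nsq]
  refine Finset.card_bij' (fun y _ => y / e) (fun y _ => e * y) ?_ ?_ ?_ ?_
  · intro y hy
    simp only [mem_filter, mem_univ, true_and] at hy ⊢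
    rw [div_pow, hy]
    field_simp
  · intro y hy
    simp only [mem_filter, mem_univ, true_and] at hy ⊢
    rw [mul_pow, hy]
  · intro y _
    field_simp
  · intro y _
    field_simp

theorem nsq_sq (h2 : (2 : K) ≠ 0) {e : K} (he : e ≠ 0) : nsq (e ^ 2) = 2 := by
  rw [nsq, Finset.card_eq_two]
  refine ⟨e, -e, ?_, ?_⟩
  · intro h
    have : 2 * e = 0 := by linear_combination h
    rcases mul_eq_zero.1 this with h' | h'
    · exact h2 h'
    · exact he h'
  · ext y
    simp only [mem_filter, mem_univ, true_and, mem_insert, mem_singleton]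
    exact sq_eq_sq_iff_eq_or_eq_neg

theorem nsq_eq (hK : ringChar K ≠ 2) (D : K) : (nsq D : ℤ) = 1 + quadraticChar K D := by
  have h := quadraticChar_card_sqrts hK D
  have e : (univ.filter fun y : K => y ^ 2 = D) = {x : K | x ^ 2 = D}.toFinset := by
    ext y
    simp
  rw [nsq, e, h, add_comm]

/-- solutions of a quadratic equation -/
theorem card_quadEq (h2 : (2 : K) ≠ 0) {A : K} (hA : A ≠ 0) (B C : K) :
    #{y : K | A * y ^ 2 + B * y + C = 0} = nsq (B ^ 2 - 4 * A * C) := by
  rw [nsq]
  have h4 : (4 : K) ≠ 0 := by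
    have : (4 : K) = 2 * 2 := by norm_num
    rw [this]
    exact mul_ne_zero h2 h2
  refine Finset.card_bij' (fun y _ => 2 * A * y + B) (fun y _ => (y - B) / (2 * A)) ?_ ?_ ?_ ?_
  · intro y hy
    simp only [mem_filter, mem_univ, true_and] at hy ⊢
    linear_combination 4 * A * hy
  · intro y hy
    simp only [mem_filter, mem_univ, true_and] at hy ⊢
    field_simp
    linear_combination hy
  · intro y _
    field_simp
    ring
  · intro y _
    field_simp
    ring

theorem card_linEq {B : K} (hB : B ≠ 0) (C : K) :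
    #{y : K | (0 : K) * y ^ 2 + B * y + C = 0} = 1 := by
  rw [Finset.card_eq_one]
  refine ⟨-C / B, ?_⟩
  ext y
  simp only [mem_filter, mem_univ, true_and, mem_singleton]
  rw [eq_div_iff hB]
  constructor
  · intro h
    linear_combination h
  · intro h
    linear_combination h

theorem card_constEq (C : K) :
    #{y : K | (0 : K) * y ^ 2 + 0 * y + C = 0} = if C = 0 then Fintype.card K else 0 := by
  split_ifs with h
  · simp [h, Finset.card_univ]
  · simp [h]

/-! ### Symmetries of the fibration -/

theorem fib_congr {a a' : Fin 2 → K} {b b' : Fin 3 → K} {c c' : Fin 4 → K} {t t' : Option K}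
    (ha : lin a t = lin a' t') (hb : quad b t = quad b' t') (hc : cub c t = cub c' t') :
    fib a b c t = fib a' b' c' t' := by
  rw [fib, fib, ha, hb, hc]

/-- translation on linear forms -/
def trA (s : K) : (Fin 2 → K) ≃ (Fin 2 → K) where
  toFun a := ![a 0 + a 1 * s, a 1]
  invFun a := ![a 0 - a 1 * s, a 1]
  left_inv a := by ext i; fin_cases i <;> simp
  right_inv a := by ext i; fin_cases i <;> simp

def trB (s : K) : (Fin 3 → K) ≃ (Fin 3 → K) where
  toFun b := ![b 0 + b 1 * s + b 2 * s ^ 2, b 1 + 2 * b 2 * s, b 2]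
  invFun b := ![b 0 - b 1 * s + b 2 * s ^ 2, b 1 - 2 * b 2 * s, b 2]
  left_inv b := by ext i; fin_cases i <;> (simp; try ring)
  right_inv b := by ext i; fin_cases i <;> (simp; try ring)

def trC (s : K) : (Fin 4 → K) ≃ (Fin 4 → K) where
  toFun c := ![c 0 + c 1 * s + c 2 * s ^ 2 + c 3 * s ^ 3, c 1 + 2 * c 2 * s + 3 * c 3 * s ^ 2,
    c 2 + 3 * c 3 * s, c 3]
  invFun c := ![c 0 - c 1 * s + c 2 * s ^ 2 - c 3 * s ^ 3, c 1 - 2 * c 2 * s + 3 * c 3 * s ^ 2,
    c 2 - 3 * c 3 * s, c 3]
  left_inv c := by ext i; fin_cases i <;> (simp; try ring)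
  right_inv c := by ext i; fin_cases i <;> (simp; try ring)

theorem fib_tr_some (s : K) (a : Fin 2 → K) (b : Fin 3 → K) (c : Fin 4 → K) (t : K) :
    fib (trA s a) (trB s b) (trC s c) (some t) = fib a b c (some (t + s)) := by
  apply fib_congr
  · simp [lin, trA]; ring
  · simp [quad, trB]; ring
  · simp [cub, trC]; ring

theorem fib_tr_none (s : K) (a : Fin 2 → K) (b : Fin 3 → K) (c : Fin 4 → K) :
    fib (trA s a) (trB s b) (trC s c) none = fib a b c none := by
  apply fib_congr
  · simp [lin, trA]
  · simp [quad, trB]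
  · simp [cub, trC]

theorem Phi_eq (a : Fin 2 → K) (b : Fin 3 → K) (c : Fin 4 → K) :
    Phi a b c = fib a b c none + ∑ t : K, fib a b c (some t) := by
  rw [Phi, Fintype.sum_option]

theorem Phi_tr (s : K) (a : Fin 2 → K) (b : Fin 3 → K) (c : Fin 4 → K) :
    Phi (trA s a) (trB s b) (trC s c) = Phi a b c := by
  rw [Phi_eq, Phi_eq, fib_tr_none]
  congr 1
  simp only [fib_tr_some]
  exact sum_add s fun t => fib a b c (some t)

/-- scaling -/
def scE (n : ℕ) {r : K} (hr : r ≠ 0) : (Fin n → K) ≃ (Fin n → K) where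
  toFun a := fun i => r * a i
  invFun a := fun i => r⁻¹ * a i
  left_inv a := by ext i; field_simp
  right_inv a := by ext i; field_simp

theorem fib_sc {r : K} (hr : r ≠ 0) (a : Fin 2 → K) (b : Fin 3 → K) (c : Fin 4 → K)
    (t : Option K) : fib (scE 2 hr a) (scE 3 hr b) (scE 4 hr c) t = fib a b c t := by
  have h1 : lin (scE 2 hr a) t = r * lin a t := by
    cases t <;> (simp [lin, scE]; try ring)
  have h2 : quad (scE 3 hr b) t = r * quad b t := by
    cases t <;> (simp [quad, scE]; try ring)
  have h3 : cub (scE 4 hr c) t = r * cub c t := by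
    cases t <;> (simp [cub, scE]; try ring)
  rw [fib, fib, h1, h2, h3]
  congr 1
  ext y
  simp only [mem_filter, mem_univ, true_and]
  constructor
  · intro h
    have : r * (lin a t * y ^ 2 + quad b t * y + cub c t) = 0 := by linear_combination h
    exact (mul_eq_zero.1 this).resolve_left hr
  · intro h
    linear_combination r * h

theorem Phi_sc {r : K} (hr : r ≠ 0) (a : Fin 2 → K) (b : Fin 3 → K) (c : Fin 4 → K) :
    Phi (scE 2 hr a) (scE 3 hr b) (scE 4 hr c) = Phi a b c := by
  rw [Phi, Phi]
  exact Finset.sum_congr rfl fun t _ => fib_sc hr a b c t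

/-- swapping `0` and `∞` -/
def swA : (Fin 2 → K) ≃ (Fin 2 → K) where
  toFun a := ![a 1, a 0]
  invFun a := ![a 1, a 0]
  left_inv a := by ext i; fin_cases i <;> simp
  right_inv a := by ext i; fin_cases i <;> simp

def swB : (Fin 3 → K) ≃ (Fin 3 → K) where
  toFun b := ![b 2, b 1, b 0]
  invFun b := ![b 2, b 1, b 0]
  left_inv b := by ext i; fin_cases i <;> simp
  right_inv b := by ext i; fin_cases i <;> simp

def swC : (Fin 4 → K) ≃ (Fin 4 → K) where
  toFun c := ![c 3, c 2, c 1, c 0]
  invFun c := ![c 3, c 2, c 1, c 0]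
  left_inv c := by ext i; fin_cases i <;> simp
  right_inv c := by ext i; fin_cases i <;> simp

/-- inversion on the projective line -/
def swT : Option K → Option K
  | none => some 0
  | some t => if t = 0 then none else some t⁻¹

omit [Fintype K] in
theorem swT_swT (t : Option K) : swT (swT t) = t := by
  cases t with
  | none => simp [swT]
  | some t =>
    by_cases h : t = 0
    · simp [swT, h]
    · simp [swT, h]

theorem fib_sw (a : Fin 2 → K) (b : Fin 3 → K) (c : Fin 4 → K) (t : Option K) :
    fib (swA a) (swB b) (swC c) t = fib a b c (swT t) := by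
  cases t with
  | none =>
    apply fib_congr
    · simp [lin, swA, swT]
    · simp [quad, swB, swT]
    · simp [cub, swC, swT]
  | some t =>
    by_cases h : t = 0
    · subst h
      apply fib_congr
      · simp [lin, swA, swT]
      · simp [quad, swB, swT]
      · simp [cub, swC, swT]
    · have hs : swT (some t) = some t⁻¹ := by simp [swT, h]
      rw [hs, fib, fib]
      refine Finset.card_bij' (fun y _ => y / t) (fun y _ => t * y) ?_ ?_ ?_ ?_
      · intro y hy
        simp only [mem_filter, mem_univ, true_and] at hy ⊢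
        simp only [lin, quad, cub, swA, swB, swC, Equiv.coe_fn_mk, Matrix.cons_val] at hy ⊢
        field_simp
        linear_combination hy
      · intro y hy
        simp only [mem_filter, mem_univ, true_and] at hy ⊢
        simp only [lin, quad, cub, swA, swB, swC, Equiv.coe_fn_mk, Matrix.cons_val] at hy ⊢
        field_simp at hy
        linear_combination hy
      · intro y _
        field_simp
      · intro y _
        field_simp

theorem Phi_sw (a : Fin 2 → K) (b : Fin 3 → K) (c : Fin 4 → K) :
    Phi (swA a) (swB b) (swC c) = Phi a b c := by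
  rw [Phi, Phi]
  simp only [fib_sw]
  exact Fintype.sum_equiv (Function.Involutive.toPerm swT swT_swT) _ _ fun t => rfl

end Pool.Agent.E07280.P8
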