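/-
Package P8: orbits of linear forms, reduction to `a = (1,0)` and `a = (0,1)`,
quartics and cubics.
-/
import Pool.Agent.E07280.P8a

open Finset

namespace Pool.Agent.E07280.P8

variable {K : Type} [Field K] [Fintype K] [DecidableEq K]

omit [DecidableEq K] in
theorem sum_a_all (H : (Fin 2 → K) → ℚ)
    (hsc : ∀ (r : K) (hr : r ≠ 0) (a : Fin 2 → K), H (scE 2 hr a) = H a)
    (htr : ∀ (s : K) (a : Fin 2 → K), H (trA s a) = H a)
    (hsw : ∀ a : Fin 2 → K, H (swA a) = H a) :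
    ∑ a, H a = H 0 + ((Fintype.card K : ℚ) ^ 2 - 1) * H ![1, 0] := by
  classical
  have key : ∀ a : Fin 2 → K, a ≠ 0 → H a = H ![1, 0] := by
    intro a ha
    by_cases h1 : a 1 = 0
    · have h0 : a 0 ≠ 0 := by
        intro h0
        apply ha
        ext i
        fin_cases i <;> simp [h0, h1]
      rw [← hsc _ h0 ![1, 0]]
      congr 1
      ext i
      fin_cases i <;> simp [scE, h1]
    · rw [← hsw ![1, 0], ← htr (a 0 / a 1) (swA ![1, 0]),
        ← hsc _ h1 (trA (a 0 / a 1) (swA ![1, 0]))]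
      congr 1
      ext i
      fin_cases i
      · simp [scE, trA, swA]
        field_simp
      · simp [scE, trA, swA]
  rw [← Finset.add_sum_erase _ _ (Finset.mem_univ (0 : Fin 2 → K))]
  congr 1
  rw [Finset.sum_congr rfl fun a ha => key a (Finset.ne_of_mem_erase ha)]
  rw [Finset.sum_const, Finset.card_erase_of_mem (Finset.mem_univ _), Finset.card_univ,
    Fintype.card_fun, Fintype.card_fin, nsmul_eq_mul,
    Nat.cast_sub (Nat.one_le_pow _ _ Fintype.card_pos)]
  push_cast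
  ring

omit [DecidableEq K] in
theorem sum_a_inf (H : (Fin 2 → K) → ℚ)
    (hsc : ∀ (r : K) (hr : r ≠ 0) (a : Fin 2 → K), H (scE 2 hr a) = H a)
    (htr : ∀ (s : K) (a : Fin 2 → K), H (trA s a) = H a)
    (h0 : ∀ a : Fin 2 → K, a 1 = 0 → H a = 0) :
    ∑ a, H a = (Fintype.card K : ℚ) * ((Fintype.card K : ℚ) - 1) * H ![0, 1] := by
  classical
  have key : ∀ a : Fin 2 → K, H a = if a 1 = 0 then 0 else H ![0, 1] := by
    intro a
    split_ifs with h
    · exact h0 a h
    · rw [← htr (a 0 / a 1) ![0, 1], ← hsc _ h (trA (a 0 / a 1) ![0, 1])]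
      congr 1
      ext i
      fin_cases i
      · simp [scE, trA]
        field_simp
      · simp [scE, trA]
  rw [Finset.sum_congr rfl fun a _ => key a]
  rw [sum_fin2]
  have e : ∀ x : K, ∑ y : K, (if (![x, y] : Fin 2 → K) 1 = 0 then (0 : ℚ) else H ![0, 1]) =
      ∑ y : K, if y = 0 then (0 : ℚ) else H ![0, 1] := fun x => rfl
  rw [Finset.sum_congr rfl fun x _ => e x]
  rw [Finset.sum_const, Finset.card_univ, nsmul_eq_mul, mul_assoc]
  congr 1
  rw [← Finset.add_sum_erase _ _ (Finset.mem_univ (0 : K))]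
  rw [if_pos rfl, zero_add, Finset.sum_congr rfl fun x hx => if_neg (Finset.ne_of_mem_erase hx),
    Finset.sum_const, Finset.card_erase_of_mem (Finset.mem_univ _), Finset.card_univ,
    nsmul_eq_mul, Nat.cast_sub Fintype.card_pos]
  simp

/-! ### Invariance of the inner sums -/

section Inner

variable (F : ℕ → ℚ) (F2 : ℕ → ℕ → ℚ)

theorem inner_sc {r : K} (hr : r ≠ 0) (a : Fin 2 → K) :
    ∑ b, ∑ c, F2 (fib (scE 2 hr a) b c none) (Phi (scE 2 hr a) b c) =
      ∑ b, ∑ c, F2 (fib a b c none) (Phi a b c) := by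
  rw [← Equiv.sum_comp (scE 3 hr)]
  refine Finset.sum_congr rfl fun b _ => ?_
  rw [← Equiv.sum_comp (scE 4 hr)]
  simp only [fib_sc, Phi_sc]

theorem inner_tr (s : K) (a : Fin 2 → K) :
    ∑ b, ∑ c, F2 (fib (trA s a) b c none) (Phi (trA s a) b c) =
      ∑ b, ∑ c, F2 (fib a b c none) (Phi a b c) := by
  rw [← Equiv.sum_comp (trB s)]
  refine Finset.sum_congr rfl fun b _ => ?_
  rw [← Equiv.sum_comp (trC s)]
  simp only [fib_tr_none, Phi_tr]

theorem inner_sw (a : Fin 2 → K) :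
    ∑ b, ∑ c, F (Phi (swA a) b c) = ∑ b, ∑ c, F (Phi a b c) := by
  rw [← Equiv.sum_comp swB]
  refine Finset.sum_congr rfl fun b _ => ?_
  rw [← Equiv.sum_comp swC]
  simp only [Phi_sw]

theorem sum_all_Phi : ∑ a : Fin 2 → K, ∑ b, ∑ c, F (Phi a b c) =
    ∑ b : Fin 3 → K, ∑ c, F (Phi 0 b c) +
      ((Fintype.card K : ℚ) ^ 2 - 1) * ∑ b, ∑ c, F (Phi (![1, 0] : Fin 2 → K) b c) :=
  sum_a_all (fun a => ∑ b, ∑ c, F (Phi a b c))
    (fun _ hr a => inner_sc (fun _ => F) hr a) (fun s a => inner_tr (fun _ => F) s a)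
    (fun a => inner_sw F a)

theorem sum_all_Phi_c0 : ∑ a : Fin 2 → K, ∑ b, F (Phi a b (0 : Fin 4 → K)) =
    ∑ b : Fin 3 → K, F (Phi 0 b 0) +
      ((Fintype.card K : ℚ) ^ 2 - 1) * ∑ b, F (Phi (![1, 0] : Fin 2 → K) b 0) := by
  refine sum_a_all (fun a => ∑ b, F (Phi a b (0 : Fin 4 → K))) ?_ ?_ ?_
  · intro r hr a
    rw [← Equiv.sum_comp (scE 3 hr)]
    refine Finset.sum_congr rfl fun b _ => ?_
    rw [← Phi_sc hr a b 0]
    congr 2
    ext i
    simp [scE]
  · intro s a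
    rw [← Equiv.sum_comp (trB s)]
    refine Finset.sum_congr rfl fun b _ => ?_
    rw [← Phi_tr s a b 0]
    congr 2
    ext i
    fin_cases i <;> simp [trC]
  · intro a
    rw [← Equiv.sum_comp swB]
    refine Finset.sum_congr rfl fun b _ => ?_
    rw [← Phi_sw a b 0]
    congr 2
    ext i
    fin_cases i <;> simp [swC]

end Inner

/-! ### Quartics and cubics -/

theorem cnt_add (s : K) (D : K → K) : cnt (fun t => D (t + s)) = cnt D := by
  rw [cnt_eq_sum, cnt_eq_sum]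
  exact sum_add s fun t => nsq (D t)

theorem cnt_scale {e : K} (he : e ≠ 0) (D : K → K) : cnt (fun t => e ^ 2 * D t) = cnt D := by
  rw [cnt_eq_sum, cnt_eq_sum]
  exact Finset.sum_congr rfl fun t _ => nsq_scale he _

/-- sum over monic quartics -/
theorem sum_monic4 (h2 : (2 : K) ≠ 0) (g : ℕ → ℚ) :
    ∑ x : K, ∑ y : K, ∑ z : K, ∑ w : K,
      g (cnt fun t => t ^ 4 + x * t ^ 3 + y * t ^ 2 + z * t + w) =
      Fintype.card K * SDep K g := by
  have key : ∀ x : K, ∑ y : K, ∑ z : K, ∑ w : K,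
      g (cnt fun t => t ^ 4 + x * t ^ 3 + y * t ^ 2 + z * t + w) = SDep K g := by
    intro x
    obtain ⟨s, hs⟩ : ∃ s : K, x = -4 * s := ⟨-(x / 4), by
      have h4 : (4 : K) ≠ 0 := by
        have : (4 : K) = 2 * 2 := by norm_num
        rw [this]
        exact mul_ne_zero h2 h2
      field_simp⟩
    have e : ∀ y z w : K, (cnt fun t => t ^ 4 + x * t ^ 3 + y * t ^ 2 + z * t + w) =
        cnt fun t => t ^ 4 + (y - 6 * s ^ 2) * t ^ 2 + (z + 2 * y * s - 8 * s ^ 3) * t +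
          (w + z * s + y * s ^ 2 - 3 * s ^ 4) := by
      intro y z w
      rw [← cnt_add s fun t => t ^ 4 + x * t ^ 3 + y * t ^ 2 + z * t + w]
      congr 1
      funext t
      rw [hs]
      ring
    simp only [e]
    have e1 : ∀ y z : K, ∑ w : K, g (cnt fun t => t ^ 4 + (y - 6 * s ^ 2) * t ^ 2 +
        (z + 2 * y * s - 8 * s ^ 3) * t + (w + z * s + y * s ^ 2 - 3 * s ^ 4)) =
        ∑ w : K, g (cnt fun t => t ^ 4 + (y - 6 * s ^ 2) * t ^ 2 +
        (z + 2 * y * s - 8 * s ^ 3) * t + w) := by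
      intro y z
      rw [← sum_add (z * s + y * s ^ 2 - 3 * s ^ 4) fun w => g (cnt fun t => t ^ 4 +
        (y - 6 * s ^ 2) * t ^ 2 + (z + 2 * y * s - 8 * s ^ 3) * t + w)]
      refine Finset.sum_congr rfl fun w _ => ?_
      congr 2
      funext t
      ring
    simp only [e1]
    have e2 : ∀ y : K, ∑ z : K, ∑ w : K, g (cnt fun t => t ^ 4 + (y - 6 * s ^ 2) * t ^ 2 +
        (z + 2 * y * s - 8 * s ^ 3) * t + w) =
        ∑ z : K, ∑ w : K, g (cnt fun t => t ^ 4 + (y - 6 * s ^ 2) * t ^ 2 + z * t + w) := by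
      intro y
      rw [← sum_add (2 * y * s - 8 * s ^ 3) fun z => ∑ w : K, g (cnt fun t => t ^ 4 +
        (y - 6 * s ^ 2) * t ^ 2 + z * t + w)]
      refine Finset.sum_congr rfl fun z _ => Finset.sum_congr rfl fun w _ => ?_
      congr 2
      funext t
      ring
    simp only [e2]
    rw [SDep, ← sum_add (-(6 * s ^ 2)) fun y => ∑ z : K, ∑ w : K, g (cnt fun t => t ^ 4 +
      y * t ^ 2 + z * t + w)]
    simp only [sub_eq_add_neg]
  simp only [key, Finset.sum_const, Finset.card_univ, nsmul_eq_mul]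

/-- sum over quartics with a fixed square leading coefficient -/
theorem sum_sq4 (h2 : (2 : K) ≠ 0) {e : K} (he : e ≠ 0) (g : ℕ → ℚ) :
    ∑ x : K, ∑ y : K, ∑ z : K, ∑ w : K,
      g (cnt fun t => e ^ 2 * t ^ 4 + x * t ^ 3 + y * t ^ 2 + z * t + w) =
      Fintype.card K * SDep K g := by
  have he2 : e ^ 2 ≠ 0 := pow_ne_zero 2 he
  rw [← sum_monic4 h2 g]
  rw [← sum_scale he2]
  refine Finset.sum_congr rfl fun x _ => ?_
  rw [← sum_scale he2]
  refine Finset.sum_congr rfl fun y _ => ?_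
  rw [← sum_scale he2]
  refine Finset.sum_congr rfl fun z _ => ?_
  rw [← sum_scale he2]
  refine Finset.sum_congr rfl fun w _ => ?_
  rw [← cnt_scale he fun t => t ^ 4 + x * t ^ 3 + y * t ^ 2 + z * t + w]
  congr 2
  funext t
  ring

/-- sum over cubics with nonzero leading coefficient -/
theorem sum_cubic (h3 : (3 : K) ≠ 0) {e : K} (he : e ≠ 0) (g : ℕ → ℚ) :
    ∑ x : K, ∑ y : K, ∑ z : K, g (cnt fun t => e * t ^ 3 + x * t ^ 2 + y * t + z) =
      Fintype.card K * SAB K g := by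
  have he2 : e ^ 2 ≠ 0 := pow_ne_zero 2 he
  -- make it monic
  have e0 : ∀ x y z : K, (cnt fun t => e * t ^ 3 + x * t ^ 2 + y * t + z) =
      cnt fun t => t ^ 3 + x * t ^ 2 + (e * y) * t + e ^ 2 * z := by
    intro x y z
    rw [← cnt_scale he fun t => e * t ^ 3 + x * t ^ 2 + y * t + z]
    rw [cnt_eq_sum, cnt_eq_sum]
    rw [← sum_scale he fun t => nsq (t ^ 3 + x * t ^ 2 + (e * y) * t + e ^ 2 * z)]
    refine Finset.sum_congr rfl fun t _ => ?_
    congr 1
    ring
  simp only [e0]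
  have key : ∀ x : K, ∑ y : K, ∑ z : K, g (cnt fun t => t ^ 3 + x * t ^ 2 + (e * y) * t + e ^ 2 * z)
      = SAB K g := by
    intro x
    rw [sum_scale he fun y => ∑ z : K, g (cnt fun t => t ^ 3 + x * t ^ 2 + y * t + e ^ 2 * z)]
    have e1 : ∀ y : K, ∑ z : K, g (cnt fun t => t ^ 3 + x * t ^ 2 + y * t + e ^ 2 * z) =
        ∑ z : K, g (cnt fun t => t ^ 3 + x * t ^ 2 + y * t + z) := fun y =>
      sum_scale he2 fun z => g (cnt fun t => t ^ 3 + x * t ^ 2 + y * t + z)
    simp only [e1]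
    obtain ⟨s, hs⟩ : ∃ s : K, x = -3 * s := ⟨-(x / 3), by field_simp⟩
    have e2 : ∀ y z : K, (cnt fun t => t ^ 3 + x * t ^ 2 + y * t + z) =
        cnt fun t => t ^ 3 + (y - 3 * s ^ 2) * t + (z + y * s - 2 * s ^ 3) := by
      intro y z
      rw [← cnt_add s fun t => t ^ 3 + x * t ^ 2 + y * t + z]
      congr 1
      funext t
      rw [hs]
      ring
    simp only [e2]
    have e3 : ∀ y : K, ∑ z : K, g (cnt fun t => t ^ 3 + (y - 3 * s ^ 2) * t +
        (z + y * s - 2 * s ^ 3)) =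
        ∑ z : K, g (cnt fun t => t ^ 3 + (y - 3 * s ^ 2) * t + z) := by
      intro y
      rw [← sum_add (y * s - 2 * s ^ 3) fun z => g (cnt fun t => t ^ 3 +
        (y - 3 * s ^ 2) * t + z)]
      refine Finset.sum_congr rfl fun z _ => ?_
      congr 2
      funext t
      ring
    simp only [e3]
    rw [SAB, ← sum_add (-(3 * s ^ 2)) fun y => ∑ z : K, g (cnt fun t => t ^ 3 + y * t + z)]
    simp only [sub_eq_add_neg]
  simp only [key, Finset.sum_const, Finset.card_univ, nsmul_eq_mul]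

end Pool.Agent.E07280.P8
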