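/-
Package P8: the sum over `(b, c)` for `a = (1, 0)` and for `a = (0, 1)`.
-/
import Pool.Agent.E07280.P8b

open Finset

namespace Pool.Agent.E07280.P8

variable {K : Type} [Field K] [Fintype K] [DecidableEq K]

omit [Field K] [DecidableEq K] in
theorem sum_rev4 (f : K → K → K → K → ℚ) :
    ∑ x, ∑ y, ∑ z, ∑ w, f x y z w = ∑ w, ∑ z, ∑ y, ∑ x, f x y z w := by
  have e1 : ∀ x, ∑ y, ∑ z, ∑ w, f x y z w = ∑ w, ∑ z, ∑ y, f x y z w := by
    intro x
    rw [Finset.sum_congr rfl fun y _ => Finset.sum_comm (f := fun z w => f x y z w)]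
    rw [Finset.sum_comm (f := fun y w => ∑ z, f x y z w)]
    exact Finset.sum_congr rfl fun w _ => Finset.sum_comm
  rw [Finset.sum_congr rfl fun x _ => e1 x]
  rw [Finset.sum_comm]
  refine Finset.sum_congr rfl fun w _ => ?_
  rw [Finset.sum_comm]
  refine Finset.sum_congr rfl fun z _ => ?_
  rw [Finset.sum_comm]

omit [DecidableEq K] in
theorem sum_aff4 {v : K} (hv : v ≠ 0) (u3 u2 u1 u0 : K) (f : K → K → K → K → ℚ) :
    ∑ x, ∑ y, ∑ z, ∑ w, f (u3 + v * x) (u2 + v * y) (u1 + v * z) (u0 + v * w) =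
      ∑ x, ∑ y, ∑ z, ∑ w, f x y z w := by
  rw [sum_aff hv u3 fun x => ∑ y, ∑ z, ∑ w, f x (u2 + v * y) (u1 + v * z) (u0 + v * w)]
  refine Finset.sum_congr rfl fun x _ => ?_
  rw [sum_aff hv u2 fun y => ∑ z, ∑ w, f x y (u1 + v * z) (u0 + v * w)]
  refine Finset.sum_congr rfl fun y _ => ?_
  rw [sum_aff hv u1 fun z => ∑ w, f x y z (u0 + v * w)]
  refine Finset.sum_congr rfl fun z _ => ?_
  exact sum_aff hv u0 fun w => f x y z w

omit [DecidableEq K] in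
theorem sum_aff4' {v : K} (hv : v ≠ 0) (u3 u2 u1 u0 : K) (g f : K → K → K → K → ℚ)
    (h : ∀ x y z w, g x y z w = f (u3 + v * x) (u2 + v * y) (u1 + v * z) (u0 + v * w)) :
    ∑ x, ∑ y, ∑ z, ∑ w, g x y z w = ∑ x, ∑ y, ∑ z, ∑ w, f x y z w := by
  rw [← sum_aff4 hv u3 u2 u1 u0 f]
  simp only [h]

omit [DecidableEq K] in
theorem sum_split0 (f : K → ℚ) (r : ℚ) (h : ∀ x, x ≠ 0 → f x = r) :
    ∑ x, f x = f 0 + ((Fintype.card K : ℚ) - 1) * r := by
  classical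
  rw [← Finset.add_sum_erase _ _ (Finset.mem_univ (0 : K))]
  rw [Finset.sum_congr rfl fun x hx => h x (Finset.ne_of_mem_erase hx)]
  rw [Finset.sum_const, Finset.card_erase_of_mem (Finset.mem_univ _), Finset.card_univ,
    nsmul_eq_mul, Nat.cast_sub Fintype.card_pos]
  simp

omit [Fintype K] [DecidableEq K] in
theorem four_ne (h2 : (2 : K) ≠ 0) : (4 : K) ≠ 0 := by
  have : (4 : K) = 2 * 2 := by norm_num
  rw [this]
  exact mul_ne_zero h2 h2

/-! ### `a = (1, 0)` -/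

theorem fib10_some (h2 : (2 : K) ≠ 0) (b0 b1 b2 c0 c1 c2 c3 t : K) :
    fib (![1, 0] : Fin 2 → K) ![b0, b1, b2] ![c0, c1, c2, c3] (some t) =
      nsq (b2 ^ 2 * t ^ 4 + (2 * b1 * b2 + (-4) * c3) * t ^ 3 +
        (b1 ^ 2 + 2 * b0 * b2 + (-4) * c2) * t ^ 2 + (2 * b0 * b1 + (-4) * c1) * t +
        (b0 ^ 2 + (-4) * c0)) := by
  have h : fib (![1, 0] : Fin 2 → K) ![b0, b1, b2] ![c0, c1, c2, c3] (some t) =
      #{y : K | (1 : K) * y ^ 2 + (b0 + b1 * t + b2 * t ^ 2) * y +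
        (c0 + c1 * t + c2 * t ^ 2 + c3 * t ^ 3) = 0} := by
    rw [fib]
    simp [lin, quad, cub]
  rw [h, card_quadEq h2 one_ne_zero]
  congr 1
  ring

theorem fib10_none (b0 b1 b2 c0 c1 c2 c3 : K) :
    fib (![1, 0] : Fin 2 → K) ![b0, b1, b2] ![c0, c1, c2, c3] none =
      #{y : K | (0 : K) * y ^ 2 + b2 * y + c3 = 0} := by
  rw [fib]
  simp [lin, quad, cub]

theorem inner10 (h2 : (2 : K) ≠ 0) (h3 : (3 : K) ≠ 0) (G : ℕ → ℚ) (b0 b1 b2 : K) :
    ∑ c, G (Phi (![1, 0] : Fin 2 → K) ![b0, b1, b2] c) =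
      if b2 = 0 then ((Fintype.card K : ℚ) - 1) * (Fintype.card K * SAB K G) +
        ∑ x : K, ∑ y : K, ∑ z : K, G (cnt (fun t => x * t ^ 2 + y * t + z) + Fintype.card K)
      else Fintype.card K * SDep K (fun n => G (n + 1)) := by
  have h4 : (-4 : K) ≠ 0 := neg_ne_zero.2 (four_ne h2)
  have hPhi : ∀ c0 c1 c2 c3 : K, Phi (![1, 0] : Fin 2 → K) ![b0, b1, b2] ![c0, c1, c2, c3] =
      (cnt fun t => b2 ^ 2 * t ^ 4 + (2 * b1 * b2 + (-4) * c3) * t ^ 3 +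
        (b1 ^ 2 + 2 * b0 * b2 + (-4) * c2) * t ^ 2 + (2 * b0 * b1 + (-4) * c1) * t +
        (b0 ^ 2 + (-4) * c0)) + #{y : K | (0 : K) * y ^ 2 + b2 * y + c3 = 0} := by
    intro c0 c1 c2 c3
    rw [Phi_eq, cnt_eq_sum, fib10_none, add_comm]
    congr 1
    exact Finset.sum_congr rfl fun t _ => fib10_some h2 _ _ _ _ _ _ _ _
  rw [sum_fin4]
  rw [sum_rev4 fun c0 c1 c2 c3 => G (Phi (![1, 0] : Fin 2 → K) ![b0, b1, b2] ![c0, c1, c2, c3])]
  simp only [hPhi]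
  split_ifs with hb
  · subst hb
    rw [sum_aff4' h4 (2 * b1 * 0) (b1 ^ 2 + 2 * b0 * 0) (2 * b0 * b1) (b0 ^ 2) _
      (fun x y z w : K => G ((cnt fun t => x * t ^ 3 + y * t ^ 2 + z * t + w) +
          if x = 0 then Fintype.card K else 0))]
    · rw [sum_split0 _ (Fintype.card K * SAB K G)]
      · rw [add_comm]
        congr 1
        simp
      · intro x hx
        rw [← sum_cubic h3 hx G]
        simp [hx]
    · intro c3 c2 c1 c0
      rw [card_constEq]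
      have : (2 * b1 * 0 + (-4) * c3 = 0) ↔ c3 = 0 := by
        rw [mul_zero, zero_add, mul_eq_zero]
        exact or_iff_right h4
      simp only [this]
      congr 3
      funext t
      ring
  · rw [sum_aff4' h4 (2 * b1 * b2) (b1 ^ 2 + 2 * b0 * b2) (2 * b0 * b1) (b0 ^ 2) _
      (fun x y z w : K => G ((cnt fun t => b2 ^ 2 * t ^ 4 + x * t ^ 3 + y * t ^ 2 + z * t + w) +
          1))]
    · exact sum_sq4 h2 hb fun n => G (n + 1)
    · intro c3 c2 c1 c0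
      rw [card_linEq hb]

theorem sum10 (h2 : (2 : K) ≠ 0) (h3 : (3 : K) ≠ 0) (G : ℕ → ℚ) :
    ∑ b, ∑ c, G (Phi (![1, 0] : Fin 2 → K) b c) =
      (Fintype.card K : ℚ) ^ 3 * ((Fintype.card K : ℚ) - 1) *
        (SDep K (fun n => G (n + 1)) + SAB K G) +
      (Fintype.card K : ℚ) ^ 2 * ∑ x : K, ∑ y : K, ∑ z : K,
        G (cnt (fun t => x * t ^ 2 + y * t + z) + Fintype.card K) := by
  rw [sum_fin3]
  simp only [inner10 h2 h3]
  rw [Finset.sum_congr rfl fun b0 _ => Finset.sum_congr rfl fun b1 _ =>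
    sum_split0 _ (Fintype.card K * SDep K (fun n => G (n + 1))) fun b2 hb => if_neg hb]
  simp only [Finset.sum_const, Finset.card_univ, nsmul_eq_mul, if_true]
  ring

end Pool.Agent.E07280.P8
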