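/-
Package P8: the sum over `(b, c)` for `a = (0, 1)`.
-/
import Pool.Agent.E07280.P8c

open Finset

namespace Pool.Agent.E07280.P8

variable {K : Type} [Field K] [Fintype K] [DecidableEq K]

omit [DecidableEq K] in
theorem sum_quartic_shift (e s : K) (Ψ : (K → K) → ℚ) :
    ∑ x : K, ∑ y : K, ∑ z : K, ∑ w : K,
      Ψ (fun t => e * (t + s) ^ 4 + x * (t + s) ^ 3 + y * (t + s) ^ 2 + z * (t + s) + w) =
    ∑ x : K, ∑ y : K, ∑ z : K, ∑ w : K,
      Ψ (fun t => e * t ^ 4 + x * t ^ 3 + y * t ^ 2 + z * t + w) := by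
  rw [← sum_add (4 * e * s) fun x => ∑ y : K, ∑ z : K, ∑ w : K,
      Ψ (fun t => e * t ^ 4 + x * t ^ 3 + y * t ^ 2 + z * t + w)]
  refine Finset.sum_congr rfl fun x _ => ?_
  rw [← sum_add (3 * x * s + 6 * e * s ^ 2) fun y => ∑ z : K, ∑ w : K,
      Ψ (fun t => e * t ^ 4 + (x + 4 * e * s) * t ^ 3 + y * t ^ 2 + z * t + w)]
  refine Finset.sum_congr rfl fun y _ => ?_
  rw [← sum_add (2 * y * s + 3 * x * s ^ 2 + 4 * e * s ^ 3) fun z => ∑ w : K,
      Ψ (fun t => e * t ^ 4 + (x + 4 * e * s) * t ^ 3 +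
        (y + (3 * x * s + 6 * e * s ^ 2)) * t ^ 2 + z * t + w)]
  refine Finset.sum_congr rfl fun z _ => ?_
  rw [← sum_add (z * s + y * s ^ 2 + x * s ^ 3 + e * s ^ 4) fun w =>
      Ψ (fun t => e * t ^ 4 + (x + 4 * e * s) * t ^ 3 +
        (y + (3 * x * s + 6 * e * s ^ 2)) * t ^ 2 +
        (z + (2 * y * s + 3 * x * s ^ 2 + 4 * e * s ^ 3)) * t + w)]
  refine Finset.sum_congr rfl fun w _ => ?_
  congr 1
  funext t
  ring

theorem sum_nsq_mul (f : K → ℚ) : ∑ v : K, (nsq v : ℚ) * f v = ∑ b : K, f (b ^ 2) := by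
  have h : ∀ v : K, (nsq v : ℚ) * f v = ∑ b : K, if b ^ 2 = v then f v else 0 := by
    intro v
    rw [nsq, ← Finset.sum_filter, Finset.sum_const, nsmul_eq_mul]
  simp only [h]
  rw [Finset.sum_comm]
  refine Finset.sum_congr rfl fun b _ => ?_
  rw [Finset.sum_ite_eq]
  simp

/-- marking a point of the quartic -/
theorem sum_marked (h2 : (2 : K) ≠ 0) {x : K} (hx : nsq x = 2) (G : ℕ → ℚ) :
    ∑ b : K, ∑ y : K, ∑ z : K, ∑ w : K,
      G (1 + cnt fun t => x * t ^ 4 + y * t ^ 3 + z * t ^ 2 + w * t + b ^ 2) =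
      SDep K (fun n => n * G (n + 1)) := by
  obtain ⟨e, he⟩ : ∃ e : K, e ^ 2 = x := by
    have : (univ.filter fun y : K => y ^ 2 = x).Nonempty := by
      rw [← Finset.card_pos]
      have : #{y : K | y ^ 2 = x} = 2 := hx
      omega
    obtain ⟨e, he⟩ := this
    exact ⟨e, by simpa using he⟩
  have he0 : e ≠ 0 := by
    rintro rfl
    rw [← he] at hx
    rw [zero_pow two_ne_zero, nsq_zero] at hx
    omega
  have hq : (Fintype.card K : ℚ) ≠ 0 := by exact_mod_cast Fintype.card_ne_zero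
  have h := sum_sq4 h2 he0 fun n => (n : ℚ) * G (n + 1)
  apply mul_left_cancel₀ hq
  rw [← h]
  subst he
  -- expand the number of points
  have h1 : ∀ y z w v : K, (((cnt fun t => e ^ 2 * t ^ 4 + y * t ^ 3 + z * t ^ 2 + w * t + v) : ℕ)
      : ℚ) * G ((cnt fun t => e ^ 2 * t ^ 4 + y * t ^ 3 + z * t ^ 2 + w * t + v) + 1) =
      ∑ s : K, (fun D : K → K => (nsq (D 0) : ℚ) * G (1 + cnt D))
        (fun t => e ^ 2 * (t + s) ^ 4 + y * (t + s) ^ 3 + z * (t + s) ^ 2 + w * (t + s) + v) := by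
    intro y z w v
    have e1 : ∀ s : K, (cnt fun t => e ^ 2 * (t + s) ^ 4 + y * (t + s) ^ 3 + z * (t + s) ^ 2 +
        w * (t + s) + v) = cnt fun t => e ^ 2 * t ^ 4 + y * t ^ 3 + z * t ^ 2 + w * t + v :=
      fun s => cnt_add s fun t => e ^ 2 * t ^ 4 + y * t ^ 3 + z * t ^ 2 + w * t + v
    simp only [e1, zero_add]
    rw [← Finset.sum_mul, add_comm 1]
    congr 1
    rw [cnt_eq_sum]
    push_cast
    rfl
  simp only [h1]
  -- move the sum over `s` outside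
  have h2 : ∀ f : K → K → K → K → K → ℚ, ∑ y, ∑ z, ∑ w, ∑ v, ∑ s, f y z w v s =
      ∑ s, ∑ y, ∑ z, ∑ w, ∑ v, f y z w v s := by
    intro f
    have a1 : ∀ y z w, ∑ v, ∑ s, f y z w v s = ∑ s, ∑ v, f y z w v s :=
      fun y z w => Finset.sum_comm
    have a2 : ∀ y z, ∑ w, ∑ v, ∑ s, f y z w v s = ∑ s, ∑ w, ∑ v, f y z w v s := by
      intro y z
      rw [Finset.sum_congr rfl fun w _ => a1 y z w]
      exact Finset.sum_comm
    have a3 : ∀ y, ∑ z, ∑ w, ∑ v, ∑ s, f y z w v s = ∑ s, ∑ z, ∑ w, ∑ v, f y z w v s := by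
      intro y
      rw [Finset.sum_congr rfl fun z _ => a2 y z]
      exact Finset.sum_comm
    rw [Finset.sum_congr rfl fun y _ => a3 y]
    exact Finset.sum_comm
  rw [h2 fun y z w v s => (fun D : K → K => (nsq (D 0) : ℚ) * G (1 + cnt D))
        (fun t => e ^ 2 * (t + s) ^ 4 + y * (t + s) ^ 3 + z * (t + s) ^ 2 + w * (t + s) + v)]
  rw [Finset.sum_congr rfl fun s _ => sum_quartic_shift (e ^ 2) s
    (fun D : K → K => (nsq (D 0) : ℚ) * G (1 + cnt D))]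
  rw [Finset.sum_const, Finset.card_univ, nsmul_eq_mul]
  congr 1
  have h3 : ∀ y z w : K, ∑ v, (fun D : K → K => (nsq (D 0) : ℚ) * G (1 + cnt D))
        (fun t => e ^ 2 * t ^ 4 + y * t ^ 3 + z * t ^ 2 + w * t + v) =
      ∑ b : K, G (1 + cnt fun t => e ^ 2 * t ^ 4 + y * t ^ 3 + z * t ^ 2 + w * t + b ^ 2) := by
    intro y z w
    rw [← sum_nsq_mul fun v => G (1 + cnt fun t => e ^ 2 * t ^ 4 + y * t ^ 3 + z * t ^ 2 +
      w * t + v)]
    refine Finset.sum_congr rfl fun v _ => ?_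
    simp
  simp only [h3]
  rw [Finset.sum_comm]
  refine Finset.sum_congr rfl fun y _ => ?_
  rw [Finset.sum_comm]
  refine Finset.sum_congr rfl fun z _ => ?_
  rw [Finset.sum_comm]

theorem fib01_none (h2 : (2 : K) ≠ 0) (b0 b1 b2 c0 c1 c2 c3 : K) :
    fib (![0, 1] : Fin 2 → K) ![b0, b1, b2] ![c0, c1, c2, c3] none = nsq (b2 ^ 2 + (-4) * c3) := by
  have h : fib (![0, 1] : Fin 2 → K) ![b0, b1, b2] ![c0, c1, c2, c3] none =
      #{y : K | (1 : K) * y ^ 2 + b2 * y + c3 = 0} := by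
    rw [fib]
    simp [lin, quad, cub]
  rw [h, card_quadEq h2 one_ne_zero]
  congr 1
  ring

theorem fib01_zero (b0 b1 b2 c0 c1 c2 c3 : K) :
    fib (![0, 1] : Fin 2 → K) ![b0, b1, b2] ![c0, c1, c2, c3] (some 0) =
      #{y : K | (0 : K) * y ^ 2 + b0 * y + c0 = 0} := by
  rw [fib]
  simp [lin, quad, cub]

theorem fib01_some (h2 : (2 : K) ≠ 0) (b0 b1 b2 c0 c1 c2 c3 : K) {t : K} (ht : t ≠ 0) :
    fib (![0, 1] : Fin 2 → K) ![b0, b1, b2] ![c0, c1, c2, c3] (some t) =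
      nsq ((b2 ^ 2 + (-4) * c3) * t ^ 4 + (2 * b1 * b2 + (-4) * c2) * t ^ 3 +
        (b1 ^ 2 + 2 * b0 * b2 + (-4) * c1) * t ^ 2 + (2 * b0 * b1 + (-4) * c0) * t + b0 ^ 2) := by
  have h : fib (![0, 1] : Fin 2 → K) ![b0, b1, b2] ![c0, c1, c2, c3] (some t) =
      #{y : K | t * y ^ 2 + (b0 + b1 * t + b2 * t ^ 2) * y +
        (c0 + c1 * t + c2 * t ^ 2 + c3 * t ^ 3) = 0} := by
    rw [fib]
    simp [lin, quad, cub]
  rw [h, card_quadEq h2 ht]
  congr 1
  ring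

/-- the term of the sum for `a = (0,1)` -/
theorem Phi01 (h2 : (2 : K) ≠ 0) (b0 b1 b2 c0 c1 c2 c3 : K) (h : nsq (b2 ^ 2 + (-4) * c3) = 2) :
    Phi (![0, 1] : Fin 2 → K) ![b0, b1, b2] ![c0, c1, c2, c3] =
      1 + (cnt fun t => (b2 ^ 2 + (-4) * c3) * t ^ 4 + (2 * b1 * b2 + (-4) * c2) * t ^ 3 +
        (b1 ^ 2 + 2 * b0 * b2 + (-4) * c1) * t ^ 2 + (2 * b0 * b1 + (-4) * c0) * t + b0 ^ 2) +
      if b0 = 0 ∧ 2 * b0 * b1 + (-4) * c0 = 0 then Fintype.card K else 0 := by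
  have h4 : (-4 : K) ≠ 0 := neg_ne_zero.2 (four_ne h2)
  rw [Phi_eq, fib01_none h2, h, cnt_eq_sum]
  rw [← Finset.add_sum_erase _ _ (Finset.mem_univ (0 : K))]
  rw [← Finset.add_sum_erase (a := (0 : K)) _ (fun t => nsq ((b2 ^ 2 + (-4) * c3) * t ^ 4 +
    (2 * b1 * b2 + (-4) * c2) * t ^ 3 + (b1 ^ 2 + 2 * b0 * b2 + (-4) * c1) * t ^ 2 +
    (2 * b0 * b1 + (-4) * c0) * t + b0 ^ 2)) (Finset.mem_univ (0 : K))]
  rw [fib01_zero]
  rw [Finset.sum_congr rfl fun t ht => fib01_some h2 b0 b1 b2 c0 c1 c2 c3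
    (Finset.ne_of_mem_erase ht)]
  have e0 : (b2 ^ 2 + (-4) * c3) * 0 ^ 4 + (2 * b1 * b2 + (-4) * c2) * 0 ^ 3 +
    (b1 ^ 2 + 2 * b0 * b2 + (-4) * c1) * 0 ^ 2 + (2 * b0 * b1 + (-4) * c0) * 0 + b0 ^ 2 =
    b0 ^ 2 := by ring
  rw [e0]
  by_cases hb : b0 = 0
  · subst hb
    rw [card_constEq]
    have e1 : (0 : K) ^ 2 = 0 := by ring
    have e2 : (2 * 0 * b1 + (-4) * c0 = 0) ↔ c0 = 0 := by
      rw [mul_zero, zero_mul, zero_add, mul_eq_zero]
      exact or_iff_right h4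
    simp only [e1, nsq_zero, e2, true_and]
    ring
  · rw [card_linEq hb, nsq_sq h2 hb]
    simp only [hb, false_and, if_false]
    ring

theorem inner01 (h2 : (2 : K) ≠ 0) (G : ℕ → ℚ) (b0 b1 b2 : K) :
    ∑ c, (if fib (![0, 1] : Fin 2 → K) ![b0, b1, b2] c none = 2 then
        G (Phi (![0, 1] : Fin 2 → K) ![b0, b1, b2] c) else 0) =
      ∑ x : K, ∑ y : K, ∑ z : K, ∑ w : K, (if nsq x = 2 then
        G (1 + (cnt fun t => x * t ^ 4 + y * t ^ 3 + z * t ^ 2 + w * t + b0 ^ 2) +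
          if b0 = 0 ∧ w = 0 then Fintype.card K else 0) else 0) := by
  have h4 : (-4 : K) ≠ 0 := neg_ne_zero.2 (four_ne h2)
  rw [sum_fin4]
  rw [sum_rev4 fun c0 c1 c2 c3 => (if fib (![0, 1] : Fin 2 → K) ![b0, b1, b2]
    ![c0, c1, c2, c3] none = 2 then
        G (Phi (![0, 1] : Fin 2 → K) ![b0, b1, b2] ![c0, c1, c2, c3]) else 0)]
  refine sum_aff4' h4 (b2 ^ 2) (2 * b1 * b2) (b1 ^ 2 + 2 * b0 * b2) (2 * b0 * b1) _
    (fun x y z w : K => (if nsq x = 2 then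
        G (1 + (cnt fun t => x * t ^ 4 + y * t ^ 3 + z * t ^ 2 + w * t + b0 ^ 2) +
          if b0 = 0 ∧ w = 0 then Fintype.card K else 0) else 0)) ?_
  intro c3 c2 c1 c0
  rw [fib01_none h2]
  by_cases h : nsq (b2 ^ 2 + (-4) * c3) = 2
  · rw [if_pos h, if_pos h, Phi01 h2 b0 b1 b2 c0 c1 c2 c3 h]
  · rw [if_neg h, if_neg h]

/-- number of nonzero squares -/
theorem sum_nsq2 (h2 : (2 : K) ≠ 0) (Θ : ℕ → ℚ) :
    ∑ v : K, Θ (nsq v) = Θ 1 + ((Fintype.card K : ℚ) - 1) / 2 * (Θ 2 + Θ 0) := by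
  have hv : ∀ v : K, v ≠ 0 → nsq v = 2 ∨ nsq v = 0 := by
    intro v hv
    by_cases h : ∃ e : K, e ^ 2 = v
    · obtain ⟨e, rfl⟩ := h
      left
      exact nsq_sq h2 fun h => hv (by rw [h]; ring)
    · right
      rw [nsq, Finset.card_eq_zero, Finset.filter_eq_empty_iff]
      intro y _ hy
      exact h ⟨y, hy⟩
  -- linear interpolation
  have hlin : ∀ v : K, v ≠ 0 → Θ (nsq v) = Θ 0 + (nsq v : ℚ) * ((Θ 2 - Θ 0) / 2) := by
    intro v hv'
    rcases hv v hv' with h | h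
    · rw [h]
      push_cast
      ring
    · rw [h]
      push_cast
      ring
  have hsum : ∑ v : K, (nsq v : ℚ) = Fintype.card K := by
    have := sum_nsq_mul (K := K) fun _ => 1
    simpa using this
  rw [← Finset.add_sum_erase _ _ (Finset.mem_univ (0 : K))] at hsum ⊢
  rw [nsq_zero] at hsum ⊢
  rw [Finset.sum_congr rfl fun v hv' => hlin v (Finset.ne_of_mem_erase hv')]
  rw [Finset.sum_add_distrib, ← Finset.sum_mul, Finset.sum_const,
    Finset.card_erase_of_mem (Finset.mem_univ _), Finset.card_univ, nsmul_eq_mul,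
    Nat.cast_sub Fintype.card_pos]
  have : ∑ x ∈ univ.erase (0 : K), (nsq x : ℚ) = Fintype.card K - 1 := by
    push_cast at hsum
    linarith
  rw [this]
  push_cast
  ring

theorem sum01 (h2 : (2 : K) ≠ 0) (G : ℕ → ℚ) :
    ∑ b, ∑ c, (if fib (![0, 1] : Fin 2 → K) b c none = 2 then
        G (Phi (![0, 1] : Fin 2 → K) b c) else 0) =
      (Fintype.card K : ℚ) ^ 2 * (((Fintype.card K : ℚ) - 1) / 2 *
        SDep K (fun n => n * G (n + 1)) +
        ∑ x : K, ∑ y : K, ∑ z : K, (if nsq x = 2 then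
          (G (1 + (cnt fun t => x * t ^ 4 + y * t ^ 3 + z * t ^ 2) + Fintype.card K) -
            G (1 + (cnt fun t => x * t ^ 4 + y * t ^ 3 + z * t ^ 2))) else 0)) := by
  rw [sum_fin3]
  simp only [inner01 h2]
  simp only [Finset.sum_const, Finset.card_univ, nsmul_eq_mul]
  rw [← Finset.mul_sum, ← Finset.mul_sum, ← mul_assoc, ← sq]
  congr 1
  -- split off the correction
  have hsplit : ∀ b0 x y z w : K, (if nsq x = 2 then
        G (1 + (cnt fun t => x * t ^ 4 + y * t ^ 3 + z * t ^ 2 + w * t + b0 ^ 2) +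
          if b0 = 0 ∧ w = 0 then Fintype.card K else 0) else 0) =
      (if nsq x = 2 then
        G (1 + (cnt fun t => x * t ^ 4 + y * t ^ 3 + z * t ^ 2 + w * t + b0 ^ 2)) else 0) +
      (if b0 = 0 then (if w = 0 then (if nsq x = 2 then
          (G (1 + (cnt fun t => x * t ^ 4 + y * t ^ 3 + z * t ^ 2) + Fintype.card K) -
            G (1 + (cnt fun t => x * t ^ 4 + y * t ^ 3 + z * t ^ 2))) else 0) else 0) else 0) := by
    intro b0 x y z w
    by_cases hx : nsq x = 2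
    · by_cases hb : b0 = 0
      · by_cases hw : w = 0
        · subst hb hw
          simp [hx]
        · simp [hx, hb, hw]
      · simp [hx, hb]
    · simp [hx]
  simp only [hsplit, Finset.sum_add_distrib]
  congr 1
  · -- the main part
    have e1 : ∀ x : K, ∑ b0 : K, ∑ y : K, ∑ z : K, ∑ w : K, (if nsq x = 2 then
        G (1 + (cnt fun t => x * t ^ 4 + y * t ^ 3 + z * t ^ 2 + w * t + b0 ^ 2)) else 0) =
        (fun n : ℕ => if n = 2 then SDep K (fun n => n * G (n + 1)) else 0) (nsq x) := by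
      intro x
      by_cases hx : nsq x = 2
      · simp only [hx, if_true]
        exact sum_marked h2 hx G
      · simp only [hx, if_false, Finset.sum_const_zero]
    rw [Finset.sum_comm]
    rw [Finset.sum_congr rfl fun x _ => e1 x]
    rw [sum_nsq2 h2 fun n : ℕ => if n = 2 then SDep K (fun n => n * G (n + 1)) else 0]
    simp
  · rw [Finset.sum_eq_single_of_mem (0 : K) (Finset.mem_univ _)]
    · simp
    · intro b _ hb
      simp [hb]

end Pool.Agent.E07280.P8
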