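/-
Package P8: points on `y² = D(t)` for quadratic `D`.
-/
import Pool.Agent.E07280.P8d

open Finset

namespace Pool.Agent.E07280.P8

variable {K : Type} [Field K] [Fintype K] [DecidableEq K]

omit [Fintype K] [DecidableEq K] in
theorem ringChar_ne (h2 : (2 : K) ≠ 0) : ringChar K ≠ 2 := by
  intro h
  apply h2
  have := ringChar.Nat.cast_ringChar (R := K)
  rw [h] at this
  exact_mod_cast this

theorem nsq_cases (h2 : (2 : K) ≠ 0) {v : K} (hv : v ≠ 0) : nsq v = 2 ∨ nsq v = 0 := by
  by_cases h : ∃ e : K, e ^ 2 = v
  · obtain ⟨e, rfl⟩ := h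
    left
    exact nsq_sq h2 fun h => hv (by rw [h]; ring)
  · right
    rw [nsq, Finset.card_eq_zero, Finset.filter_eq_empty_iff]
    intro y _ hy
    exact h ⟨y, hy⟩

/-- sum of a function which only depends on the quadratic character -/
theorem sum_chi (h2 : (2 : K) ≠ 0) (f : K → ℚ) (r1 r2 r0 : ℚ) (h1 : f 0 = r1)
    (hs : ∀ x, nsq x = 2 → f x = r2) (hn : ∀ x, nsq x = 0 → f x = r0) :
    ∑ x, f x = r1 + ((Fintype.card K : ℚ) - 1) / 2 * (r2 + r0) := by
  have key : ∀ x, f x = (fun n : ℕ => if n = 1 then r1 else if n = 2 then r2 else r0) (nsq x) := by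
    intro x
    by_cases hx : x = 0
    · subst hx
      simp only [nsq_zero, h1, if_true]
    · rcases nsq_cases h2 hx with h | h
      · simp [h, hs x h]
      · simp [h, hn x h]
  rw [Finset.sum_congr rfl fun x _ => key x,
    sum_nsq2 h2 (fun n : ℕ => if n = 1 then r1 else if n = 2 then r2 else r0)]
  norm_num

theorem sum_nsq_all : ∑ v : K, nsq v = Fintype.card K := by
  have := sum_nsq_mul (K := K) fun _ => 1
  have h : ((∑ v : K, nsq v : ℕ) : ℚ) = (Fintype.card K : ℚ) := by
    push_cast
    simpa using this
  exact_mod_cast h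

theorem nsq_nonsq (h2 : (2 : K) ≠ 0) {x : K} (hx : nsq x = 0) (v : K) :
    nsq v + nsq (x * v) = 2 := by
  have h := ringChar_ne h2
  have e1 := nsq_eq h x
  have e2 := nsq_eq h v
  have e3 := nsq_eq h (x * v)
  rw [map_mul] at e3
  rw [hx] at e1
  have e4 : quadraticChar K x = -1 := by
    push_cast at e1
    linarith
  rw [e4] at e3
  have : ((nsq v + nsq (x * v) : ℕ) : ℤ) = 2 := by
    push_cast
    rw [e2, e3]
    ring
  exact_mod_cast this

/-- `y² = t² + δ` -/
theorem cnt_sq_add (h2 : (2 : K) ≠ 0) (δ : K) :
    cnt (fun t => t ^ 2 + δ) = (if δ = 0 then Fintype.card K else 0) + (Fintype.card K - 1) := by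
  have h : cnt (fun t => t ^ 2 + δ) = #{P : K × K | P.1 * P.2 = δ} := by
    rw [cnt]
    refine Finset.card_bij' (fun P _ => (P.2 - P.1, P.2 + P.1))
      (fun P _ => ((P.2 - P.1) / 2, (P.2 + P.1) / 2)) ?_ ?_ ?_ ?_
    · intro P hP
      simp only [mem_filter, mem_univ, true_and] at hP ⊢
      linear_combination hP
    · intro P hP
      simp only [mem_filter, mem_univ, true_and] at hP ⊢
      field_simp
      linear_combination 4 * hP
    · intro P _
      ext
      · simp
        field_simp
        ring
      · simp
        field_simp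
        ring
    · intro P _
      ext
      · simp
        field_simp
        ring
      · simp
        field_simp
        ring
  rw [h, Finset.card_filter, Fintype.sum_prod_type]
  rw [← Finset.add_sum_erase _ _ (Finset.mem_univ (0 : K))]
  congr 1
  · by_cases hδ : δ = 0
    · simp [hδ]
    · simp [hδ, Ne.symm hδ]
  · have e : ∀ x ∈ univ.erase (0 : K), (∑ y : K, if x * y = δ then 1 else 0) = 1 := by
      intro x hx
      have hx0 : x ≠ 0 := Finset.ne_of_mem_erase hx
      have : ∀ y : K, (x * y = δ) ↔ (y = δ / x) := by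
        intro y
        rw [eq_div_iff hx0, mul_comm]
      simp [this]
    simp only [] at e ⊢
    rw [Finset.sum_congr rfl e]
    simp [Finset.card_erase_of_mem]

/-- `y² = x t² + δ`, `x` a nonzero square -/
theorem cnt_quad_sq (h2 : (2 : K) ≠ 0) {x : K} (hx : nsq x = 2) (δ : K) :
    cnt (fun t => x * t ^ 2 + δ) =
      (if δ = 0 then Fintype.card K else 0) + (Fintype.card K - 1) := by
  obtain ⟨e, he⟩ : ∃ e : K, e ^ 2 = x := by
    have : (univ.filter fun y : K => y ^ 2 = x).Nonempty := by
      rw [← Finset.card_pos]
      have : #{y : K | y ^ 2 = x} = 2 := hx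
      omega
    obtain ⟨e, he⟩ := this
    exact ⟨e, by simpa using he⟩
  have he0 : e ≠ 0 := by
    rintro rfl
    rw [← he] at hx
    rw [zero_pow two_ne_zero, nsq_zero] at hx
    omega
  rw [← cnt_sq_add h2, cnt_eq_sum, cnt_eq_sum, ← sum_scale he0 fun t => nsq (t ^ 2 + δ)]
  refine Finset.sum_congr rfl fun t _ => ?_
  rw [← he]
  congr 1
  ring

/-- `y² = x t² + δ`, `x` a nonsquare -/
theorem cnt_quad_nonsq (h2 : (2 : K) ≠ 0) {x : K} (hx : nsq x = 0) (δ : K) :
    cnt (fun t => x * t ^ 2 + δ) = if δ = 0 then 1 else Fintype.card K + 1 := by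
  have hx0 : x ≠ 0 := by
    rintro rfl
    rw [nsq_zero] at hx
    omega
  have hq : 0 < Fintype.card K := Fintype.card_pos
  have h : cnt (fun t => x * t ^ 2 + δ) + cnt (fun t => t ^ 2 + (-δ)) = 2 * Fintype.card K := by
    have e1 : cnt (fun t => x * t ^ 2 + δ) = ∑ y : K, nsq (x * (y ^ 2 + -δ)) := by
      rw [cnt, Finset.card_filter, Fintype.sum_prod_type, Finset.sum_comm]
      refine Finset.sum_congr rfl fun y _ => ?_
      rw [← Finset.card_filter, nsq]
      refine Finset.card_bij' (fun t _ => x * t) (fun t _ => t / x) ?_ ?_ ?_ ?_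
      · intro t ht
        simp only [mem_filter, mem_univ, true_and] at ht ⊢
        linear_combination (-x) * ht
      · intro t ht
        simp only [mem_filter, mem_univ, true_and] at ht ⊢
        rw [div_pow, ht]
        field_simp
        ring
      · intro t _
        field_simp
      · intro t _
        field_simp
    rw [e1, cnt_eq_sum, ← Finset.sum_add_distrib]
    rw [Finset.sum_congr rfl fun y _ => by rw [add_comm, nsq_nonsq h2 hx]]
    simp [mul_comm]
  rw [cnt_sq_add h2] at h
  by_cases hδ : δ = 0
  · simp only [hδ, neg_zero, if_true] at h ⊢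
    omega
  · simp only [hδ, neg_eq_zero, if_false] at h ⊢
    omega

theorem cnt_linear {y : K} (hy : y ≠ 0) (z : K) : cnt (fun t => y * t + z) = Fintype.card K := by
  rw [cnt_eq_sum, ← sum_nsq_all]
  have := sum_aff hy z fun t => nsq t
  rw [← this]
  refine Finset.sum_congr rfl fun t _ => ?_
  rw [add_comm]

theorem cnt_const (z : K) : cnt (fun _ => z) = Fintype.card K * nsq z := by
  rw [cnt_eq_sum, Finset.sum_const, Finset.card_univ, smul_eq_mul]

/-- closed form of the sum over quadratic polynomials -/
theorem sum_quad (h2 : (2 : K) ≠ 0) (g : ℕ → ℚ) :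
    ∑ x : K, ∑ y : K, ∑ z : K, g (cnt fun t => x * t ^ 2 + y * t + z) =
      (g (Fintype.card K) + ((Fintype.card K : ℚ) - 1) / 2 *
          (g (2 * Fintype.card K) + g 0) +
        ((Fintype.card K : ℚ) - 1) * (Fintype.card K * g (Fintype.card K))) +
      ((Fintype.card K : ℚ) - 1) / 2 * (
        Fintype.card K * (g (2 * Fintype.card K - 1) +
          ((Fintype.card K : ℚ) - 1) * g (Fintype.card K - 1)) +
        Fintype.card K * (g 1 + ((Fintype.card K : ℚ) - 1) * g (Fintype.card K + 1))) := by
  have hq : 0 < Fintype.card K := Fintype.card_pos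
  -- complete the square
  have hx0 : ∀ x : K, x ≠ 0 → ∑ y : K, ∑ z : K, g (cnt fun t => x * t ^ 2 + y * t + z) =
      Fintype.card K * ∑ δ : K, g (cnt fun t => x * t ^ 2 + δ) := by
    intro x hx
    have e : ∀ y : K, ∑ z : K, g (cnt fun t => x * t ^ 2 + y * t + z) =
        ∑ δ : K, g (cnt fun t => x * t ^ 2 + δ) := by
      intro y
      have h4 := four_ne h2
      rw [← sum_add (-(y ^ 2 / (4 * x))) fun δ => g (cnt fun t => x * t ^ 2 + δ)]
      refine Finset.sum_congr rfl fun z _ => ?_
      congr 1
      rw [← cnt_add (-(y / (2 * x))) fun t => x * t ^ 2 + y * t + z]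
      congr 1
      funext t
      field_simp
      ring
    simp only [e, Finset.sum_const, Finset.card_univ, nsmul_eq_mul]
  refine sum_chi h2 _ _ _ _ ?_ ?_ ?_
  · rw [sum_split0 _ (Fintype.card K * g (Fintype.card K))]
    · congr 1
      rw [sum_chi h2 (fun z : K => g (cnt fun t => 0 * t ^ 2 + 0 * t + z))
        (g (Fintype.card K)) (g (2 * Fintype.card K)) (g 0)]
      · have : cnt (fun t : K => 0 * t ^ 2 + 0 * t + 0) = Fintype.card K * nsq (0 : K) := by
          rw [← cnt_const]
          congr 1
          funext t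
          ring
        simp only [this, nsq_zero, mul_one]
      · intro z hz
        have : cnt (fun t : K => 0 * t ^ 2 + 0 * t + z) = Fintype.card K * nsq z := by
          rw [← cnt_const]
          congr 1
          funext t
          ring
        rw [this, hz, mul_comm]
      · intro z hz
        have : cnt (fun t : K => 0 * t ^ 2 + 0 * t + z) = Fintype.card K * nsq z := by
          rw [← cnt_const]
          congr 1
          funext t
          ring
        simp only [this, hz, mul_zero]
    · intro y hy
      have e : ∀ z : K, g (cnt fun t => 0 * t ^ 2 + y * t + z) = g (Fintype.card K) := by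
        intro z
        rw [← cnt_linear hy z]
        congr 2
        funext t
        ring
      simp only [e, Finset.sum_const, Finset.card_univ, nsmul_eq_mul]
  · intro x hx
    have hx1 : x ≠ 0 := by
      rintro rfl
      rw [nsq_zero] at hx
      omega
    rw [hx0 x hx1]
    congr 1
    rw [sum_split0 _ (g (Fintype.card K - 1))]
    · rw [cnt_quad_sq h2 hx, if_pos rfl]
      congr 2
      omega
    · intro δ hδ
      rw [cnt_quad_sq h2 hx, if_neg hδ, zero_add]
  · intro x hx
    have hx1 : x ≠ 0 := by
      rintro rfl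
      rw [nsq_zero] at hx
      omega
    rw [hx0 x hx1]
    congr 1
    rw [sum_split0 _ (g (Fintype.card K + 1))]
    · rw [cnt_quad_nonsq h2 hx, if_pos rfl]
    · intro δ hδ
      rw [cnt_quad_nonsq h2 hx, if_neg hδ]

/-- closed form of the correction term for `a = (0,1)` -/
theorem sum_corr (h2 : (2 : K) ≠ 0) (H : ℕ → ℚ) :
    ∑ x : K, ∑ y : K, ∑ z : K, (if nsq x = 2 then
      H (cnt fun t => x * t ^ 4 + y * t ^ 3 + z * t ^ 2) else 0) =
      ((Fintype.card K : ℚ) - 1) / 2 * (
        (H (2 * Fintype.card K - 1) + ((Fintype.card K : ℚ) - 1) * H (Fintype.card K - 1)) +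
        ((Fintype.card K : ℚ) - 1) / 2 *
          ((2 * H (2 * Fintype.card K - 2) + ((Fintype.card K : ℚ) - 2) * H (Fintype.card K - 2)) +
            Fintype.card K * H (Fintype.card K))) := by
  have hq : 0 < Fintype.card K := Fintype.card_pos
  have h4 := four_ne h2
  rw [sum_chi h2 _ 0 ((H (2 * Fintype.card K - 1) +
    ((Fintype.card K : ℚ) - 1) * H (Fintype.card K - 1)) +
        ((Fintype.card K : ℚ) - 1) / 2 *
          ((2 * H (2 * Fintype.card K - 2) + ((Fintype.card K : ℚ) - 2) * H (Fintype.card K - 2)) +
            Fintype.card K * H (Fintype.card K))) 0]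
  · ring
  · simp [nsq_zero]
  · intro x hx
    simp only [hx, if_true]
    have hx0 : x ≠ 0 := by
      rintro rfl
      rw [nsq_zero] at hx
      omega
    rw [Finset.sum_comm]
    -- number of points
    have hc : ∀ y z : K, cnt (fun t => x * t ^ 4 + y * t ^ 3 + z * t ^ 2) =
        (if y ^ 2 = 4 * x * z then Fintype.card K else 0) + Fintype.card K - nsq z := by
      intro y z
      have e1 : cnt (fun t => x * t ^ 2 + y * t + z) =
          (if y ^ 2 = 4 * x * z then Fintype.card K else 0) + (Fintype.card K - 1) := by
        have := cnt_quad_sq h2 hx (z - y ^ 2 / (4 * x))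
        have e2 : (z - y ^ 2 / (4 * x) = 0) ↔ (y ^ 2 = 4 * x * z) := by
          rw [sub_eq_zero, eq_div_iff (mul_ne_zero h4 hx0)]
          constructor
          · intro h
            linear_combination -h
          · intro h
            linear_combination -h
        simp only [e2] at this
        rw [← this, ← cnt_add (-(y / (2 * x))) fun t => x * t ^ 2 + y * t + z]
        congr 1
        funext t
        field_simp
        ring
      have e3 : cnt (fun t => x * t ^ 4 + y * t ^ 3 + z * t ^ 2) + nsq z =
          1 + cnt (fun t => x * t ^ 2 + y * t + z) := by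
        rw [cnt_eq_sum, cnt_eq_sum]
        rw [← Finset.add_sum_erase _ _ (Finset.mem_univ (0 : K))]
        rw [← Finset.add_sum_erase (a := (0 : K)) _ (fun t => nsq (x * t ^ 2 + y * t + z))
          (Finset.mem_univ (0 : K))]
        have a1 : x * 0 ^ 4 + y * 0 ^ 3 + z * 0 ^ 2 = (0 : K) := by ring
        have a2 : x * 0 ^ 2 + y * 0 + z = z := by ring
        rw [a1, a2, nsq_zero]
        have a3 : ∀ t ∈ univ.erase (0 : K), nsq (x * t ^ 4 + y * t ^ 3 + z * t ^ 2) =
            nsq (x * t ^ 2 + y * t + z) := by
          intro t ht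
          rw [← nsq_scale (Finset.ne_of_mem_erase ht) (x * t ^ 2 + y * t + z)]
          congr 1
          ring
        rw [Finset.sum_congr rfl a3]
        ring
      rw [e1] at e3
      have : nsq z ≤ 1 + ((if y ^ 2 = 4 * x * z then Fintype.card K else 0) +
        (Fintype.card K - 1)) := by omega
      omega
    have hfib : ∀ z : K, ∑ y : K, H (cnt (fun t => x * t ^ 4 + y * t ^ 3 + z * t ^ 2)) =
        (fun n : ℕ => (n : ℚ) * H (2 * Fintype.card K - n) +
          ((Fintype.card K : ℚ) - n) * H (Fintype.card K - n)) (nsq z) := by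
      intro z
      have hN : #{y : K | y ^ 2 = 4 * x * z} = nsq z := by
        have hh : nsq (4 * x * z) = nsq z := by
          obtain ⟨e, he⟩ : ∃ e : K, e ^ 2 = x := by
            have : (univ.filter fun y : K => y ^ 2 = x).Nonempty := by
              rw [← Finset.card_pos]
              have : #{y : K | y ^ 2 = x} = 2 := hx
              omega
            obtain ⟨e, he⟩ := this
            exact ⟨e, by simpa using he⟩
          have he0 : e ≠ 0 := by
            rintro rfl
            apply hx0
            rw [← he]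
            ring
          rw [← nsq_scale (mul_ne_zero h2 he0) z, ← he]
          congr 1
          ring
        rw [← hh]
        rfl
      have e : ∀ y : K, H (cnt (fun t => x * t ^ 4 + y * t ^ 3 + z * t ^ 2)) =
          H (Fintype.card K - nsq z) + if y ^ 2 = 4 * x * z then
            (H (2 * Fintype.card K - nsq z) - H (Fintype.card K - nsq z)) else 0 := by
        intro y
        rw [hc]
        split_ifs with h
        · rw [two_mul]
          ring
        · rw [zero_add, add_zero]
      rw [Finset.sum_congr rfl fun y _ => e y, Finset.sum_add_distrib, ← Finset.sum_filter,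
        Finset.sum_const, Finset.sum_const, hN, Finset.card_univ, nsmul_eq_mul, nsmul_eq_mul]
      ring
    refine sum_chi h2 _ _ _ _ ?_ ?_ ?_
    · rw [hfib, nsq_zero]
      push_cast
      ring
    · intro z hz
      rw [hfib, hz]
      push_cast
      ring
    · intro z hz
      rw [hfib, hz]
      push_cast
      simp
  · intro x hx
    simp [hx]

end Pool.Agent.E07280.P8
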