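/-
Package P8: numbers of zeros of forms, Newton interpolation.
-/
import Pool.Agent.E07280.P8e

open Finset

namespace Pool.Agent.E07280.P8

/-! ### Newton interpolation -/

/-- `k`-th difference at `0` -/
def nd (h : ℕ → ℚ) (k : ℕ) : ℚ :=
  ∑ j ∈ range (k + 1), ((-1 : ℚ) ^ (k - j) * (k.choose j : ℚ)) * h j

theorem newton (h : ℕ → ℚ) {z n : ℕ} (hz : z < n) :
    h z = ∑ k ∈ range n, (z.choose k : ℚ) * nd h k := by
  have h1 := shift_eq_sum_fwdDiff_iter (1 : ℕ) h z 0
  have h2 : ∀ k, (fwdDiff (1 : ℕ))^[k] h 0 = nd h k := by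
    intro k
    rw [fwdDiff_iter_eq_sum_shift, nd]
    refine Finset.sum_congr rfl fun j _ => ?_
    simp
  simp only [h2, nsmul_eq_mul, smul_eq_mul, mul_one, zero_add] at h1
  rw [h1]
  refine Finset.sum_subset (Finset.range_subset_range.2 (by omega)) ?_
  intro k _ hk
  rw [Finset.mem_range, not_lt] at hk
  rw [Nat.choose_eq_zero_of_lt (by omega)]
  simp

theorem nd_ratFun {h : Nat.Primes → ℕ → ℚ} {n : ℕ}
    (hh : ∀ j, j < n → RatFun fun p => h p j) {k : ℕ} (hk : k < n) :
    RatFun fun p => nd (h p) k := by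
  unfold nd
  refine RatFun.sum _ fun j hj => ?_
  rw [Finset.mem_range] at hj
  exact (RatFun.const _).mul (hh j (by omega))

/-! ### Linear systems with few zeros -/

section Ev

variable {K : Type} [Field K] [Fintype K] [DecidableEq K]
variable {n : ℕ} {T : Type} [Fintype T] [DecidableEq T]

theorem card_vanish (ev : (Fin n → K) →ₗ[K] (T → K))
    (hz : ∀ c, c ≠ 0 → #{t | ev c t = 0} < n) (hT : n ≤ Fintype.card T) (S : Finset T)
    (hS : #S ≤ n) : #{c | ∀ t ∈ S, ev c t = 0} = Fintype.card K ^ (n - #S) := by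
  classical
  -- evaluation on `S`
  have hsurj : ∀ R : Finset T, #R ≤ n →
      Function.Surjective ((LinearMap.funLeft K K (fun t : R => (t : T))).comp ev) := by
    intro R hR
    obtain ⟨R', hRR', hR'⟩ := Finset.exists_superset_card_eq hR hT
    have hinj : Function.Injective ((LinearMap.funLeft K K (fun t : R' => (t : T))).comp ev) := by
      rw [← LinearMap.ker_eq_bot, LinearMap.ker_eq_bot']
      intro c hc
      by_contra hne
      have h1 := hz c hne
      have h2 : R' ⊆ univ.filter fun t => ev c t = 0 := by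
        intro t ht
        rw [Finset.mem_filter]
        refine ⟨Finset.mem_univ _, ?_⟩
        exact congrFun hc ⟨t, ht⟩
      have h3 := Finset.card_le_card h2
      omega
    have hs' : Function.Surjective ((LinearMap.funLeft K K (fun t : R' => (t : T))).comp ev) := by
      rw [← LinearMap.injective_iff_surjective_of_finrank_eq_finrank]
      · exact hinj
      · simp [hR']
    intro v
    obtain ⟨c, hc⟩ := hs' fun t => if ht : (t : T) ∈ R then v ⟨t, ht⟩ else 0
    refine ⟨c, ?_⟩
    ext t
    have := congrFun hc ⟨t, hRR' t.2⟩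
    simpa using this
  have hfin := LinearMap.finrank_range_add_finrank_ker
    ((LinearMap.funLeft K K (fun t : S => (t : T))).comp ev)
  rw [LinearMap.range_eq_top.2 (hsurj S hS), finrank_top] at hfin
  simp only [Module.finrank_fintype_fun_eq_card, Fintype.card_fin, Fintype.card_coe] at hfin
  have hcard := Module.card_eq_pow_finrank (K := K)
    (V := LinearMap.ker ((LinearMap.funLeft K K (fun t : S => (t : T))).comp ev))
  have e1 : Module.finrank K (LinearMap.ker
      ((LinearMap.funLeft K K (fun t : S => (t : T))).comp ev)) = n - #S := by omega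
  rw [e1] at hcard
  rw [← hcard, ← Fintype.card_coe]
  refine Fintype.card_congr (Equiv.subtypeEquivRight fun c => ?_)
  rw [LinearMap.mem_ker, Finset.mem_filter]
  constructor
  · rintro ⟨_, h⟩
    ext t
    exact h t t.2
  · intro h
    exact ⟨Finset.mem_univ _, fun t ht => congrFun h ⟨t, ht⟩⟩

theorem sum_choose_zeros (ev : (Fin n → K) →ₗ[K] (T → K))
    (hz : ∀ c, c ≠ 0 → #{t | ev c t = 0} < n) (hT : n ≤ Fintype.card T) (S : Finset T)
    {k : ℕ} (hk : k ≤ n) :
    ∑ c, ((#{t ∈ S | ev c t = 0}).choose k) = (#S).choose k * Fintype.card K ^ (n - k) := by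
  have e : ∀ c, (#{t ∈ S | ev c t = 0}).choose k =
      ∑ R ∈ powersetCard k S, if ∀ t ∈ R, ev c t = 0 then 1 else 0 := by
    intro c
    rw [← Finset.card_powersetCard, ← Finset.card_filter]
    congr 1
    ext R
    simp only [mem_powersetCard, mem_filter]
    constructor
    · rintro ⟨h1, h2⟩
      exact ⟨⟨fun t ht => (Finset.mem_filter.1 (h1 ht)).1, h2⟩,
        fun t ht => (Finset.mem_filter.1 (h1 ht)).2⟩
    · rintro ⟨⟨h1, h2⟩, h3⟩
      exact ⟨fun t ht => Finset.mem_filter.2 ⟨h1 ht, h3 t ht⟩, h2⟩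
  simp only [e]
  rw [Finset.sum_comm]
  have e2 : ∀ R ∈ powersetCard k S, (∑ c : Fin n → K, if ∀ t ∈ R, ev c t = 0 then 1 else 0) =
      Fintype.card K ^ (n - k) := by
    intro R hR
    rw [mem_powersetCard] at hR
    rw [← Finset.card_filter, card_vanish ev hz hT R (by omega), hR.2]
  rw [Finset.sum_congr rfl e2, Finset.sum_const, Finset.card_powersetCard, smul_eq_mul]

/-- sum of a function of the number of zeros on a small set -/
theorem sum_zeros_on (ev : (Fin n → K) →ₗ[K] (T → K))
    (hz : ∀ c, c ≠ 0 → #{t | ev c t = 0} < n) (hT : n ≤ Fintype.card T) (S : Finset T)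
    (hS : #S ≤ n) (h : ℕ → ℚ) :
    ∑ c, h (#{t ∈ S | ev c t = 0}) = ∑ k ∈ range (#S + 1),
      nd h k * ((#S).choose k * (Fintype.card K : ℚ) ^ (n - k)) := by
  have e : ∀ c, h (#{t ∈ S | ev c t = 0}) = ∑ k ∈ range (#S + 1),
      ((#{t ∈ S | ev c t = 0}).choose k : ℚ) * nd h k := fun c =>
    newton h (Nat.lt_succ_of_le (Finset.card_le_card (Finset.filter_subset _ _)))
  simp only [e]
  rw [Finset.sum_comm]
  refine Finset.sum_congr rfl fun k hk => ?_
  rw [Finset.mem_range] at hk
  rw [← Finset.sum_mul, mul_comm]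
  congr 1
  exact_mod_cast sum_choose_zeros ev hz hT S (by omega)

/-- sum of a function of the number of zeros over nonzero vectors -/
theorem sum_zeros (ev : (Fin n → K) →ₗ[K] (T → K))
    (hz : ∀ c, c ≠ 0 → #{t | ev c t = 0} < n) (hT : n ≤ Fintype.card T) (h : ℕ → ℚ) :
    ∑ c, h (#{t | ev c t = 0}) = h (Fintype.card T) + ∑ k ∈ range n,
      nd h k * ((Fintype.card T).choose k * ((Fintype.card K : ℚ) ^ (n - k) - 1)) := by
  have hz0 : #{t | ev 0 t = 0} = Fintype.card T := by
    simp
  rw [← Finset.add_sum_erase _ _ (Finset.mem_univ (0 : Fin n → K)), hz0]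
  congr 1
  have e : ∀ c ∈ univ.erase (0 : Fin n → K), h (#{t | ev c t = 0}) = ∑ k ∈ range n,
      ((#{t | ev c t = 0}).choose k : ℚ) * nd h k := fun c hc =>
    newton h (hz c (Finset.ne_of_mem_erase hc))
  rw [Finset.sum_congr rfl e, Finset.sum_comm]
  refine Finset.sum_congr rfl fun k hk => ?_
  rw [Finset.mem_range] at hk
  rw [← Finset.sum_mul, mul_comm]
  congr 1
  have h1 := sum_choose_zeros ev hz hT univ (k := k) (by omega)
  have h1' : ∑ c, ((#{t | ev c t = 0}).choose k : ℚ) =
      ((Fintype.card T).choose k : ℚ) * (Fintype.card K : ℚ) ^ (n - k) := by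
    exact_mod_cast h1
  rw [← Finset.add_sum_erase _ _ (Finset.mem_univ (0 : Fin n → K)), hz0] at h1'
  linear_combination h1'

end Ev

end Pool.Agent.E07280.P8
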