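/-
Package P8: binary forms, degenerate parts.
-/
import Pool.Agent.E07280.P8f

open Finset

namespace Pool.Agent.E07280.P8

variable {K : Type} [Field K] [Fintype K] [DecidableEq K]

/-! ### Zeros of forms -/

theorem card_roots_le (P : Polynomial K) (hP : P ≠ 0) {d : ℕ} (hd : P.natDegree ≤ d) :
    #{t : K | P.eval t = 0} ≤ d := by
  have h : (univ.filter fun t : K => P.eval t = 0) ⊆ P.roots.toFinset := by
    intro t ht
    rw [Multiset.mem_toFinset, Polynomial.mem_roots hP]
    exact (Finset.mem_filter.1 ht).2
  calc #{t : K | P.eval t = 0} ≤ #P.roots.toFinset := Finset.card_le_card h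
    _ ≤ Multiset.card P.roots := Multiset.toFinset_card_le _
    _ ≤ P.natDegree := P.card_roots'
    _ ≤ d := hd

/-- evaluation of quadratic forms on the projective line -/
def evQ : (Fin 3 → K) →ₗ[K] (Option K → K) where
  toFun := quad
  map_add' b b' := by
    ext t
    cases t <;> (simp [quad]; try ring)
  map_smul' r b := by
    ext t
    cases t <;> (simp [quad]; try ring)

def evC : (Fin 4 → K) →ₗ[K] (Option K → K) where
  toFun := cub
  map_add' b b' := by
    ext t
    cases t <;> (simp [cub]; try ring)
  map_smul' r b := by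
    ext t
    cases t <;> (simp [cub]; try ring)

/-- evaluation of quadratic polynomials on the affine line -/
def evK : (Fin 3 → K) →ₗ[K] (K → K) where
  toFun b t := quad b (some t)
  map_add' b b' := by
    ext t
    simp [quad]
    ring
  map_smul' r b := by
    ext t
    simp [quad]
    ring

open Polynomial in
theorem evK_zeros (b : Fin 3 → K) (hb : b ≠ 0) : #{t : K | evK b t = 0} < 3 := by
  have e : ∀ t : K, evK b t = (C (b 2) * X ^ 2 + C (b 1) * X + C (b 0) : K[X]).eval t := by
    intro t
    simp [evK, quad]
    ring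
  simp only [e]
  refine Nat.lt_succ_of_le (card_roots_le _ ?_ (by compute_degree))
  intro h
  apply hb
  ext i
  have h0 := congrArg (fun P : K[X] => P.coeff 0) h
  have h1 := congrArg (fun P : K[X] => P.coeff 1) h
  have h2 := congrArg (fun P : K[X] => P.coeff 2) h
  simp [coeff_X, coeff_C] at h0 h1 h2
  fin_cases i <;> simp [h0, h1, h2]

open Polynomial in
theorem evK_zeros' (b : Fin 3 → K) (hb : b ≠ 0) (h2 : b 2 = 0) : #{t : K | evK b t = 0} < 2 := by
  have e : ∀ t : K, evK b t = (C (b 1) * X + C (b 0) : K[X]).eval t := by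
    intro t
    simp [evK, quad, h2]
    ring
  simp only [e]
  refine Nat.lt_succ_of_le (card_roots_le _ ?_ (by compute_degree))
  intro h
  apply hb
  ext i
  have h0 := congrArg (fun P : K[X] => P.coeff 0) h
  have h1 := congrArg (fun P : K[X] => P.coeff 1) h
  simp [coeff_X, coeff_C] at h0 h1
  fin_cases i <;> simp [h0, h1, h2]

omit [Field K] [DecidableEq K] in
theorem card_option_filter (P : Option K → Prop) [DecidablePred P] :
    #{t : Option K | P t} = (if P none then 1 else 0) + #{t : K | P (some t)} := by
  rw [Finset.card_filter, Fintype.sum_option, Finset.card_filter]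

theorem evQ_zeros (b : Fin 3 → K) (hb : b ≠ 0) : #{t : Option K | evQ b t = 0} < 3 := by
  rw [card_option_filter]
  have e : (evQ b none = 0) ↔ b 2 = 0 := Iff.rfl
  have e2 : #{t : K | evQ b (some t) = 0} = #{t : K | evK b t = 0} := rfl
  simp only [e, e2]
  split_ifs with h
  · have := evK_zeros' b hb h
    omega
  · have := evK_zeros b hb
    omega

open Polynomial in
theorem evC_zeros (c : Fin 4 → K) (hc : c ≠ 0) : #{t : Option K | evC c t = 0} < 4 := by
  rw [card_option_filter]
  have e : (evC c none = 0) ↔ c 3 = 0 := Iff.rfl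
  simp only [e]
  split_ifs with h
  · have e2 : ∀ t : K, evC c (some t) = evK ![c 0, c 1, c 2] t := by
      intro t
      simp [evC, cub, evK, quad, h]
    simp only [e2]
    have := evK_zeros ![c 0, c 1, c 2] (by
      intro h'
      apply hc
      have h0 := congrFun h' 0
      have h1 := congrFun h' 1
      have h2 := congrFun h' 2
      simp at h0 h1 h2
      ext i
      fin_cases i <;> simp [h0, h1, h2, h])
    omega
  · have e2 : ∀ t : K, evC c (some t) =
        (C (c 3) * X ^ 3 + C (c 2) * X ^ 2 + C (c 1) * X + C (c 0) : K[X]).eval t := by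
      intro t
      simp [evC, cub]
      ring
    simp only [e2]
    have := card_roots_le (C (c 3) * X ^ 3 + C (c 2) * X ^ 2 + C (c 1) * X + C (c 0) : K[X])
      (by
        intro h'
        have h3 := congrArg (fun P : K[X] => P.coeff 3) h'
        simp at h3
        exact h h3) (d := 3) (by compute_degree)
    omega

omit [Field K] [DecidableEq K] in
theorem card_opt : Fintype.card (Option K) = Fintype.card K + 1 := Fintype.card_option

/-! ### `a = 0` -/

theorem fib_zero (b : Fin 3 → K) (c : Fin 4 → K) (t : Option K) :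
    fib 0 b c t = if evQ b t = 0 then (if evC c t = 0 then Fintype.card K else 0) else 1 := by
  have h : fib 0 b c t = #{y : K | (0 : K) * y ^ 2 + evQ b t * y + evC c t = 0} := by
    have : lin (0 : Fin 2 → K) t = 0 := by
      cases t <;> simp [lin]
    rw [fib, this]
    rfl
  rw [h]
  split_ifs with h1 h2
  · rw [h1, card_constEq, if_pos h2]
  · rw [h1, card_constEq, if_neg h2]
  · rw [card_linEq h1]

theorem Phi_zero (b : Fin 3 → K) (c : Fin 4 → K) :
    Phi 0 b c = (Fintype.card K + 1 - #{t : Option K | evQ b t = 0}) +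
      Fintype.card K * #{t ∈ ({t : Option K | evQ b t = 0} : Finset (Option K)) | evC c t = 0} := by
  rw [Phi]
  simp only [fib_zero]
  rw [Finset.sum_ite, Finset.sum_const, ← Finset.sum_filter, Finset.sum_const, smul_eq_mul,
    smul_eq_mul, mul_one, add_comm, mul_comm]
  congr 1
  have := Finset.card_filter_add_card_filter_not (s := (univ : Finset (Option K)))
    (fun t => evQ b t = 0)
  rw [Finset.card_univ, card_opt] at this
  omega

/-- closed form of the part `a = 0` -/
theorem sum_a0 (hq : 3 ≤ Fintype.card K) (G : ℕ → ℚ) :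
    ∑ b, ∑ c, G (Phi (0 : Fin 2 → K) b c) =
      (G (Fintype.card K * (Fintype.card K + 1)) + ∑ k ∈ range 4,
        nd (fun j => G (Fintype.card K * j)) k *
          ((Fintype.card K + 1).choose k * ((Fintype.card K : ℚ) ^ (4 - k) - 1))) +
      ∑ k ∈ range 3, nd (fun r => ∑ k ∈ range (r + 1),
        nd (fun j => G (Fintype.card K + 1 - r + Fintype.card K * j)) k *
          (r.choose k * (Fintype.card K : ℚ) ^ (4 - k))) k *
          ((Fintype.card K + 1).choose k * ((Fintype.card K : ℚ) ^ (3 - k) - 1)) := by
  -- the inner sum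
  have h1 : ∀ b : Fin 3 → K, b ≠ 0 → ∑ c, G (Phi (0 : Fin 2 → K) b c) =
      (fun r => ∑ k ∈ range (r + 1),
        nd (fun j => G (Fintype.card K + 1 - r + Fintype.card K * j)) k *
          (r.choose k * (Fintype.card K : ℚ) ^ (4 - k))) (#{t : Option K | evQ b t = 0}) := by
    intro b hb
    simp only [Phi_zero]
    have := evQ_zeros b hb
    exact sum_zeros_on evC evC_zeros (by rw [card_opt]; omega) _ (by omega)
      fun j => G (Fintype.card K + 1 - #{t : Option K | evQ b t = 0} + Fintype.card K * j)
  have h0 : ∑ c, G (Phi (0 : Fin 2 → K) 0 c) = G (Fintype.card K * (Fintype.card K + 1)) +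
      ∑ k ∈ range 4, nd (fun j => G (Fintype.card K * j)) k *
          ((Fintype.card K + 1).choose k * ((Fintype.card K : ℚ) ^ (4 - k) - 1)) := by
    have e : ∀ c, G (Phi (0 : Fin 2 → K) 0 c) =
        (fun j => G (Fintype.card K * j)) (#{t : Option K | evC c t = 0}) := by
      intro c
      rw [Phi_zero]
      simp
    rw [Finset.sum_congr rfl fun c _ => e c]
    have := sum_zeros (K := K) evC evC_zeros (by rw [card_opt]; omega)
      (fun j => G (Fintype.card K * j))
    rw [card_opt] at this
    exact this
  have h2 := sum_zeros (K := K) evQ evQ_zeros (by rw [card_opt]; omega)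
    (fun r => ∑ k ∈ range (r + 1),
        nd (fun j => G (Fintype.card K + 1 - r + Fintype.card K * j)) k *
          (r.choose k * (Fintype.card K : ℚ) ^ (4 - k)))
  rw [← Finset.add_sum_erase _ _ (Finset.mem_univ (0 : Fin 3 → K))] at h2 ⊢
  rw [h0, Finset.sum_congr rfl fun b hb => h1 b (Finset.ne_of_mem_erase hb)]
  have e0 : #{t : Option K | evQ (0 : Fin 3 → K) t = 0} = Fintype.card (Option K) := by simp
  rw [e0, card_opt] at h2
  rw [add_right_inj]
  exact add_left_cancel h2

end Pool.Agent.E07280.P8
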