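/-
Package P8: cubics containing the line at infinity; cubics with `c = 0`.
-/
import Pool.Agent.E07280.P8g

open Finset

namespace Pool.Agent.E07280.P8

variable {K : Type} [Field K] [Fintype K] [DecidableEq K]

theorem sum_cond (F : (Fin 2 → K) → (Fin 3 → K) → (Fin 4 → K) → ℚ) :
    ∑ a : Fin 2 → K, ∑ b : Fin 3 → K, ∑ c : Fin 4 → K,
      (if a 1 = 0 ∧ b 2 = 0 ∧ c 3 = 0 then F a b c else 0) =
    ∑ a0 : K, ∑ b0 : K, ∑ b1 : K, ∑ c0 : K, ∑ c1 : K, ∑ c2 : K,
      F ![a0, 0] ![b0, b1, 0] ![c0, c1, c2, 0] := by
  rw [sum_fin2]
  refine Finset.sum_congr rfl fun a0 _ => ?_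
  rw [Finset.sum_eq_single_of_mem (0 : K) (Finset.mem_univ _)]
  · rw [sum_fin3]
    refine Finset.sum_congr rfl fun b0 _ => Finset.sum_congr rfl fun b1 _ => ?_
    rw [Finset.sum_eq_single_of_mem (0 : K) (Finset.mem_univ _)]
    · rw [sum_fin4]
      refine Finset.sum_congr rfl fun c0 _ => Finset.sum_congr rfl fun c1 _ =>
        Finset.sum_congr rfl fun c2 _ => ?_
      rw [Finset.sum_eq_single_of_mem (0 : K) (Finset.mem_univ _)]
      · simp
      · intro c3 _ h
        simp [h]
    · intro b2 _ h
      simp [h]
  · intro a1 _ h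
    simp [h]

theorem Phi_cond (a0 b0 b1 c0 c1 c2 : K) :
    Phi (![a0, 0] : Fin 2 → K) ![b0, b1, 0] ![c0, c1, c2, 0] = Fintype.card K +
      ∑ t : K, #{y : K | a0 * y ^ 2 + (b0 + b1 * t) * y + (c0 + c1 * t + c2 * t ^ 2) = 0} := by
  rw [Phi_eq]
  congr 1
  · simp [fib, lin, quad, cub, Finset.card_univ]
  · refine Finset.sum_congr rfl fun t _ => ?_
    simp [fib, lin, quad, cub]

/-- closed form for the sums over cubics containing the line at infinity -/
theorem sum_inf (h2 : (2 : K) ≠ 0) (hq : 3 ≤ Fintype.card K) (G : ℕ → ℚ) :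
    ∑ a : Fin 2 → K, ∑ b : Fin 3 → K, ∑ c : Fin 4 → K,
      (if a 1 = 0 ∧ b 2 = 0 ∧ c 3 = 0 then G (Phi a b c) else 0) =
    (((Fintype.card K : ℚ) ^ 3 * G (Fintype.card K + Fintype.card K) * ((Fintype.card K : ℚ) - 1) +
      (G (Fintype.card K + Fintype.card K * Fintype.card K) + ∑ k ∈ range 3,
        nd (fun j => G (Fintype.card K + Fintype.card K * j)) k *
          ((Fintype.card K).choose k * ((Fintype.card K : ℚ) ^ (3 - k) - 1)))) +
      ((Fintype.card K : ℚ) - 1) * (Fintype.card K * ((Fintype.card K : ℚ) ^ 2 *
        (G (Fintype.card K + (Fintype.card K - 1 + Fintype.card K)) + ((Fintype.card K : ℚ) - 1) *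
          G (Fintype.card K + (Fintype.card K - 1)))))) +
    ((Fintype.card K : ℚ) - 1) * ((Fintype.card K : ℚ) ^ 2 *
      ∑ x : K, ∑ y : K, ∑ z : K, G (Fintype.card K + cnt fun t => x * t ^ 2 + y * t + z)) := by
  rw [sum_cond fun a b c => G (Phi a b c)]
  simp only [Phi_cond]
  rw [sum_split0 _ ((Fintype.card K : ℚ) ^ 2 *
      ∑ x : K, ∑ y : K, ∑ z : K, G (Fintype.card K + cnt fun t => x * t ^ 2 + y * t + z))]
  · congr 1
    rw [Finset.sum_comm]
    rw [sum_split0 _ (Fintype.card K * ((Fintype.card K : ℚ) ^ 2 *
        (G (Fintype.card K + (Fintype.card K - 1 + Fintype.card K)) + ((Fintype.card K : ℚ) - 1) *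
          G (Fintype.card K + (Fintype.card K - 1)))))]
    · congr 1
      -- `b₁ = 0`
      rw [sum_split0 _ ((Fintype.card K : ℚ) ^ 3 * G (Fintype.card K + Fintype.card K))]
      · rw [add_comm, mul_comm]
        congr 1
        -- `b = 0`
        have e : ∀ c0 c1 c2 : K, G (Fintype.card K +
            ∑ t : K, #{y : K | 0 * y ^ 2 + (0 + 0 * t) * y + (c0 + c1 * t + c2 * t ^ 2) = 0}) =
            (fun j => G (Fintype.card K + Fintype.card K * j))
              (#{t : K | evK ![c0, c1, c2] t = 0}) := by
          intro c0 c1 c2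
          simp only []
          congr 2
          have e1 : ∀ t : K, #{y : K | 0 * y ^ 2 + (0 + 0 * t) * y +
              (c0 + c1 * t + c2 * t ^ 2) = 0} =
              if evK ![c0, c1, c2] t = 0 then Fintype.card K else 0 := by
            intro t
            have : (0 : K) + 0 * t = 0 := by ring
            rw [this, card_constEq]
            rfl
          simp only [e1]
          rw [← Finset.sum_filter, Finset.sum_const, smul_eq_mul, mul_comm]
        simp only [e]
        rw [← sum_fin3 fun c => (fun j => G (Fintype.card K + Fintype.card K * j))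
              (#{t : K | evK c t = 0})]
        exact sum_zeros evK evK_zeros (by omega) fun j => G (Fintype.card K + Fintype.card K * j)
      · intro b0 hb0
        have e : ∀ c0 c1 c2 : K, G (Fintype.card K +
            ∑ t : K, #{y : K | 0 * y ^ 2 + (b0 + 0 * t) * y + (c0 + c1 * t + c2 * t ^ 2) = 0}) =
            G (Fintype.card K + Fintype.card K) := by
          intro c0 c1 c2
          congr 2
          have e1 : ∀ t : K, #{y : K | 0 * y ^ 2 + (b0 + 0 * t) * y +
              (c0 + c1 * t + c2 * t ^ 2) = 0} = 1 := by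
            intro t
            have : b0 + 0 * t = b0 := by ring
            rw [this, card_linEq hb0]
          simp only [e1]
          simp
        simp only [e, Finset.sum_const, Finset.card_univ, nsmul_eq_mul]
        ring
    · -- `b₁ ≠ 0`
      intro b1 hb1
      have key : ∀ b0 : K, ∑ c0 : K, ∑ c1 : K, ∑ c2 : K, G (Fintype.card K +
          ∑ t : K, #{y : K | 0 * y ^ 2 + (b0 + b1 * t) * y + (c0 + c1 * t + c2 * t ^ 2) = 0}) =
          (Fintype.card K : ℚ) ^ 2 *
            (G (Fintype.card K + (Fintype.card K - 1 + Fintype.card K)) +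
              ((Fintype.card K : ℚ) - 1) * G (Fintype.card K + (Fintype.card K - 1))) := by
        intro b0
        obtain ⟨t0, ht0⟩ : ∃ t0 : K, b0 = -(b1 * t0) := ⟨-(b0 / b1), by field_simp⟩
        have e : ∀ c0 c1 c2 : K, G (Fintype.card K +
            ∑ t : K, #{y : K | 0 * y ^ 2 + (b0 + b1 * t) * y + (c0 + c1 * t + c2 * t ^ 2) = 0}) =
            G (Fintype.card K + (Fintype.card K - 1 +
              if c0 + (c1 * t0 + c2 * t0 ^ 2) = 0 then Fintype.card K else 0)) := by
          intro c0 c1 c2
          congr 2
          rw [← Finset.sum_erase_add _ _ (Finset.mem_univ t0)]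
          congr 1
          · have e1 : ∀ t ∈ univ.erase t0, #{y : K | 0 * y ^ 2 + (b0 + b1 * t) * y +
              (c0 + c1 * t + c2 * t ^ 2) = 0} = 1 := by
              intro t ht
              have : b0 + b1 * t ≠ 0 := by
                rw [ht0]
                intro h
                have h' : b1 * (t - t0) = 0 := by linear_combination h
                rcases mul_eq_zero.1 h' with h' | h'
                · exact hb1 h'
                · exact Finset.ne_of_mem_erase ht (sub_eq_zero.1 h')
              rw [card_linEq this]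
            rw [Finset.sum_congr rfl e1]
            simp [Finset.card_erase_of_mem]
          · have : b0 + b1 * t0 = 0 := by rw [ht0]; ring
            rw [this, card_constEq, add_assoc]
        simp only [e]
        have e3 : ∀ f : K → K → K → ℚ, ∑ c0, ∑ c1, ∑ c2, f c0 c1 c2 =
            ∑ c1, ∑ c2, ∑ c0, f c0 c1 c2 := by
          intro f
          rw [Finset.sum_comm]
          exact Finset.sum_congr rfl fun c1 _ => Finset.sum_comm
        rw [e3 fun c0 c1 c2 => G (Fintype.card K + (Fintype.card K - 1 +
              if c0 + (c1 * t0 + c2 * t0 ^ 2) = 0 then Fintype.card K else 0))]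
        have e4 : ∀ u : K, ∑ c0 : K, G (Fintype.card K + (Fintype.card K - 1 +
              if c0 + u = 0 then Fintype.card K else 0)) =
            (G (Fintype.card K + (Fintype.card K - 1 + Fintype.card K)) +
              ((Fintype.card K : ℚ) - 1) * G (Fintype.card K + (Fintype.card K - 1))) := by
          intro u
          rw [sum_add u fun z => G (Fintype.card K + (Fintype.card K - 1 +
              if z = 0 then Fintype.card K else 0))]
          rw [sum_split0 _ (G (Fintype.card K + (Fintype.card K - 1)))]
          · simp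
          · intro z hz
            simp [hz]
        simp only [e4, Finset.sum_const, Finset.card_univ, nsmul_eq_mul]
        ring
      simp only [key, Finset.sum_const, Finset.card_univ, nsmul_eq_mul]
  · intro a ha
    have h4 : (-4 * a : K) ≠ 0 := mul_ne_zero (neg_ne_zero.2 (four_ne h2)) ha
    have key : ∀ b0 b1 : K, ∑ c0 : K, ∑ c1 : K, ∑ c2 : K, G (Fintype.card K +
        ∑ t : K, #{y : K | a * y ^ 2 + (b0 + b1 * t) * y + (c0 + c1 * t + c2 * t ^ 2) = 0}) =
        ∑ x : K, ∑ y : K, ∑ z : K, G (Fintype.card K + cnt fun t => x * t ^ 2 + y * t + z) := by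
      intro b0 b1
      have e : ∀ c0 c1 c2 : K, G (Fintype.card K +
          ∑ t : K, #{y : K | a * y ^ 2 + (b0 + b1 * t) * y + (c0 + c1 * t + c2 * t ^ 2) = 0}) =
          G (Fintype.card K + cnt fun t => (b1 ^ 2 + -4 * a * c2) * t ^ 2 +
            (2 * b0 * b1 + -4 * a * c1) * t + (b0 ^ 2 + -4 * a * c0)) := by
        intro c0 c1 c2
        rw [cnt_eq_sum]
        congr 2
        refine Finset.sum_congr rfl fun t _ => ?_
        rw [card_quadEq h2 ha]
        congr 1
        ring
      simp only [e]
      rw [sum_aff h4 (b0 ^ 2) fun z => ∑ c1 : K, ∑ c2 : K, G (Fintype.card K +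
        cnt fun t => (b1 ^ 2 + -4 * a * c2) * t ^ 2 + (2 * b0 * b1 + -4 * a * c1) * t + z)]
      have e1 : ∀ z : K, ∑ c1 : K, ∑ c2 : K, G (Fintype.card K +
          cnt fun t => (b1 ^ 2 + -4 * a * c2) * t ^ 2 + (2 * b0 * b1 + -4 * a * c1) * t + z) =
          ∑ y : K, ∑ x : K, G (Fintype.card K + cnt fun t => x * t ^ 2 + y * t + z) := by
        intro z
        rw [sum_aff h4 (2 * b0 * b1) fun y => ∑ c2 : K, G (Fintype.card K +
          cnt fun t => (b1 ^ 2 + -4 * a * c2) * t ^ 2 + y * t + z)]
        refine Finset.sum_congr rfl fun y _ => ?_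
        exact sum_aff h4 (b1 ^ 2) fun x => G (Fintype.card K +
          cnt fun t => x * t ^ 2 + y * t + z)
      simp only [e1]
      rw [Finset.sum_comm]
      have e2 : ∀ y : K, ∑ z : K, ∑ x : K, G (Fintype.card K + cnt fun t => x * t ^ 2 + y * t + z) =
          ∑ x : K, ∑ z : K, G (Fintype.card K + cnt fun t => x * t ^ 2 + y * t + z) :=
        fun y => Finset.sum_comm
      simp only [e2]
      rw [Finset.sum_comm]
    simp only [key, Finset.sum_const, Finset.card_univ, nsmul_eq_mul]
    ring

/-! ### `c = 0` -/

theorem Phi_c0_10 (h2 : (2 : K) ≠ 0) (b0 b1 b2 : K) :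
    Phi (![1, 0] : Fin 2 → K) ![b0, b1, b2] 0 =
      (if b2 = 0 then Fintype.card K else 1) +
        (2 * Fintype.card K - #{t : K | evK ![b0, b1, b2] t = 0}) := by
  rw [Phi_eq]
  congr 1
  · have h : fib (![1, 0] : Fin 2 → K) ![b0, b1, b2] 0 none =
        #{y : K | (0 : K) * y ^ 2 + b2 * y + 0 = 0} := by
      simp [fib, lin, quad, cub]
    rw [h]
    split_ifs with hb
    · rw [hb, card_constEq, if_pos rfl]
    · rw [card_linEq hb]
  · have h : ∀ t : K, fib (![1, 0] : Fin 2 → K) ![b0, b1, b2] 0 (some t) =
        2 - if evK ![b0, b1, b2] t = 0 then 1 else 0 := by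
      intro t
      have h' : fib (![1, 0] : Fin 2 → K) ![b0, b1, b2] 0 (some t) =
          #{y : K | (1 : K) * y ^ 2 + evK ![b0, b1, b2] t * y + 0 = 0} := by
        simp [fib, lin, cub, evK]
      rw [h', card_quadEq h2 one_ne_zero]
      have e : evK ![b0, b1, b2] t ^ 2 - 4 * 1 * 0 = evK ![b0, b1, b2] t ^ 2 := by ring
      rw [e]
      split_ifs with ht
      · rw [ht, zero_pow two_ne_zero, nsq_zero]
      · rw [nsq_sq h2 ht]
    simp only [h]
    have e2 : ∑ t : K, (2 - if evK ![b0, b1, b2] t = 0 then 1 else 0) +
        ∑ t : K, (if evK ![b0, b1, b2] t = 0 then 1 else 0) = 2 * Fintype.card K := by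
      rw [← Finset.sum_add_distrib]
      have : ∀ t : K, (2 - if evK ![b0, b1, b2] t = 0 then 1 else 0) +
          (if evK ![b0, b1, b2] t = 0 then 1 else 0) = 2 := by
        intro t
        split_ifs <;> rfl
      simp only [this]
      simp [mul_comm]
    rw [← Finset.card_filter] at e2
    omega

/-- closed form for the sum over `a, b` with `c = 0` -/
theorem sum_c0 (h2 : (2 : K) ≠ 0) (hq : 3 ≤ Fintype.card K) (H : ℕ → ℚ) :
    ∑ a : Fin 2 → K, ∑ b : Fin 3 → K, H (Phi a b 0) =
      (H (Fintype.card K * (Fintype.card K + 1)) + ∑ k ∈ range 3,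
        nd (fun r => H (Fintype.card K + 1 - r + Fintype.card K * r)) k *
          ((Fintype.card K + 1).choose k * ((Fintype.card K : ℚ) ^ (3 - k) - 1))) +
      ((Fintype.card K : ℚ) ^ 2 - 1) *
        ((H (1 + Fintype.card K) + ∑ k ∈ range 3,
          nd (fun j => H (1 + (2 * Fintype.card K - j))) k *
            ((Fintype.card K).choose k * ((Fintype.card K : ℚ) ^ (3 - k) - 1))) +
          ((Fintype.card K : ℚ) * (((Fintype.card K : ℚ) - 1) *
              (H (Fintype.card K + (2 * Fintype.card K - 1)) -
                H (1 + (2 * Fintype.card K - 1)))) +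
            (((Fintype.card K : ℚ) - 1) * (H (Fintype.card K + 2 * Fintype.card K) -
                H (1 + 2 * Fintype.card K)) +
              (H (Fintype.card K + Fintype.card K) - H (1 + Fintype.card K))))) := by
  rw [sum_all_Phi_c0]
  congr 1
  · have e : ∀ b : Fin 3 → K, H (Phi (0 : Fin 2 → K) b 0) =
        (fun r => H (Fintype.card K + 1 - r + Fintype.card K * r))
          (#{t : Option K | evQ b t = 0}) := by
      intro b
      rw [Phi_zero]
      have : ∀ t, evC (0 : Fin 4 → K) t = 0 := by intro t; simp
      simp [this]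
    rw [Finset.sum_congr rfl fun b _ => e b]
    have := sum_zeros (K := K) evQ evQ_zeros (by rw [card_opt]; omega)
      (fun r => H (Fintype.card K + 1 - r + Fintype.card K * r))
    rw [this, card_opt, Nat.sub_self, zero_add]
  · congr 1
    -- split off the correction
    have e : ∀ b : Fin 3 → K, H (Phi (![1, 0] : Fin 2 → K) b 0) =
        (fun j => H (1 + (2 * Fintype.card K - j))) (#{t : K | evK b t = 0}) +
        if b 2 = 0 then (H (Fintype.card K + (2 * Fintype.card K - #{t : K | evK b t = 0})) -
          H (1 + (2 * Fintype.card K - #{t : K | evK b t = 0}))) else 0 := by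
      intro b
      have hb : b = ![b 0, b 1, b 2] := by
        ext i
        fin_cases i <;> rfl
      have := Phi_c0_10 h2 (b 0) (b 1) (b 2)
      rw [← hb] at this
      rw [this]
      split_ifs with h
      · ring
      · ring
    rw [Finset.sum_congr rfl fun b _ => e b, Finset.sum_add_distrib]
    congr 1
    · have := sum_zeros (K := K) evK evK_zeros (by omega)
        (fun j => H (1 + (2 * Fintype.card K - j)))
      rw [this]
      congr 3
      omega
    · rw [sum_fin3]
      have e2 : ∀ b0 b1 : K, ∑ b2 : K, (if (![b0, b1, b2] : Fin 3 → K) 2 = 0 then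
          (H (Fintype.card K + (2 * Fintype.card K - #{t : K | evK ![b0, b1, b2] t = 0})) -
          H (1 + (2 * Fintype.card K - #{t : K | evK ![b0, b1, b2] t = 0}))) else 0) =
          (H (Fintype.card K + (2 * Fintype.card K - #{t : K | evK ![b0, b1, 0] t = 0})) -
          H (1 + (2 * Fintype.card K - #{t : K | evK ![b0, b1, 0] t = 0}))) := by
        intro b0 b1
        rw [Finset.sum_eq_single_of_mem (0 : K) (Finset.mem_univ _)]
        · simp
        · intro b _ hb
          simp [hb]
      simp only [e2]
      rw [Finset.sum_comm]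
      rw [sum_split0 _ ((Fintype.card K : ℚ) * (H (Fintype.card K + (2 * Fintype.card K - 1)) -
                H (1 + (2 * Fintype.card K - 1))))]
      · rw [add_comm]
        congr 1
        · ring
        · rw [sum_split0 _ (H (Fintype.card K + 2 * Fintype.card K) -
                H (1 + 2 * Fintype.card K))]
          · rw [add_comm]
            congr 1
            have : #{t : K | evK (![0, 0, 0] : Fin 3 → K) t = 0} = Fintype.card K := by
              have : ∀ t : K, evK (![0, 0, 0] : Fin 3 → K) t = 0 := by
                intro t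
                simp [evK, quad]
              simp [this, Finset.card_univ]
            rw [this]
            have : 2 * Fintype.card K - Fintype.card K = Fintype.card K := by omega
            rw [this]
          · intro b0 hb0
            have : #{t : K | evK (![b0, 0, 0] : Fin 3 → K) t = 0} = 0 := by
              have : ∀ t : K, evK (![b0, 0, 0] : Fin 3 → K) t ≠ 0 := by
                intro t
                simp [evK, quad, hb0]
              simp [this]
            rw [this, Nat.sub_zero]
      · intro b1 hb1
        have : ∀ b0 : K, #{t : K | evK (![b0, b1, 0] : Fin 3 → K) t = 0} = 1 := by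
          intro b0
          rw [Finset.card_eq_one]
          refine ⟨-(b0 / b1), ?_⟩
          ext t
          simp only [mem_filter, mem_univ, true_and, mem_singleton]
          have : evK (![b0, b1, 0] : Fin 3 → K) t = b0 + b1 * t := by
            simp [evK, quad]
          rw [this]
          constructor
          · intro h
            field_simp
            linear_combination h
          · rintro rfl
            field_simp
            ring
        simp only [this, Finset.sum_const, Finset.card_univ, nsmul_eq_mul]

end Pool.Agent.E07280.P8
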