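/-
Package P8: `T0`, `W1`, `W2`, `RR`, `UU` modulo rational functions of `p`.
-/
import Pool.Agent.E07280.P8h

open Finset

namespace Pool.Agent.E07280

namespace P8

/-! ### General facts -/

theorem zmod_two_ne (p : Nat.Primes) (hp : 17 ≤ (p : ℕ)) : (2 : ZMod p) ≠ 0 := by
  intro h
  have h' : ((2 : ℕ) : ZMod p) = 0 := by exact_mod_cast h
  rw [ZMod.natCast_eq_zero_iff] at h'
  have := Nat.le_of_dvd (by norm_num) h'
  omega

theorem zmod_three_ne (p : Nat.Primes) (hp : 17 ≤ (p : ℕ)) : (3 : ZMod p) ≠ 0 := by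
  intro h
  have h' : ((3 : ℕ) : ZMod p) = 0 := by exact_mod_cast h
  rw [ZMod.natCast_eq_zero_iff] at h'
  have := Nat.le_of_dvd (by norm_num) h'
  omega

/-- `G p (m p)` is rational for all natural-number valued rational functions `m ≥ ℓ` -/
def Adm (ℓ : Nat.Primes → ℕ) (G : Nat.Primes → ℕ → ℚ) : Prop :=
  ∀ m : Nat.Primes → ℕ, RatFun (fun p => (m p : ℚ)) → (∀ p : Nat.Primes, 17 ≤ (p : ℕ) →
    ℓ p ≤ m p) → RatFun fun p => G p (m p)

theorem adm_choose (k : ℕ) : Adm (fun _ => 0) (fun _ n => (n.choose k : ℚ)) :=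
  fun _ hm _ => hm.choose k

theorem adm_choose_sub (j : ℕ) (k : ℕ) : Adm (fun _ => j) (fun _ n => ((n - j).choose k : ℚ)) :=
  fun _ hm hl => (hm.natSub (n := fun _ => j) (RatFun.const j) hl).choose k

theorem rat_one : RatFun fun _ => ((1 : ℕ) : ℚ) := RatFun.const _

theorem rat_nat (n : ℕ) : RatFun fun _ => (n : ℚ) := RatFun.const _

theorem rat_addN {m n : Nat.Primes → ℕ} (hm : RatFun fun p => (m p : ℚ))
    (hn : RatFun fun p => (n p : ℚ)) : RatFun fun p => ((m p + n p : ℕ) : ℚ) :=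
  (hm.add hn).congr fun p _ => by push_cast; ring

theorem rat_mulN {m n : Nat.Primes → ℕ} (hm : RatFun fun p => (m p : ℚ))
    (hn : RatFun fun p => (n p : ℚ)) : RatFun fun p => ((m p * n p : ℕ) : ℚ) :=
  (hm.mul hn).congr fun p _ => by push_cast; ring

/-! ### Quadratic polynomials -/

theorem quad_ratFun {ℓ : Nat.Primes → ℕ} {G : Nat.Primes → ℕ → ℚ} (hG : Adm ℓ G)
    (s : Nat.Primes → ℕ) (hs : RatFun fun p => (s p : ℚ))
    (hl : ∀ p : Nat.Primes, 17 ≤ (p : ℕ) → ℓ p ≤ s p) :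
    RatFun fun p => ∑ x : ZMod p, ∑ y : ZMod p, ∑ z : ZMod p,
      G p (cnt (fun t => x * t ^ 2 + y * t + z) + s p) := by
  have hp : RatFun fun p => (((p : ℕ) : ℕ) : ℚ) := RatFun.self
  have h2p : RatFun fun p => ((2 * (p : ℕ) : ℕ) : ℚ) := rat_mulN (rat_nat 2) hp
  have g : ∀ m : Nat.Primes → ℕ, RatFun (fun p => (m p : ℚ)) →
      RatFun fun p => G p (m p + s p) := fun m hm =>
    hG _ (rat_addN hm hs) fun p h => le_trans (hl p h) (Nat.le_add_left _ _)
  have k := RatFun.const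
  refine ((((g _ hp).add (((hp.sub (k 1)).mul (k (1/2))).mul ((g _ h2p).add (g _ (rat_nat 0))))).add
    ((hp.sub (k 1)).mul (hp.mul (g _ hp)))).add
    (((hp.sub (k 1)).mul (k (1/2))).mul
      ((hp.mul ((g _ (h2p.natSub rat_one fun p h => by omega)).add
        ((hp.sub (k 1)).mul (g _ (hp.natSub rat_one fun p h => by omega))))).add
      (hp.mul ((g _ rat_one).add ((hp.sub (k 1)).mul (g _ (rat_addN hp rat_one)))))))).congr
    fun p hp17 => ?_
  have := sum_quad (K := ZMod p) (zmod_two_ne p hp17) fun n => G p (n + s p)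
  rw [this]
  simp only [ZMod.card]
  ring

/-! ### `T0` -/

theorem a0_ratFun {G : Nat.Primes → ℕ → ℚ} (hG : Adm (fun _ => 0) G) :
    RatFun fun p => ∑ b, ∑ c, G p (Phi (0 : Fin 2 → ZMod p) b c) := by
  have hp : RatFun fun p => (((p : ℕ) : ℕ) : ℚ) := RatFun.self
  have k := RatFun.const
  have hp1 : RatFun fun p => (((p : ℕ) + 1 : ℕ) : ℚ) := rat_addN hp rat_one
  have hG' : ∀ m : Nat.Primes → ℕ, RatFun (fun p => (m p : ℚ)) →
      RatFun fun p => G p (m p) := fun m hm => hG m hm fun p _ => Nat.zero_le _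
  refine (((hG' _ (rat_mulN hp hp1)).add (RatFun.sum (range 4)
      (F := fun j p => nd (fun j => G p ((p : ℕ) * j)) j * ((((p : ℕ) + 1).choose j : ℚ) *
        ((((p : ℕ) : ℚ)) ^ (4 - j) - 1))) fun j hj => ?_)).add
    (RatFun.sum (range 3) (F := fun k p => nd (fun r => ∑ k ∈ range (r + 1),
        nd (fun j => G p ((p : ℕ) + 1 - r + (p : ℕ) * j)) k *
          (r.choose k * (((p : ℕ) : ℚ)) ^ (4 - k))) k *
          ((((p : ℕ) + 1).choose k : ℚ) * ((((p : ℕ) : ℚ)) ^ (3 - k) - 1))) fun j hj => ?_)).congr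
    fun p hp17 => ?_
  · refine (nd_ratFun (h := fun p j => G p ((p : ℕ) * j)) (n := 4) (fun i _ => ?_)
      (Finset.mem_range.1 hj)).mul ((hp1.choose j).mul ((hp.pow _).sub (k 1)))
    exact hG' _ (rat_mulN hp (rat_nat i))
  · refine (nd_ratFun (h := fun p r => ∑ k ∈ range (r + 1),
        nd (fun j => G p ((p : ℕ) + 1 - r + (p : ℕ) * j)) k *
          (r.choose k * (((p : ℕ) : ℚ)) ^ (4 - k))) (n := 3) (fun r hr => ?_)
      (Finset.mem_range.1 hj)).mul ((hp1.choose j).mul ((hp.pow _).sub (k 1)))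
    refine RatFun.sum _ fun i hi => ?_
    refine (nd_ratFun (h := fun p j => G p ((p : ℕ) + 1 - r + (p : ℕ) * j)) (n := r + 1)
      (fun l _ => ?_) (Finset.mem_range.1 hi)).mul ((k _).mul (hp.pow _))
    exact hG' _ (rat_addN (hp1.natSub (n := fun _ => r) (rat_nat r) fun p h => by omega)
      (rat_mulN hp (rat_nat l)))
  · have := sum_a0 (K := ZMod p) (by rw [ZMod.card]; omega) (G p)
    simp only [ZMod.card] at this
    exact this

end P8

open P8

/-- P8a -/
theorem T0_ratFun : RatFun fun p => (T0 (ZMod p) : ℚ) -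
    (((p : ℕ) : ℚ) ^ 2 - 1) * ((p : ℕ) : ℚ) ^ 3 * (((p : ℕ) : ℚ) - 1) *
      (SDep (ZMod p) (fun n => ((n + 1).choose 9 : ℚ)) + SAB (ZMod p) (fun n => (n.choose 9 : ℚ))) := by
  have hp : RatFun fun p => (((p : ℕ) : ℕ) : ℚ) := RatFun.self
  have k := RatFun.const
  refine ((a0_ratFun (adm_choose 9)).add (((hp.pow 2).sub (k 1)).mul ((hp.pow 2).mul
    (quad_ratFun (adm_choose 9) (fun p => (p : ℕ)) hp fun p _ => Nat.zero_le _)))).congr
    fun p hp17 => ?_
  have h1 := sum_all_Phi (K := ZMod p) fun n => (n.choose 9 : ℚ)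
  have h2 := sum10 (K := ZMod p) (zmod_two_ne p hp17) (zmod_three_ne p hp17)
    fun n => (n.choose 9 : ℚ)
  simp only [ZMod.card] at h1 h2
  rw [h2] at h1
  have h3 : (T0 (ZMod p) : ℚ) = ∑ a : Fin 2 → ZMod p, ∑ b : Fin 3 → ZMod p,
      ∑ c : Fin 4 → ZMod p, ((Phi a b c).choose 9 : ℚ) := by
    rw [T0]
    push_cast
    rfl
  rw [h3, h1]
  ring

/-! ### `W1` -/

/-- P8b -/
theorem W1_ratFun : RatFun fun p => (W1 (ZMod p) : ℚ) -
    (((p : ℕ) : ℚ) - 1) ^ 2 / 2 * ((p : ℕ) : ℚ) ^ 3 *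
      SDep (ZMod p) (fun n => (n * (n - 1).choose 7 : ℚ)) := by
  have hp : RatFun fun p => (((p : ℕ) : ℕ) : ℚ) := RatFun.self
  have h2p : RatFun fun p => ((2 * (p : ℕ) : ℕ) : ℚ) := rat_mulN (rat_nat 2) hp
  have k := RatFun.const
  have hG := adm_choose_sub 2 7
  -- the correction
  have hH : ∀ m : Nat.Primes → ℕ, RatFun (fun p => (m p : ℚ)) →
      (∀ p : Nat.Primes, 17 ≤ (p : ℕ) → 1 ≤ m p) →
      RatFun fun p : Nat.Primes => (((1 + m p + (p : ℕ) - 2).choose 7 : ℚ) -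
        ((1 + m p - 2).choose 7 : ℚ)) := fun m hm hl =>
    (hG _ (rat_addN (rat_addN rat_one hm) hp) fun p h => by
      have := hl p h; show 2 ≤ _; omega).sub
      (hG _ (rat_addN rat_one hm) fun p h => by have := hl p h; show 2 ≤ _; omega)
  have hcorr := (((hp.sub (k 1)).mul (k (1/2))).mul
    (((hH _ (h2p.natSub rat_one fun p h => by omega) fun p h => by omega).add
      ((hp.sub (k 1)).mul (hH _ (hp.natSub rat_one fun p h => by omega) fun p h => by omega))).add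
    (((hp.sub (k 1)).mul (k (1/2))).mul
      ((((k 2).mul (hH _ (h2p.natSub (rat_nat 2) fun p h => by omega) fun p h => by omega)).add
        ((hp.sub (k 2)).mul (hH _ (hp.natSub (rat_nat 2) fun p h => by omega)
          fun p h => by omega))).add
        (hp.mul (hH _ hp fun p h => by omega))))))
  refine (((hp.mul (hp.sub (k 1))).mul (hp.pow 2)).mul hcorr).congr fun p hp17 => ?_
  have h2 := zmod_two_ne p hp17
  have h1 := sum_a_inf (K := ZMod p) (fun a => ∑ b : Fin 3 → ZMod p, ∑ c : Fin 4 → ZMod p,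
      if fib a b c none = 2 then ((Phi a b c - 2).choose 7 : ℚ) else 0)
    (fun _ hr a => inner_sc (fun m n => if m = 2 then ((n - 2).choose 7 : ℚ) else 0) hr a)
    (fun s a => inner_tr (fun m n => if m = 2 then ((n - 2).choose 7 : ℚ) else 0) s a) (by
      intro a ha
      refine Finset.sum_eq_zero fun b _ => Finset.sum_eq_zero fun c _ => if_neg ?_
      have e : fib a b c none = #{y : ZMod p | (0 : ZMod p) * y ^ 2 + b 2 * y + c 3 = 0} := by
        simp [fib, lin, quad, cub, ha]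
      rw [e]
      by_cases hb : b 2 = 0
      · rw [hb, card_constEq, ZMod.card]
        split_ifs
        · omega
        · norm_num
      · rw [card_linEq hb]
        norm_num)
  have h3 := sum01 (K := ZMod p) h2 fun n => ((n - 2).choose 7 : ℚ)
  have h4 := sum_corr (K := ZMod p) h2 fun n => (((1 + n + (p : ℕ) - 2).choose 7 : ℚ) -
        ((1 + n - 2).choose 7 : ℚ))
  simp only [ZMod.card] at h1 h3 h4
  rw [h3, h4] at h1
  have h5 : (W1 (ZMod p) : ℚ) = ∑ a : Fin 2 → ZMod p, ∑ b : Fin 3 → ZMod p,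
      ∑ c : Fin 4 → ZMod p, if fib a b c none = 2 then ((Phi a b c - 2).choose 7 : ℚ) else 0 := by
    rw [W1]
    push_cast
    rfl
  have h6 : SDep (ZMod p) (fun n => (n : ℚ) * ((n + 1 - 2).choose 7 : ℚ)) =
      SDep (ZMod p) (fun n => (n * (n - 1).choose 7 : ℚ)) := by
    congr 1
  rw [h5, h1, h6]
  ring

/-! ### `W2`, `RR` -/

theorem P8.inf_ratFun {ℓ : Nat.Primes → ℕ} {G : Nat.Primes → ℕ → ℚ} (hG : Adm ℓ G)
    (hl : ∀ p : Nat.Primes, 17 ≤ (p : ℕ) → ℓ p ≤ (p : ℕ)) :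
    RatFun fun p => ∑ a : Fin 2 → ZMod p, ∑ b : Fin 3 → ZMod p, ∑ c : Fin 4 → ZMod p,
      (if a 1 = 0 ∧ b 2 = 0 ∧ c 3 = 0 then G p (Phi a b c) else 0) := by
  have hp : RatFun fun p => (((p : ℕ) : ℕ) : ℚ) := RatFun.self
  have k := RatFun.const
  have g : ∀ m : Nat.Primes → ℕ, RatFun (fun p => (m p : ℚ)) →
      RatFun fun p => G p ((p : ℕ) + m p) := fun m hm =>
    hG _ (rat_addN hp hm) fun p h => le_trans (hl p h) (Nat.le_add_right _ _)
  have hp1 : RatFun fun p => (((p : ℕ) - 1 : ℕ) : ℚ) := hp.natSub rat_one fun p h => by omega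
  refine ((((((hp.pow 3).mul (g _ hp)).mul (hp.sub (k 1))).add
    ((g _ (rat_mulN hp hp)).add (RatFun.sum (range 3)
      (F := fun j p => nd (fun j => G p ((p : ℕ) + (p : ℕ) * j)) j * (((p : ℕ).choose j : ℚ) *
        ((((p : ℕ) : ℚ)) ^ (3 - j) - 1))) fun j hj => ?_))).add
    ((hp.sub (k 1)).mul (hp.mul ((hp.pow 2).mul ((g _ (rat_addN hp1 hp)).add
      ((hp.sub (k 1)).mul (g _ hp1))))))).add
    ((hp.sub (k 1)).mul ((hp.pow 2).mul (quad_ratFun hG (fun p => (p : ℕ)) hp hl)))).congr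
    fun p hp17 => ?_
  · refine (nd_ratFun (h := fun p j => G p ((p : ℕ) + (p : ℕ) * j)) (n := 3) (fun i _ => ?_)
      (Finset.mem_range.1 hj)).mul ((hp.choose j).mul ((hp.pow _).sub (k 1)))
    exact g _ (rat_mulN hp (rat_nat i))
  · have := sum_inf (K := ZMod p) (zmod_two_ne p hp17) (by rw [ZMod.card]; omega) (G p)
    simp only [ZMod.card] at this
    rw [this]
    simp only [add_comm _ (p : ℕ)]

/-- P8c -/
theorem W2_ratFun : RatFun fun p => (W2 (ZMod p) : ℚ) := by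
  refine (inf_ratFun (adm_choose_sub 2 7) fun p h => by omega).congr fun p _ => ?_
  rw [W2]
  push_cast
  rfl

theorem RR_ratFun : RatFun fun p => (RR (ZMod p) : ℚ) := by
  refine (inf_ratFun (adm_choose_sub 3 6) fun p h => by omega).congr fun p _ => ?_
  rw [RR]
  push_cast
  rfl

/-! ### `UU` -/

theorem P8.c0_ratFun {G : Nat.Primes → ℕ → ℚ} (hG : Adm (fun p => (p : ℕ) + 1) G) :
    RatFun fun p => ∑ a : Fin 2 → ZMod p, ∑ b : Fin 3 → ZMod p, G p (Phi a b 0) := by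
  have hp : RatFun fun p => (((p : ℕ) : ℕ) : ℚ) := RatFun.self
  have k := RatFun.const
  have hp1 : RatFun fun p => (((p : ℕ) + 1 : ℕ) : ℚ) := rat_addN hp rat_one
  have h2p : RatFun fun p => ((2 * (p : ℕ) : ℕ) : ℚ) := rat_mulN (rat_nat 2) hp
  have h2p1 : RatFun fun p => ((2 * (p : ℕ) - 1 : ℕ) : ℚ) :=
    h2p.natSub rat_one fun p h => by omega
  have h1p : RatFun fun p => ((1 + (p : ℕ) : ℕ) : ℚ) := rat_addN rat_one hp
  have g1 : RatFun fun p => G p ((p : ℕ) * ((p : ℕ) + 1)) :=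
    hG _ (rat_mulN hp hp1) fun p h => by
      show (p : ℕ) + 1 ≤ _
      nlinarith
  have g2 : RatFun fun p => G p (1 + (p : ℕ)) :=
    hG _ h1p fun p h => by show (p : ℕ) + 1 ≤ _; omega
  have g3 : RatFun fun p => G p ((p : ℕ) + (2 * (p : ℕ) - 1)) :=
    hG _ (rat_addN hp h2p1) fun p h => by show (p : ℕ) + 1 ≤ _; omega
  have g4 : RatFun fun p => G p (1 + (2 * (p : ℕ) - 1)) :=
    hG _ (rat_addN rat_one h2p1) fun p h => by show (p : ℕ) + 1 ≤ _; omega
  have g5 : RatFun fun p => G p ((p : ℕ) + 2 * (p : ℕ)) :=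
    hG _ (rat_addN hp h2p) fun p h => by show (p : ℕ) + 1 ≤ _; omega
  have g6 : RatFun fun p => G p (1 + 2 * (p : ℕ)) :=
    hG _ (rat_addN rat_one h2p) fun p h => by show (p : ℕ) + 1 ≤ _; omega
  have g7 : RatFun fun p => G p ((p : ℕ) + (p : ℕ)) :=
    hG _ (rat_addN hp hp) fun p h => by show (p : ℕ) + 1 ≤ _; omega
  refine ((g1.add (RatFun.sum (range 3)
      (F := fun k p => nd (fun r => G p ((p : ℕ) + 1 - r + (p : ℕ) * r)) k *
        ((((p : ℕ) + 1).choose k : ℚ) * ((((p : ℕ) : ℚ)) ^ (3 - k) - 1))) fun j hj => ?_)).add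
    (((hp.pow 2).sub (k 1)).mul
      ((g2.add (RatFun.sum (range 3)
        (F := fun k p => nd (fun j => G p (1 + (2 * (p : ℕ) - j))) k *
          (((p : ℕ).choose k : ℚ) * ((((p : ℕ) : ℚ)) ^ (3 - k) - 1))) fun j hj => ?_)).add
        ((hp.mul ((hp.sub (k 1)).mul (g3.sub g4))).add
          (((hp.sub (k 1)).mul (g5.sub g6)).add (g7.sub g2)))))).congr fun p hp17 => ?_
  · refine (nd_ratFun (h := fun p r => G p ((p : ℕ) + 1 - r + (p : ℕ) * r)) (n := 3)
      (fun i hi => ?_)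
      (Finset.mem_range.1 hj)).mul ((hp1.choose j).mul ((hp.pow _).sub (k 1)))
    refine hG _ (rat_addN (hp1.natSub (n := fun _ => i) (rat_nat i) fun p h => by omega)
      (rat_mulN hp (rat_nat i))) fun p h => ?_
    show (p : ℕ) + 1 ≤ (p : ℕ) + 1 - i + (p : ℕ) * i
    have : i ≤ (p : ℕ) * i := Nat.le_mul_of_pos_left i (by omega)
    omega
  · refine (nd_ratFun (h := fun p j => G p (1 + (2 * (p : ℕ) - j))) (n := 3)
      (fun i hi => ?_)
      (Finset.mem_range.1 hj)).mul ((hp.choose j).mul ((hp.pow _).sub (k 1)))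
    refine hG _ (rat_addN rat_one (h2p.natSub (n := fun _ => i) (rat_nat i)
      fun p h => by omega)) fun p h => ?_
    show (p : ℕ) + 1 ≤ 1 + (2 * (p : ℕ) - i)
    omega
  · have := sum_c0 (K := ZMod p) (zmod_two_ne p hp17) (by rw [ZMod.card]; omega) (G p)
    simp only [ZMod.card] at this
    exact this

/-- P8d -/
theorem UU_ratFun : RatFun fun p => UU (ZMod p) := by
  have hp : RatFun fun p => (((p : ℕ) : ℕ) : ℚ) := RatFun.self
  have hp1 : RatFun fun p => (((p : ℕ) + 1 : ℕ) : ℚ) := rat_addN hp rat_one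
  have hG : Adm (fun p => (p : ℕ) + 1) fun p n => ((n - ((p : ℕ) + 1)).choose 9 : ℚ) -
      ∑ j ∈ range 4, (-1) ^ j * (((p : ℕ) + 1).choose j : ℚ) *
        ((n - j).choose (9 - j) : ℚ) := by
    intro m hm hl
    refine ((hm.natSub hp1 hl).choose 9).sub (RatFun.sum _ fun j hj => ?_)
    rw [Finset.mem_range] at hj
    refine ((RatFun.const _).mul (hp1.choose j)).mul ((hm.natSub (n := fun _ => j)
      (rat_nat j) fun p h => ?_).choose _)
    have := hl p h
    simp only [] at this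
    omega
  refine (c0_ratFun hG).congr fun p _ => ?_
  rw [UU]
  simp only [ZMod.card]

end Pool.Agent.E07280
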