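/-
Package P9 of the disproof of MP_e07280_nt: `SDep_eq`.
-/
import Pool.Agent.E07280.Defs

open Finset

namespace Pool.Agent.E07280

namespace P9

variable {K : Type} [Field K] [Fintype K] [DecidableEq K]

/-- number of square roots -/
def nsq (s : K) : ℕ := #{t : K | t ^ 2 = s}

theorem nsq_zero : nsq (0 : K) = 1 := by
  unfold nsq
  rw [Finset.card_eq_one]
  refine ⟨0, ?_⟩
  ext t
  simp

theorem nsq_sq (h2 : (2 : K) ≠ 0) (t : K) (ht : t ≠ 0) : nsq (t ^ 2) = 2 := by
  unfold nsq
  rw [Finset.card_eq_two]
  refine ⟨t, -t, ?_, ?_⟩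
  · intro h
    have h3 : 2 * t = 0 := by linear_combination h
    rcases mul_eq_zero.mp h3 with h4 | h4
    · exact h2 h4
    · exact ht h4
  · ext x
    simp only [mem_filter, mem_univ, true_and, mem_insert, mem_singleton]
    exact sq_eq_sq_iff_eq_or_eq_neg

theorem nsq_cases (h2 : (2 : K) ≠ 0) (s : K) (hs : s ≠ 0) : nsq s = 0 ∨ nsq s = 2 := by
  rcases Nat.eq_zero_or_pos (nsq s) with h | h
  · exact Or.inl h
  · right
    obtain ⟨t, ht⟩ := Finset.card_pos.mp h
    simp only [mem_filter, mem_univ, true_and] at ht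
    rw [← ht]
    refine nsq_sq h2 t ?_
    rintro rfl
    apply hs
    rw [← ht]; ring

theorem sum_nsq : ∑ s : K, nsq s = Fintype.card K := by
  unfold nsq
  rw [← Finset.card_univ]
  exact (Finset.card_eq_sum_card_fiberwise (f := fun t : K => t ^ 2) (s := univ) (t := univ)
    (fun _ _ => Finset.mem_univ _)).symm

theorem sum_comp_nsq (h2 : (2 : K) ≠ 0) (F : ℕ → ℚ) :
    ∑ s : K, F (nsq s) = F 1 + ((Fintype.card K - 1) / 2 : ℕ) * (F 2 + F 0) := by
  classical
  set A := (univ.erase (0 : K)).filter fun s => nsq s = 2 with hA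
  set B := (univ.erase (0 : K)).filter fun s => ¬ (nsq s = 2) with hB
  have hAB : #A + #B = Fintype.card K - 1 := by
    rw [hA, hB, Finset.card_filter_add_card_filter_not, Finset.card_erase_of_mem (mem_univ _),
      Finset.card_univ]
  have hsplit : ∀ G : ℕ → ℚ, ∑ s : K, G (nsq s) = G 1 + (#A * G 2 + #B * G 0) := by
    intro G
    rw [← Finset.add_sum_erase univ _ (mem_univ (0 : K)), nsq_zero,
      ← Finset.sum_filter_add_sum_filter_not (univ.erase (0 : K)) (fun s => nsq s = 2)]
    congr 1
    congr 1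
    · rw [← hA, Finset.sum_congr rfl (g := fun _ => G 2), Finset.sum_const, nsmul_eq_mul]
      intro s hs
      rw [(mem_filter.mp hs).2]
    · rw [← hB, Finset.sum_congr rfl (g := fun _ => G 0), Finset.sum_const, nsmul_eq_mul]
      intro s hs
      obtain ⟨h3, h4⟩ := mem_filter.mp hs
      rcases nsq_cases h2 s (Finset.mem_erase.mp h3).1 with h5 | h5
      · rw [h5]
      · exact absurd h5 h4
  have h3 : (Fintype.card K : ℚ) = 1 + (#A * 2 + #B * 0) := by
    have := hsplit fun n => (n : ℚ)
    rw [← Nat.cast_sum, sum_nsq] at this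
    rw [this]; norm_num
  have h4 : Fintype.card K = 1 + #A * 2 := by
    have : (Fintype.card K : ℚ) = ((1 + #A * 2 : ℕ) : ℚ) := by rw [h3]; push_cast; ring
    exact_mod_cast this
  have h5 : (Fintype.card K - 1) / 2 = #A := by omega
  have h6 : #B = #A := by omega
  rw [hsplit F, h5, h6]
  ring

theorem cnt_shift (D : K → K) (s : K) : cnt (fun t => D (t + s)) = cnt D := by
  unfold cnt
  refine Finset.card_bij' (fun P _ => (P.1 + s, P.2)) (fun P _ => (P.1 - s, P.2)) ?_ ?_ ?_ ?_
  · intro P hP
    simp only [mem_filter, mem_univ, true_and] at hP ⊢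
    exact hP
  · intro P hP
    simp only [mem_filter, mem_univ, true_and] at hP ⊢
    rw [hP]; congr 1; ring
  · intro P _; simp
  · intro P _; simp

/-- the resolvent cubic -/
def res (a b c : K) (u : K) : K := u ^ 3 + a * u ^ 2 - 4 * c * u + (b ^ 2 - 4 * a * c)

theorem cnt_quartic (h2 : (2 : K) ≠ 0) (a b c : K) :
    cnt (fun t => t ^ 4 + a * t ^ 2 + b * t + c) + 1 =
      cnt (res a b c) + if b = 0 ∧ a ^ 2 = 4 * c then Fintype.card K else 0 := by
  classical
  -- the set of `(t, z)`
  set E : Finset (K × K) := univ.filter fun P =>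
    (2 * P.2 - a) * P.1 ^ 2 - b * P.1 + (P.2 ^ 2 - c) = 0 with hE
  have h1 : cnt (fun t => t ^ 4 + a * t ^ 2 + b * t + c) = #E := by
    unfold cnt
    refine Finset.card_bij' (fun P _ => (P.1, P.2 - P.1 ^ 2)) (fun P _ => (P.1, P.2 + P.1 ^ 2))
      ?_ ?_ ?_ ?_
    · intro P hP
      simp only [hE, mem_filter, mem_univ, true_and] at hP ⊢
      linear_combination hP
    · intro P hP
      simp only [hE, mem_filter, mem_univ, true_and] at hP ⊢
      linear_combination hP
    · intro P _; simp
    · intro P _; simp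
  set F : Finset (K × K) := univ.filter fun P => P.2 ^ 2 = res a b c P.1 with hF
  have h3 : cnt (res a b c) = #F := rfl
  have hE2 : #(E.filter fun P => 2 * P.2 = a) + #(E.filter fun P => ¬ (2 * P.2 = a)) = #E :=
    Finset.card_filter_add_card_filter_not _
  have hF2 : #(F.filter fun P => P.1 = -a) + #(F.filter fun P => ¬ (P.1 = -a)) = #F :=
    Finset.card_filter_add_card_filter_not _
  have h4 : #(E.filter fun P => ¬ (2 * P.2 = a)) = #(F.filter fun P => ¬ (P.1 = -a)) := by
    refine Finset.card_bij' (fun P _ => (-(2 * P.2), 2 * (2 * P.2 - a) * P.1 - b))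
      (fun P _ => ((P.2 + b) / (2 * (-P.1 - a)), -P.1 / 2)) ?_ ?_ ?_ ?_
    · intro P hP
      simp only [hE, hF, mem_filter, mem_univ, true_and] at hP ⊢
      simp only [res] at hP ⊢
      obtain ⟨h5, h6⟩ := hP
      refine ⟨?_, fun h7 => h6 (by linear_combination -h7)⟩
      linear_combination 4 * (2 * P.2 - a) * h5
    · intro P hP
      simp only [hE, hF, mem_filter, mem_univ, true_and] at hP ⊢
      simp only [res] at hP ⊢
      obtain ⟨h5, h6⟩ := hP
      have h7 : -P.1 - a ≠ 0 := fun h => h6 (by linear_combination -h)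
      refine ⟨?_, fun h8 => h7 (by rw [← h8]; field_simp; ring)⟩
      have h9 : 2 * (-P.1 / 2) - a = -P.1 - a := by field_simp
      rw [h9]
      have h10 : (-P.1 - a) * ((P.2 + b) / (2 * (-P.1 - a))) ^ 2 -
          b * ((P.2 + b) / (2 * (-P.1 - a))) + ((-P.1 / 2) ^ 2 - c) =
          (P.2 ^ 2 - (P.1 ^ 3 + a * P.1 ^ 2 - 4 * c * P.1 + (b ^ 2 - 4 * a * c))) /
            (4 * (-P.1 - a)) := by
        have h11 : (4 : K) ≠ 0 := by
          have : (4 : K) = 2 * 2 := by norm_num
          rw [this]; exact mul_ne_zero h2 h2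
        field_simp
        ring
      rw [h10, h5]
      simp
    · intro P hP
      simp only [hE, mem_filter, mem_univ, true_and] at hP
      obtain ⟨h5, h6⟩ := hP
      have h7 : 2 * P.2 - a ≠ 0 := fun h => h6 (by linear_combination h)
      refine Prod.ext ?_ ?_
      · simp only [neg_neg]
        have h8 : 2 * (2 * P.2 - a) ≠ 0 := mul_ne_zero h2 h7
        rw [div_eq_iff h8]; ring
      · simp only [neg_neg]
        field_simp
    · intro P hP
      simp only [hF, mem_filter, mem_univ, true_and] at hP
      obtain ⟨h5, h6⟩ := hP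
      have h7 : -P.1 - a ≠ 0 := fun h => h6 (by linear_combination -h)
      refine Prod.ext ?_ ?_
      · simp only []
        field_simp
      · simp only []
        have h9 : 2 * (-P.1 / 2) - a = -P.1 - a := by field_simp
        rw [h9]
        field_simp
        ring
  have h5 : #(F.filter fun P => P.1 = -a) = if b = 0 then 1 else 2 := by
    have h6 : #(F.filter fun P => P.1 = -a) = nsq (b ^ 2) := by
      unfold nsq
      refine Finset.card_bij' (fun P _ => P.2) (fun t _ => (-a, t)) ?_ ?_ ?_ ?_
      · intro P hP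
        simp only [hF, mem_filter, mem_univ, true_and] at hP ⊢
        simp only [res] at hP ⊢
        rw [hP.1, hP.2]; ring
      · intro t ht
        simp only [hF, mem_filter, mem_univ, true_and] at ht ⊢
        simp only [res] at ht ⊢
        exact ⟨by rw [ht]; ring, trivial⟩
      · intro P hP
        simp only [mem_filter] at hP
        exact Prod.ext hP.2.symm rfl
      · intro t _; rfl
    rw [h6]
    split_ifs with hb
    · rw [hb]
      have : (0 : K) ^ 2 = 0 := by norm_num
      rw [this, nsq_zero]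
    · exact nsq_sq h2 b hb
  have h6 : #(E.filter fun P => 2 * P.2 = a) =
      if b = 0 then (if a ^ 2 = 4 * c then Fintype.card K else 0) else 1 := by
    have hz : ∀ z : K, 2 * z = a ↔ z = a / 2 := by
      intro z
      rw [eq_div_iff h2, mul_comm]
    split_ifs with hb hac
    · have : (E.filter fun P => 2 * P.2 = a) = univ ×ˢ ({a / 2} : Finset K) := by
        ext P
        simp only [hE, mem_filter, mem_univ, true_and, mem_product, mem_singleton, hz]
        constructor
        · exact fun h => h.2
        · intro h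
          refine ⟨?_, h⟩
          rw [h, hb]
          have h7 : (2 * (a / 2) - a) = 0 := by field_simp; ring
          rw [h7]
          have h8 : (a / 2) ^ 2 = c := by
            rw [div_pow, hac]
            field_simp
            ring
          rw [h8]; ring
      rw [this, card_product, card_singleton, mul_one, card_univ]
    · rw [Finset.card_eq_zero, Finset.filter_eq_empty_iff]
      intro P hP h7
      apply hac
      simp only [hE, mem_filter, mem_univ, true_and] at hP
      rw [hb, h7] at hP
      rw [← h7]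
      linear_combination 4 * hP
    · rw [Finset.card_eq_one]
      refine ⟨(((a / 2) ^ 2 - c) / b, a / 2), ?_⟩
      ext P
      simp only [hE, mem_filter, mem_univ, true_and, mem_singleton, hz]
      constructor
      · rintro ⟨h7, h8⟩
        refine Prod.ext ?_ h8
        rw [h8] at h7
        simp only []
        rw [eq_div_iff hb]
        have h9 : (2 * (a / 2) - a) = 0 := by field_simp; ring
        rw [h9] at h7
        linear_combination -h7
      · intro h7
        rw [h7]
        refine ⟨?_, rfl⟩
        have h9 : (2 * (a / 2) - a) = 0 := by field_simp; ring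
        simp only [h9]
        field_simp
        ring
  rw [h1, h3, ← hE2, ← hF2, h4, h5, h6]
  by_cases hb : b = 0
  · by_cases hac : a ^ 2 = 4 * c
    · simp only [hb, hac, and_self, if_true]; ring
    · simp only [hb, hac, and_false, if_true, if_false]; ring
  · simp only [hb, false_and, if_false]; ring

/-- the depressed cubic through the marked point `(x₀, y₀)` -/
def wei (A x0 y0 : K) : K → K := fun t => t ^ 3 + A * t + (y0 ^ 2 - x0 ^ 3 - A * x0)

theorem cnt_res (h3 : (3 : K) ≠ 0) (a b c : K) :
    cnt (res a b c) = cnt (wei (-4 * c - a ^ 2 / 3) (-2 * a / 3) b) := by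
  rw [← cnt_shift (res a b c) (-a / 3)]
  congr 1
  funext t
  simp only [res, wei]
  field_simp
  ring

theorem cnt_deg (h2 : (2 : K) ≠ 0) (a c : K) (hac : a ^ 2 = 4 * c) :
    cnt (fun t => t ^ 4 + a * t ^ 2 + 0 * t + c) + nsq (-a / 2) = 2 * Fintype.card K := by
  classical
  have h4 : (4 : K) ≠ 0 := by
    have : (4 : K) = 2 * 2 := by norm_num
    rw [this]; exact mul_ne_zero h2 h2
  have hc : c = (a / 2) ^ 2 := by
    rw [div_pow, hac]
    field_simp
    ring
  set S1 : Finset (K × K) := univ.image fun t : K => (t, t ^ 2 + a / 2) with hS1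
  set S2 : Finset (K × K) := univ.image fun t : K => (t, -(t ^ 2 + a / 2)) with hS2
  have hU : cnt (fun t => t ^ 4 + a * t ^ 2 + 0 * t + c) = #(S1 ∪ S2) := by
    unfold cnt
    congr 1
    ext P
    simp only [hS1, hS2, mem_filter, mem_univ, true_and, mem_union, mem_image]
    have h5 : P.1 ^ 4 + a * P.1 ^ 2 + 0 * P.1 + c = (P.1 ^ 2 + a / 2) ^ 2 := by
      rw [hc]; field_simp; ring
    rw [h5, sq_eq_sq_iff_eq_or_eq_neg]
    constructor
    · rintro (h | h)
      · left; exact ⟨P.1, by rw [← h]⟩
      · right; exact ⟨P.1, by rw [← h]⟩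
    · rintro (⟨t, rfl⟩ | ⟨t, rfl⟩)
      · left; rfl
      · right; rfl
  have hI : nsq (-a / 2) = #(S1 ∩ S2) := by
    unfold nsq
    refine Finset.card_bij' (fun t _ => (t, (0 : K))) (fun P _ => P.1) ?_ ?_ ?_ ?_
    · intro t ht
      simp only [mem_filter, mem_univ, true_and] at ht
      simp only [hS1, hS2, mem_inter, mem_image, mem_univ, true_and]
      refine ⟨⟨t, ?_⟩, ⟨t, ?_⟩⟩
      · rw [ht]; congr 1; field_simp; ring
      · rw [ht]; congr 1; field_simp; ring
    · intro P hP
      simp only [hS1, hS2, mem_inter, mem_image, mem_univ, true_and] at hP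
      obtain ⟨⟨t, rfl⟩, ⟨u, hu⟩⟩ := hP
      simp only [Prod.mk.injEq] at hu
      obtain ⟨rfl, hu⟩ := hu
      simp only [mem_filter, mem_univ, true_and]
      have h6 : 2 * (u ^ 2 + a / 2) = 0 := by linear_combination -hu
      rcases mul_eq_zero.mp h6 with h7 | h7
      · exact absurd h7 h2
      · linear_combination h7
    · intro t _; rfl
    · intro P hP
      simp only [hS1, hS2, mem_inter, mem_image, mem_univ, true_and] at hP
      obtain ⟨⟨t, rfl⟩, ⟨u, hu⟩⟩ := hP
      simp only [Prod.mk.injEq] at hu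
      obtain ⟨rfl, hu⟩ := hu
      have h6 : 2 * (u ^ 2 + a / 2) = 0 := by linear_combination -hu
      rcases mul_eq_zero.mp h6 with h7 | h7
      · exact absurd h7 h2
      · simp only [h7]
  rw [hU, hI, Finset.card_union_add_card_inter, hS1, hS2,
    Finset.card_image_of_injective _ (fun x y h => (Prod.mk.inj h).1),
    Finset.card_image_of_injective _ (fun x y h => (Prod.mk.inj h).1), Finset.card_univ]
  ring

/-- the change of parameters -/
def paramEquiv (h2 : (2 : K) ≠ 0) (h3 : (3 : K) ≠ 0) : K × K × K ≃ K × K × K where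
  toFun q := (-4 * q.2.2 - q.1 ^ 2 / 3, -2 * q.1 / 3, q.2.1)
  invFun r := (-3 * r.2.1 / 2, r.2.2, (-r.1 - (-3 * r.2.1 / 2) ^ 2 / 3) / 4)
  left_inv q := by
    obtain ⟨a, b, c⟩ := q
    have h4 : (4 : K) ≠ 0 := by
      have : (4 : K) = 2 * 2 := by norm_num
      rw [this]; exact mul_ne_zero h2 h2
    simp only [Prod.mk.injEq, true_and]
    constructor
    · field_simp
    · field_simp
      ring
  right_inv r := by
    obtain ⟨A, x, y⟩ := r
    have h4 : (4 : K) ≠ 0 := by
      have : (4 : K) = 2 * 2 := by norm_num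
      rw [this]; exact mul_ne_zero h2 h2
    simp only [Prod.mk.injEq, and_true]
    constructor
    · field_simp
      ring
    · field_simp

theorem sum_main (h2 : (2 : K) ≠ 0) (h3 : (3 : K) ≠ 0) (g : ℕ → ℚ) :
    ∑ a : K, ∑ b : K, ∑ c : K, g (cnt (res a b c) - 1) = SAB K (fun n => n * g (n - 1)) := by
  classical
  have e1 : ∑ a : K, ∑ b : K, ∑ c : K, g (cnt (res a b c) - 1) =
      ∑ q : K × K × K, g (cnt (res q.1 q.2.1 q.2.2) - 1) := by
    rw [Fintype.sum_prod_type]
    refine Finset.sum_congr rfl fun a _ => ?_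
    rw [Fintype.sum_prod_type]
  have e2 : ∑ q : K × K × K, g (cnt (res q.1 q.2.1 q.2.2) - 1) =
      ∑ r : K × K × K, g (cnt (wei r.1 r.2.1 r.2.2) - 1) := by
    refine Fintype.sum_equiv (paramEquiv h2 h3) _ _ ?_
    intro q
    rw [cnt_res h3]
    rfl
  rw [e1, e2, Fintype.sum_prod_type]
  unfold SAB
  refine Finset.sum_congr rfl fun A _ => ?_
  -- group the marked points according to `B`
  rw [← Finset.sum_fiberwise_of_maps_to (t := (univ : Finset K))
    (g := fun P : K × K => P.2 ^ 2 - P.1 ^ 3 - A * P.1) (fun _ _ => Finset.mem_univ _)]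
  refine Finset.sum_congr rfl fun B _ => ?_
  have h5 : ∀ P ∈ (univ : Finset (K × K)).filter (fun P => P.2 ^ 2 - P.1 ^ 3 - A * P.1 = B),
      g (cnt (wei A P.1 P.2) - 1) = g (cnt (fun t => t ^ 3 + A * t + B) - 1) := by
    intro P hP
    simp only [mem_filter, mem_univ, true_and] at hP
    unfold wei
    rw [hP]
  rw [Finset.sum_congr rfl h5, Finset.sum_const, nsmul_eq_mul]
  congr 1
  norm_cast
  unfold cnt
  congr 1
  ext P
  simp only [mem_filter, mem_univ, true_and]
  constructor
  · intro h; rw [← h]; ring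
  · intro h; rw [h]; ring

theorem SDep_general (h2 : (2 : K) ≠ 0) (h3 : (3 : K) ≠ 0) (g : ℕ → ℚ) :
    SDep K g = SAB K (fun n => n * g (n - 1)) +
      (g (2 * Fintype.card K - 1) - g (Fintype.card K - 1)) +
      ((Fintype.card K - 1) / 2 : ℕ) *
        ((g (2 * Fintype.card K) - g (Fintype.card K)) +
          (g (2 * Fintype.card K - 2) - g (Fintype.card K - 2))) := by
  classical
  set p := Fintype.card K with hp
  have h4 : (4 : K) ≠ 0 := by
    have : (4 : K) = 2 * 2 := by norm_num
    rw [this]; exact mul_ne_zero h2 h2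
  set F : ℕ → ℚ := fun n => g (2 * p - n) - g (p - n) with hF
  have hstep : ∀ a b c : K, g (cnt fun t => t ^ 4 + a * t ^ 2 + b * t + c) =
      g (cnt (res a b c) - 1) + if b = 0 then (if c = a ^ 2 / 4 then F (nsq (-a / 2)) else 0)
        else 0 := by
    intro a b c
    have hq := cnt_quartic h2 a b c
    have hc4 : c = a ^ 2 / 4 ↔ a ^ 2 = 4 * c := by
      rw [eq_div_iff h4]
      constructor
      · intro h; rw [← h]; ring
      · intro h; rw [h]; ring
    by_cases hb : b = 0
    · by_cases hac : a ^ 2 = 4 * c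
      · rw [if_pos hb, if_pos (hc4.mpr hac)]
        rw [if_pos ⟨hb, hac⟩, ← hp] at hq
        have hd := cnt_deg h2 a c hac
        rw [← hp] at hd
        subst hb
        have h6 : cnt (fun t => t ^ 4 + a * t ^ 2 + 0 * t + c) = 2 * p - nsq (-a / 2) := by omega
        have h7 : cnt (res a 0 c) - 1 = p - nsq (-a / 2) := by omega
        rw [h6, h7, hF]
        ring
      · rw [if_pos hb, if_neg (fun h => hac (hc4.mp h)), add_zero]
        rw [if_neg (fun h => hac h.2)] at hq
        congr 1
        omega
    · rw [if_neg hb, add_zero]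
      rw [if_neg (fun h => hb h.1)] at hq
      congr 1
      omega
  unfold SDep
  simp only [hstep, Finset.sum_add_distrib]
  rw [sum_main h2 h3 g, add_assoc]
  congr 1
  have h8 : ∀ a : K, (∑ b : K, ∑ c : K, if b = 0 then
      (if c = a ^ 2 / 4 then F (nsq (-a / 2)) else 0) else 0) = F (nsq (-a / 2)) := by
    intro a
    rw [Finset.sum_eq_single 0]
    · simp
    · intro b _ hb
      simp [hb]
    · intro h; exact absurd (mem_univ _) h
  rw [Finset.sum_congr rfl fun a _ => h8 a]
  have h9 : ∑ a : K, F (nsq (-a / 2)) = ∑ s : K, F (nsq s) := by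
    let e : K ≃ K :=
      { toFun := fun a => -a / 2
        invFun := fun s => -2 * s
        left_inv := fun a => by field_simp
        right_inv := fun s => by field_simp }
    exact Fintype.sum_equiv e _ _ fun a => rfl
  rw [h9, sum_comp_nsq h2 F, hF]
  simp only [Nat.sub_zero]
  ring

end P9

/-- P9 -/
theorem SDep_eq (p : ℕ) [Fact p.Prime] (hp : 5 ≤ p) (g : ℕ → ℚ) :
    SDep (ZMod p) g = SAB (ZMod p) (fun n => n * g (n - 1)) +
      (g (2 * p - 1) - g (p - 1)) +
      ((p - 1) / 2 : ℕ) * ((g (2 * p) - g p) + (g (2 * p - 2) - g (p - 2))) := by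
  have h2 : (2 : ZMod p) ≠ 0 := by
    intro h
    have h' : ((2 : ℕ) : ZMod p) = 0 := by exact_mod_cast h
    rw [ZMod.natCast_eq_zero_iff] at h'
    have := Nat.le_of_dvd (by norm_num) h'
    omega
  have h3 : (3 : ZMod p) ≠ 0 := by
    intro h
    have h' : ((3 : ℕ) : ZMod p) = 0 := by exact_mod_cast h
    rw [ZMod.natCast_eq_zero_iff] at h'
    have := Nat.le_of_dvd (by norm_num) h'
    omega
  have h := P9.SDep_general h2 h3 g
  rw [ZMod.card] at h
  exact h

end Pool.Agent.E07280
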