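/-
Final assembly of the disproof of polynomiality of the unital subring counts of `ℤ^n`.
-/
import Pool.Agent.E07280.P1
import Pool.Agent.E07280.P2c
import Pool.Agent.E07280.P3
import Pool.Agent.E07280.P4
import Pool.Agent.E07280.P5h
import Pool.Agent.E07280.P7
import Pool.Agent.E07280.P8
import Pool.Agent.E07280.P9
import Pool.Agent.E07280.P10

open Finset Polynomial

namespace Pool.Agent.E07280

theorem SAB_add {K : Type} [Field K] [Fintype K] [DecidableEq K] (g h : ℕ → ℚ) :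
    SAB K (fun n => g n + h n) = SAB K g + SAB K h := by
  simp only [SAB, Finset.sum_add_distrib]

theorem SAB_mul {K : Type} [Field K] [Fintype K] [DecidableEq K] (r : ℚ) (g : ℕ → ℚ) :
    SAB K (fun n => r * g n) = r * SAB K g := by
  simp only [SAB, Finset.mul_sum]

theorem mul_choose9 (n : ℕ) : (n : ℚ) * ((n - 1 + 1).choose 9 : ℚ) + (n.choose 9 : ℚ) =
    10 * ((n + 1).choose 10 : ℚ) := by
  rcases Nat.eq_zero_or_pos n with rfl | hn
  · simp [Nat.choose]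
  · rw [Nat.sub_add_cancel hn]
    have := Nat.add_one_mul_choose_eq n 9
    have h2 : ((n : ℚ) + 1) * (n.choose 9 : ℚ) = ((n + 1).choose 10 : ℚ) * 10 := by
      exact_mod_cast this
    linarith

theorem mul_mul_choose7 (n : ℕ) : (n : ℚ) * (((n - 1 : ℕ) : ℚ) * ((n - 1 - 1).choose 7 : ℚ)) =
    72 * (n.choose 9 : ℚ) := by
  rcases n with _ | _ | n
  · simp
  · simp [Nat.choose]
  · have h1 := Nat.add_one_mul_choose_eq n 7
    have h2 := Nat.add_one_mul_choose_eq (n + 1) 8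
    have h1' : ((n : ℚ) + 1) * (n.choose 7 : ℚ) = ((n + 1).choose 8 : ℚ) * 8 := by
      exact_mod_cast h1
    have h2' : ((n : ℚ) + 1 + 1) * ((n + 1).choose 8 : ℚ) = ((n + 2).choose 9 : ℚ) * 9 := by
      exact_mod_cast h2
    have e1 : n + 1 + 1 - 1 = n + 1 := by omega
    have e2 : n + 1 - 1 = n := by omega
    rw [e1, e2]
    push_cast
    linear_combination ((n : ℚ) + 1 + 1) * h1' + 8 * h2'

/-- explicit correction terms -/
theorem corr_ratFun (g : ℕ → ℚ) (hg : ∀ m : Nat.Primes → ℕ, RatFun (fun p => (m p : ℚ)) →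
    RatFun fun p => g (m p)) : RatFun fun p => (g (2 * p - 1) - g (p - 1)) +
      ((((p : ℕ) - 1) / 2 : ℕ) : ℚ) * ((g (2 * p) - g p) + (g (2 * p - 2) - g (p - 2))) := by
  have h1 : RatFun fun p => ((2 * (p : ℕ) : ℕ) : ℚ) :=
    ((RatFun.const 2).mul RatFun.self).congr fun p _ => by push_cast; ring
  have hp : RatFun fun p => (((p : ℕ) : ℕ) : ℚ) := RatFun.self
  have hc : ∀ k : ℕ, RatFun fun _ => ((k : ℕ) : ℚ) := fun k => RatFun.const k
  exact ((hg _ (h1.natSub (n := fun _ => 1) (hc 1) fun p h => by omega)).sub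
    (hg _ (hp.natSub (n := fun _ => 1) (hc 1) fun p h => by omega))).add
    (RatFun.half.mul (((hg _ h1).sub (hg _ hp)).add
      ((hg _ (h1.natSub (n := fun _ => 2) (hc 2) fun p h => by omega)).sub
      (hg _ (hp.natSub (n := fun _ => 2) (hc 2) fun p h => by omega)))))

theorem X10_YY : RatFun fun p => (X10 (ZMod p) : ℚ) -
    (((p : ℕ) : ℚ) ^ 2 - 1) * ((p : ℕ) : ℚ) ^ 3 * (((p : ℕ) : ℚ) - 1) * YY p := by
  have hc1 := corr_ratFun (fun n => ((n + 1).choose 9 : ℚ)) (fun m hm => by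
    have : RatFun fun p => ((m p + 1 : ℕ) : ℚ) :=
      (hm.add (RatFun.const 1)).congr fun p _ => by push_cast; ring
    exact this.choose 9)
  have hc2 := corr_ratFun (fun n => (n * (n - 1).choose 7 : ℚ)) (fun m hm => by
    -- `n * choose (n-1) 7 = 8 * choose n 8`
    refine ((RatFun.const 8).mul (hm.choose 8)).congr fun p _ => ?_
    rcases Nat.eq_zero_or_pos (m p) with h | h
    · simp [h]
    · obtain ⟨k, hk⟩ : ∃ k, m p = k + 1 := ⟨m p - 1, by omega⟩
      simp only [hk, Nat.add_sub_cancel]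
      have := Nat.add_one_mul_choose_eq k 7
      have h2 : ((k : ℚ) + 1) * (k.choose 7 : ℚ) = ((k + 1).choose 8 : ℚ) * 8 := by
        exact_mod_cast this
      push_cast
      linarith)
  have hp : RatFun fun p => ((p : ℕ) : ℚ) := RatFun.self
  have hch : RatFun fun p => (((p : ℕ).choose 2 : ℕ) : ℚ) := hp.choose 2
  have k := RatFun.const
  -- the explicit remainder
  have hrest := ((((hp.pow 2).sub ((k 9).mul hp)).add (k 36)).mul
      (T0_ratFun.add ((((hp.pow 2).sub (k 1)).mul (hp.pow 3)).mul ((hp.sub (k 1)).mul hc1)))).sub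
    (((k (10 / 3)).mul (hp.add (k 1))).mul ((W1_ratFun.add
      (((((hp.sub (k 1)).pow 2).mul (k (1 / 2))).mul (hp.pow 3)).mul hc2)).add (hch.mul W2_ratFun)))
  have hrest2 := (hrest.add ((((k (1 / 3)).mul (hp.add (k 1))).mul hch).mul
    ((hp.sub (k 2)).mul RR_ratFun))).add ((hp.pow 2).mul UU_ratFun)
  refine ((k (1 / 10)).mul hrest2).congr fun p hp17 => ?_
  have h5 : 5 ≤ (p : ℕ) := by omega
  have e1 := SDep_eq p h5 (fun n => ((n + 1).choose 9 : ℚ))
  have e2 := SDep_eq p h5 (fun n => (n * (n - 1).choose 7 : ℚ))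
  have e3 : SAB (ZMod p) (fun n => (n : ℚ) * ((n - 1 + 1).choose 9 : ℚ)) +
      SAB (ZMod p) (fun n => (n.choose 9 : ℚ)) =
      10 * SAB (ZMod p) (fun n => ((n + 1).choose 10 : ℚ)) := by
    rw [← SAB_add, ← SAB_mul]
    simp only [mul_choose9]
  have e4 : SAB (ZMod p) (fun n => (n : ℚ) * (((n - 1 : ℕ) : ℚ) * ((n - 1 - 1).choose 7 : ℚ))) =
      72 * SAB (ZMod p) (fun n => (n.choose 9 : ℚ)) := by
    rw [← SAB_mul]
    simp only [mul_mul_choose7]
  have e5 : YY p = (((p : ℕ) : ℚ) ^ 2 - 9 * (p : ℕ) + 36) *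
      SAB (ZMod p) (fun n => ((n + 1).choose 10 : ℚ)) -
      12 * SAB (ZMod p) (fun n => (n.choose 9 : ℚ)) := by
    rw [YY]
    have : (fun n : ℕ => (((p : ℕ) : ℚ) ^ 2 - 9 * (p : ℕ) + 36) * ((n + 1).choose 10 : ℚ) -
        12 * (n.choose 9 : ℚ)) = fun n : ℕ => (((p : ℕ) : ℚ) ^ 2 - 9 * (p : ℕ) + 36) *
          ((n + 1).choose 10 : ℚ) + (-12) * (n.choose 9 : ℚ) := by
      funext n; ring
    rw [this, SAB_add, SAB_mul, SAB_mul]
    ring
  have e6 := X9_eq p h5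
  have e7 : (10 : ℚ) * X10 (ZMod p) = ((p : ℕ) : ℚ) ^ 2 * X9 (ZMod p) := by
    exact_mod_cast X10_X9 p h5
  beta_reduce at e1 e2
  rw [e4] at e2
  rw [e5]
  have e8 : (X10 (ZMod p) : ℚ) = 1 / 10 * (((p : ℕ) : ℚ) ^ 2 * X9 (ZMod p)) := by
    rw [← e7]; ring
  rw [e8, e6, e1, e2]
  generalize SAB (ZMod p) (fun n => ((n + 1).choose 10 : ℚ)) = S10 at *
  generalize SAB (ZMod p) (fun n => (n.choose 9 : ℚ)) = S9 at *
  generalize SAB (ZMod p) (fun n => (n : ℚ) * ((n - 1 + 1).choose 9 : ℚ)) = S' at *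
  generalize (T0 (ZMod p) : ℚ) = T at *
  generalize (W1 (ZMod p) : ℚ) = w at *
  have e3' : S' = 10 * S10 - S9 := by linarith
  rw [e3']
  ring

theorem disproof : ∃ n, 5 ≤ n ∧ ∃ e, 1 ≤ e ∧ ¬ ∃ P : ℚ[X], ∀ p : ℕ, p.Prime →
    (subringCount n (p ^ e) : ℚ) = P.eval (p : ℚ) := by
  by_contra hcon
  have H : ∀ n, 5 ≤ n → ∀ e, 1 ≤ e → ∃ P : ℚ[X], ∀ p : ℕ, p.Prime →
      (subringCount n (p ^ e) : ℚ) = P.eval (p : ℚ) := by
    intro n hn e he
    by_contra h
    exact hcon ⟨n, hn, e, he, h⟩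
  have h9 : RatFun fun p => (kappa9 p : ℚ) :=
    kappa9_ratFun fun κ => bCount_ratFun (fun N c => gCount_ratFun H N c) 9 11 κ (by omega)
  have hp : RatFun fun p => ((p : ℕ) : ℚ) := RatFun.self
  have h10 : RatFun fun p => (kappa10 p : ℚ) :=
    ((hp.pow 2).mul h9).congr fun p _ => by rw [kappa10_eq]; push_cast; ring
  have hpp : RatFun fun p => (((p : ℕ) ^ 2 : ℕ) : ℚ) := (hp.pow 2).congr fun p _ => by push_cast; ring
  have hX : RatFun fun p => (X10 (ZMod p) : ℚ) :=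
    (((hp.mul (hpp.choose 10)).add (((RatFun.const 1).sub hp).mul
      (h10.mul (RatFun.const (1 / (Nat.factorial 10 : ℚ)))))).add Exc_ratFun).congr
      fun p _ => by rw [X10_eq]; ring
  refine YY_not_ratFun ?_
  have hden : ∀ p : Nat.Primes, 17 ≤ (p : ℕ) →
      (((p : ℕ) : ℚ) ^ 2 - 1) * ((p : ℕ) : ℚ) ^ 3 * (((p : ℕ) : ℚ) - 1) ≠ 0 := by
    intro p h
    have h' : (17 : ℚ) ≤ ((p : ℕ) : ℚ) := by exact_mod_cast h
    have h1 : (0 : ℚ) < ((p : ℕ) : ℚ) ^ 2 - 1 := by nlinarith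
    have h2 : (0 : ℚ) < ((p : ℕ) : ℚ) := by linarith
    have h3 : (0 : ℚ) < ((p : ℕ) : ℚ) - 1 := by linarith
    positivity
  refine ((hX.sub X10_YY).div (((hp.pow 2).sub (RatFun.const 1)).mul (hp.pow 3) |>.mul
    (hp.sub (RatFun.const 1))) hden).congr fun p h => ?_
  rw [eq_div_iff (hden p h)]
  ring

end Pool.Agent.E07280
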